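import Pool.Agent.Lib.MP_5d4057_al.Stmt

namespace Pool.Agent.Lib.MP_5d4057_al.Hyb

open Matrix Pool.Agent.Lib.MP_5d4057_al ComplexOrder

/-- The block diagonal matrix `t ⊕ A`, with `t` in the upper left corner. -/
def dsum {R : Type} [Zero R] {n : ℕ} (t : R) (A : Matrix (Fin n) (Fin n) R) :
    Matrix (Fin (n + 1)) (Fin (n + 1)) R :=
  Matrix.of (Fin.cons (Fin.cons t 0) fun i => Fin.cons 0 (A i))

section dsum

variable {R : Type} {n : ℕ}

@[simp] theorem dsum_zero_zero [Zero R] (t : R) (A : Matrix (Fin n) (Fin n) R) :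
    dsum t A 0 0 = t := rfl

@[simp] theorem dsum_zero_succ [Zero R] (t : R) (A : Matrix (Fin n) (Fin n) R) (j : Fin n) :
    dsum t A 0 j.succ = 0 := rfl

@[simp] theorem dsum_succ_zero [Zero R] (t : R) (A : Matrix (Fin n) (Fin n) R) (i : Fin n) :
    dsum t A i.succ 0 = 0 := rfl

@[simp] theorem dsum_succ_succ [Zero R] (t : R) (A : Matrix (Fin n) (Fin n) R) (i j : Fin n) :
    dsum t A i.succ j.succ = A i j := rfl

theorem dsum_mul [Semiring R] (s t : R) (A B : Matrix (Fin n) (Fin n) R) :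
    dsum s A * dsum t B = dsum (s * t) (A * B) := by
  ext i j
  refine Fin.cases ?_ (fun i => ?_) i <;> refine Fin.cases ?_ (fun j => ?_) j <;>
    simp [Matrix.mul_apply, Fin.sum_univ_succ]

theorem dsum_conjTranspose (t : ℂ) (A : Matrix (Fin n) (Fin n) ℂ) :
    (dsum t A)ᴴ = dsum (star t) Aᴴ := by
  ext i j
  refine Fin.cases ?_ (fun i => ?_) i <;> refine Fin.cases ?_ (fun j => ?_) j <;> simp

theorem dsum_one [Zero R] [One R] : dsum (1 : R) (1 : Matrix (Fin n) (Fin n) R) = 1 := by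
  ext i j
  refine Fin.cases ?_ (fun i => ?_) i <;> refine Fin.cases ?_ (fun j => ?_) j <;>
    simp [Matrix.one_apply, Fin.ext_iff]

theorem det_dsum [CommRing R] (t : R) (A : Matrix (Fin n) (Fin n) R) :
    (dsum t A).det = t * A.det := by
  rw [Matrix.det_succ_row_zero, Fin.sum_univ_succ]
  have : (dsum t A).submatrix Fin.succ Fin.succ = A := by
    ext i j
    simp
  simp [this]

theorem J_succ (m : ℕ) : J (m + 1) = dsum 1 (J m) := by
  ext i j
  refine Fin.cases ?_ (fun i => ?_) i <;> refine Fin.cases ?_ (fun j => ?_) j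
  · rw [dsum_zero_zero, J, Matrix.diagonal_apply_eq, if_neg (Fin.last_pos).ne]
  · rw [dsum_zero_succ, J, Matrix.diagonal_apply_ne _ (Fin.succ_ne_zero j).symm]
  · rw [dsum_succ_zero, J, Matrix.diagonal_apply_ne _ (Fin.succ_ne_zero i)]
  · rw [dsum_succ_succ, J, J, Matrix.diagonal_apply, Matrix.diagonal_apply, ← Fin.succ_last]
    simp only [Fin.succ_inj]

end dsum

/-- The totally geodesic embedding `g ↦ 1 ⊕ g` of `SU(m,1)` in `SU(m+1,1)`; it fixes the first
basis vector. -/
def extend (m : ℕ) : SUGroup m →* SUGroup (m + 1) where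
  toFun g := ⟨⟨dsum 1 g.toMatrix, by
      rw [det_dsum, one_mul]
      exact g.1.2⟩, by
      show (dsum 1 g.toMatrix)ᴴ * J (m + 1) * dsum 1 g.toMatrix = J (m + 1)
      rw [dsum_conjTranspose, J_succ, dsum_mul, dsum_mul]
      have h : g.toMatrixᴴ * J m * g.toMatrix = J m := g.2
      rw [h]
      simp⟩
  map_one' := Subtype.ext (Subtype.ext dsum_one)
  map_mul' g h := Subtype.ext (Subtype.ext (by
    show dsum 1 (g.toMatrix * h.toMatrix) = dsum 1 g.toMatrix * dsum 1 h.toMatrix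
    rw [dsum_mul, one_mul]))

theorem extend_toMatrix {m : ℕ} (g : SUGroup m) :
    (extend m g).toMatrix = dsum 1 g.toMatrix := rfl

/-- `K ⊂ ℂ` is a CM field: a number field stable under complex conjugation, not contained in `ℝ`,
such that every embedding `K → ℂ` commutes with complex conjugation. -/
def IsCM (K : Subfield ℂ) : Prop :=
  NumberField K ∧ (∃ x ∈ K, (starRingEnd ℂ) x ≠ x) ∧ (∀ x ∈ K, (starRingEnd ℂ) x ∈ K) ∧
    ∀ (τ : K →+* ℂ) (x y : K), (y : ℂ) = (starRingEnd ℂ) x → τ y = (starRingEnd ℂ) (τ x)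

/-- The ring of algebraic integers of `K`. -/
def integers (K : Subfield ℂ) : Subring ℂ :=
  K.toSubring ⊓ (integralClosure ℤ ℂ).toSubring

/-- `B` is an isometry from a Hermitian form `H` over the CM field `K` to the standard form of
signature `(m,1)`, and all conjugates of `H` at the embeddings of `K` other than the identity and
complex conjugation are definite. -/
structure IsForm (m : ℕ) (K : Subfield ℂ) (H : Matrix (Fin (m + 1)) (Fin (m + 1)) K)
    (B : Matrix (Fin (m + 1)) (Fin (m + 1)) ℂ) : Prop where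
  cm : IsCM K
  det : B.det ≠ 0
  form : Bᴴ * J m * B = H.map (fun x : K => (x : ℂ))
  definite : ∀ τ : K →+* ℂ, (∀ x : K, τ x = x) ∨ (∀ x : K, τ x = (starRingEnd ℂ) (x : ℂ)) ∨
    (H.map τ).PosDef ∨ (-(H.map τ)).PosDef

/-- The matrix of `g` in the basis `B` has entries in `R`. -/
def EntriesIn {n : ℕ} (R : Set ℂ) (B g : Matrix (Fin n) (Fin n) ℂ) : Prop :=
  ∀ i j, (B⁻¹ * g * B) i j ∈ R

theorem inv_mul_conj_mul {n : ℕ} (B g h : Matrix (Fin n) (Fin n) ℂ) :
    B⁻¹ * (g * h) * B = (B⁻¹ * g * B) * (B⁻¹ * h * B) := by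
  by_cases hB : IsUnit B.det
  · calc B⁻¹ * (g * h) * B = B⁻¹ * g * 1 * (h * B) := by simp only [Matrix.mul_assoc, Matrix.one_mul]
      _ = B⁻¹ * g * (B * B⁻¹) * (h * B) := by rw [Matrix.mul_nonsing_inv B hB]
      _ = _ := by simp only [Matrix.mul_assoc]
  · rw [Matrix.nonsing_inv_apply_not_isUnit B hB]
    simp

theorem EntriesIn.mul {n : ℕ} {R : Subring ℂ} {B g h : Matrix (Fin n) (Fin n) ℂ}
    (hg : EntriesIn R B g) (hh : EntriesIn R B h) : EntriesIn R B (g * h) := by
  intro i j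
  rw [inv_mul_conj_mul, Matrix.mul_apply]
  exact R.sum_mem fun l _ => R.mul_mem (hg i l) (hh l j)

theorem EntriesIn.one {n : ℕ} {R : Subring ℂ} {B : Matrix (Fin n) (Fin n) ℂ} :
    EntriesIn R B 1 := by
  intro i j
  by_cases hB : IsUnit B.det
  · rw [Matrix.mul_one, Matrix.nonsing_inv_mul B hB, Matrix.one_apply]
    split_ifs
    · exact R.one_mem
    · exact R.zero_mem
  · rw [Matrix.nonsing_inv_apply_not_isUnit B hB]
    simp

/-- The group of all `g` in `SU(m,1)` such that `g` and its inverse have matrices with entries in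
the ring of integers of `K` in the basis `B`; this is `SU(H, O_K)`. -/
def integralPoints (m : ℕ) (K : Subfield ℂ) (B : Matrix (Fin (m + 1)) (Fin (m + 1)) ℂ) :
    Subgroup (SUGroup m) where
  carrier := {g | EntriesIn (integers K) B g.toMatrix ∧ EntriesIn (integers K) B g⁻¹.toMatrix}
  mul_mem' {g h} hg hh := ⟨EntriesIn.mul hg.1 hh.1, by
    rw [_root_.mul_inv_rev]
    exact EntriesIn.mul hh.2 hg.2⟩
  one_mem' := ⟨EntriesIn.one, by rw [inv_one]; exact EntriesIn.one⟩
  inv_mem' {g} hg := ⟨hg.2, by rw [inv_inv]; exact hg.1⟩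

/-- `Γ` is an arithmetic subgroup of `SU(m,1)` (of simplest type): for a CM field `K` and an
admissible Hermitian form `H` over `K` it is contained in `SU(H, K)` and commensurable with
`SU(H, O_K)`. -/
def IsArithmetic (m : ℕ) (Γ : Subgroup (SUGroup m)) : Prop :=
  ∃ (K : Subfield ℂ) (H : Matrix (Fin (m + 1)) (Fin (m + 1)) K)
    (B : Matrix (Fin (m + 1)) (Fin (m + 1)) ℂ), IsForm m K H B ∧
      (∀ γ ∈ Γ, EntriesIn K B γ.toMatrix) ∧ Subgroup.Commensurable Γ (integralPoints m K B)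

/-- The field generated by the traces of the elements of `Γ`. -/
noncomputable def traceField {m : ℕ} (Γ : Subgroup (SUGroup m)) : Subfield ℂ :=
  Subfield.closure {t | ∃ γ ∈ Γ, t = γ.toMatrix.trace}

/-- The group generated by `g b * (1 ⊕ γ) * (g b)⁻¹`, `b = 0, 1`, `γ ∈ Γ b`. -/
def hybrid {m : ℕ} (Γ : Fin 2 → Subgroup (SUGroup m)) (g : Fin 2 → SUGroup (m + 1)) :
    Subgroup (SUGroup (m + 1)) :=
  Subgroup.closure {x | ∃ b : Fin 2, ∃ γ ∈ Γ b, x = g b * extend m γ * (g b)⁻¹}

/-- The two totally geodesic hyperplanes, the orthogonal complements of the first columns of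
`g 0` and `g 1`, are orthogonal. -/
def Orthogonal {m : ℕ} (g : Fin 2 → SUGroup m) : Prop :=
  ((g 0).toMatrixᴴ * J m * (g 1).toMatrix) 0 0 = 0

end Pool.Agent.Lib.MP_5d4057_al.Hyb
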