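import Pool.Agent.Lib.MP_5d4057_al.Recur
import Pool.Agent.Lib.MP_5d4057_al.Hyb.Defs

namespace Pool.Agent.Lib.MP_5d4057_al.Hyb

open Matrix Pool.Agent.Lib.MP_5d4057_al Filter Topology

instance (m : ℕ) : IsTopologicalGroup (SUGroup m) :=
  inferInstanceAs (IsTopologicalGroup (SU m))

theorem toMatrix_mul {m : ℕ} (g h : SUGroup m) : (g * h).toMatrix = g.toMatrix * h.toMatrix := rfl

theorem toMatrix_one {m : ℕ} : (1 : SUGroup m).toMatrix = 1 := rfl

theorem toMatrix_injective {m : ℕ} : Function.Injective (SUGroup.toMatrix (m := m)) := by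
  intro g h hgh
  exact Subtype.ext (Subtype.ext hgh)

theorem toMatrix_mul_inv {m : ℕ} (g : SUGroup m) : g.toMatrix * (g⁻¹).toMatrix = 1 := by
  rw [← toMatrix_mul, mul_inv_cancel, toMatrix_one]

theorem toMatrix_inv_mul {m : ℕ} (g : SUGroup m) : (g⁻¹).toMatrix * g.toMatrix = 1 := by
  rw [← toMatrix_mul, inv_mul_cancel, toMatrix_one]

theorem det_toMatrix {m : ℕ} (g : SUGroup m) : g.toMatrix.det = 1 := g.1.2

theorem pres {m : ℕ} (g : SUGroup m) : g.toMatrixᴴ * J m * g.toMatrix = J m := g.2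

theorem toMatrix_inv {m : ℕ} (g : SUGroup m) : (g⁻¹).toMatrix = g.toMatrix⁻¹ :=
  (Matrix.inv_eq_right_inv (toMatrix_mul_inv g)).symm

theorem toMatrix_pow {m : ℕ} (g : SUGroup m) (n : ℕ) : (g ^ n).toMatrix = g.toMatrix ^ n := by
  induction n with
  | zero => simp [toMatrix_one]
  | succ n ih => rw [pow_succ, toMatrix_mul, ih, pow_succ]

/-- An element of `SU(m,1)` from a matrix. -/
def ofMatrix {m : ℕ} (A : Matrix (Fin (m + 1)) (Fin (m + 1)) ℂ) (h1 : A.det = 1)
    (h2 : Aᴴ * J m * A = J m) : SUGroup m := ⟨⟨A, h1⟩, h2⟩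

@[simp] theorem toMatrix_ofMatrix {m : ℕ} (A : Matrix (Fin (m + 1)) (Fin (m + 1)) ℂ)
    (h1 : A.det = 1) (h2 : Aᴴ * J m * A = J m) : (ofMatrix A h1 h2).toMatrix = A := rfl

theorem isClosedEmbedding_toMatrix (m : ℕ) :
    IsClosedEmbedding (SUGroup.toMatrix (m := m)) := by
  have h1 : IsClosedEmbedding
      (fun g : SpecialLinearGroup (Fin (m + 1)) ℂ => (g : Matrix (Fin (m + 1)) (Fin (m + 1)) ℂ)) :=
    SpecialLinearGroup.isClosedEmbedding_val
  have h2 : IsClosed ((SU m : Subgroup _) : Set (SpecialLinearGroup (Fin (m + 1)) ℂ)) := by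
    have : ((SU m : Subgroup _) : Set (SpecialLinearGroup (Fin (m + 1)) ℂ)) =
        (fun g : SpecialLinearGroup (Fin (m + 1)) ℂ => g.1) ⁻¹' {A | Aᴴ * J m * A = J m} := rfl
    rw [this]
    refine IsClosed.preimage h1.continuous (isClosed_eq ?_ continuous_const)
    fun_prop
  exact h1.comp h2.isClosedEmbedding_subtypeVal

theorem continuous_toMatrix (m : ℕ) : Continuous (SUGroup.toMatrix (m := m)) :=
  (isClosedEmbedding_toMatrix m).continuous

instance (m : ℕ) : SecondCountableTopology (Matrix (Fin (m + 1)) (Fin (m + 1)) ℂ) :=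
  inferInstanceAs (SecondCountableTopology (Fin (m + 1) → Fin (m + 1) → ℂ))

instance (m : ℕ) : LocallyCompactSpace (Matrix (Fin (m + 1)) (Fin (m + 1)) ℂ) :=
  inferInstanceAs (LocallyCompactSpace (Fin (m + 1) → Fin (m + 1) → ℂ))

instance (m : ℕ) : T2Space (SUGroup m) :=
  (isClosedEmbedding_toMatrix m).isEmbedding.t2Space

instance (m : ℕ) : SecondCountableTopology (SUGroup m) :=
  (isClosedEmbedding_toMatrix m).isInducing.secondCountableTopology

instance (m : ℕ) : LocallyCompactSpace (SUGroup m) :=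
  (isClosedEmbedding_toMatrix m).locallyCompactSpace

end Pool.Agent.Lib.MP_5d4057_al.Hyb
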