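import Pool.Agent.Lib.MP_5d4057_al.Hyb.Heis

namespace Pool.Agent.Lib.MP_5d4057_al.Hyb

open Matrix Pool.Agent.Lib.MP_5d4057_al Filter Topology

private theorem rk_self_ne {m : ℕ} (w : Fin (m + 1) → ℂ) (hw0 : w ≠ 0) : rk m w w ≠ 0 := by
  intro h
  have hv : star w ᵥ* J m ≠ 0 := by
    intro h0
    have h1 : (star w ᵥ* J m) ᵥ* J m = 0 := by rw [h0, zero_vecMul]
    rw [vecMul_vecMul, J_mul_J, vecMul_one] at h1
    exact hw0 (star_eq_zero.1 h1)
  obtain ⟨i, hi⟩ := Function.ne_iff.1 hw0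
  obtain ⟨j, hj⟩ := Function.ne_iff.1 hv
  have h2 := congrFun (congrFun h i) j
  rw [rk, vecMulVec_apply, Matrix.zero_apply] at h2
  rcases mul_eq_zero.1 h2 with h3 | h3
  · exact hi h3
  · exact hj h3

/-- The additive group of the vertical translations contained in `Γ`. -/
private def vert {m : ℕ} (Γ : Subgroup (SUGroup m)) (w : Fin (m + 1) → ℂ)
    (hw : hm m w w = 0) : AddSubgroup ℝ where
  carrier := {a | ∃ γ ∈ Γ, γ.toMatrix = Z m w (a * Complex.I)}
  add_mem' := by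
    rintro a b ⟨g, hg, hga⟩ ⟨h, hh, hhb⟩
    refine ⟨g * h, Γ.mul_mem hg hh, ?_⟩
    rw [toMatrix_mul, hga, hhb, Z_mul w hw]
    push_cast
    ring_nf
  zero_mem' := ⟨1, Γ.one_mem, by rw [toMatrix_one, Z]; simp⟩
  neg_mem' := by
    rintro a ⟨g, hg, hga⟩
    refine ⟨g⁻¹, Γ.inv_mem hg, ?_⟩
    rw [toMatrix_inv, hga]
    refine Matrix.inv_eq_right_inv ?_
    rw [Z_mul w hw, Z]
    simp

/-- In a discrete group the vertical translations of a null vector are commensurable. The set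
`A = {a : ℝ | ∃ γ ∈ Γ, γ.toMatrix = Z m w (a * I)}` is an additive subgroup of `ℝ` (`Z_mul`). If it is
dense there are `0 ≠ a n ∈ A` with `a n → 0`, hence elements `γ n ∈ Γ`, `γ n ≠ 1`
(`rk m w w ≠ 0` because `w ≠ 0` and `J` is invertible), `γ n → 1` (`isClosedEmbedding_toMatrix`), which
contradicts discreteness. So it is cyclic (`AddSubgroup.dense_or_cyclic`), `A = ℤ c`, `a = p * c`,
`b = s * c`, and `a = (p / s) * b`. -/
theorem rat_of_discrete {m : ℕ} (Γ : Subgroup (SUGroup m)) (hd : DiscreteTopology Γ)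
    (w : Fin (m + 1) → ℂ) (hw0 : w ≠ 0) (hw : hm m w w = 0) (a b : ℝ) (hb : b ≠ 0)
    (ha : ∃ γ ∈ Γ, γ.toMatrix = Z m w (a * Complex.I))
    (hb' : ∃ γ ∈ Γ, γ.toMatrix = Z m w (b * Complex.I)) : ∃ r : ℚ, a = r * b := by
  rcases AddSubgroup.dense_or_cyclic (vert Γ w hw) with hD | ⟨c, hc⟩
  · exfalso
    -- a neighbourhood of `1` in `Γ` that contains only `1`
    have h1 : ({1} : Set Γ) ∈ 𝓝 (1 : Γ) := by
      rw [nhds_discrete]; exact Filter.mem_pure.2 rfl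
    obtain ⟨U, hU, hU1⟩ := (mem_nhds_subtype _ _ _).1 h1
    have h3 : 𝓝 (1 : SUGroup m) = Filter.comap SUGroup.toMatrix (𝓝 (SUGroup.toMatrix (1 : SUGroup m))) :=
      (isClosedEmbedding_toMatrix m).isInducing.nhds_eq_comap 1
    have hU' : U ∈ 𝓝 (1 : SUGroup m) := hU
    rw [h3, Filter.mem_comap] at hU'
    obtain ⟨V, hV, hVU⟩ := hU'
    have h4 : ContinuousAt (fun a : ℝ => Z m w (a * Complex.I)) 0 := by
      unfold Z
      fun_prop
    have h5 : (fun a : ℝ => Z m w (a * Complex.I)) ⁻¹' V ∈ 𝓝 (0 : ℝ) := by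
      apply h4
      have : Z m w (((0 : ℝ) : ℂ) * Complex.I) = SUGroup.toMatrix (1 : SUGroup m) := by
        rw [toMatrix_one, Z]; simp
      show V ∈ 𝓝 (Z m w (((0 : ℝ) : ℂ) * Complex.I))
      rw [this]
      exact hV
    obtain ⟨ε, hε, hball⟩ := Metric.mem_nhds_iff.1 h5
    obtain ⟨x, hxA, hx1, hx2⟩ := hD.exists_between hε
    have hxA' : ∃ γ ∈ Γ, γ.toMatrix = Z m w (x * Complex.I) := hxA
    obtain ⟨γ, hγ, hγx⟩ := hxA'
    have hxV : Z m w (x * Complex.I) ∈ V := by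
      apply hball
      rw [Metric.mem_ball, Real.dist_eq, sub_zero, abs_of_pos hx1]
      exact hx2
    have hγU : γ ∈ U := hVU (by show γ.toMatrix ∈ V; rw [hγx]; exact hxV)
    have hγ1 : (⟨γ, hγ⟩ : Γ) ∈ ({1} : Set Γ) := hU1 hγU
    have hγ2 : γ = 1 := congrArg Subtype.val hγ1
    rw [hγ2, toMatrix_one, Z] at hγx
    have h6 : ((x : ℂ) * Complex.I) • rk m w w = 0 := by
      have := hγx.symm
      rwa [add_eq_left] at this
    rcases smul_eq_zero.1 h6 with h7 | h7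
    · rcases mul_eq_zero.1 h7 with h8 | h8
      · exact hx1.ne' (by exact_mod_cast h8)
      · exact Complex.I_ne_zero h8
    · exact rk_self_ne w hw0 h7
  · have haA : a ∈ vert Γ w hw := ha
    have hbA : b ∈ vert Γ w hw := hb'
    rw [hc, AddSubgroup.mem_closure_singleton] at haA hbA
    obtain ⟨p, hp⟩ := haA
    obtain ⟨s, hs⟩ := hbA
    have hs0 : (s : ℝ) ≠ 0 := by
      intro h0
      apply hb
      rw [← hs, zsmul_eq_mul, h0, zero_mul]
    refine ⟨(p : ℚ) / (s : ℚ), ?_⟩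
    rw [← hp, ← hs, zsmul_eq_mul, zsmul_eq_mul]
    push_cast
    field_simp

end Pool.Agent.Lib.MP_5d4057_al.Hyb
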