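import Pool.Agent.Lib.MP_5d4057_al.Hyb.Defs

namespace Pool.Agent.Lib.MP_5d4057_al.Hyb

/-- Every finite family of elements of the number field `K` has a common denominator
(`IsIntegral.exists_multiple_integral...`, `exists_integral_multiple`,
`IsLocalization.exist_integer_multiples_of_finset`). -/
theorem exists_denom {K : Subfield ℂ} (hK : NumberField K) {ι : Type} [Finite ι] (f : ι → K) :
    ∃ N : ℕ, 0 < N ∧ ∀ i, (N : ℂ) * (f i : ℂ) ∈ integers K := by
  classical
  have := Fintype.ofFinite ι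
  have key : ∀ x : K, ∃ n : ℕ, 0 < n ∧ IsIntegral ℤ ((n : ℂ) * (x : ℂ)) := by
    intro x
    have h1 : IsAlgebraic ℚ x := Algebra.IsAlgebraic.isAlgebraic x
    have h2 : IsAlgebraic ℤ x := (IsFractionRing.isAlgebraic_iff ℤ ℚ K).2 h1
    obtain ⟨y, hy, hint⟩ := h2.exists_integral_multiple
    have h3 : IsIntegral ℤ ((y • x : K) : ℂ) := hint.map (K.subtype.toIntAlgHom)
    have h4 : ((y • x : K) : ℂ) = (y : ℂ) * (x : ℂ) := by
      rw [zsmul_eq_mul]
      push_cast
      rfl
    rw [h4] at h3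
    refine ⟨y.natAbs, Int.natAbs_pos.2 hy, ?_⟩
    rcases Int.natAbs_eq y with h | h
    · have h5 : ((y.natAbs : ℕ) : ℂ) = (y : ℂ) := by
        conv_rhs => rw [h]
        simp
      rw [h5]
      exact h3
    · have h5 : ((y.natAbs : ℕ) : ℂ) = -(y : ℂ) := by
        conv_rhs => rw [h]
        simp
      rw [h5, neg_mul]
      exact h3.neg
  choose n hn hint using key
  refine ⟨∏ i, n (f i), Finset.prod_pos fun i _ => hn _, fun i => ?_⟩
  refine ⟨?_, ?_⟩
  · exact K.mul_mem (natCast_mem K _) (f i).2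
  · show IsIntegral ℤ _
    rw [← Finset.mul_prod_erase Finset.univ (fun i => n (f i)) (Finset.mem_univ i)]
    push_cast
    have : (n (f i) : ℂ) * (∏ x ∈ Finset.univ.erase i, (n (f x) : ℂ)) * (f i : ℂ) =
        (∏ x ∈ Finset.univ.erase i, (n (f x) : ℂ)) * ((n (f i) : ℂ) * (f i : ℂ)) := by ring
    rw [this]
    refine IsIntegral.mul (IsIntegral.prod _ fun j _ => ?_) (hint _)
    have h := isIntegral_algebraMap (R := ℤ) (A := ℂ) (x := (n (f j) : ℤ))
    simpa using h

end Pool.Agent.Lib.MP_5d4057_al.Hyb
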