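import Pool.Agent.Lib.MP_5d4057_al.Hyb.Heis
import Pool.Agent.Lib.MP_5d4057_al.Hyb.Denom

namespace Pool.Agent.Lib.MP_5d4057_al.Hyb

open Matrix Pool.Agent.Lib.MP_5d4057_al

private theorem cons_vecMul_dsum {n : ℕ} (t : ℂ) (A : Matrix (Fin n) (Fin n) ℂ)
    (x : ℂ) (v : Fin n → ℂ) :
    (Fin.cons x v : Fin (n + 1) → ℂ) ᵥ* dsum t A = Fin.cons (x * t) (v ᵥ* A) := by
  ext i
  refine Fin.cases ?_ (fun i => ?_) i <;> simp [Matrix.vecMul, dotProduct, Fin.sum_univ_succ]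

private theorem star_cons {n : ℕ} (x : ℂ) (v : Fin n → ℂ) :
    star (Fin.cons x v : Fin (n + 1) → ℂ) = Fin.cons (star x) (star v) := by
  ext i
  refine Fin.cases ?_ (fun i => ?_) i <;> simp

private theorem conj_vecMulVec {n : ℕ} (A B : Matrix (Fin n) (Fin n) ℂ) (b c : Fin n → ℂ) :
    A * vecMulVec b c * B = vecMulVec (A *ᵥ b) (c ᵥ* B) := by
  rw [mul_vecMulVec, vecMulVec_mul]

/-- The matrix of the Heisenberg translation in the basis `dsum μ D`, for `w = D x`, `x` with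
entries in `K`, in the direction `α μ e₀`, `α ∈ K`: it is
`1 + α • M₁ + conj α • M₂ + (α * conj α) • M₃` with matrices `M₁, M₂, M₃` over `K` which do not
depend on `α`. Here, with `φ = star x ᵥ* HD` (`star w ᵥ* J * D = φ`, entries in `K` by `hcm`):
`(dsum μ D)⁻¹ * rk (cons 0 w) (cons (α μ) 0) * dsum μ D = vecMulVec (cons α 0) (cons 0 φ)`,
`(dsum μ D)⁻¹ * rk (cons (α μ) 0) (cons 0 w) * dsum μ D = vecMulVec (cons 0 x) (cons (conj α * q) 0)`
(`q = star μ * μ`) and `rk (cons 0 w) (cons 0 w)` becomes `vecMulVec (cons 0 x) (cons 0 φ)`, with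
coefficient `- 1/2 * α * conj α * q`. -/
theorem T_basis {k : ℕ} {K : Subfield ℂ} (hcm : IsCM K) {D : Matrix (Fin (k + 1)) (Fin (k + 1)) ℂ}
    {HD : Matrix (Fin (k + 1)) (Fin (k + 1)) K} (hD : D.det ≠ 0)
    (hform : Dᴴ * J k * D = HD.map (fun x : K => (x : ℂ))) (μ : ℂ) (q : K) (hμ : μ ≠ 0)
    (hq : (q : ℂ) = star μ * μ) (x : Fin (k + 1) → K) :
    ∃ M₁ M₂ M₃ : Matrix (Fin (k + 1 + 1)) (Fin (k + 1 + 1)) K, ∀ α : ℂ,
      (dsum μ D)⁻¹ * T (k + 1) (Fin.cons 0 (D *ᵥ fun i => (x i : ℂ))) (Fin.cons (α * μ) 0) *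
        dsum μ D = 1 + α • M₁.map (fun x : K => (x : ℂ)) +
          (starRingEnd ℂ) α • M₂.map (fun x : K => (x : ℂ)) +
          (α * (starRingEnd ℂ) α) • M₃.map (fun x : K => (x : ℂ)) := by
  let xb : Fin (k + 1) → K := fun i => ⟨(starRingEnd ℂ) (x i), hcm.2.2.1 _ (x i).2⟩
  let φ : Fin (k + 1) → K := xb ᵥ* HD
  have hφ : (fun j => ((φ j : K) : ℂ)) = (star (D *ᵥ fun i => (x i : ℂ)) ᵥ* J k) ᵥ* D := by
    have e1 : (star (D *ᵥ fun i => (x i : ℂ)) ᵥ* J k) ᵥ* D =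
        star (fun i => (x i : ℂ)) ᵥ* (HD.map (fun x : K => (x : ℂ))) := by
      rw [← hform, star_mulVec, vecMul_vecMul, vecMul_vecMul, Matrix.mul_assoc]
    rw [e1]
    ext j
    simp only [φ, Matrix.vecMul, dotProduct, Matrix.map_apply, Pi.star_apply]
    push_cast
    rfl
  have hinv : (dsum μ D)⁻¹ = dsum μ⁻¹ D⁻¹ := dsum_inv μ D hμ hD
  have hDx : D⁻¹ *ᵥ (D *ᵥ fun i => (x i : ℂ)) = fun i => (x i : ℂ) := by
    rw [mulVec_mulVec, Matrix.nonsing_inv_mul _ (isUnit_iff_ne_zero.2 hD), one_mulVec]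
  have hmap : ∀ (b c : Fin (k + 1 + 1) → K), (vecMulVec b c).map (fun x : K => (x : ℂ)) =
      vecMulVec (fun i => (b i : ℂ)) (fun i => (c i : ℂ)) := by
    intro b c
    ext i j
    simp [vecMulVec_apply]
  have hcons : ∀ (a : K) (v : Fin (k + 1) → K),
      (fun i => (((Fin.cons a v : Fin (k + 1 + 1) → K) i : K) : ℂ)) =
        (Fin.cons (a : ℂ) (fun i => (v i : ℂ)) : Fin (k + 1 + 1) → ℂ) := by
    intro a v
    ext i
    refine Fin.cases ?_ (fun i => ?_) i <;> simp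
  refine ⟨vecMulVec (Fin.cons 1 0) (Fin.cons 0 φ), -vecMulVec (Fin.cons 0 x) (Fin.cons q 0),
    -((1 / 2 : K) * q) • vecMulVec (Fin.cons 0 x) (Fin.cons 0 φ), fun α => ?_⟩
  have hD' : (dsum μ D).det ≠ 0 := by
    rw [det_dsum]; exact mul_ne_zero hμ hD
  have r1 : (dsum μ D)⁻¹ * rk (k + 1) (Fin.cons 0 (D *ᵥ fun i => (x i : ℂ)))
      (Fin.cons (α * μ) 0) * dsum μ D =
      α • (vecMulVec (Fin.cons 1 0) (Fin.cons 0 φ) : Matrix _ _ K).map (fun x : K => (x : ℂ)) := by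
    rw [rk, conj_vecMulVec, hinv, dsum_mulVec_cons, star_cons, J_succ, cons_vecMul_dsum,
      cons_vecMul_dsum, hmap, hcons, hcons, hφ, ← smul_vecMulVec]
    congr 1
    · ext i
      refine Fin.cases ?_ (fun i => ?_) i
      · simp [hμ, mul_comm]
      · simp
    · ext i
      refine Fin.cases ?_ (fun i => ?_) i
      · simp
      · simp
  have r2 : (dsum μ D)⁻¹ * rk (k + 1) (Fin.cons (α * μ) 0)
      (Fin.cons 0 (D *ᵥ fun i => (x i : ℂ))) * dsum μ D =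
      (starRingEnd ℂ) α • (vecMulVec (Fin.cons 0 x) (Fin.cons q 0) : Matrix _ _ K).map
        (fun x : K => (x : ℂ)) := by
    rw [rk, conj_vecMulVec, hinv, dsum_mulVec_cons, star_cons, J_succ, cons_vecMul_dsum,
      cons_vecMul_dsum, hmap, hcons, hcons, hDx, ← vecMulVec_smul]
    congr 1
    · ext i
      refine Fin.cases ?_ (fun i => ?_) i
      · simp
      · simp
    · ext i
      refine Fin.cases ?_ (fun i => ?_) i
      · simp [hq]
        ring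
      · simp
  have r3 : (dsum μ D)⁻¹ * rk (k + 1) (Fin.cons 0 (D *ᵥ fun i => (x i : ℂ)))
      (Fin.cons 0 (D *ᵥ fun i => (x i : ℂ))) * dsum μ D =
      (vecMulVec (Fin.cons 0 x) (Fin.cons 0 φ) : Matrix _ _ K).map (fun x : K => (x : ℂ)) := by
    rw [rk, conj_vecMulVec, hinv, dsum_mulVec_cons, star_cons, J_succ, cons_vecMul_dsum,
      cons_vecMul_dsum, hmap, hcons, hcons, hDx, hφ]
    congr 1
    · ext i
      refine Fin.cases ?_ (fun i => ?_) i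
      · simp
      · simp
    · ext i
      refine Fin.cases ?_ (fun i => ?_) i
      · simp
      · simp
  have hhm : hm (k + 1) (Fin.cons (α * μ) 0) (Fin.cons (α * μ) 0) =
      α * (starRingEnd ℂ) α * q := by
    rw [hm_cons, hq]
    simp [hm]
    ring
  rw [T, hhm, Matrix.mul_sub, Matrix.sub_mul, Matrix.mul_sub, Matrix.sub_mul, Matrix.mul_add,
    Matrix.add_mul, Matrix.mul_one, Matrix.nonsing_inv_mul _ (isUnit_iff_ne_zero.2 hD'), r1, r2,
    Matrix.mul_smul, Matrix.smul_mul, r3]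
  ext i j
  simp only [Matrix.sub_apply, Matrix.add_apply, Matrix.smul_apply, Matrix.map_apply,
    Matrix.neg_apply, smul_eq_mul]
  have h2 : ((2 : K) : ℂ) = 2 := rfl
  push_cast
  rw [h2]
  ring

/-- The group `Γ`, commensurable with `SU(H, O_K)`, contains Heisenberg translations. By `h`,
`B⁻¹ T B = Q ((dsum μ D)⁻¹ T (dsum μ D)) Q⁻¹`, so by `T_basis`
`B⁻¹ * T (cons 0 w) (cons (α μ) 0) * B = 1 + α • M₁' + conj α • M₂' + (α conj α) • M₃'` with
`M_i' = Q M_i Q⁻¹` over `K`. Take `N₀` with `N₀ • M_i'` integral (`exists_denom`). For `α = N₀ * β`,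
`β ∈ integers K`, the element `T` (of `SUGroup (k + 1)` by `T_det`, `T_pres`, `ofMatrix`) is in
`integralPoints (k + 1) K B` (its inverse is the one for `-α`, `T_mul_neg`). Since
`Γ.relIndex (integralPoints ..) ≠ 0`, with `r = (Γ.relIndex ..)!` (or `Subgroup.exists_pow_mem_of_index_ne_zero`
and a bound for the exponent independent of the element, e.g. the factorial of the index) the power
`T ^ r` is in `Γ`; `T ^ r` is the translation for `r * α` (`T_pow`). `N = r * N₀`. -/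
theorem exists_T_mem {k : ℕ} {K : Subfield ℂ} (hcm : IsCM K)
    {D : Matrix (Fin (k + 1)) (Fin (k + 1)) ℂ} {HD : Matrix (Fin (k + 1)) (Fin (k + 1)) K}
    (hD : D.det ≠ 0) (hform : Dᴴ * J k * D = HD.map (fun x : K => (x : ℂ))) (μ : ℂ) (q : K)
    (hμ : μ ≠ 0) (hq : (q : ℂ) = star μ * μ) (x : Fin (k + 1) → K)
    (hx : hm k (D *ᵥ fun i => (x i : ℂ)) (D *ᵥ fun i => (x i : ℂ)) = 0)
    (B : Matrix (Fin (k + 1 + 1)) (Fin (k + 1 + 1)) ℂ) (hB : B.det ≠ 0) (σ : ℂ) (hσ : σ ≠ 0)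
    (Q : Matrix (Fin (k + 1 + 1)) (Fin (k + 1 + 1)) K) (hQ : Q.det ≠ 0)
    (h : B * Q.map (fun x : K => (x : ℂ)) = σ • dsum μ D) (Γ : Subgroup (SUGroup (k + 1)))
    (hc : Subgroup.Commensurable Γ (integralPoints (k + 1) K B)) :
    ∃ N : ℕ, 0 < N ∧ ∀ β ∈ integers K, ∃ γ ∈ Γ, γ.toMatrix =
      T (k + 1) (Fin.cons 0 (D *ᵥ fun i => (x i : ℂ))) (Fin.cons ((N : ℂ) * β * μ) 0) := by
  obtain ⟨M₁, M₂, M₃, hM⟩ := T_basis hcm hD hform μ q hμ hq x
  have hmapmul : ∀ (A A' : Matrix (Fin (k + 1 + 1)) (Fin (k + 1 + 1)) K),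
      (A * A').map (fun x : K => (x : ℂ)) =
        A.map (fun x : K => (x : ℂ)) * A'.map (fun x : K => (x : ℂ)) :=
    fun A A' => Matrix.map_mul (f := K.subtype)
  -- conjugation by `Q`
  have hQ1 : Q.map (fun x : K => (x : ℂ)) * (Q⁻¹).map (fun x : K => (x : ℂ)) = 1 := by
    rw [← hmapmul, Matrix.mul_nonsing_inv _ (isUnit_iff_ne_zero.2 hQ)]
    exact Matrix.map_one _ rfl rfl
  have hD' : (dsum μ D).det ≠ 0 := by
    rw [det_dsum]; exact mul_ne_zero hμ hD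
  have hBi : B⁻¹ = σ⁻¹ • (Q.map (fun x : K => (x : ℂ)) * (dsum μ D)⁻¹) := by
    refine Matrix.inv_eq_right_inv ?_
    rw [Matrix.mul_smul, ← Matrix.mul_assoc, h, Matrix.smul_mul, smul_smul, inv_mul_cancel₀ hσ,
      one_smul, Matrix.mul_nonsing_inv _ (isUnit_iff_ne_zero.2 hD')]
  have hBB : B = σ • (dsum μ D * (Q⁻¹).map (fun x : K => (x : ℂ))) := by
    rw [← Matrix.smul_mul, ← h, Matrix.mul_assoc, hQ1, Matrix.mul_one]
  have hconj : ∀ X : Matrix (Fin (k + 1 + 1)) (Fin (k + 1 + 1)) ℂ, B⁻¹ * X * B =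
      Q.map (fun x : K => (x : ℂ)) * ((dsum μ D)⁻¹ * X * dsum μ D) *
        (Q⁻¹).map (fun x : K => (x : ℂ)) := by
    intro X
    rw [hBi]
    nth_rewrite 1 [hBB]
    simp only [Matrix.smul_mul, Matrix.mul_smul, smul_smul, mul_inv_cancel₀ hσ, one_smul,
      Matrix.mul_assoc]
  have hconjT : ∀ α : ℂ, B⁻¹ * T (k + 1) (Fin.cons 0 (D *ᵥ fun i => (x i : ℂ)))
      (Fin.cons (α * μ) 0) * B = 1 + α • (Q * M₁ * Q⁻¹).map (fun x : K => (x : ℂ)) +
          (starRingEnd ℂ) α • (Q * M₂ * Q⁻¹).map (fun x : K => (x : ℂ)) +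
          (α * (starRingEnd ℂ) α) • (Q * M₃ * Q⁻¹).map (fun x : K => (x : ℂ)) := by
    intro α
    rw [hconj, hM, Matrix.mul_add, Matrix.mul_add, Matrix.mul_add, Matrix.add_mul, Matrix.add_mul,
      Matrix.add_mul, Matrix.mul_one, hQ1, hmapmul, hmapmul, hmapmul, hmapmul, hmapmul, hmapmul]
    simp only [Matrix.mul_smul, Matrix.smul_mul]
  obtain ⟨N₀, hN₀, hden⟩ := exists_denom hcm.1
    (fun t : Fin 3 × Fin (k + 1 + 1) × Fin (k + 1 + 1) =>
      (![Q * M₁ * Q⁻¹, Q * M₂ * Q⁻¹, Q * M₃ * Q⁻¹] t.1) t.2.1 t.2.2)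
  have hw : hm (k + 1) (Fin.cons 0 (D *ᵥ fun i => (x i : ℂ)))
      (Fin.cons 0 (D *ᵥ fun i => (x i : ℂ))) = 0 := by
    rw [hm_cons, hx]; simp
  have hwx : ∀ c : ℂ, hm (k + 1) (Fin.cons 0 (D *ᵥ fun i => (x i : ℂ)))
      (Fin.cons c 0) = 0 := by
    intro c
    rw [hm_cons]; simp [hm]
  let t : ℂ → SUGroup (k + 1) := fun c => ofMatrix
    (T (k + 1) (Fin.cons 0 (D *ᵥ fun i => (x i : ℂ))) (Fin.cons c 0)) (T_det _ _ hw (hwx c))
    (T_pres _ _ hw (hwx c))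
  have htm : ∀ c, (t c).toMatrix = T (k + 1) (Fin.cons 0 (D *ᵥ fun i => (x i : ℂ)))
      (Fin.cons c 0) := fun c => rfl
  have hneg : ∀ c : ℂ, (Fin.cons (-c) 0 : Fin (k + 1 + 1) → ℂ) = -Fin.cons c 0 := by
    intro c
    ext i
    refine Fin.cases ?_ (fun i => ?_) i <;> simp
  have htinv : ∀ c, (t c)⁻¹ = t (-c) := by
    intro c
    refine inv_eq_of_mul_eq_one_right ?_
    apply toMatrix_injective
    rw [toMatrix_mul, htm, htm, hneg, T_mul_neg _ _ hw (hwx c), toMatrix_one]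
  -- integral entries
  have hint : ∀ β ∈ integers K, EntriesIn (integers K) B (t ((N₀ : ℂ) * β * μ)).toMatrix := by
    intro β hβ i j
    have hβ' : (starRingEnd ℂ) β ∈ integers K := by
      refine ⟨hcm.2.2.1 _ hβ.1, ?_⟩
      have h1 : IsIntegral ℤ β := hβ.2
      exact map_isIntegral_int (starRingEnd ℂ) h1
    have h0 : (N₀ : ℂ) ∈ integers K := natCast_mem _ _
    have d1 : (N₀ : ℂ) * ((Q * M₁ * Q⁻¹) i j : K) ∈ integers K := hden (0, i, j)
    have d2 : (N₀ : ℂ) * ((Q * M₂ * Q⁻¹) i j : K) ∈ integers K := hden (1, i, j)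
    have d3 : (N₀ : ℂ) * ((Q * M₃ * Q⁻¹) i j : K) ∈ integers K := hden (2, i, j)
    show (B⁻¹ * (t ((N₀ : ℂ) * β * μ)).toMatrix * B) i j ∈ integers K
    rw [htm, hconjT]
    have hone : (1 : Matrix (Fin (k + 1 + 1)) (Fin (k + 1 + 1)) ℂ) i j ∈ integers K := by
      rw [Matrix.one_apply]
      split_ifs
      · exact one_mem _
      · exact zero_mem _
    have : ((1 : Matrix (Fin (k + 1 + 1)) (Fin (k + 1 + 1)) ℂ) +
        ((N₀ : ℂ) * β) • (Q * M₁ * Q⁻¹).map (fun x : K => (x : ℂ)) +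
          (starRingEnd ℂ) ((N₀ : ℂ) * β) • (Q * M₂ * Q⁻¹).map (fun x : K => (x : ℂ)) +
          (((N₀ : ℂ) * β) * (starRingEnd ℂ) ((N₀ : ℂ) * β)) •
            (Q * M₃ * Q⁻¹).map (fun x : K => (x : ℂ))) i j =
        (1 : Matrix (Fin (k + 1 + 1)) (Fin (k + 1 + 1)) ℂ) i j +
          β * ((N₀ : ℂ) * ((Q * M₁ * Q⁻¹) i j : K)) +
          (starRingEnd ℂ) β * ((N₀ : ℂ) * ((Q * M₂ * Q⁻¹) i j : K)) +
          (N₀ : ℂ) * (β * ((starRingEnd ℂ) β * ((N₀ : ℂ) * ((Q * M₃ * Q⁻¹) i j : K)))) := by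
      simp only [Matrix.add_apply, Matrix.smul_apply, Matrix.map_apply, smul_eq_mul, map_mul,
        Complex.conj_natCast]
      ring
    rw [this]
    exact add_mem (add_mem (add_mem hone (mul_mem hβ d1)) (mul_mem hβ' d2))
      (mul_mem h0 (mul_mem hβ (mul_mem hβ' d3)))
  have hmem : ∀ β ∈ integers K, t ((N₀ : ℂ) * β * μ) ∈ integralPoints (k + 1) K B := by
    intro β hβ
    refine ⟨hint β hβ, ?_⟩
    rw [htinv, show -((N₀ : ℂ) * β * μ) = (N₀ : ℂ) * (-β) * μ by ring]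
    exact hint _ (neg_mem hβ)
  refine ⟨(Γ.relIndex (integralPoints (k + 1) K B)).factorial * N₀,
    Nat.mul_pos (Nat.factorial_pos _) hN₀, fun β hβ => ?_⟩
  refine ⟨t ((N₀ : ℂ) * β * μ) ^ (Γ.relIndex (integralPoints (k + 1) K B)).factorial, ?_, ?_⟩
  · exact (Subgroup.pow_mem_of_relIndex_ne_zero_of_dvd hc.1 (hmem β hβ)
      fun m hm0 hm => Nat.dvd_factorial hm0 hm).1
  · rw [toMatrix_pow, htm, T_pow _ _ hw (hwx _)]
    congr 1
    ext i
    refine Fin.cases ?_ (fun i => ?_) i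
    · simp
      ring
    · simp

end Pool.Agent.Lib.MP_5d4057_al.Hyb
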