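import Pool.Agent.Lib.MP_5d4057_al.Hyb.Norm
import Pool.Agent.Lib.MP_5d4057_al.Hyb.Tin
import Pool.Agent.Lib.MP_5d4057_al.Hyb.Cent

namespace Pool.Agent.Lib.MP_5d4057_al.Hyb

open Matrix Pool.Agent.Lib.MP_5d4057_al

/-- A CM field contains a nonreal algebraic integer (`exists_denom` for a nonreal element). -/
theorem exists_theta {K : Subfield ℂ} (hcm : IsCM K) :
    ∃ θ ∈ integers K, (starRingEnd ℂ) θ ≠ θ := by
  obtain ⟨x, hx, hne⟩ := hcm.2.1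
  obtain ⟨N, hN, hi⟩ := exists_denom hcm.1 (ι := Unit) (fun _ => (⟨x, hx⟩ : K))
  refine ⟨(N : ℂ) * x, hi (), fun h => hne ?_⟩
  rw [map_mul, Complex.conj_natCast] at h
  exact mul_left_cancel₀ (Nat.cast_ne_zero.2 hN.ne') h

/-- The commutator of two Heisenberg translations of `Γ` is a vertical translation in `Γ`
(`T_comm`; the matrices are invertible). -/
theorem comm_mem {m : ℕ} (Γ : Subgroup (SUGroup m)) (w x y : Fin (m + 1) → ℂ) (hw : hm m w w = 0)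
    (hx : hm m w x = 0) (hy : hm m w y = 0) (h1 : ∃ γ ∈ Γ, γ.toMatrix = T m w x)
    (h2 : ∃ γ ∈ Γ, γ.toMatrix = T m w y) :
    ∃ γ ∈ Γ, γ.toMatrix = Z m w (hm m y x - hm m x y) := by
  obtain ⟨γ₁, hm1, h1⟩ := h1
  obtain ⟨γ₂, hm2, h2⟩ := h2
  refine ⟨(γ₁ * γ₂) * (γ₂ * γ₁)⁻¹,
    Γ.mul_mem (Γ.mul_mem hm1 hm2) (Γ.inv_mem (Γ.mul_mem hm2 hm1)), ?_⟩
  have h3 : (γ₁ * γ₂).toMatrix = Z m w (hm m y x - hm m x y) * (γ₂ * γ₁).toMatrix := by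
    rw [toMatrix_mul, toMatrix_mul, h1, h2]
    exact T_comm w x y hw hx hy
  rw [toMatrix_mul, h3, Matrix.mul_assoc, toMatrix_mul_inv, Matrix.mul_one]

private theorem angle_conj_sub (u : ℂ) :
    (starRingEnd ℂ) u - u = ((-2 * u.im : ℝ) : ℂ) * Complex.I := by
  apply Complex.ext
  · simp
  · simp
    ring

private theorem angle_hm_zero {m : ℕ} (v : Fin (m + 1) → ℂ) : hm m v 0 = 0 := by
  rw [hm, mulVec_zero, dotProduct_zero]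

/-- Rationality of the angle. Put `w = D x`, `w' = g₀ (0, 0, w)`. By `hT`, `dsum_T`, `conj_T`, for
`α ∈ integers K` the group `Γ'` contains `T (k+2) w' (x₀ α)` with
`x₀ α = g₀ (0, N 0 * α * μ 0, 0)`; and, by `hg`, `T_smul`, `bsum_mulVec_cons`, for
`β ∈ integers K` it contains `T (k+2) w' (x₁ β)` with
`x₁ β = g₀ (X 0 1 * N 1 * β * μ 1, X 1 1 * N 1 * β * μ 1, 0)`. By `hm_mulVec` and `hm_cons`
`⟨x₀ α, x₁ β⟩ = N 0 * N 1 * conj α * β * z` with `z = conj (μ 0) * μ 1 * X 1 1` and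
`⟨x₀ α, x₀ β⟩ = N 0 ^ 2 * conj α * β * q 0`. Take `θ` from `exists_theta`. By `comm_mem` the group
`Γ'` contains `Z w' κ` with `κ = N 0 * N 1 * (conj (β z) - β z)` for all `β ∈ integers K`, and
`Z w' κ₁` with `κ₁ = N 0 ^ 2 * q 0 * (conj θ - θ) ≠ 0`; all these numbers are purely imaginary, so by
`rat_of_discrete` `κ ∈ ℚ κ₁ ⊆ K`. With `β = 1` and `β = θ`: `p = conj z - z ∈ K` and
`s = conj θ * conj z - θ * z ∈ K`, so `z = (s - conj θ * p) / (conj θ - θ) ∈ K`. -/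
theorem angle_mem {k : ℕ} {K : Subfield ℂ} (hcm : IsCM K)
    {D : Matrix (Fin (k + 1)) (Fin (k + 1)) ℂ} {HD : Matrix (Fin (k + 1)) (Fin (k + 1)) K}
    {μ : Fin 2 → ℂ} {q : Fin 2 → K} (hn : IsNF k K D HD μ q) (x : Fin (k + 1) → K) (hx0 : x ≠ 0)
    (hx : hm k (D *ᵥ fun i => (x i : ℂ)) (D *ᵥ fun i => (x i : ℂ)) = 0)
    (Γ : Fin 2 → Subgroup (SUGroup (k + 1))) (N : Fin 2 → ℕ) (hN : ∀ b, 0 < N b)
    (hT : ∀ b, ∀ β ∈ integers K, ∃ γ ∈ Γ b, γ.toMatrix =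
      T (k + 1) (Fin.cons 0 (D *ᵥ fun i => (x i : ℂ))) (Fin.cons ((N b : ℂ) * β * μ b) 0))
    (g : Fin 2 → SUGroup (k + 2)) (X : Matrix (Fin 2) (Fin 2) ℂ) (ζ : ℂ) (hζ : star ζ * ζ = 1)
    (hg : (g 1).toMatrix = (g 0).toMatrix * (ζ • bsum X 1)) (Γ' : Subgroup (SUGroup (k + 2)))
    (hd : DiscreteTopology Γ') (hsub : ∀ b, ∀ γ ∈ Γ b, g b * extend (k + 1) γ * (g b)⁻¹ ∈ Γ') :
    star (μ 0) * μ 1 * X 1 1 ∈ K := by
  set w : Fin (k + 1) → ℂ := D *ᵥ fun i => (x i : ℂ) with hw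
  set W : Fin (k + 2 + 1) → ℂ := Fin.cons 0 (Fin.cons 0 w) with hW
  set w' : Fin (k + 2 + 1) → ℂ := (g 0).toMatrix *ᵥ W with hw'
  obtain ⟨z, hz⟩ : ∃ z, z = star (μ 0) * μ 1 * X 1 1 := ⟨_, rfl⟩
  rw [← hz]
  obtain ⟨y₀, hy₀⟩ : ∃ y₀ : ℂ → Fin (k + 2 + 1) → ℂ, ∀ α, y₀ α =
      Fin.cons 0 (Fin.cons ((N 0 : ℂ) * α * μ 0) 0) := ⟨_, fun _ => rfl⟩
  obtain ⟨y₁, hy₁⟩ : ∃ y₁ : ℂ → Fin (k + 2 + 1) → ℂ, ∀ β, y₁ β =
      Fin.cons (X 0 1 * ((N 1 : ℂ) * β * μ 1)) (Fin.cons (X 1 1 * ((N 1 : ℂ) * β * μ 1)) 0) :=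
    ⟨_, fun _ => rfl⟩
  -- the translations in `Γ'`
  have hmem : ∀ b, ∀ β ∈ integers K, ∃ γ ∈ Γ', γ.toMatrix = T (k + 2) ((g b).toMatrix *ᵥ W)
      ((g b).toMatrix *ᵥ Fin.cons 0 (Fin.cons ((N b : ℂ) * β * μ b) 0)) := by
    intro b β hβ
    obtain ⟨γ, hγ, he⟩ := hT b β hβ
    refine ⟨_, hsub b γ hγ, ?_⟩
    rw [toMatrix_mul, toMatrix_mul, extend_toMatrix, he, dsum_T, conj_T]
  have hm0 : ∀ α ∈ integers K, ∃ γ ∈ Γ', γ.toMatrix =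
      T (k + 2) w' ((g 0).toMatrix *ᵥ y₀ α) := by
    intro α hα
    rw [hy₀]
    exact hmem 0 α hα
  have hm1 : ∀ β ∈ integers K, ∃ γ ∈ Γ', γ.toMatrix =
      T (k + 2) w' ((g 0).toMatrix *ᵥ y₁ β) := by
    intro β hβ
    obtain ⟨γ, hγ, he⟩ := hmem 1 β hβ
    refine ⟨γ, hγ, ?_⟩
    rw [he, hg]
    have e1 : ((g 0).toMatrix * (ζ • bsum X (1 : Matrix (Fin (k + 1)) (Fin (k + 1)) ℂ))) *ᵥ W =
        ζ • w' := by
      rw [hw', hW, ← mulVec_mulVec, smul_mulVec, bsum_mulVec_cons, mulVec_smul]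
      simp
    have e2 : ((g 0).toMatrix * (ζ • bsum X (1 : Matrix (Fin (k + 1)) (Fin (k + 1)) ℂ))) *ᵥ
        Fin.cons 0 (Fin.cons ((N 1 : ℂ) * β * μ 1) 0) = ζ • ((g 0).toMatrix *ᵥ y₁ β) := by
      rw [hy₁, ← mulVec_mulVec, smul_mulVec, bsum_mulVec_cons, mulVec_smul]
      simp
    rw [e1, e2, T_smul _ _ ζ hζ]
  -- the values of the form
  have f1 : hm (k + 2) w' w' = 0 := by
    rw [hw', hm_mulVec, hW, hm_cons, hm_cons, hx]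
    simp
  have f2 : ∀ α, hm (k + 2) w' ((g 0).toMatrix *ᵥ y₀ α) = 0 := by
    intro α
    rw [hw', hm_mulVec, hW, hy₀, hm_cons, hm_cons, angle_hm_zero]
    simp
  have f3 : ∀ β, hm (k + 2) w' ((g 0).toMatrix *ᵥ y₁ β) = 0 := by
    intro β
    rw [hw', hm_mulVec, hW, hy₁, hm_cons, hm_cons, angle_hm_zero]
    simp
  have f4 : ∀ β, hm (k + 2) ((g 0).toMatrix *ᵥ y₀ 1) ((g 0).toMatrix *ᵥ y₁ β) =
      (N 0 : ℂ) * N 1 * (β * z) := by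
    intro β
    rw [hm_mulVec, hy₀, hy₁, hm_cons, hm_cons, angle_hm_zero, hz]
    simp
    ring
  have f5 : ∀ α, hm (k + 2) ((g 0).toMatrix *ᵥ y₀ 1) ((g 0).toMatrix *ᵥ y₀ α) =
      (N 0 : ℂ) * N 0 * q 0 * α := by
    intro α
    rw [hm_mulVec, hy₀, hy₀, hm_cons, hm_cons, angle_hm_zero, hn.q_eq 0]
    simp
    ring
  obtain ⟨θ, hθ, hθne⟩ := exists_theta hcm
  have hθK : θ ∈ K := hθ.1
  have h1K : (1 : ℂ) ∈ integers K := (integers K).one_mem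
  have hw'0 : w' ≠ 0 := by
    intro h0
    have h1 : W = 0 := by
      have h2 : ((g 0)⁻¹).toMatrix *ᵥ w' = W := by
        rw [hw', mulVec_mulVec, toMatrix_inv_mul, one_mulVec]
      rw [← h2, h0, mulVec_zero]
    have h3 : w = 0 := by
      ext i
      exact congrFun h1 i.succ.succ
    have h4 : (fun i => (x i : ℂ)) = 0 := by
      have h5 : D⁻¹ *ᵥ w = fun i => (x i : ℂ) := by
        rw [hw, mulVec_mulVec, Matrix.nonsing_inv_mul _ (isUnit_iff_ne_zero.2 hn.det), one_mulVec]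
      rw [← h5, h3, mulVec_zero]
    apply hx0
    ext i
    exact congrFun h4 i
  have hq : (q 0 : ℂ) = ((Complex.normSq (μ 0) : ℝ) : ℂ) := by
    rw [hn.q_eq 0]
    exact (Complex.normSq_eq_conj_mul_self (z := μ 0)).symm
  -- the commutators
  have hb : (((N 0 : ℝ) * N 0 * Complex.normSq (μ 0)) * (-2 * θ.im)) ≠ 0 := by
    have h1 : (N 0 : ℝ) ≠ 0 := Nat.cast_ne_zero.2 (hN 0).ne'
    have h2 : Complex.normSq (μ 0) ≠ 0 := by
      rw [Ne, Complex.normSq_eq_zero]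
      exact hn.μ_ne 0
    have h3 : θ.im ≠ 0 := fun h => hθne (Complex.conj_eq_iff_im.2 h)
    exact mul_ne_zero (mul_ne_zero (mul_ne_zero h1 h1) h2) (mul_ne_zero (by norm_num) h3)
  have g1 : ∃ γ ∈ Γ', γ.toMatrix = Z (k + 2) w'
      (((((N 0 : ℝ) * N 0 * Complex.normSq (μ 0)) * (-2 * θ.im) : ℝ) : ℂ) * Complex.I) := by
    have h1 := comm_mem Γ' w' _ _ f1 (f2 1) (f2 θ) (hm0 1 h1K) (hm0 θ hθ)
    rw [← hm_star, f5] at h1
    have e1 : star ((N 0 : ℂ) * N 0 * q 0 * θ) - (N 0 : ℂ) * N 0 * q 0 * θ =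
        (((((N 0 : ℝ) * N 0 * Complex.normSq (μ 0)) * (-2 * θ.im) : ℝ) : ℂ) * Complex.I) := by
      have h2 := angle_conj_sub θ
      rw [hq]
      push_cast at h2 ⊢
      have h3 : star ((N 0 : ℂ) * N 0 * ((Complex.normSq (μ 0) : ℝ) : ℂ) * θ) =
          (N 0 : ℂ) * N 0 * ((Complex.normSq (μ 0) : ℝ) : ℂ) * (starRingEnd ℂ) θ := by
        show (starRingEnd ℂ) _ = _
        rw [map_mul, map_mul, map_mul, Complex.conj_natCast, Complex.conj_ofReal]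
      rw [h3]
      linear_combination ((N 0 : ℂ) * N 0 * ((Complex.normSq (μ 0) : ℝ) : ℂ)) * h2
    rw [e1] at h1
    exact h1
  have g2 : ∀ β ∈ integers K, (starRingEnd ℂ) (β * z) - β * z ∈ K := by
    intro β hβ
    have h1 := comm_mem Γ' w' _ _ f1 (f2 1) (f3 β) (hm0 1 h1K) (hm1 β hβ)
    rw [← hm_star, f4] at h1
    have h2 := angle_conj_sub (β * z)
    have e1 : star ((N 0 : ℂ) * N 1 * (β * z)) - (N 0 : ℂ) * N 1 * (β * z) =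
        ((((N 0 : ℝ) * N 1) * (-2 * (β * z).im) : ℝ) : ℂ) * Complex.I := by
      push_cast at h2 ⊢
      have h3 : star ((N 0 : ℂ) * N 1 * (β * z)) = (N 0 : ℂ) * N 1 * (starRingEnd ℂ) (β * z) := by
        show (starRingEnd ℂ) _ = _
        rw [map_mul, map_mul, Complex.conj_natCast, Complex.conj_natCast]
      rw [h3]
      linear_combination ((N 0 : ℂ) * N 1) * h2
    rw [e1] at h1
    obtain ⟨r, hr⟩ := rat_of_discrete Γ' hd w' hw'0 f1 _ _ hb h1 g1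
    have h4 : (starRingEnd ℂ) (β * z) - β * z =
        (r : ℂ) * ((N 0 : ℂ) * N 0 * q 0) * ((starRingEnd ℂ) θ - θ) / ((N 0 : ℂ) * N 1) := by
      have hN0 : (N 0 : ℂ) ≠ 0 := Nat.cast_ne_zero.2 (hN 0).ne'
      have hN1 : (N 1 : ℂ) ≠ 0 := Nat.cast_ne_zero.2 (hN 1).ne'
      rw [eq_div_iff (mul_ne_zero hN0 hN1), h2, hq, angle_conj_sub θ]
      have h5 := congrArg (fun t : ℝ => (t : ℂ)) hr
      push_cast at h5 ⊢
      linear_combination Complex.I * h5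
    rw [h4]
    refine K.div_mem (K.mul_mem (K.mul_mem (SubfieldClass.ratCast_mem K r) (K.mul_mem (K.mul_mem
      (natCast_mem K _) (natCast_mem K _)) (q 0).2)) (K.sub_mem (hcm.2.2.1 θ hθK) hθK))
      (K.mul_mem (natCast_mem K _) (natCast_mem K _))
  have hp := g2 1 h1K
  have hs := g2 θ hθ
  rw [one_mul] at hp
  have hne : (starRingEnd ℂ) θ - θ ≠ 0 := sub_ne_zero.2 hθne
  have hfin : z = (((starRingEnd ℂ) (θ * z) - θ * z) - (starRingEnd ℂ) θ *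
      ((starRingEnd ℂ) z - z)) / ((starRingEnd ℂ) θ - θ) := by
    rw [eq_div_iff hne, map_mul]
    ring
  rw [hfin]
  exact K.div_mem (K.sub_mem hs (K.mul_mem (hcm.2.2.1 θ hθK) hp))
    (K.sub_mem (hcm.2.2.1 θ hθK) hθK)

end Pool.Agent.Lib.MP_5d4057_al.Hyb
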