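import Pool.Agent.Lib.MP_5d4057_al.Hyb.Cov

namespace Pool.Agent.Lib.MP_5d4057_al.Hyb

open MeasureTheory Pool.Agent.Lib.MP_5d4057_al ENNReal

private theorem covb_nhds {G : Type} [Group G] [TopologicalSpace G]
    [IsTopologicalGroup G] [LocallyCompactSpace G] (N : Set G) (hN : IsOpen N) (h1 : 1 ∈ N) :
    ∃ U : Set G, IsOpen U ∧ 1 ∈ U ∧ (∀ a ∈ U, ∀ b ∈ U, a⁻¹ * b ∈ N) ∧
      ∃ K : Set G, IsCompact K ∧ U ⊆ K := by
  have hc : Continuous fun p : G × G => p.1⁻¹ * p.2 := by fun_prop
  have h2 : (fun p : G × G => p.1⁻¹ * p.2) ⁻¹' N ∈ nhds ((1 : G), (1 : G)) := by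
    refine hc.continuousAt.preimage_mem_nhds ?_
    simpa using hN.mem_nhds h1
  rw [nhds_prod_eq, Filter.mem_prod_iff] at h2
  obtain ⟨V, hV, W, hW, hVW⟩ := h2
  obtain ⟨K, hK, hK1⟩ := exists_compact_mem_nhds (1 : G)
  refine ⟨interior V ∩ interior W ∩ interior K, ?_, ?_, ?_, K, hK, ?_⟩
  · exact (isOpen_interior.inter isOpen_interior).inter isOpen_interior
  · exact ⟨⟨mem_interior_iff_mem_nhds.2 hV, mem_interior_iff_mem_nhds.2 hW⟩,
      mem_interior_iff_mem_nhds.2 hK1⟩
  · intro a ha b hb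
    exact hVW (Set.mk_mem_prod (interior_subset ha.1.1) (interior_subset hb.1.2))
  · intro a ha
    exact interior_subset ha.2

/-- A lattice has finite index in a discrete overgroup (up to commensurability). Let `ν`, `C` be
from `exists_measure`. `ν` is a Haar measure (left invariant, finite on compact sets, nonzero, so
positive on nonempty open sets). By uniqueness of Haar measure (`isMulLeftInvariant_eq_smul` or
`modularCharacterFun`) there is for each `g` a constant `c g ∈ (0, ∞)` with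
`ν (A * g) = c g * ν A` for all Borel `A`; `c (g * h) = c g * c h`, and `c γ = 1` for `γ ∈ Γ`.
Take an open `N' ∋ 1` with compact closure (so `0 < ν N' < ∞`) and `N'⁻¹ * N' ⊆ N` (symmetric, small).
For `l₁, …, l_r ∈ Λ` in distinct cosets of `Γ ∩ Λ` (i.e. `l_i⁻¹ * l_j ∉ Γ`) the set
`A = ⋃ N' * l_i` is injective modulo `Γ` and the union is disjoint: if
`n₁ l_i γ = n₂ l_j` with `n₁, n₂ ∈ N'`, `γ ∈ Γ`, then `n₁⁻¹ * n₂ = l_i * γ * l_j⁻¹ ∈ N`, so it is `1`
by `hsep`, hence `n₁ = n₂`, `l_i γ = l_j`, so `i = j` and `γ = 1`. So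
`∑ c (l_i) * ν N' ≤ C` (the same with `γ = 1` shows disjointness).
If `c ≠ 1` somewhere on `Λ`, then `c l > 1` for some `l ∈ Λ`; `l ^ j`, `j = 0, …, r - 1`, are in
distinct cosets of `Γ` because `c = 1` on `Γ`, and `r * ν N' ≤ C` for all `r`, a contradiction. So
`c = 1` on `Λ`, the number of cosets `r` satisfies `r * ν N' ≤ C` and the index is finite. -/
theorem relIndex_ne_zero_of_isLattice {G : Type} [Group G] [TopologicalSpace G]
    [IsTopologicalGroup G] [SecondCountableTopology G] [LocallyCompactSpace G] [T2Space G]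
    (Γ Λ : Subgroup G) (hΓ : IsLattice Γ) (N : Set G) (hN : IsOpen N) (h1 : 1 ∈ N)
    (hsep : ∀ a ∈ Λ, ∀ c ∈ Γ, ∀ b ∈ Λ, a * c * b ∈ N → a * c * b = 1) :
    Γ.relIndex Λ ≠ 0 := by
  letI : MeasurableSpace G := borel G
  haveI : BorelSpace G := ⟨rfl⟩
  obtain ⟨ν, C, hC, hν0, hleft, hcomp, hright, hinj⟩ := exists_measure Γ hΓ
  obtain ⟨U, hUo, h1U, hUN, K, hK, hUK⟩ := covb_nhds N hN h1
  haveI : Measure.IsMulLeftInvariant ν := by
    refine ⟨fun g => ?_⟩
    refine Measure.ext fun A hA => ?_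
    rw [Measure.map_apply (measurable_const_mul g) hA]
    exact hleft g A hA
  haveI : IsFiniteMeasureOnCompacts ν := ⟨fun S hS => (hcomp S hS).lt_top⟩
  haveI : NeZero ν := ⟨hν0⟩
  haveI : Measure.IsOpenPosMeasure ν := isOpenPosMeasure_of_mulLeftInvariant_of_regular
  haveI : Measure.IsHaarMeasure ν := {}
  -- the modular function
  let c : G → NNReal := fun g => Measure.modularCharacterFun g⁻¹
  have hcU : ∀ (g : G) (A : Set G), MeasurableSet A → ν ((fun x => x * g⁻¹) ⁻¹' A) = c g * ν A := by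
    intro g A hA
    have h2 : Measure.map (· * g⁻¹) ν = Measure.modularCharacterFun g⁻¹ • ν := by
      rw [Measure.modularCharacterFun_eq_haarScalarFactor ν _]
      exact Measure.isMulLeftInvariant_eq_smul _ ν
    have h3 : (Measure.map (· * g⁻¹) ν) A = (Measure.modularCharacterFun g⁻¹ • ν) A := by rw [h2]
    rw [Measure.map_apply (measurable_mul_const g⁻¹) hA] at h3
    rw [h3]
    rfl
  have hcpos : ∀ g, 0 < c g := fun g => Measure.modularCharacterFun_pos _
  have hcmul : ∀ g h, c (g * h) = c g * c h := by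
    intro g h
    show Measure.modularCharacterFun (g * h)⁻¹ = _
    rw [mul_inv_rev, Measure.modularCharacterFun_map_mul, mul_comm]
  have hcone : c 1 = 1 := by
    show Measure.modularCharacterFun (1 : G)⁻¹ = 1
    rw [inv_one, Measure.modularCharacterFun_map_one]
  have hcpow : ∀ (g : G) (n : ℕ), c (g ^ n) = c g ^ n := by
    intro g n
    induction n with
    | zero => simpa using hcone
    | succ n ih => rw [pow_succ, hcmul, ih, pow_succ]
  have hUpos : 0 < ν U := hUo.measure_pos ν ⟨1, h1U⟩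
  have hUfin : ν U ≠ ⊤ := ((measure_mono hUK).trans_lt (hcomp K hK).lt_top).ne
  have hUmeas : MeasurableSet U := hUo.measurableSet
  have hcΓ : ∀ g ∈ Γ, c g = 1 := by
    intro g hg
    have h2 := hcU g U hUmeas
    rw [hright g⁻¹ (Γ.inv_mem hg) U hUmeas] at h2
    have h3 : (1 : ℝ≥0∞) * ν U = (c g : ℝ≥0∞) * ν U := by rw [one_mul]; exact h2
    have h4 := (ENNReal.mul_left_inj hUpos.ne' hUfin).1 h3
    exact_mod_cast h4.symm
  -- no infinite family
  have hfam : ∀ l : ℕ → G, (∀ i, l i ∈ Λ) → (∀ i j, (l i)⁻¹ * l j ∈ Γ → i = j) →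
      (∀ i, 1 ≤ c (l i)) → False := by
    intro l hl hlΓ hcl
    have key : ∀ i j : ℕ, ∀ a b : G, a * (l i)⁻¹ ∈ U → b * (l j)⁻¹ ∈ U → a⁻¹ * b ∈ Γ →
        i = j ∧ a = b := by
      intro i j a b ha hb hab
      have h2 := hUN _ ha _ hb
      have h3 : (a * (l i)⁻¹)⁻¹ * (b * (l j)⁻¹) = l i * (a⁻¹ * b) * (l j)⁻¹ := by group
      rw [h3] at h2
      have h4 := hsep _ (hl i) _ hab _ (Λ.inv_mem (hl j)) h2
      have h5 : a⁻¹ * b = (l i)⁻¹ * l j := by
        rw [mul_inv_eq_one] at h4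
        rw [← h4]
        group
      have h6 : i = j := hlΓ i j (by rw [← h5]; exact hab)
      refine ⟨h6, ?_⟩
      subst h6
      rw [inv_mul_cancel] at h5
      exact inv_mul_eq_one.1 h5
    have hbound : ∀ r : ℕ, (r : ℝ≥0∞) * ν U ≤ C := by
      intro r
      let A : Set G := ⋃ i ∈ Finset.range r, (fun x => x * (l i)⁻¹) ⁻¹' U
      have hAm : MeasurableSet A :=
        Finset.measurableSet_biUnion _ fun i _ => measurable_mul_const _ hUmeas
      have h2 : ν A ≤ C := by
        refine hinj A hAm fun a ha b hb hab => ?_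
        simp only [A, Set.mem_iUnion] at ha hb
        obtain ⟨i, _, ha⟩ := ha
        obtain ⟨j, _, hb⟩ := hb
        exact (key i j a b ha hb hab).2
      have h3 : ν A = ∑ i ∈ Finset.range r, ν ((fun x => x * (l i)⁻¹) ⁻¹' U) := by
        refine measure_biUnion_finset ?_ fun i _ => measurable_mul_const _ hUmeas
        intro i _ j _ hij
        refine Set.disjoint_left.2 fun a ha hb => hij ?_
        exact (key i j a a ha hb (by rw [inv_mul_cancel]; exact Γ.one_mem)).1
      refine le_trans ?_ h2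
      rw [h3]
      calc (r : ℝ≥0∞) * ν U = ∑ _i ∈ Finset.range r, ν U := by
            rw [Finset.sum_const, Finset.card_range, nsmul_eq_mul]
        _ ≤ _ := by
            refine Finset.sum_le_sum fun i _ => ?_
            rw [hcU _ _ hUmeas]
            calc ν U = 1 * ν U := (one_mul _).symm
              _ ≤ _ := by
                gcongr
                exact_mod_cast hcl i
    obtain ⟨r, hr⟩ := ENNReal.exists_nat_mul_gt hUpos.ne' hC
    exact absurd (hbound r) (not_le.2 hr)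
  intro h0
  by_cases hcΛ : ∀ l ∈ Λ, c l = 1
  · rw [Subgroup.relIndex, Subgroup.index_eq_zero_iff_infinite] at h0
    obtain ⟨e⟩ : Nonempty (ℕ ↪ (Λ ⧸ Γ.subgroupOf Λ)) := ⟨Infinite.natEmbedding _⟩
    refine hfam (fun i => ((e i).out : Λ)) (fun i => ((e i).out : Λ).2) (fun i j hij => ?_)
      (fun i => (hcΛ _ ((e i).out : Λ).2).ge)
    apply e.injective
    rw [← QuotientGroup.out_eq' (e i), ← QuotientGroup.out_eq' (e j)]
    refine QuotientGroup.eq.2 ?_
    rw [Subgroup.mem_subgroupOf]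
    exact hij
  · push_neg at hcΛ
    obtain ⟨l, hl, hcl⟩ := hcΛ
    obtain ⟨l, hl, hcl⟩ : ∃ l ∈ Λ, 1 < c l := by
      rcases lt_or_gt_of_ne hcl with h2 | h2
      · refine ⟨l⁻¹, Λ.inv_mem hl, ?_⟩
        have h3 : c l * c l⁻¹ = 1 := by rw [← hcmul, mul_inv_cancel, hcone]
        by_contra h4
        rw [not_lt] at h4
        have h5 : c l * c l⁻¹ ≤ c l * 1 := by gcongr
        rw [h3, mul_one] at h5
        exact absurd h2 (not_lt.2 h5)
      · exact ⟨l, hl, h2⟩
    have hinjp : Function.Injective fun n : ℕ => c l ^ n :=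
      (pow_right_strictMono₀ hcl).injective
    refine hfam (fun i => l ^ i) (fun i => Λ.pow_mem hl i) (fun i j hij => ?_) (fun i => ?_)
    · have h2 := hcΓ _ hij
      have h3 : c (l ^ j) = c (l ^ i) := by
        have : l ^ j = l ^ i * ((l ^ i)⁻¹ * l ^ j) := by group
        rw [this, hcmul, h2, mul_one]
      rw [hcpow, hcpow] at h3
      exact (hinjp h3).symm
    · rw [hcpow]
      exact one_le_pow₀ hcl.le

end Pool.Agent.Lib.MP_5d4057_al.Hyb
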