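import Pool.Agent.Lib.MP_5d4057_al.Hyb.Phi
import Pool.Agent.Lib.MP_5d4057_al.Hyb.Denom

namespace Pool.Agent.Lib.MP_5d4057_al.Hyb

open Matrix Pool.Agent.Lib.MP_5d4057_al

private theorem den_natCast_mem {K : Subfield ℂ} (N : ℕ) : (N : ℂ) ∈ integers K :=
  natCast_mem (integers K) N

private theorem den_span_conj {n : ℕ} (B : Matrix (Fin n) (Fin n) ℂ) (hB : IsUnit B.det)
    (S : Set (Matrix (Fin n) (Fin n) ℂ)) (hS : Submodule.span ℂ S = ⊤) :
    Submodule.span ℂ ((fun A => B⁻¹ * A * B) '' S) = ⊤ := by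
  let f : Matrix (Fin n) (Fin n) ℂ →ₗ[ℂ] Matrix (Fin n) (Fin n) ℂ :=
    { toFun := fun A => B⁻¹ * A * B
      map_add' := fun A A' => by rw [Matrix.mul_add, Matrix.add_mul]
      map_smul' := fun c A => by simp }
  have hf : ∀ A, f A = B⁻¹ * A * B := fun A => rfl
  have h1 : (fun A => B⁻¹ * A * B) '' S = f '' S := rfl
  rw [h1, Submodule.span_image, hS, Submodule.map_top, LinearMap.range_eq_top]
  intro A
  refine ⟨B * A * B⁻¹, ?_⟩
  rw [hf]
  calc B⁻¹ * (B * A * B⁻¹) * B = (B⁻¹ * B) * A * (B⁻¹ * B) := by simp only [Matrix.mul_assoc]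
    _ = A := by rw [Matrix.nonsing_inv_mul B hB, Matrix.one_mul, Matrix.mul_one]

/-- Integral traces imply bounded denominators. For `i, j` the matrix unit `single j i 1` lies in the
complex span of `{B⁻¹ * γ * B | γ ∈ Γ}` (everything), so by `mem_span_of_entries` it is a finite sum
`∑ x_l • (B⁻¹ * γ_l * B)` with `x_l ∈ K`, `γ_l ∈ Γ`. For `γ ∈ Γ`:
`(B⁻¹ * γ * B) i j = tr (single j i 1 * (B⁻¹ * γ * B)) = ∑ x_l * tr (γ_l * γ)`, and the traces are in
`integers K` (they are in `K` by `hr` and integral by `hint`). Take a common denominator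
`exists_denom` of the finitely many `x_l` (all `i, j`). -/
theorem exists_bounded_denom {m : ℕ} {K : Subfield ℂ} (hK : NumberField K)
    (B : Matrix (Fin (m + 1)) (Fin (m + 1)) ℂ) (hB : B.det ≠ 0) (Γ : Subgroup (SUGroup m))
    (hspan : Submodule.span ℂ (SUGroup.toMatrix '' (Γ : Set (SUGroup m))) = ⊤)
    (hr : ∀ γ ∈ Γ, EntriesIn K B γ.toMatrix) (hint : ∀ γ ∈ Γ, IsIntegral ℤ γ.toMatrix.trace) :
    ∃ N : ℕ, 0 < N ∧ ∀ γ ∈ Γ, ∀ i j, (N : ℂ) * (B⁻¹ * γ.toMatrix * B) i j ∈ integers K := by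
  have hBu : IsUnit B.det := isUnit_iff_ne_zero.2 hB
  have htr : ∀ γ ∈ Γ, (B⁻¹ * γ.toMatrix * B).trace ∈ integers K := by
    intro γ hγ
    refine ⟨?_, ?_⟩
    · show (B⁻¹ * γ.toMatrix * B).trace ∈ K
      rw [Matrix.trace]
      exact sum_mem fun i _ => hr γ hγ i i
    · show (B⁻¹ * γ.toMatrix * B).trace ∈ integralClosure ℤ ℂ
      have : (B⁻¹ * γ.toMatrix * B).trace = γ.toMatrix.trace := by
        rw [Matrix.trace_mul_comm, ← Matrix.mul_assoc, Matrix.mul_nonsing_inv B hBu, Matrix.one_mul]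
      rw [this]
      exact hint γ hγ
  -- every element of the `K`-span has a denominator
  have key : ∀ A ∈ Submodule.span K ((fun A => B⁻¹ * A * B) ''
      (SUGroup.toMatrix '' (Γ : Set (SUGroup m)))),
      ∃ N : ℕ, 0 < N ∧ ∀ γ ∈ Γ, (N : ℂ) * (A * (B⁻¹ * γ.toMatrix * B)).trace ∈ integers K := by
    intro A hA
    induction hA using Submodule.span_induction with
    | mem x hx =>
      obtain ⟨_, ⟨γ', hγ', rfl⟩, rfl⟩ := hx
      refine ⟨1, one_pos, fun γ hγ => ?_⟩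
      have h1 : (fun A => B⁻¹ * A * B) γ'.toMatrix * (B⁻¹ * γ.toMatrix * B) =
          B⁻¹ * (γ' * γ).toMatrix * B := by
        show B⁻¹ * γ'.toMatrix * B * (B⁻¹ * γ.toMatrix * B) =
          B⁻¹ * (γ'.toMatrix * γ.toMatrix) * B
        rw [inv_mul_conj_mul]
      rw [h1, Nat.cast_one, one_mul]
      exact htr _ (Γ.mul_mem hγ' hγ)
    | zero =>
      refine ⟨1, one_pos, fun γ hγ => ?_⟩
      rw [Matrix.zero_mul, Matrix.trace_zero, mul_zero]
      exact zero_mem _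
    | add x y _ _ hx hy =>
      obtain ⟨N1, hN1, h1⟩ := hx
      obtain ⟨N2, hN2, h2⟩ := hy
      refine ⟨N1 * N2, Nat.mul_pos hN1 hN2, fun γ hγ => ?_⟩
      have e : ((N1 * N2 : ℕ) : ℂ) * ((x + y) * (B⁻¹ * γ.toMatrix * B)).trace =
          (N2 : ℂ) * ((N1 : ℂ) * (x * (B⁻¹ * γ.toMatrix * B)).trace) +
          (N1 : ℂ) * ((N2 : ℂ) * (y * (B⁻¹ * γ.toMatrix * B)).trace) := by
        rw [Matrix.add_mul, Matrix.trace_add]
        push_cast
        ring
      rw [e]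
      exact add_mem (mul_mem (den_natCast_mem _) (h1 γ hγ)) (mul_mem (den_natCast_mem _) (h2 γ hγ))
    | smul c x _ hx =>
      obtain ⟨N1, hN1, h1⟩ := hx
      obtain ⟨N2, hN2, h2⟩ := exists_denom hK (fun _ : Unit => c)
      refine ⟨N1 * N2, Nat.mul_pos hN1 hN2, fun γ hγ => ?_⟩
      have e : ((N1 * N2 : ℕ) : ℂ) * ((c • x) * (B⁻¹ * γ.toMatrix * B)).trace =
          ((N2 : ℂ) * (c : ℂ)) * ((N1 : ℂ) * (x * (B⁻¹ * γ.toMatrix * B)).trace) := by
        have : c • x = (c : ℂ) • x := rfl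
        rw [this, Matrix.smul_mul, Matrix.trace_smul, smul_eq_mul]
        push_cast
        ring
      rw [e]
      exact mul_mem (h2 ()) (h1 γ hγ)
  have hS : ∀ A ∈ (fun A => B⁻¹ * A * B) '' (SUGroup.toMatrix '' (Γ : Set (SUGroup m))),
      ∀ i j, A i j ∈ K := by
    rintro _ ⟨_, ⟨γ, hγ, rfl⟩, rfl⟩ i j
    exact hr γ hγ i j
  have hunit : ∀ i j : Fin (m + 1), ∃ N : ℕ, 0 < N ∧ ∀ γ ∈ Γ,
      (N : ℂ) * (B⁻¹ * γ.toMatrix * B) i j ∈ integers K := by
    intro i j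
    have h1 : (Matrix.single j i (1 : ℂ)) ∈ Submodule.span K ((fun A => B⁻¹ * A * B) ''
      (SUGroup.toMatrix '' (Γ : Set (SUGroup m)))) := by
      refine mem_span_of_entries K _ hS _ (fun a b => ?_) ?_
      · rw [Matrix.single_apply]
        split_ifs
        · exact K.one_mem
        · exact K.zero_mem
      · rw [den_span_conj B hBu _ hspan]
        trivial
    obtain ⟨N, hN, h2⟩ := key _ h1
    refine ⟨N, hN, fun γ hγ => ?_⟩
    have h3 := h2 γ hγ
    have h4 : (Matrix.single j i (1 : ℂ) * (B⁻¹ * γ.toMatrix * B)).trace =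
        (B⁻¹ * γ.toMatrix * B) i j := by
      exact (Matrix.trace_single_mul j i (1 : ℂ) _).trans (one_smul ℂ _)
    rwa [h4] at h3
  choose N hN h using hunit
  refine ⟨∏ p : Fin (m + 1) × Fin (m + 1), N p.1 p.2, Finset.prod_pos fun p _ => hN _ _,
    fun γ hγ i j => ?_⟩
  obtain ⟨M, hM⟩ := Finset.dvd_prod_of_mem (fun p : Fin (m + 1) × Fin (m + 1) => N p.1 p.2)
    (Finset.mem_univ (i, j))
  rw [hM]
  push_cast
  rw [mul_comm ((N i j : ℕ) : ℂ), mul_assoc]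
  exact mul_mem (den_natCast_mem _) (h i j γ hγ)

end Pool.Agent.Lib.MP_5d4057_al.Hyb
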