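import Pool.Agent.Lib.MP_5d4057_al.Hyb.Top

namespace Pool.Agent.Lib.MP_5d4057_al.Hyb

open Matrix Pool.Agent.Lib.MP_5d4057_al NumberField

private theorem denb_lift {K : Subfield ℂ} {x : ℂ} (hx : x ∈ integers K) :
    ∃ y : 𝓞 K, ((y : K) : ℂ) = x := by
  obtain ⟨h1, h2⟩ := hx
  have h2' : IsIntegral ℤ x := h2
  have h1' : x ∈ K := h1
  have h3 : IsIntegral ℤ (⟨x, h1'⟩ : K) :=
    (isIntegral_algHom_iff (K.subtype.toIntAlgHom) Subtype.val_injective).1 h2'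
  exact ⟨⟨⟨x, h1'⟩, h3⟩, rfl⟩

private theorem denb_coe_mem {K : Subfield ℂ} (y : 𝓞 K) : ((y : K) : ℂ) ∈ integers K := by
  refine ⟨(y : K).2, ?_⟩
  exact y.2.map (K.subtype.toIntAlgHom)

private theorem denb_key {m : ℕ} {K : Subfield ℂ}
    (B : Matrix (Fin (m + 1)) (Fin (m + 1)) ℂ) (hB : B.det ≠ 0) (Γ : Subgroup (SUGroup m)) (N : ℕ)
    (h : ∀ γ ∈ Γ, ∀ i j, (N : ℂ) * (B⁻¹ * γ.toMatrix * B) i j ∈ integers K)
    {γ γ' : SUGroup m} (hγ' : γ' ∈ Γ)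
    (hy : ∀ i j, ∃ y : 𝓞 K, (B⁻¹ * γ.toMatrix * B) i j - (B⁻¹ * γ'.toMatrix * B) i j =
      (N : ℂ) * ((y : K) : ℂ)) :
    EntriesIn (integers K) B (γ'⁻¹ * γ).toMatrix := by
  choose y hy using hy
  intro i j
  have hBu : IsUnit B.det := isUnit_iff_ne_zero.2 hB
  have h1 : B⁻¹ * (γ'⁻¹ * γ).toMatrix * B =
      1 + (B⁻¹ * (γ'⁻¹).toMatrix * B) * (B⁻¹ * γ.toMatrix * B - B⁻¹ * γ'.toMatrix * B) := by
    rw [Matrix.mul_sub, ← inv_mul_conj_mul, ← inv_mul_conj_mul, toMatrix_inv_mul, toMatrix_mul,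
      Matrix.mul_one, Matrix.nonsing_inv_mul B hBu]
    abel
  rw [h1, Matrix.add_apply, Matrix.mul_apply]
  refine add_mem ?_ (sum_mem fun l _ => ?_)
  · rw [Matrix.one_apply]
    split_ifs
    · exact one_mem _
    · exact zero_mem _
  · rw [Matrix.sub_apply, hy l j]
    have h2 : (B⁻¹ * (γ'⁻¹).toMatrix * B) i l * ((N : ℂ) * ((y l j : K) : ℂ)) =
        ((N : ℂ) * (B⁻¹ * (γ'⁻¹).toMatrix * B) i l) * ((y l j : K) : ℂ) := by ring
    rw [h2]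
    exact mul_mem (h _ (Γ.inv_mem hγ') i l) (denb_coe_mem _)

/-- Bounded denominators imply that the integral elements have finite index. `integers K` is
isomorphic to `𝓞 K`, and `R = 𝓞 K / (N ^ 2)` is finite. Map `γ ∈ Γ` to the reduction of
`N • (B⁻¹ * γ * B)` in the finite set of matrices over `R`. If `γ, γ'` have the same image then
`γ'⁻¹ * γ ∈ integralPoints`: `B⁻¹ γ'⁻¹ γ B = 1 + (B⁻¹ γ'⁻¹ B) * (B⁻¹ γ B - B⁻¹ γ' B)` where the first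
factor has entries in `N⁻¹ O` and the second one in `N O`; the inverse `γ⁻¹ * γ'` similarly. So there
are finitely many cosets (`Subgroup.relIndex`, `Subgroup.index_ne_zero_of_finite`). -/
theorem relIndex_ne_zero_of_denom {m : ℕ} {K : Subfield ℂ} (hK : NumberField K)
    (B : Matrix (Fin (m + 1)) (Fin (m + 1)) ℂ) (hB : B.det ≠ 0) (Γ : Subgroup (SUGroup m)) (N : ℕ)
    (hN : 0 < N)
    (h : ∀ γ ∈ Γ, ∀ i j, (N : ℂ) * (B⁻¹ * γ.toMatrix * B) i j ∈ integers K) :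
    (integralPoints m K B).relIndex Γ ≠ 0 := by
  have hN0 : (N : ℂ) ≠ 0 := by exact_mod_cast hN.ne'
  let I : Ideal (𝓞 K) := Ideal.span {((N : 𝓞 K)) ^ 2}
  have hI : I ≠ ⊥ := by
    rw [Ne, Ideal.span_singleton_eq_bot]
    exact pow_ne_zero 2 (Nat.cast_ne_zero.2 hN.ne')
  haveI : Finite (𝓞 K ⧸ I) := Ideal.finiteQuotientOfFreeOfNeBot I hI
  have hlift : ∀ (γ : Γ) (i j : Fin (m + 1)), ∃ y : 𝓞 K,
      ((y : K) : ℂ) = (N : ℂ) * (B⁻¹ * (γ : SUGroup m).toMatrix * B) i j :=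
    fun γ i j => denb_lift (h γ γ.2 i j)
  choose y hy using hlift
  let Φ : Γ → (Fin (m + 1) → Fin (m + 1) → 𝓞 K ⧸ I) := fun γ i j => Ideal.Quotient.mk I (y γ i j)
  have hdiff : ∀ γ γ' : Γ, Φ γ = Φ γ' → ∀ i j, ∃ z : 𝓞 K,
      (B⁻¹ * (γ : SUGroup m).toMatrix * B) i j - (B⁻¹ * (γ' : SUGroup m).toMatrix * B) i j =
      (N : ℂ) * ((z : K) : ℂ) := by
    intro γ γ' hΦ i j
    have h1 : Ideal.Quotient.mk I (y γ i j) = Ideal.Quotient.mk I (y γ' i j) :=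
      congrFun (congrFun hΦ i) j
    rw [Ideal.Quotient.eq, Ideal.mem_span_singleton] at h1
    obtain ⟨z, hz⟩ := h1
    refine ⟨z, ?_⟩
    have h2 : (((y γ i j : K) : ℂ)) - ((y γ' i j : K) : ℂ) = (N : ℂ) ^ 2 * ((z : K) : ℂ) := by
      have := congrArg (fun t : 𝓞 K => ((t : K) : ℂ)) hz
      simpa using this
    rw [hy, hy] at h2
    have h3 : (N : ℂ) * ((B⁻¹ * (γ : SUGroup m).toMatrix * B) i j -
        (B⁻¹ * (γ' : SUGroup m).toMatrix * B) i j) = (N : ℂ) * ((N : ℂ) * ((z : K) : ℂ)) := by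
      rw [mul_sub, h2]
      ring
    exact mul_left_cancel₀ hN0 h3
  have hmem : ∀ γ γ' : Γ, Φ γ = Φ γ' → ((γ' : SUGroup m)⁻¹ * (γ : SUGroup m)) ∈
      integralPoints m K B := by
    intro γ γ' hΦ
    refine ⟨denb_key B hB Γ N h γ'.2 (hdiff γ γ' hΦ), ?_⟩
    rw [_root_.mul_inv_rev, inv_inv]
    exact denb_key B hB Γ N h γ.2 (hdiff γ' γ hΦ.symm)
  rw [Subgroup.relIndex]
  haveI : Finite (Γ ⧸ (integralPoints m K B).subgroupOf Γ) := by
    refine Finite.of_injective (fun q : Γ ⧸ (integralPoints m K B).subgroupOf Γ => Φ q.out) ?_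
    intro q q' hqq
    have h1 := hmem _ _ hqq
    rw [← QuotientGroup.out_eq' q, ← QuotientGroup.out_eq' q']
    refine (QuotientGroup.eq.2 ?_).symm
    rw [Subgroup.mem_subgroupOf]
    exact h1
  exact Subgroup.index_ne_zero_of_finite

end Pool.Agent.Lib.MP_5d4057_al.Hyb
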