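import Pool.Agent.Lib.MP_5d4057_al.Hyb.Approx

namespace Pool.Agent.Lib.MP_5d4057_al.Hyb

open Matrix Pool.Agent.Lib.MP_5d4057_al

set_option linter.unusedSimpArgs false

/-- The null vectors `e_j + e_m` (`j < m`) and, for `j = m`, `-e_0 + e_m`. -/
noncomputable def nv (m : ℕ) (j : Fin (m + 1)) : Fin (m + 1) → ℂ :=
  if j = Fin.last m then -Pi.single 0 1 + Pi.single (Fin.last m) 1
  else Pi.single j 1 + Pi.single (Fin.last m) 1

private theorem hm_single (m : ℕ) (i j : Fin (m + 1)) :
    hm m (Pi.single i 1) (Pi.single j 1) =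
      if i = j then (if i = Fin.last m then -1 else 1) else 0 := by
  rw [hm, J, mulVec_single_one]
  have h1 : (star (Pi.single i 1 : Fin (m + 1) → ℂ)) = Pi.single i 1 := by
    ext k
    by_cases hk : k = i
    · subst hk; simp
    · simp [Pi.single_eq_of_ne hk]
  rw [h1, single_one_dotProduct]
  simp only [Matrix.col_apply, Matrix.diagonal_apply]

private theorem hm_neg_left (m : ℕ) (a b : Fin (m + 1) → ℂ) : hm m (-a) b = -hm m a b := by
  have := hm_smul_left a b (-1)
  simpa using this

private theorem hm_neg_right (m : ℕ) (a b : Fin (m + 1) → ℂ) : hm m a (-b) = -hm m a b := by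
  have := hm_smul_right a b (-1)
  simpa using this

private theorem zero_ne_last {m : ℕ} (h : 1 ≤ m) : (0 : Fin (m + 1)) ≠ Fin.last m := by
  intro h0
  have := congrArg Fin.val h0
  simp at this
  omega

/-- Direct computation for `1 ≤ m`: `⟨x, y⟩ = ∑_{i<m} conj x_i y_i - conj x_m y_m`. -/
theorem nv_null {m : ℕ} (h : 1 ≤ m) (j : Fin (m + 1)) : hm m (nv m j) (nv m j) = 0 := by
  have h0 := zero_ne_last h
  by_cases hj : j = Fin.last m
  · rw [nv, if_pos hj]
    simp only [hm_add_left, hm_add_right, hm_neg_left, hm_neg_right, hm_single]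
    simp [h0, h0.symm]
  · rw [nv, if_neg hj]
    simp only [hm_add_left, hm_add_right, hm_neg_left, hm_neg_right, hm_single]
    simp [hj, Ne.symm hj]

/-- Direct computation: the values are `-1`, or `-2` (for the pair `0, last`). -/
theorem nv_ne {m : ℕ} (h : 1 ≤ m) (i j : Fin (m + 1)) (hij : i ≠ j) :
    hm m (nv m i) (nv m j) ≠ 0 := by
  have h0 := zero_ne_last h
  by_cases hi : i = Fin.last m
  · have hj : j ≠ Fin.last m := fun hj => hij (hi.trans hj.symm)
    rw [nv, nv, if_pos hi, if_neg hj]
    simp only [hm_add_left, hm_add_right, hm_neg_left, hm_neg_right, hm_single]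
    by_cases hj0 : j = 0
    · subst hj0
      simp [h0, h0.symm]
    · simp [h0, h0.symm, hj, Ne.symm hj, hj0, Ne.symm hj0]
  · by_cases hj : j = Fin.last m
    · rw [nv, nv, if_neg hi, if_pos hj]
      simp only [hm_add_left, hm_add_right, hm_neg_left, hm_neg_right, hm_single]
      by_cases hi0 : i = 0
      · subst hi0
        simp [h0, h0.symm]
      · simp [h0, h0.symm, hi, Ne.symm hi, hi0, Ne.symm hi0]
    · rw [nv, nv, if_neg hi, if_neg hj]
      simp only [hm_add_left, hm_add_right, hm_neg_left, hm_neg_right, hm_single]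
      simp [hi, hj, Ne.symm hi, Ne.symm hj, hij]

private theorem nv_span {m : ℕ} (h : 1 ≤ m) : Submodule.span ℂ (Set.range (nv m)) = ⊤ := by
  have h0 := zero_ne_last h
  have hlast : (Pi.single (Fin.last m) 1 : Fin (m + 1) → ℂ) ∈
      Submodule.span ℂ (Set.range (nv m)) := by
    have e : (Pi.single (Fin.last m) 1 : Fin (m + 1) → ℂ) =
        (1 / 2 : ℂ) • (nv m 0 + nv m (Fin.last m)) := by
      rw [nv, nv, if_neg h0, if_pos rfl]
      ext k
      simp
      ring
    rw [e]
    exact Submodule.smul_mem _ _ (Submodule.add_mem _ (Submodule.subset_span ⟨0, rfl⟩)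
      (Submodule.subset_span ⟨Fin.last m, rfl⟩))
  have hall : ∀ j, (Pi.single j 1 : Fin (m + 1) → ℂ) ∈ Submodule.span ℂ (Set.range (nv m)) := by
    intro j
    by_cases hj : j = Fin.last m
    · rw [hj]; exact hlast
    · have e : (Pi.single j 1 : Fin (m + 1) → ℂ) = nv m j - Pi.single (Fin.last m) 1 := by
        rw [nv, if_neg hj]
        abel
      rw [e]
      exact Submodule.sub_mem _ (Submodule.subset_span ⟨j, rfl⟩) hlast
  rw [eq_top_iff]
  intro x _
  have hx : x = ∑ j, x j • (Pi.single j 1 : Fin (m + 1) → ℂ) := by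
    ext k
    simp [Finset.sum_apply, Pi.single_apply]
  rw [hx]
  exact Submodule.sum_mem _ fun j _ => Submodule.smul_mem _ _ (hall j)

/-- The vectors `nv m j` are linearly independent for `1 ≤ m`: `nv 0 + nv m = 2 e_m`, so `e_m` is in
their span, hence all `e_j`; `m + 1` spanning vectors. -/
theorem nv_linearIndependent {m : ℕ} (h : 1 ≤ m) : LinearIndependent ℂ (nv m) := by
  refine linearIndependent_of_top_le_span_of_card_eq_finrank (nv_span h).ge ?_
  simp

/-- The operators `rk m (nv m j) (nv m i)` span all matrices: `w_i ⊗ ⟨w_j, ·⟩`, where the `w_i` form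
a basis and, `J` being invertible, the functionals `⟨w_j, ·⟩` form a basis of the dual space. -/
theorem span_rk_nv {m : ℕ} (h : 1 ≤ m) :
    Submodule.span ℂ {A | ∃ i j, A = rk m (nv m j) (nv m i)} = ⊤ := by
  set S := Submodule.span ℂ {A | ∃ i j, A = rk m (nv m j) (nv m i)} with hS
  have h1 : ∀ (j : Fin (m + 1)) (b : Fin (m + 1) → ℂ), rk m (nv m j) b ∈ S := by
    intro j b
    have hb : b ∈ Submodule.span ℂ (Set.range (nv m)) := by rw [nv_span h]; trivial
    induction hb using Submodule.span_induction with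
    | mem x hx =>
      obtain ⟨i, rfl⟩ := hx
      exact Submodule.subset_span ⟨i, j, rfl⟩
    | zero =>
      have : rk m (nv m j) 0 = 0 := by rw [rk]; ext; simp [vecMulVec_apply]
      rw [this]; exact S.zero_mem
    | add x y _ _ hx hy =>
      have : rk m (nv m j) (x + y) = rk m (nv m j) x + rk m (nv m j) y := by
        rw [rk, rk, rk, add_vecMulVec]
      rw [this]; exact S.add_mem hx hy
    | smul t x _ hx =>
      have : rk m (nv m j) (t • x) = t • rk m (nv m j) x := by
        rw [rk, rk, smul_vecMulVec]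
      rw [this]; exact S.smul_mem _ hx
  have h2 : ∀ a b : Fin (m + 1) → ℂ, rk m a b ∈ S := by
    intro a b
    have ha : a ∈ Submodule.span ℂ (Set.range (nv m)) := by rw [nv_span h]; trivial
    induction ha using Submodule.span_induction with
    | mem x hx =>
      obtain ⟨i, rfl⟩ := hx
      exact h1 i b
    | zero =>
      have : rk m 0 b = 0 := by rw [rk]; ext; simp [vecMulVec_apply]
      rw [this]; exact S.zero_mem
    | add x y _ _ hx hy =>
      have : rk m (x + y) b = rk m x b + rk m y b := by
        rw [rk, rk, rk, star_add, add_vecMul, vecMulVec_add]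
      rw [this]; exact S.add_mem hx hy
    | smul t x _ hx =>
      have : rk m (t • x) b = star t • rk m x b := by
        rw [rk, rk, star_smul, smul_vecMul, vecMulVec_smul]
      rw [this]; exact S.smul_mem _ hx
  rw [eq_top_iff]
  intro A _
  have hA : A = ∑ k, ∑ l, A k l • rk m (J m *ᵥ Pi.single l 1) (Pi.single k 1) := by
    have e : ∀ k l : Fin (m + 1), rk m (J m *ᵥ Pi.single l 1) (Pi.single k 1) =
        vecMulVec (Pi.single k 1) (Pi.single l 1) := by
      intro k l
      rw [rk, star_mulVec, J_conjTranspose, vecMul_vecMul, J_mul_J, vecMul_one]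
      congr 1
      ext i
      by_cases hi : i = l
      · subst hi; simp
      · simp [Pi.single_eq_of_ne hi]
    simp only [e]
    ext i j
    simp only [Matrix.sum_apply, Matrix.smul_apply, vecMulVec_apply, Pi.single_apply, smul_eq_mul]
    rw [Finset.sum_eq_single i, Finset.sum_eq_single j]
    · simp
    · intro b _ hb
      simp [hb.symm]
    · simp
    · intro b _ hb
      simp [hb.symm]
    · simp
  rw [hA]
  exact Submodule.sum_mem _ fun k _ => Submodule.sum_mem _ fun l _ => S.smul_mem _ (h2 _ _)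

/-- A lattice in `SU(m,1)`, `m ≥ 1`, spans the matrix algebra over `ℂ`. Let `S` be the span; it
contains `Γ`, is closed under multiplication (since `Γ` is), and contains `nil m w` for all null
`w` (`nil_mem` with `S.restrictScalars ℝ`), so it contains `rk m w w`. For `i ≠ j`
`rk (nv i) (nv i) * rk (nv j) (nv j) = ⟨nv i, nv j⟩ • rk (nv j) (nv i)` with nonzero coefficient
(`rk_mul`, `nv_ne`). So `S` contains all `rk m (nv m j) (nv m i)`; use `span_rk_nv`. -/
theorem span_top {m : ℕ} (h : 1 ≤ m) (Γ : Subgroup (SUGroup m)) (hΓ : IsLattice Γ) :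
    Submodule.span ℂ (SUGroup.toMatrix '' (Γ : Set (SUGroup m))) = ⊤ := by
  set S := Submodule.span ℂ (SUGroup.toMatrix '' (Γ : Set (SUGroup m))) with hS
  have hmem : ∀ γ ∈ Γ, γ.toMatrix ∈ S := fun γ hγ => Submodule.subset_span ⟨γ, hγ, rfl⟩
  have hmul : ∀ A ∈ S, ∀ B ∈ S, A * B ∈ S := by
    intro A hA B hB
    induction hA using Submodule.span_induction with
    | mem x hx =>
      obtain ⟨γ, hγ, rfl⟩ := hx
      induction hB using Submodule.span_induction with
      | mem y hy =>
        obtain ⟨δ, hδ, rfl⟩ := hy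
        rw [← toMatrix_mul]
        exact hmem _ (Γ.mul_mem hγ hδ)
      | zero => rw [Matrix.mul_zero]; exact S.zero_mem
      | add x y _ _ hx hy => rw [Matrix.mul_add]; exact S.add_mem hx hy
      | smul t x _ hx => rw [Matrix.mul_smul]; exact S.smul_mem _ hx
    | zero => rw [Matrix.zero_mul]; exact S.zero_mem
    | add x y _ _ hx hy => rw [Matrix.add_mul]; exact S.add_mem hx hy
    | smul t x _ hx => rw [Matrix.smul_mul]; exact S.smul_mem _ hx
  have hrk : ∀ w, hm m w w = 0 → rk m w w ∈ S := by
    intro w hw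
    have h1 : nil m w ∈ S.restrictScalars ℝ := nil_mem m Γ hΓ w hw _ hmem
    have h2 : nil m w ∈ S := h1
    have h3 : rk m w w = (-Complex.I) • nil m w := by
      rw [nil, smul_smul]
      simp
    rw [h3]
    exact S.smul_mem _ h2
  rw [eq_top_iff, ← span_rk_nv h, Submodule.span_le]
  rintro A ⟨i, j, rfl⟩
  by_cases hij : i = j
  · subst hij
    exact hrk _ (nv_null h i)
  · have h1 := hmul _ (hrk _ (nv_null h i)) _ (hrk _ (nv_null h j))
    rw [rk_mul] at h1
    have h2 := S.smul_mem (hm m (nv m i) (nv m j))⁻¹ h1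
    rwa [smul_smul, inv_mul_cancel₀ (nv_ne h i j hij), one_smul] at h2

end Pool.Agent.Lib.MP_5d4057_al.Hyb
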