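import Pool.Agent.Lib.MP_5d4057_al.Hyb.Aug
import Pool.Agent.Lib.MP_5d4057_al.Hyb.Span

namespace Pool.Agent.Lib.MP_5d4057_al.Hyb

open Matrix Pool.Agent.Lib.MP_5d4057_al

private theorem bsum_add' {n : ℕ} (X Y : Matrix (Fin 2) (Fin 2) ℂ)
    (A B : Matrix (Fin n) (Fin n) ℂ) : bsum X A + bsum Y B = bsum (X + Y) (A + B) := by
  ext i j
  refine Fin.cases ?_ (fun i => Fin.cases ?_ (fun i => ?_) i) i <;>
    refine Fin.cases ?_ (fun j => Fin.cases ?_ (fun j => ?_) j) j <;>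
    simp only [Matrix.add_apply, bsum_00, bsum_01, bsum_0j, bsum_10, bsum_11,
      bsum_1j, bsum_i0, bsum_i1, bsum_ij, add_zero]

/-- A matrix commuting with `bsum 0 Y` for all `Y` is of the form `bsum X (ζ • 1)`: with `Y = 1` the
off-diagonal blocks vanish, and the lower right block commutes with all matrices (so it is scalar,
`Matrix.mem_center_iff`/`Matrix.mem_range_scalar_of_commute_single` or similar). -/
theorem exists_bsum {n : ℕ} (hn : 1 ≤ n) (A : Matrix (Fin (n + 2)) (Fin (n + 2)) ℂ)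
    (h : ∀ Y : Matrix (Fin n) (Fin n) ℂ, A * bsum 0 Y = bsum 0 Y * A) :
    ∃ (X : Matrix (Fin 2) (Fin 2) ℂ) (ζ : ℂ), A = bsum X (ζ • 1) := by
  have _ := hn
  have h1 := h 1
  have hi0 : ∀ i : Fin n, A i.succ.succ 0 = 0 := by
    intro i
    have := congrFun (congrFun h1 i.succ.succ) 0
    simpa [Matrix.mul_apply, Fin.sum_univ_succ, Matrix.one_apply] using this.symm
  have hi1 : ∀ i : Fin n, A i.succ.succ (Fin.succ 0) = 0 := by
    intro i
    have := congrFun (congrFun h1 i.succ.succ) (Fin.succ 0)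
    simpa [Matrix.mul_apply, Fin.sum_univ_succ, Matrix.one_apply] using this.symm
  have h0i : ∀ i : Fin n, A 0 i.succ.succ = 0 := by
    intro i
    have := congrFun (congrFun h1 0) i.succ.succ
    simpa [Matrix.mul_apply, Fin.sum_univ_succ, Matrix.one_apply] using this
  have h1i : ∀ i : Fin n, A (Fin.succ 0) i.succ.succ = 0 := by
    intro i
    have := congrFun (congrFun h1 (Fin.succ 0)) i.succ.succ
    simpa [Matrix.mul_apply, Fin.sum_univ_succ, Matrix.one_apply] using this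
  set X : Matrix (Fin 2) (Fin 2) ℂ :=
    !![A 0 0, A 0 (Fin.succ 0); A (Fin.succ 0) 0, A (Fin.succ 0) (Fin.succ 0)] with hX
  set Z : Matrix (Fin n) (Fin n) ℂ := A.submatrix (fun i => i.succ.succ) (fun i => i.succ.succ)
    with hZ
  have hA : A = bsum X Z := by
    ext i j
    refine Fin.cases ?_ (fun i => Fin.cases ?_ (fun i => ?_) i) i <;>
      refine Fin.cases ?_ (fun j => Fin.cases ?_ (fun j => ?_) j) j
    · rfl
    · rfl
    · rw [bsum_0j, h0i]
    · rfl
    · rfl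
    · rw [bsum_1j, h1i]
    · rw [bsum_i0, hi0]
    · rw [bsum_i1, hi1]
    · rfl
  have hcomm : ∀ Y : Matrix (Fin n) (Fin n) ℂ, Z * Y = Y * Z := by
    intro Y
    have := h Y
    rw [hA, bsum_mul, bsum_mul] at this
    exact (bsum_inj this).2
  obtain ⟨ζ, hζ⟩ := Matrix.mem_range_scalar_of_commute_single (M := Z)
    (fun i j _ => (hcomm (Matrix.single i j 1)).symm)
  refine ⟨X, ζ, ?_⟩
  rw [hA, ← hζ]
  congr 1
  rw [Matrix.scalar_apply, Matrix.smul_one_eq_diagonal]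

/-- If the two embeddings of `SU(k,1)` in `SU(k+2,1)` agree on the lattice `Γ₃`, then
`(g 0)⁻¹ * g 1 = ζ • (X ⊕ 1)` with `X` unitary. Let `A = (g 0)⁻¹ * g 1`. By `hagree` it commutes with
`extend (extend γ)`, i.e. with `dsum 1 (dsum 1 γ) = bsum 1 γ` (`dsum_dsum`) for `γ ∈ Γ₃`, hence with
the differences `bsum 1 γ - bsum 1 1 = bsum 0 (γ - 1)`, so by `span_top` and `span_sub_one`
(`n = k + 1`, `S = toMatrix '' Γ₃`) with all `bsum 0 Y`. By `exists_bsum`, `A = bsum X' (ζ • 1)`.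
From `Aᴴ * J (k + 2) * A = J (k + 2)` and `J_succ_succ`: `X'ᴴ * X' = 1` and
`(star ζ * ζ) • J k = J k`, so `star ζ * ζ = 1`. Take `X = ζ⁻¹ • X'` (`smul_bsum`). -/
theorem frame {k : ℕ} (hk : 1 ≤ k) (Γ₃ : Subgroup (SUGroup k)) (h3 : IsLattice Γ₃)
    (g : Fin 2 → SUGroup (k + 2))
    (hagree : ∀ γ ∈ Γ₃, g 0 * extend (k + 1) (extend k γ) * (g 0)⁻¹ =
      g 1 * extend (k + 1) (extend k γ) * (g 1)⁻¹) :
    ∃ (X : Matrix (Fin 2) (Fin 2) ℂ) (ζ : ℂ), star ζ * ζ = 1 ∧ Xᴴ * X = 1 ∧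
      (g 1).toMatrix = (g 0).toMatrix * (ζ • bsum X 1) := by
  set a : SUGroup (k + 2) := (g 0)⁻¹ * g 1 with ha
  have hcom : ∀ γ ∈ Γ₃, a.toMatrix * bsum 1 γ.toMatrix = bsum 1 γ.toMatrix * a.toMatrix := by
    intro γ hγ
    have h1 : a * extend (k + 1) (extend k γ) = extend (k + 1) (extend k γ) * a := by
      have h2 := hagree γ hγ
      calc a * extend (k + 1) (extend k γ)
          = (g 0)⁻¹ * (g 1 * extend (k + 1) (extend k γ) * (g 1)⁻¹) * g 1 := by
            rw [ha]; group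
        _ = (g 0)⁻¹ * (g 0 * extend (k + 1) (extend k γ) * (g 0)⁻¹) * g 1 := by rw [h2]
        _ = extend (k + 1) (extend k γ) * a := by rw [ha]; group
    have h3 := congrArg SUGroup.toMatrix h1
    have h4 : (extend (k + 1) (extend k γ)).toMatrix = bsum 1 γ.toMatrix := by
      rw [extend_toMatrix, extend_toMatrix, dsum_dsum, ← Matrix.one_fin_two]
    rw [toMatrix_mul a, toMatrix_mul _ a, h4] at h3
    exact h3
  have hspan : Submodule.span ℂ {X | ∃ A ∈ SUGroup.toMatrix '' (Γ₃ : Set (SUGroup k)),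
      X = A - 1} = ⊤ := by
    refine span_sub_one (by omega) _ ⟨1, Γ₃.one_mem, rfl⟩ ?_ (span_top hk Γ₃ h3)
    rintro _ ⟨x, hx, rfl⟩ _ ⟨y, hy, rfl⟩
    exact ⟨x * y, Γ₃.mul_mem hx hy, rfl⟩
  let V : Submodule ℂ (Matrix (Fin (k + 1)) (Fin (k + 1)) ℂ) :=
    { carrier := {Y | a.toMatrix * bsum 0 Y = bsum 0 Y * a.toMatrix}
      add_mem' := by
        intro Y Z hY hZ
        have hY' : a.toMatrix * bsum 0 Y = bsum 0 Y * a.toMatrix := hY
        have hZ' : a.toMatrix * bsum 0 Z = bsum 0 Z * a.toMatrix := hZ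
        have h4 : bsum (0 : Matrix (Fin 2) (Fin 2) ℂ) (Y + Z) = bsum 0 Y + bsum 0 Z := by
          rw [bsum_add', add_zero]
        show a.toMatrix * bsum 0 (Y + Z) = bsum 0 (Y + Z) * a.toMatrix
        rw [h4, Matrix.mul_add, Matrix.add_mul, hY', hZ']
      zero_mem' := by
        have h4 : bsum (0 : Matrix (Fin 2) (Fin 2) ℂ)
            (0 : Matrix (Fin (k + 1)) (Fin (k + 1)) ℂ) = 0 := by
          have := smul_bsum (0 : ℂ) (0 : Matrix (Fin 2) (Fin 2) ℂ)
            (0 : Matrix (Fin (k + 1)) (Fin (k + 1)) ℂ)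
          rw [zero_smul, smul_zero, smul_zero] at this
          exact this.symm
        show a.toMatrix * bsum 0 0 = bsum 0 0 * a.toMatrix
        rw [h4]
        exact (Matrix.mul_zero _).trans (Matrix.zero_mul _).symm
      smul_mem' := by
        intro c Y hY
        have hY' : a.toMatrix * bsum 0 Y = bsum 0 Y * a.toMatrix := hY
        have h4 : bsum (0 : Matrix (Fin 2) (Fin 2) ℂ) (c • Y) = c • bsum 0 Y := by
          rw [smul_bsum, smul_zero]
        show a.toMatrix * bsum 0 (c • Y) = bsum 0 (c • Y) * a.toMatrix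
        rw [h4, Matrix.mul_smul, Matrix.smul_mul, hY'] }
  have hV : ∀ Y : Matrix (Fin (k + 1)) (Fin (k + 1)) ℂ,
      a.toMatrix * bsum 0 Y = bsum 0 Y * a.toMatrix := by
    intro Y
    have hle : Submodule.span ℂ {X | ∃ A ∈ SUGroup.toMatrix '' (Γ₃ : Set (SUGroup k)),
        X = A - 1} ≤ V := by
      rw [Submodule.span_le]
      rintro _ ⟨_, ⟨x, hx, rfl⟩, rfl⟩
      show a.toMatrix * bsum 0 (x.toMatrix - 1) = bsum 0 (x.toMatrix - 1) * a.toMatrix
      have h4 : bsum (0 : Matrix (Fin 2) (Fin 2) ℂ) (x.toMatrix - 1) =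
          bsum 1 x.toMatrix - bsum 1 1 := by
        rw [eq_sub_iff_add_eq, bsum_add', zero_add, sub_add_cancel]
      have h5 : a.toMatrix * bsum 1 1 = bsum 1 1 * a.toMatrix := by
        rw [bsum_one]
        exact (Matrix.mul_one _).trans (Matrix.one_mul _).symm
      rw [h4, Matrix.mul_sub, Matrix.sub_mul, hcom x hx, h5]
    rw [hspan] at hle
    exact hle Submodule.mem_top
  obtain ⟨X', ζ, hA⟩ := exists_bsum (n := k + 1) (by omega) a.toMatrix hV
  have hp := pres a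
  rw [hA, J_succ_succ, bsum_conjTranspose, bsum_mul, bsum_mul] at hp
  obtain ⟨hp1, hp2⟩ := bsum_inj hp
  have hζ : star ζ * ζ = 1 := by
    have h5 := congrFun (congrFun hp2 (Fin.last k)) (Fin.last k)
    rw [conjTranspose_smul, conjTranspose_one, Matrix.smul_mul, Matrix.one_mul, Matrix.mul_smul,
      Matrix.mul_one, smul_smul, Matrix.smul_apply, J, Matrix.diagonal_apply_eq, if_pos rfl,
      smul_eq_mul] at h5
    linear_combination -h5
  have hζ0 : ζ ≠ 0 := by
    intro h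
    rw [h, mul_zero] at hζ
    exact zero_ne_one hζ
  refine ⟨ζ⁻¹ • X', ζ, hζ, ?_, ?_⟩
  · rw [conjTranspose_smul, Matrix.smul_mul, Matrix.mul_smul, smul_smul]
    rw [Matrix.mul_one] at hp1
    rw [hp1, star_inv₀, ← mul_inv, hζ, inv_one, one_smul]
  · have h6 : ζ • bsum (ζ⁻¹ • X') (1 : Matrix (Fin (k + 1)) (Fin (k + 1)) ℂ) = a.toMatrix := by
      rw [hA, smul_bsum, smul_smul, mul_inv_cancel₀ hζ0, one_smul]
    rw [h6, ha, toMatrix_mul, ← Matrix.mul_assoc, toMatrix_mul_inv]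
    exact (Matrix.one_mul _).symm

end Pool.Agent.Lib.MP_5d4057_al.Hyb
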