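import Pool.Agent.Lib.MP_5d4057_al.Hyb.Blk

namespace Pool.Agent.Lib.MP_5d4057_al.Hyb

open Matrix

/-- There is a `K`-linear map `φ : ℂ → K` with `φ 1 = 1` (`K` is a field, so the injective linear
map `K → ℂ` has a left inverse, `LinearMap.exists_leftInverse_of_injective`). -/
theorem exists_phi (K : Subfield ℂ) : ∃ φ : ℂ →ₗ[K] K, ∀ x : K, φ (x : ℂ) = x := by
  have hinj : LinearMap.ker (Algebra.linearMap K ℂ) = ⊥ := by
    rw [LinearMap.ker_eq_bot]
    intro x y h
    exact Subtype.ext h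
  obtain ⟨φ, hφ⟩ := LinearMap.exists_leftInverse_of_injective (Algebra.linearMap K ℂ) hinj
  exact ⟨φ, fun x => LinearMap.congr_fun hφ x⟩

private theorem phi_mul {K : Subfield ℂ} (φ : ℂ →ₗ[K] K) (x : ℂ) {a : ℂ} (ha : a ∈ K) :
    (φ (x * a) : ℂ) = φ x * a := by
  have h : x * a = (⟨a, ha⟩ : K) • x := by
    show x * a = a * x
    ring
  rw [h, map_smul]
  show a * (φ x : ℂ) = φ x * a
  ring

/-- A matrix with entries in `K` which is a complex combination of matrices of `S`, all with entries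
in `K`, is a combination with coefficients in `K`: if `E = ∑ x_l • A_l`, apply `φ` of `exists_phi`
entrywise, which gives `E = ∑ φ (x_l) • A_l`. -/
theorem mem_span_of_entries (K : Subfield ℂ) {n : ℕ} (S : Set (Matrix (Fin n) (Fin n) ℂ))
    (hS : ∀ A ∈ S, ∀ i j, A i j ∈ K) (E : Matrix (Fin n) (Fin n) ℂ) (hE : ∀ i j, E i j ∈ K)
    (h : E ∈ Submodule.span ℂ S) : E ∈ Submodule.span K S := by
  obtain ⟨φ, hφ⟩ := exists_phi K
  have key : ∀ M ∈ Submodule.span ℂ S, ∀ x : ℂ,
      (x • M).map (fun z => ((φ z : K) : ℂ)) ∈ Submodule.span K S := by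
    intro M hM
    induction hM using Submodule.span_induction with
    | mem A hA =>
      intro x
      have h1 : (x • A).map (fun z => ((φ z : K) : ℂ)) = φ x • A := by
        ext i j
        show ((φ (x * A i j) : K) : ℂ) = (φ x : ℂ) * A i j
        exact phi_mul φ x (hS A hA i j)
      rw [h1]
      exact Submodule.smul_mem _ _ (Submodule.subset_span hA)
    | zero =>
      intro x
      have h1 : (x • (0 : Matrix (Fin n) (Fin n) ℂ)).map (fun z => ((φ z : K) : ℂ)) = 0 := by
        ext i j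
        show ((φ (x * 0) : K) : ℂ) = 0
        rw [mul_zero, map_zero]
        rfl
      rw [h1]
      exact Submodule.zero_mem _
    | add A B _ _ hA hB =>
      intro x
      have h1 : (x • (A + B)).map (fun z => ((φ z : K) : ℂ)) =
          (x • A).map (fun z => ((φ z : K) : ℂ)) + (x • B).map (fun z => ((φ z : K) : ℂ)) := by
        ext i j
        show ((φ (x * (A i j + B i j)) : K) : ℂ) =
          ((φ (x * A i j) : K) : ℂ) + ((φ (x * B i j) : K) : ℂ)
        rw [mul_add, map_add]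
        rfl
      rw [h1]
      exact Submodule.add_mem _ (hA x) (hB x)
    | smul c A _ hA =>
      intro x
      rw [smul_smul]
      exact hA (x * c)
  have h1 := key E h 1
  have h2 : ((1 : ℂ) • E).map (fun z => ((φ z : K) : ℂ)) = E := by
    ext i j
    show ((φ ((1 : ℂ) * E i j) : K) : ℂ) = E i j
    rw [one_mul]
    exact congrArg Subtype.val (hφ ⟨E i j, hE i j⟩)
  rwa [h2] at h1

private theorem map_coe_mul {K : Subfield ℂ} {n : ℕ} (M N : Matrix (Fin n) (Fin n) K) :
    (M * N).map (fun x : K => (x : ℂ)) =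
      M.map (fun x : K => (x : ℂ)) * N.map (fun x : K => (x : ℂ)) :=
  Matrix.map_mul (f := K.subtype)

private theorem det_map_coe {K : Subfield ℂ} {n : ℕ} (M : Matrix (Fin n) (Fin n) K) :
    (M.map (fun x : K => (x : ℂ))).det = ((M.det : K) : ℂ) :=
  (RingHom.map_det K.subtype M).symm

private theorem map_coe_inv {K : Subfield ℂ} {n : ℕ} (Q : Matrix (Fin n) (Fin n) K)
    (hQ : Q.det ≠ 0) : (Q.map (fun x : K => (x : ℂ)))⁻¹ = Q⁻¹.map (fun x : K => (x : ℂ)) := by
  refine Matrix.inv_eq_right_inv ?_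
  rw [← map_coe_mul, Matrix.mul_nonsing_inv _ (isUnit_iff_ne_zero.2 hQ)]
  exact Matrix.map_one _ rfl rfl

/-- `B' = B * Q` up to a scalar with `Q` invertible over `K`: then `g` has entries in `K` in the
basis `B'` if it has in the basis `B`. Indeed `B'⁻¹ * g * B' = Q⁻¹ * (B⁻¹ * g * B) * Q` (the scalar
`σ` cancels). -/
theorem EntriesIn.change {K : Subfield ℂ} {n : ℕ} {B B' g : Matrix (Fin n) (Fin n) ℂ}
    {Q : Matrix (Fin n) (Fin n) K} {σ : ℂ} (hB : B.det ≠ 0) (hσ : σ ≠ 0) (hQ : Q.det ≠ 0)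
    (h : B * Q.map (fun x : K => (x : ℂ)) = σ • B') (hg : EntriesIn K B g) : EntriesIn K B' g := by
  have hB1 := Matrix.mul_nonsing_inv B (isUnit_iff_ne_zero.2 hB)
  have hQ1 : Q.map (fun x : K => (x : ℂ)) * Q⁻¹.map (fun x : K => (x : ℂ)) = 1 := by
    rw [← map_coe_mul, Matrix.mul_nonsing_inv _ (isUnit_iff_ne_zero.2 hQ)]
    exact Matrix.map_one _ rfl rfl
  have hB' : B' = σ⁻¹ • (B * Q.map (fun x : K => (x : ℂ))) := by
    rw [h, smul_smul, inv_mul_cancel₀ hσ, one_smul]
  have hinv : B'⁻¹ = σ • (Q⁻¹.map (fun x : K => (x : ℂ)) * B⁻¹) := by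
    refine Matrix.inv_eq_right_inv ?_
    rw [hB', Matrix.smul_mul, Matrix.mul_smul, smul_smul, inv_mul_cancel₀ hσ, one_smul]
    calc B * Q.map (fun x : K => (x : ℂ)) * (Q⁻¹.map (fun x : K => (x : ℂ)) * B⁻¹)
        = B * (Q.map (fun x : K => (x : ℂ)) * Q⁻¹.map (fun x : K => (x : ℂ))) * B⁻¹ := by
          simp only [Matrix.mul_assoc]
      _ = 1 := by rw [hQ1, Matrix.mul_one, hB1]
  have h1 : B'⁻¹ * g * B' = Q⁻¹.map (fun x : K => (x : ℂ)) * (B⁻¹ * g * B) *
      Q.map (fun x : K => (x : ℂ)) := by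
    rw [hinv]
    conv_lhs => rw [hB']
    rw [Matrix.smul_mul, Matrix.smul_mul, Matrix.mul_smul, smul_smul, mul_inv_cancel₀ hσ, one_smul]
    simp only [Matrix.mul_assoc]
  intro i j
  rw [h1, Matrix.mul_apply]
  refine K.sum_mem fun l _ => K.mul_mem ?_ (Q l j).2
  rw [Matrix.mul_apply]
  exact K.sum_mem fun l' _ => K.mul_mem (Q⁻¹ i l').2 (hg l' l)

/-- Two bases in which a spanning set is rational over `K` differ by a scalar times a matrix over
`K`. Put `X = B'⁻¹ * B`. The matrix unit `single i j 1` is in the complex span of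
`{B⁻¹ * A * B | A ∈ S}` (the span is everything), so by `mem_span_of_entries` it is a combination
with coefficients in `K`; applying `Y ↦ X * Y * X⁻¹` we see that `X * single i j 1 * X⁻¹` is a
`K`-combination of the `B'⁻¹ * A * B'`, hence has entries `X a i * X⁻¹ j b` in `K` for all
`a, b, i, j`. If `n = 0` take `ν = 1`; otherwise choose `j, b` with `ν = X⁻¹ j b ≠ 0`. -/
theorem exists_similar {K : Subfield ℂ} {n : ℕ} (S : Set (Matrix (Fin n) (Fin n) ℂ))
    (hS : Submodule.span ℂ S = ⊤) (B B' : Matrix (Fin n) (Fin n) ℂ) (hB : B.det ≠ 0)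
    (hB' : B'.det ≠ 0) (h : ∀ A ∈ S, EntriesIn K B A) (h' : ∀ A ∈ S, EntriesIn K B' A) :
    ∃ (ν : ℂ) (Y : Matrix (Fin n) (Fin n) K), ν ≠ 0 ∧ Y.det ≠ 0 ∧
      B' * Y.map (fun x : K => (x : ℂ)) = ν • B := by
  rcases Nat.eq_zero_or_pos n with rfl | hn
  · refine ⟨1, 1, one_ne_zero, by simp, ?_⟩
    ext i j
    exact i.elim0
  have hB1 := Matrix.mul_nonsing_inv B (isUnit_iff_ne_zero.2 hB)
  have hB2 := Matrix.nonsing_inv_mul B (isUnit_iff_ne_zero.2 hB)
  have hB'1 := Matrix.mul_nonsing_inv B' (isUnit_iff_ne_zero.2 hB')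
  have hB'2 := Matrix.nonsing_inv_mul B' (isUnit_iff_ne_zero.2 hB')
  set X := B'⁻¹ * B with hX
  set X' := B⁻¹ * B' with hX'
  have hXX' : X * X' = 1 := by
    rw [hX, hX']
    calc B'⁻¹ * B * (B⁻¹ * B') = B'⁻¹ * (B * B⁻¹) * B' := by simp only [Matrix.mul_assoc]
      _ = 1 := by rw [hB1, Matrix.mul_one, hB'2]
  -- the conjugated set
  set f : Matrix (Fin n) (Fin n) ℂ →ₗ[ℂ] Matrix (Fin n) (Fin n) ℂ :=
    (LinearMap.mulLeft ℂ B⁻¹).comp (LinearMap.mulRight ℂ B) with hf
  have hfa : ∀ A, f A = B⁻¹ * A * B := fun A => by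
    rw [hf, LinearMap.comp_apply, LinearMap.mulLeft_apply, LinearMap.mulRight_apply,
      Matrix.mul_assoc]
  have hfs : Function.Surjective f := by
    intro M
    refine ⟨B * M * B⁻¹, ?_⟩
    rw [hfa]
    calc B⁻¹ * (B * M * B⁻¹) * B = (B⁻¹ * B) * M * (B⁻¹ * B) := by simp only [Matrix.mul_assoc]
      _ = M := by rw [hB2, Matrix.one_mul, Matrix.mul_one]
  have hT : Submodule.span ℂ (f '' S) = ⊤ := by
    rw [Submodule.span_image, hS, Submodule.map_top, LinearMap.range_eq_top]
    exact hfs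
  have hTK : ∀ A ∈ f '' S, ∀ i j, A i j ∈ K := by
    rintro _ ⟨A, hA, rfl⟩ i j
    rw [hfa]
    exact h A hA i j
  have hconj : ∀ M ∈ Submodule.span K (f '' S), ∀ a b, (X * M * X') a b ∈ K := by
    intro M hM
    induction hM using Submodule.span_induction with
    | mem M hM =>
      obtain ⟨A, hA, rfl⟩ := hM
      intro a b
      have h1 : X * f A * X' = B'⁻¹ * A * B' := by
        rw [hfa, hX, hX']
        calc B'⁻¹ * B * (B⁻¹ * A * B) * (B⁻¹ * B')
            = B'⁻¹ * (B * B⁻¹) * A * (B * B⁻¹) * B' := by simp only [Matrix.mul_assoc]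
          _ = B'⁻¹ * A * B' := by rw [hB1, Matrix.mul_one, Matrix.mul_one]
      rw [h1]
      exact h' A hA a b
    | zero =>
      intro a b
      rw [Matrix.mul_zero, Matrix.zero_mul]
      exact K.zero_mem
    | add M N _ _ hM hN =>
      intro a b
      rw [Matrix.mul_add, Matrix.add_mul]
      exact K.add_mem (hM a b) (hN a b)
    | smul c M _ hM =>
      intro a b
      have h1 : X * (c • M) * X' = c • (X * M * X') := by
        rw [Matrix.mul_smul, Matrix.smul_mul]
      rw [h1]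
      exact K.mul_mem c.2 (hM a b)
  have hprod : ∀ a i j b, X a i * X' j b ∈ K := by
    intro a i j b
    have h1 : (Matrix.single i j (1 : ℂ)) ∈ Submodule.span K (f '' S) := by
      refine mem_span_of_entries K _ hTK _ ?_ (by rw [hT]; exact Submodule.mem_top)
      intro i' j'
      rw [Matrix.single_apply]
      split_ifs
      · exact K.one_mem
      · exact K.zero_mem
    have h2 := hconj _ h1 a b
    have h3 : (X * Matrix.single i j (1 : ℂ) * X') a b = X a i * X' j b := by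
      simp [Matrix.mul_apply, Matrix.single_apply, Finset.sum_ite_eq, ite_and]
    rwa [h3] at h2
  obtain ⟨j, b, hν⟩ : ∃ j b, X' j b ≠ 0 := by
    by_contra hcon
    push Not at hcon
    have h0 : X' = 0 := by
      ext j b
      exact hcon j b
    rw [h0, Matrix.mul_zero] at hXX'
    have := congrFun (congrFun hXX' ⟨0, hn⟩) ⟨0, hn⟩
    rw [Matrix.one_apply_eq, Matrix.zero_apply] at this
    exact zero_ne_one this
  have hYX : (Matrix.of fun a i => (⟨X a i * X' j b, hprod a i j b⟩ : K)).map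
      (fun x : K => (x : ℂ)) = X' j b • X := by
    ext a i
    show X a i * X' j b = X' j b * X a i
    ring
  refine ⟨X' j b, Matrix.of fun a i => ⟨X a i * X' j b, hprod a i j b⟩, hν, ?_, ?_⟩
  · intro h0
    have h1 := det_map_coe (Matrix.of fun a i => (⟨X a i * X' j b, hprod a i j b⟩ : K))
    rw [h0, hYX, Matrix.det_smul] at h1
    have h2 : X.det ≠ 0 := by
      intro h3
      have h4 := congrArg Matrix.det hXX'
      rw [Matrix.det_mul, h3, zero_mul, Matrix.det_one] at h4
      exact zero_ne_one h4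
    exact mul_ne_zero (pow_ne_zero _ hν) h2 h1
  · rw [hYX, Matrix.mul_smul, hX, ← Matrix.mul_assoc, hB'1, Matrix.one_mul]

end Pool.Agent.Lib.MP_5d4057_al.Hyb
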