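import Pool.Agent.Lib.MP_5d4057_al.Hyb.Norm
import Pool.Agent.Lib.MP_5d4057_al.Hyb.Phi

namespace Pool.Agent.Lib.MP_5d4057_al.Hyb

open Matrix Pool.Agent.Lib.MP_5d4057_al ComplexOrder

/-- The basis of `ℂ² ⊕ W` obtained by gluing the bases `μ 0 ⊕ D` of `ℂ e₁ ⊕ W` and `μ 1 ⊕ D` of
`ℂ X e₁ ⊕ W` (`X` unitary). -/
noncomputable def gB {k : ℕ} (μ : Fin 2 → ℂ) (X : Matrix (Fin 2) (Fin 2) ℂ)
    (D : Matrix (Fin (k + 1)) (Fin (k + 1)) ℂ) : Matrix (Fin (k + 3)) (Fin (k + 3)) ℂ :=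
  bsum !![μ 1 * X 0 1, 0; μ 1 * X 1 1, μ 0] D

/-- `det_bsum_ne`; the `2 × 2` determinant is `μ 1 * X 0 1 * μ 0`. -/
theorem gB_det {k : ℕ} (μ : Fin 2 → ℂ) (X : Matrix (Fin 2) (Fin 2) ℂ)
    (D : Matrix (Fin (k + 1)) (Fin (k + 1)) ℂ) (hD : D.det ≠ 0) (hμ : ∀ b, μ b ≠ 0)
    (h01 : X 0 1 ≠ 0) : (gB μ X D).det ≠ 0 := by
  refine det_bsum_ne _ _ ?_ hD
  rw [det_fin_two_of]
  simp only [zero_mul, sub_zero]
  exact mul_ne_zero (mul_ne_zero (hμ 1) h01) (hμ 0)

/-- The form in the glued basis is `!![q 1, z'; z, q 0] ⊕ HD` with `z = star (μ 0) * μ 1 * X 1 1` and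
`z' = star z`: use `bsum_conjTranspose`, `J_succ_succ`, `bsum_mul`, and
`|X 0 1|² + |X 1 1|² = 1` (from `Xᴴ * X = 1`). If `X 1 1 = 0` then `z = 0` and for each `τ` the
conjugate form is `dsum (τ (q 1)) (dsum (τ (q 0)) (HD.map τ))` (`dsum_dsum`, `bsum_map`); if for
`b = 0` and `b = 1` the forms `dsum (τ (q b)) (HD.map τ)` are definite then the signs agree (the sign
of `HD.map τ`, a nonempty block) and the form is definite. -/
theorem glue_form {k : ℕ} {K : Subfield ℂ} {D : Matrix (Fin (k + 1)) (Fin (k + 1)) ℂ}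
    {HD : Matrix (Fin (k + 1)) (Fin (k + 1)) K} {μ : Fin 2 → ℂ} {q : Fin 2 → K} (hcm : IsCM K)
    (hn : IsNF k K D HD μ q) (X : Matrix (Fin 2) (Fin 2) ℂ) (hX : Xᴴ * X = 1)
    (hz : star (μ 0) * μ 1 * X 1 1 ∈ K) :
    ∃ Hg : Matrix (Fin (k + 3)) (Fin (k + 3)) K,
      (gB μ X D)ᴴ * J (k + 2) * gB μ X D = Hg.map (fun x : K => (x : ℂ)) ∧
      (X 1 1 = 0 → ∀ τ : K →+* ℂ, (∀ x : K, τ x = x) ∨
        (∀ x : K, τ x = (starRingEnd ℂ) (x : ℂ)) ∨ (Hg.map τ).PosDef ∨ (-(Hg.map τ)).PosDef) := by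
  have hz' : (starRingEnd ℂ) (star (μ 0) * μ 1 * X 1 1) ∈ K := hcm.2.2.1 _ hz
  refine ⟨bsum !![q 1, ⟨_, hz'⟩; ⟨_, hz⟩, q 0] HD, ?_, ?_⟩
  · rw [gB, bsum_conjTranspose, J_succ_succ, bsum_mul, bsum_mul, hn.form, bsum_map _ _ _ rfl,
      Matrix.mul_one]
    congr 1
    have c1 := congrFun (congrFun hX 1) 1
    simp only [Matrix.mul_apply, Fin.sum_univ_two, conjTranspose_apply,
      Matrix.one_apply_eq] at c1
    have q1 := hn.q_eq 1
    have q0 := hn.q_eq 0
    ext i j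
    fin_cases i <;> fin_cases j
    · simp [Matrix.mul_apply, Fin.sum_univ_two, q1]
      simp at c1
      linear_combination ((starRingEnd ℂ) (μ 1) * μ 1) * c1
    · simp [Matrix.mul_apply, Fin.sum_univ_two]
      ring
    · simp [Matrix.mul_apply, Fin.sum_univ_two]
      ring
    · simp [Matrix.mul_apply, Fin.sum_univ_two, q0]
  · intro h11 τ
    have hzero : (⟨star (μ 0) * μ 1 * X 1 1, hz⟩ : K) = 0 := by
      apply Subtype.ext
      simp [h11]
    have hzero' : (⟨(starRingEnd ℂ) (star (μ 0) * μ 1 * X 1 1), hz'⟩ : K) = 0 := by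
      apply Subtype.ext
      simp [h11]
    rw [hzero, hzero', ← dsum_dsum, dsum_map _ _ _ (map_zero τ), dsum_map _ _ _ (map_zero τ)]
    have hblock : ∀ (t : ℂ) (A : Matrix (Fin (k + 1)) (Fin (k + 1)) ℂ), (dsum t A).PosDef →
        0 < t ∧ A.PosDef := by
      intro t A hA
      refine ⟨by simpa using hA.diag_pos (i := 0), ?_⟩
      have : A = (dsum t A).submatrix Fin.succ Fin.succ := by
        ext i j
        simp
      rw [this]
      exact hA.submatrix (Fin.succ_injective _)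
    have hglue : ∀ (s t : ℂ) (A : Matrix (Fin (k + 1)) (Fin (k + 1)) ℂ), 0 < s → 0 < t →
        A.PosDef → (dsum s (dsum t A)).PosDef := by
      have hone : ∀ (n : ℕ) (t : ℂ) (A : Matrix (Fin n) (Fin n) ℂ), 0 < t → A.PosDef →
          (dsum t A).PosDef := by
        intro n t A ht hA
        refine Matrix.PosDef.of_dotProduct_mulVec_pos ?_ ?_
        · rw [Matrix.IsHermitian, dsum_conjTranspose, hA.1]
          congr 1
          have := (Complex.lt_def.1 ht).2
          apply Complex.ext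
          · simp
          · simp only [RCLike.star_def, Complex.conj_im]
            rw [← this]
            simp
        · intro x hx
          have hx' : x = Fin.cons (x 0) (Fin.tail x) := (Fin.cons_self_tail x).symm
          rw [hx', dsum_mulVec_cons]
          rw [dotProduct, Fin.sum_univ_succ]
          simp only [Pi.star_apply, Fin.cons_zero, Fin.cons_succ]
          have h1 : 0 ≤ star (x 0) * (t * x 0) := by
            have : star (x 0) * (t * x 0) = t * (star (x 0) * x 0) := by ring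
            rw [this]
            exact mul_nonneg ht.le (star_mul_self_nonneg (x 0))
          by_cases h0 : Fin.tail x = 0
          · have hx0 : x 0 ≠ 0 := by
              intro h
              apply hx
              rw [hx', h, h0]
              ext i
              refine Fin.cases rfl (fun i => rfl) i
            have h2 : 0 < star (x 0) * (t * x 0) := by
              have : star (x 0) * (t * x 0) = t * (star (x 0) * x 0) := by ring
              rw [this]
              refine mul_pos ht (lt_of_le_of_ne (star_mul_self_nonneg (x 0)) ?_)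
              intro h
              rcases mul_eq_zero.1 h.symm with h | h
              · exact hx0 (star_eq_zero.1 h)
              · exact hx0 h
            rw [h0]
            simpa using h2
          · have h2 : 0 < star (Fin.tail x) ⬝ᵥ (A *ᵥ Fin.tail x) := hA.dotProduct_mulVec_pos h0
            exact add_pos_of_nonneg_of_pos h1 h2
      intro s t A hs ht hA
      exact hone _ _ _ hs (hone _ _ _ ht hA)
    have hneg : ∀ (s : ℂ) (n : ℕ) (A : Matrix (Fin n) (Fin n) ℂ), -(dsum s A) = dsum (-s) (-A) := by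
      intro s n A
      ext i j
      refine Fin.cases ?_ (fun i => ?_) i <;> refine Fin.cases ?_ (fun j => ?_) j <;> simp
    have hne : ∀ A : Matrix (Fin (k + 1)) (Fin (k + 1)) ℂ, A.PosDef → (-A).PosDef → False := by
      intro A h1 h2
      have a1 := h1.diag_pos (i := 0)
      have a2 := h2.diag_pos (i := 0)
      rw [Matrix.neg_apply] at a2
      exact absurd a1 (lt_asymm (neg_pos.1 a2))
    rcases hn.definite 0 τ with h | h | h | h
    · exact Or.inl h
    · exact Or.inr (Or.inl h)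
    · obtain ⟨a1, a2⟩ := hblock _ _ h
      rcases hn.definite 1 τ with h' | h' | h' | h'
      · exact Or.inl h'
      · exact Or.inr (Or.inl h')
      · exact Or.inr (Or.inr (Or.inl (hglue _ _ _ (hblock _ _ h').1 a1 a2)))
      · rw [hneg] at h'
        exact (hne _ a2 (hblock _ _ h').2).elim
    · rw [hneg] at h
      obtain ⟨a1, a2⟩ := hblock _ _ h
      rcases hn.definite 1 τ with h' | h' | h' | h'
      · exact Or.inl h'
      · exact Or.inr (Or.inl h')
      · exact (hne _ (hblock _ _ h').2 a2).elim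
      · rw [hneg] at h'
        refine Or.inr (Or.inr (Or.inr ?_))
        rw [hneg, hneg]
        exact hglue _ _ _ (hblock _ _ h').1 a1 a2

theorem entries_dsum {K : Subfield ℂ} {n : ℕ} {t : ℂ} {E A : Matrix (Fin n) (Fin n) ℂ}
    (ht : t ≠ 0) (hE : E.det ≠ 0) (hA : EntriesIn K E A) :
    EntriesIn K (dsum t E) (dsum 1 A) := by
  intro i j
  rw [dsum_inv t E ht hE, dsum_mul, dsum_mul, mul_one, inv_mul_cancel₀ ht]
  revert i j
  refine Fin.cases (Fin.cases ?_ (fun j => ?_)) (fun i => Fin.cases ?_ (fun j => ?_))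
  · exact K.one_mem
  · exact K.zero_mem
  · exact K.zero_mem
  · exact hA i j

theorem det_dsum_ne {n : ℕ} {t : ℂ} {E : Matrix (Fin n) (Fin n) ℂ} (ht : t ≠ 0)
    (hE : E.det ≠ 0) : (dsum t E).det ≠ 0 := by
  rw [det_dsum]
  exact mul_ne_zero ht hE

theorem map_coe_det_ne {K : Subfield ℂ} {n : ℕ} {Q : Matrix (Fin n) (Fin n) K}
    (h : (Q.map (fun x : K => (x : ℂ))).det ≠ 0) : Q.det ≠ 0 := by
  intro h0
  apply h
  have : (Q.map (fun x : K => (x : ℂ))).det = ((Q.det : K) : ℂ) :=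
    (RingHom.map_det K.subtype Q).symm
  rw [this, h0]
  rfl

/-- `gB μ X D = dsum t (dsum (μ 0) D) * C` with `t = μ 1 * X 0 1` and
`C = bsum !![1, 0; c, 1] 1`, `c = (μ 0)⁻¹ * μ 1 * X 1 1 = z / q 0 ∈ K`. And
`(dsum t (dsum (μ 0) D))⁻¹ * dsum 1 A * dsum t (dsum (μ 0) D) = dsum 1 ((dsum (μ 0) D)⁻¹ * A * dsum (μ 0) D)`
(`dsum_inv`, `dsum_mul`) has entries in `K`. Conclude with `EntriesIn.change` (`σ = 1`, the matrix
`Q` over `K` with `Q.map = C`, `Q.det = 1`). -/
theorem glue_entries_zero {k : ℕ} {K : Subfield ℂ} {D : Matrix (Fin (k + 1)) (Fin (k + 1)) ℂ}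
    {HD : Matrix (Fin (k + 1)) (Fin (k + 1)) K} {μ : Fin 2 → ℂ} {q : Fin 2 → K}
    (hn : IsNF k K D HD μ q) (X : Matrix (Fin 2) (Fin 2) ℂ) (h01 : X 0 1 ≠ 0)
    (hz : star (μ 0) * μ 1 * X 1 1 ∈ K) (A : Matrix (Fin (k + 1 + 1)) (Fin (k + 1 + 1)) ℂ)
    (hA : EntriesIn K (dsum (μ 0) D) A) : EntriesIn K (gB μ X D) (dsum 1 A) := by
  have hμ0 := hn.μ_ne 0
  have hμ1 := hn.μ_ne 1
  have ht : μ 1 * X 0 1 ≠ 0 := mul_ne_zero hμ1 h01
  have hE : (dsum (μ 0) D).det ≠ 0 := det_dsum_ne hμ0 hn.det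
  have hq : (q 0 : ℂ) ≠ 0 := by
    rw [hn.q_eq 0]
    exact mul_ne_zero (star_ne_zero.2 hμ0) hμ0
  let c : K := ⟨_, hz⟩ / q 0
  have hc : (c : ℂ) = (μ 0)⁻¹ * μ 1 * X 1 1 := by
    have : (c : ℂ) = star (μ 0) * μ 1 * X 1 1 / (q 0 : ℂ) := rfl
    rw [this, hn.q_eq 0]
    have := star_ne_zero.2 hμ0
    field_simp
  have hone : (1 : Matrix (Fin (k + 1)) (Fin (k + 1)) K).map (fun x : K => (x : ℂ)) = 1 := by
    ext i j
    simp only [Matrix.map_apply, Matrix.one_apply]
    split_ifs <;> rfl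
  refine EntriesIn.change (B := dsum (μ 1 * X 0 1) (dsum (μ 0) D))
    (Q := bsum !![1, 0; c, 1] 1) (σ := 1) (det_dsum_ne ht hE) one_ne_zero ?_ ?_
    (entries_dsum ht hE hA)
  · apply map_coe_det_ne
    rw [bsum_map _ _ _ rfl, hone]
    refine det_bsum_ne _ _ ?_ (by simp)
    simp [det_fin_two]
  · rw [bsum_map _ _ _ rfl, hone, dsum_dsum, bsum_mul, Matrix.mul_one, one_smul, gB]
    congr 1
    ext i j
    fin_cases i <;> fin_cases j
    · simp [Matrix.mul_apply, Fin.sum_univ_two]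
    · simp [Matrix.mul_apply, Fin.sum_univ_two]
    · simp [Matrix.mul_apply, Fin.sum_univ_two, hc]
      field_simp
    · simp [Matrix.mul_apply, Fin.sum_univ_two]

/-- `gB μ X D = bsum X 1 * dsum t (dsum (μ 1) D) * C` with `t = μ 0 * star (X 1 0)` (nonzero since
`|X 1 0| = |X 0 1|` for the unitary `X`) and `C = bsum !![0, 1; 1, c] 1`,
`c = (μ 1)⁻¹ * μ 0 * star (X 1 1) = star z / q 1 ∈ K` (`K` is stable under conjugation). Check:
`Xᴴ * !![μ 1 * X 0 1, 0; μ 1 * X 1 1, μ 0] = !![0, μ 0 * star (X 1 0); μ 1, μ 0 * star (X 1 1)]`.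
So with `B₀ = bsum X 1 * dsum t (dsum (μ 1) D)`:
`B₀⁻¹ * (bsum X 1 * dsum 1 A * bsum Xᴴ 1) * B₀ = dsum 1 ((dsum (μ 1) D)⁻¹ * A * dsum (μ 1) D)`, which
has entries in `K`; conclude with `EntriesIn.change`. -/
theorem glue_entries_one {k : ℕ} {K : Subfield ℂ} {D : Matrix (Fin (k + 1)) (Fin (k + 1)) ℂ}
    {HD : Matrix (Fin (k + 1)) (Fin (k + 1)) K} {μ : Fin 2 → ℂ} {q : Fin 2 → K} (hcm : IsCM K)
    (hn : IsNF k K D HD μ q) (X : Matrix (Fin 2) (Fin 2) ℂ) (hX : Xᴴ * X = 1) (h01 : X 0 1 ≠ 0)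
    (hz : star (μ 0) * μ 1 * X 1 1 ∈ K) (A : Matrix (Fin (k + 1 + 1)) (Fin (k + 1 + 1)) ℂ)
    (hA : EntriesIn K (dsum (μ 1) D) A) :
    EntriesIn K (gB μ X D) (bsum X 1 * dsum 1 A * bsum Xᴴ 1) := by
  have hμ0 := hn.μ_ne 0
  have hμ1 := hn.μ_ne 1
  have hX' : X * Xᴴ = 1 := mul_eq_one_comm.1 hX
  have h10 : X 1 0 ≠ 0 := by
    intro h10
    have c0 := congrFun (congrFun hX 0) 0
    have r0 := congrFun (congrFun hX' 0) 0
    simp only [Matrix.mul_apply, Fin.sum_univ_two, conjTranspose_apply, RCLike.star_def,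
      Matrix.one_apply_eq] at c0 r0
    rw [h10] at c0
    simp only [mul_zero, add_zero] at c0
    have : X 0 1 * (starRingEnd ℂ) (X 0 1) = 0 := by linear_combination r0 - c0
    rcases mul_eq_zero.1 this with h | h
    · exact h01 h
    · exact h01 ((map_eq_zero _).1 h)
  have ht : μ 0 * star (X 1 0) ≠ 0 := mul_ne_zero hμ0 (star_ne_zero.2 h10)
  have hE : (dsum (μ 1) D).det ≠ 0 := det_dsum_ne hμ1 hn.det
  have hq : (q 1 : ℂ) ≠ 0 := by
    rw [hn.q_eq 1]
    exact mul_ne_zero (star_ne_zero.2 hμ1) hμ1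
  let c : K := ⟨_, hcm.2.2.1 _ hz⟩ / q 1
  have hc : (c : ℂ) = (μ 1)⁻¹ * μ 0 * star (X 1 1) := by
    have : (c : ℂ) = (starRingEnd ℂ) (star (μ 0) * μ 1 * X 1 1) / (q 1 : ℂ) := rfl
    rw [this, hn.q_eq 1]
    have := star_ne_zero.2 hμ1
    simp only [map_mul, RCLike.star_def, Complex.conj_conj] at this ⊢
    field_simp
  have hone : (1 : Matrix (Fin (k + 1)) (Fin (k + 1)) K).map (fun x : K => (x : ℂ)) = 1 := by
    ext i j
    simp only [Matrix.map_apply, Matrix.one_apply]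
    split_ifs <;> rfl
  have hUU : bsum Xᴴ 1 * bsum X (1 : Matrix (Fin (k + 1)) (Fin (k + 1)) ℂ) = 1 := by
    rw [bsum_mul, hX, Matrix.one_mul, bsum_one]
  have hUinv : (bsum X (1 : Matrix (Fin (k + 1)) (Fin (k + 1)) ℂ))⁻¹ = bsum Xᴴ 1 :=
    Matrix.inv_eq_left_inv hUU
  have hUdet : (bsum X (1 : Matrix (Fin (k + 1)) (Fin (k + 1)) ℂ)).det ≠ 0 := by
    intro h
    have := congrArg det hUU
    rw [det_mul, h, det_one, mul_zero] at this
    exact zero_ne_one this
  refine EntriesIn.change (B := bsum X 1 * dsum (μ 0 * star (X 1 0)) (dsum (μ 1) D))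
    (Q := bsum !![0, 1; 1, c] 1) (σ := 1) ?_ one_ne_zero ?_ ?_ ?_
  · rw [det_mul]
    exact mul_ne_zero hUdet (det_dsum_ne ht hE)
  · apply map_coe_det_ne
    rw [bsum_map _ _ _ rfl, hone]
    refine det_bsum_ne _ _ ?_ (by simp)
    simp [det_fin_two]
  · rw [bsum_map _ _ _ rfl, hone, dsum_dsum, bsum_mul, bsum_mul, Matrix.mul_one, Matrix.one_mul,
      one_smul, gB]
    congr 1
    have r0 := congrFun (congrFun hX' 0) 1
    have r1 := congrFun (congrFun hX' 1) 1
    simp only [Matrix.mul_apply, Fin.sum_univ_two, conjTranspose_apply,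
      Matrix.one_apply_eq] at r0 r1
    rw [Matrix.one_apply_ne (by decide)] at r0
    ext i j
    fin_cases i <;> fin_cases j
    · simp [Matrix.mul_apply, Fin.sum_univ_two]
      ring
    · simp [Matrix.mul_apply, Fin.sum_univ_two, hc]
      simp only [RCLike.star_def] at r0
      field_simp
      linear_combination (μ 0) * r0
    · simp [Matrix.mul_apply, Fin.sum_univ_two]
      ring
    · simp [Matrix.mul_apply, Fin.sum_univ_two, hc]
      simp only [RCLike.star_def] at r1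
      field_simp
      linear_combination r1
  · have hA' := entries_dsum ht hE hA
    intro i j
    have := hA' i j
    rw [Matrix.mul_inv_rev, hUinv]
    have e : (dsum (μ 0 * star (X 1 0)) (dsum (μ 1) D))⁻¹ * bsum Xᴴ 1 *
        (bsum X 1 * dsum 1 A * bsum Xᴴ 1) *
        (bsum X 1 * dsum (μ 0 * star (X 1 0)) (dsum (μ 1) D)) =
        (dsum (μ 0 * star (X 1 0)) (dsum (μ 1) D))⁻¹ * dsum 1 A *
          dsum (μ 0 * star (X 1 0)) (dsum (μ 1) D) := by
      calc _ = (dsum (μ 0 * star (X 1 0)) (dsum (μ 1) D))⁻¹ * (bsum Xᴴ 1 * bsum X 1) * dsum 1 A *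
            (bsum Xᴴ 1 * bsum X 1) * dsum (μ 0 * star (X 1 0)) (dsum (μ 1) D) := by
            simp only [Matrix.mul_assoc]
        _ = _ := by rw [hUU, Matrix.mul_one, Matrix.mul_one]
    rw [e]
    exact this

end Pool.Agent.Lib.MP_5d4057_al.Hyb
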