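import Pool.Agent.Lib.MP_5d4057_al.Hyb.Top

namespace Pool.Agent.Lib.MP_5d4057_al.Hyb

open Matrix Pool.Agent.Lib.MP_5d4057_al

/-- If the matrix `A` over `ℂ` has a power `A ^ r`, `r ≥ 1`, all of whose entries are integral over `ℤ`
in some basis, its trace is an algebraic integer: the trace is the sum of the roots `λ` of the
characteristic polynomial (`Matrix.trace_eq_sum_roots_charpoly`), each `λ ^ r` is an eigenvalue of
`B⁻¹ * A ^ r * B`, a matrix with entries in the ring `R` of algebraic integers of `ℂ`, hence a root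
of a monic polynomial with coefficients in `R`, so integral; and `λ` is integral if `λ ^ r` is
(`IsIntegral.of_pow`). -/
theorem isIntegral_trace_of_pow {n : ℕ} (A B : Matrix (Fin n) (Fin n) ℂ) (hB : B.det ≠ 0) (r : ℕ)
    (hr : 0 < r) (h : ∀ i j, IsIntegral ℤ ((B⁻¹ * A ^ r * B) i j)) : IsIntegral ℤ A.trace := by
  rw [Matrix.trace_eq_sum_roots_charpoly]
  refine IsIntegral.multiset_sum fun μ hμ => ?_
  have hroot : A.charpoly.eval μ = 0 := (Polynomial.mem_roots'.1 hμ).2
  rw [Matrix.eval_charpoly] at hroot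
  refine IsIntegral.of_pow hr ?_
  -- `μ ^ r` is an eigenvalue of `A ^ r`
  have h1 : (Matrix.scalar (Fin n) (μ ^ r) - A ^ r).det = 0 := by
    have hc : Commute (Matrix.scalar (Fin n) μ) A := Matrix.scalar_commute μ (fun _ => Commute.all _ _) A
    have h2 := hc.mul_geom_sum₂ r
    rw [map_pow, ← h2, Matrix.det_mul, hroot, zero_mul]
  have hu : IsUnit B.det := isUnit_iff_ne_zero.2 hB
  have h3 : (Matrix.scalar (Fin n) (μ ^ r) - B⁻¹ * A ^ r * B).det = 0 := by
    have h4 : Matrix.scalar (Fin n) (μ ^ r) - B⁻¹ * A ^ r * B =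
        B⁻¹ * (Matrix.scalar (Fin n) (μ ^ r) - A ^ r) * B := by
      have hc : Commute (Matrix.scalar (Fin n) (μ ^ r)) B :=
        Matrix.scalar_commute _ (fun _ => Commute.all _ _) B
      rw [Matrix.mul_sub, Matrix.sub_mul, Matrix.mul_assoc B⁻¹ (Matrix.scalar (Fin n) (μ ^ r)) B,
        hc.eq, ← Matrix.mul_assoc, Matrix.nonsing_inv_mul B hu, Matrix.one_mul]
    rw [h4, Matrix.det_mul, Matrix.det_mul, h1, mul_zero, zero_mul]
  -- a matrix over the algebraic integers
  let C : Matrix (Fin n) (Fin n) (integralClosure ℤ ℂ) :=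
    Matrix.of fun i j => ⟨(B⁻¹ * A ^ r * B) i j, h i j⟩
  have hC : C.map (algebraMap (integralClosure ℤ ℂ) ℂ) = B⁻¹ * A ^ r * B := by
    ext i j
    rfl
  have h5 : IsIntegral (integralClosure ℤ ℂ) (μ ^ r) := by
    refine ⟨C.charpoly, Matrix.charpoly_monic C, ?_⟩
    rw [Polynomial.eval₂_eq_eval_map, ← Matrix.charpoly_map, hC, Matrix.eval_charpoly, h3]
  exact isIntegral_trans (R := ℤ) _ h5

/-- Traces in a group commensurable with `SU(H, O_K)` are algebraic integers: since
`(integralPoints m K B).relIndex Γ ≠ 0`, each `γ ∈ Γ` has a power `γ ^ r`, `r ≥ 1`, in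
`integralPoints m K B` (`Subgroup.exists_pow_mem_of_index_ne_zero` or similar). -/
theorem isIntegral_trace {m : ℕ} {K : Subfield ℂ} {B : Matrix (Fin (m + 1)) (Fin (m + 1)) ℂ}
    (hB : B.det ≠ 0) (Γ : Subgroup (SUGroup m))
    (hc : Subgroup.Commensurable Γ (integralPoints m K B)) (γ : SUGroup m) (hγ : γ ∈ Γ) :
    IsIntegral ℤ γ.toMatrix.trace := by
  have h1 : (integralPoints m K B).relIndex Γ ≠ 0 := hc.2
  obtain ⟨r, hr, -, hmem⟩ := Subgroup.exists_pow_mem_of_index_ne_zero h1 ⟨γ, hγ⟩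
  have h2 : γ ^ r ∈ integralPoints m K B := hmem
  refine isIntegral_trace_of_pow _ B hB r hr fun i j => ?_
  have h3 := h2.1 i j
  rw [toMatrix_pow] at h3
  exact h3.2

end Pool.Agent.Lib.MP_5d4057_al.Hyb
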