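import Pool.Agent.Lib.MP_5d4057_al.Hyb.Rk

namespace Pool.Agent.Lib.MP_5d4057_al.Hyb

open Matrix Pool.Agent.Lib.MP_5d4057_al

/-- A rational unipotent element gives a rational null vector fixed by it. Let
`N = γ.toMatrix - 1` nilpotent, so `N ≠ 0` (`toMatrix_injective`). Let
`G = D⁻¹ * N * D = D⁻¹ γ D - 1`, entries in `K`, nilpotent, nonzero. Let `p` be maximal with
`G ^ p ≠ 0`, `p ≥ 1`; some column `G ^ p e_l ≠ 0` has entries in `K`: this is `x`. Let
`w = D x = N v` with `v = N ^ (p-1) (D e_l)`; `N w = 0`, so `γ w = w`. Then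
`⟨w, γ v⟩ = ⟨γ w, γ v⟩ = ⟨w, v⟩` (`hm_mulVec`), so `⟨w, w⟩ = ⟨w, γ v - v⟩ = 0`. -/
theorem exists_null_fixed {k : ℕ} {K : Subfield ℂ} {D : Matrix (Fin (k + 1)) (Fin (k + 1)) ℂ}
    (hD : D.det ≠ 0) (γ : SUGroup k) (hγ : EntriesIn K D γ.toMatrix)
    (hγ1 : γ ≠ 1) (hnil : IsNilpotent (γ.toMatrix - 1)) :
    ∃ x : Fin (k + 1) → K, x ≠ 0 ∧
      hm k (D *ᵥ fun i => (x i : ℂ)) (D *ᵥ fun i => (x i : ℂ)) = 0 ∧
      γ.toMatrix *ᵥ (D *ᵥ fun i => (x i : ℂ)) = D *ᵥ fun i => (x i : ℂ) := by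
  classical
  have hDu : IsUnit D.det := isUnit_iff_ne_zero.2 hD
  set N : Matrix (Fin (k + 1)) (Fin (k + 1)) ℂ := γ.toMatrix - 1 with hN
  have hN0 : N ≠ 0 := by
    intro h0
    apply hγ1
    apply toMatrix_injective
    have h1 : γ.toMatrix = 1 := sub_eq_zero.1 h0
    exact h1.trans rfl
  -- the last nonzero power
  have hq : ∃ p : ℕ, N ^ (p + 1) ≠ 0 ∧ N ^ (p + 2) = 0 := by
    have hex : ∃ n, N ^ n = 0 := hnil
    have h0 : Nat.find hex ≠ 0 := by
      intro h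
      have h1 := Nat.find_spec hex
      rw [h, pow_zero] at h1
      exact one_ne_zero h1
    have h1 : Nat.find hex ≠ 1 := by
      intro h
      have h1 := Nat.find_spec hex
      rw [h, pow_one] at h1
      exact hN0 h1
    obtain ⟨p, hp⟩ : ∃ p, Nat.find hex = p + 2 := ⟨Nat.find hex - 2, by omega⟩
    refine ⟨p, Nat.find_min hex (by omega), ?_⟩
    rw [← hp]
    exact Nat.find_spec hex
  obtain ⟨p, hp1, hp2⟩ := hq
  set G : Matrix (Fin (k + 1)) (Fin (k + 1)) ℂ := D⁻¹ * N * D with hG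
  have hGent : ∀ n i j, (G ^ n) i j ∈ K := by
    intro n
    induction n with
    | zero =>
      intro i j
      rw [pow_zero, Matrix.one_apply]
      split_ifs
      · exact K.one_mem
      · exact K.zero_mem
    | succ n ih =>
      intro i j
      rw [pow_succ, Matrix.mul_apply]
      refine K.sum_mem fun l _ => K.mul_mem (ih i l) ?_
      have h1 : G = D⁻¹ * γ.toMatrix * D - 1 := by
        rw [hG, hN, Matrix.mul_sub, Matrix.sub_mul, Matrix.mul_one, Matrix.nonsing_inv_mul D hDu]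
      rw [h1, Matrix.sub_apply]
      refine K.sub_mem (hγ l j) ?_
      rw [Matrix.one_apply]
      split_ifs
      · exact K.one_mem
      · exact K.zero_mem
  have hDG : ∀ n, D * G ^ n = N ^ n * D := by
    intro n
    induction n with
    | zero => rw [pow_zero, pow_zero, Matrix.mul_one, Matrix.one_mul]
    | succ n ih =>
      have h1 : D * G = N * D := by
        rw [hG, ← Matrix.mul_assoc, ← Matrix.mul_assoc, Matrix.mul_nonsing_inv D hDu,
          Matrix.one_mul]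
      rw [pow_succ, ← Matrix.mul_assoc, ih, Matrix.mul_assoc, h1, ← Matrix.mul_assoc, ← pow_succ]
  have hGne : G ^ (p + 1) ≠ 0 := by
    intro h0
    apply hp1
    have h1 := hDG (p + 1)
    rw [h0, Matrix.mul_zero] at h1
    have h2 : N ^ (p + 1) * D * D⁻¹ = 0 := by rw [← h1, Matrix.zero_mul]
    rwa [Matrix.mul_assoc, Matrix.mul_nonsing_inv D hDu, Matrix.mul_one] at h2
  obtain ⟨i₀, l, hil⟩ : ∃ i l, (G ^ (p + 1)) i l ≠ 0 := by
    by_contra hcon
    push Not at hcon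
    apply hGne
    ext i l
    exact hcon i l
  refine ⟨fun i => ⟨(G ^ (p + 1)) i l, hGent (p + 1) i l⟩, ?_, ?_⟩
  · intro h0
    apply hil
    have h1 := congrFun h0 i₀
    exact congrArg Subtype.val h1
  · show hm k (D *ᵥ fun i => (G ^ (p + 1)) i l) (D *ᵥ fun i => (G ^ (p + 1)) i l) = 0 ∧
      γ.toMatrix *ᵥ (D *ᵥ fun i => (G ^ (p + 1)) i l) = D *ᵥ fun i => (G ^ (p + 1)) i l
    set u : Fin (k + 1) → ℂ := D *ᵥ Pi.single l 1 with hu
    set v : Fin (k + 1) → ℂ := N ^ p *ᵥ u with hv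
    have hw : (D *ᵥ fun i => (G ^ (p + 1)) i l) = N ^ (p + 1) *ᵥ u := by
      have h1 : (fun i => (G ^ (p + 1)) i l) = G ^ (p + 1) *ᵥ Pi.single l 1 := by
        ext i
        rw [Matrix.mulVec_single_one]
        rfl
      rw [h1, Matrix.mulVec_mulVec, hDG, hu, Matrix.mulVec_mulVec]
    rw [hw]
    set w : Fin (k + 1) → ℂ := N ^ (p + 1) *ᵥ u with hw'
    have hNv : N *ᵥ v = w := by
      rw [hv, hw', Matrix.mulVec_mulVec, ← pow_succ']
    have hNw : N *ᵥ w = 0 := by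
      rw [hw', Matrix.mulVec_mulVec, ← pow_succ', hp2, Matrix.zero_mulVec]
    have hγN : ∀ y, γ.toMatrix *ᵥ y = y + N *ᵥ y := by
      intro y
      have h1 : γ.toMatrix = 1 + N := by rw [hN]; abel
      rw [h1, Matrix.add_mulVec, Matrix.one_mulVec]
    have h1 := hm_mulVec γ w v
    rw [hγN w, hγN v, hNv, hNw, add_zero, hm_add_right] at h1
    refine ⟨add_eq_left.1 h1, ?_⟩
    rw [hγN w, hNw, add_zero]

theorem exists_null {k : ℕ} {K : Subfield ℂ} {D : Matrix (Fin (k + 1)) (Fin (k + 1)) ℂ}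
    (hD : D.det ≠ 0) (Γ₃ : Subgroup (SUGroup k)) (h : ∀ γ ∈ Γ₃, EntriesIn K D γ.toMatrix)
    (hu : ∃ γ ∈ Γ₃, γ ≠ 1 ∧ IsNilpotent (γ.toMatrix - 1)) :
    ∃ x : Fin (k + 1) → K, x ≠ 0 ∧
      hm k (D *ᵥ fun i => (x i : ℂ)) (D *ᵥ fun i => (x i : ℂ)) = 0 := by
  obtain ⟨γ, hγ, hγ1, hnil⟩ := hu
  obtain ⟨x, hx, h1, -⟩ := exists_null_fixed hD γ (h γ hγ) hγ1 hnil
  exact ⟨x, hx, h1⟩

end Pool.Agent.Lib.MP_5d4057_al.Hyb
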