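import Pool.Agent.Lib.MP_5d4057_al.Hyb.Defs

namespace Pool.Agent.Lib.MP_5d4057_al.Hyb

open Matrix ComplexOrder

open scoped MatrixOrder Matrix.Norms.L2Operator in
private theorem uni_exists_factor {n : ℕ} {H : Matrix (Fin n) (Fin n) ℂ} (hH : H.PosSemidef) :
    ∃ B : Matrix (Fin n) (Fin n) ℂ, H = Bᴴ * B := by
  obtain ⟨B, hB⟩ := CStarAlgebra.nonneg_iff_eq_star_mul_self.mp hH.nonneg
  exact ⟨B, hB⟩

/-- The unitary group of a positive definite form is bounded. For instance: the continuous function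
`x ↦ re (x^* H x)` is positive on the compact unit sphere, so `c ‖x‖² ≤ re (x^* H x) ≤ C ‖x‖²` with
`c > 0`; for the column `G e_j`: `c ‖G e_j‖² ≤ (G e_j)^* H (G e_j) = e_j^* H e_j ≤ C`. -/
theorem entries_bound {n : ℕ} (H : Matrix (Fin n) (Fin n) ℂ) (hH : H.PosDef) :
    ∃ C : ℝ, ∀ G : Matrix (Fin n) (Fin n) ℂ, Gᴴ * H * G = H → ∀ i j, ‖G i j‖ ≤ C := by
  classical
  obtain ⟨B, hB⟩ := uni_exists_factor hH.posSemidef
  have hdet : IsUnit H.det := (Matrix.isUnit_iff_isUnit_det H).1 hH.isUnit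
  have hBu : IsUnit B.det := by
    rw [hB, Matrix.det_mul] at hdet
    exact isUnit_of_mul_isUnit_right hdet
  have hinv : B⁻¹ * B = 1 := Matrix.nonsing_inv_mul B hBu
  refine ⟨∑ i, ∑ j, ∑ k, ‖B⁻¹ i k‖ * Real.sqrt ‖H j j‖, fun G hG i j => ?_⟩
  have hent : ∀ k, ‖(B * G) k j‖ ≤ Real.sqrt ‖H j j‖ := by
    intro k
    have h1 : (B * G)ᴴ * (B * G) = H := by
      rw [Matrix.conjTranspose_mul, Matrix.mul_assoc, ← Matrix.mul_assoc Bᴴ, ← hB,
        ← Matrix.mul_assoc, hG]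
    have h2 : H j j = ∑ l, star ((B * G) l j) * (B * G) l j := by
      conv_lhs => rw [← h1]
      simp only [Matrix.mul_apply (M := (B * G)ᴴ), Matrix.conjTranspose_apply]
    have h3 : ∀ l, star ((B * G) l j) * (B * G) l j = ((‖(B * G) l j‖ ^ 2 : ℝ) : ℂ) := by
      intro l
      rw [Complex.star_def, Complex.conj_mul']
      push_cast
      rfl
    have h4 : H j j = ((∑ l, ‖(B * G) l j‖ ^ 2 : ℝ) : ℂ) := by
      rw [h2, Complex.ofReal_sum]
      exact Finset.sum_congr rfl fun l _ => h3 l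
    have h5 : ‖H j j‖ = ∑ l, ‖(B * G) l j‖ ^ 2 := by
      rw [h4, Complex.norm_real]
      exact abs_of_nonneg (Finset.sum_nonneg fun l _ => sq_nonneg _)
    apply Real.le_sqrt_of_sq_le
    rw [h5]
    exact Finset.single_le_sum (f := fun l => ‖(B * G) l j‖ ^ 2) (fun l _ => sq_nonneg _)
      (Finset.mem_univ k)
  have hG2 : G i j = ∑ k, B⁻¹ i k * (B * G) k j := by
    have h1 : G = B⁻¹ * (B * G) := by rw [← Matrix.mul_assoc, hinv, Matrix.one_mul]
    conv_lhs => rw [h1]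
    rw [Matrix.mul_apply]
  calc ‖G i j‖ ≤ ∑ k, ‖B⁻¹ i k * (B * G) k j‖ := by
        rw [hG2]
        exact norm_sum_le _ _
    _ ≤ ∑ k, ‖B⁻¹ i k‖ * Real.sqrt ‖H j j‖ := by
        refine Finset.sum_le_sum fun k _ => ?_
        rw [norm_mul]
        exact mul_le_mul_of_nonneg_left (hent k) (norm_nonneg _)
    _ ≤ ∑ j, ∑ k, ‖B⁻¹ i k‖ * Real.sqrt ‖H j j‖ :=
        Finset.single_le_sum (f := fun j => ∑ k, ‖B⁻¹ i k‖ * Real.sqrt ‖H j j‖)
          (fun j _ => Finset.sum_nonneg fun k _ => mul_nonneg (norm_nonneg _) (Real.sqrt_nonneg _))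
          (Finset.mem_univ j)
    _ ≤ ∑ i, ∑ j, ∑ k, ‖B⁻¹ i k‖ * Real.sqrt ‖H j j‖ :=
        Finset.single_le_sum (f := fun i => ∑ j, ∑ k, ‖B⁻¹ i k‖ * Real.sqrt ‖H j j‖)
          (fun i _ => Finset.sum_nonneg fun j _ => Finset.sum_nonneg fun k _ =>
            mul_nonneg (norm_nonneg _) (Real.sqrt_nonneg _))
          (Finset.mem_univ i)

/-- The same for a definite form of either sign (apply the lemma above to `-H`). -/
theorem entries_bound' {n : ℕ} (H : Matrix (Fin n) (Fin n) ℂ) (hH : H.PosDef ∨ (-H).PosDef) :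
    ∃ C : ℝ, ∀ G : Matrix (Fin n) (Fin n) ℂ, Gᴴ * H * G = H → ∀ i j, ‖G i j‖ ≤ C := by
  rcases hH with h | h
  · exact entries_bound H h
  · obtain ⟨C, hC⟩ := entries_bound (-H) h
    refine ⟨C, fun G hG => hC G ?_⟩
    rw [Matrix.mul_neg, Matrix.neg_mul, hG]

end Pool.Agent.Lib.MP_5d4057_al.Hyb
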