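import Pool.Agent.Lib.MP_5d4057_al.Hyb.Sig
import Pool.Agent.Lib.MP_5d4057_al.Hyb.Uni

namespace Pool.Agent.Lib.MP_5d4057_al.Hyb

open Matrix Pool.Agent.Lib.MP_5d4057_al ComplexOrder Topology

private theorem conj_entry_bound {n : ℕ} (A g B : Matrix (Fin n) (Fin n) ℂ) (C : ℝ)
    (hg : ∀ i j, ‖g i j‖ ≤ C) (i j : Fin n) :
    ‖(A * g * B) i j‖ ≤ ∑ k, (∑ l, ‖A i l‖ * C) * ‖B k j‖ := by
  rw [Matrix.mul_apply]
  refine (norm_sum_le _ _).trans (Finset.sum_le_sum fun k _ => ?_)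
  rw [norm_mul]
  refine mul_le_mul_of_nonneg_right ?_ (norm_nonneg _)
  rw [Matrix.mul_apply]
  refine (norm_sum_le _ _).trans (Finset.sum_le_sum fun l _ => ?_)
  rw [norm_mul]
  exact mul_le_mul_of_nonneg_left (hg _ _) (norm_nonneg _)

private theorem exists_bound {n : ℕ} (A B : Matrix (Fin n) (Fin n) ℂ) (C : ℝ) :
    ∃ D : ℝ, 0 ≤ D ∧ ∀ g : Matrix (Fin n) (Fin n) ℂ, (∀ i j, ‖g i j‖ ≤ C) →
      ∀ i j, ‖(A * g * B) i j‖ ≤ D := by
  refine ⟨∑ i, ∑ j, |∑ k, (∑ l, ‖A i l‖ * C) * ‖B k j‖|, by positivity, fun g hg i j => ?_⟩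
  refine (conj_entry_bound A g B C hg i j).trans ((le_abs_self _).trans ?_)
  refine le_trans ?_ (Finset.single_le_sum (f := fun i => ∑ j, |∑ k, (∑ l, ‖A i l‖ * C) * ‖B k j‖|)
    (fun i _ => by positivity) (Finset.mem_univ i))
  exact Finset.single_le_sum (f := fun j => |∑ k, (∑ l, ‖A i l‖ * C) * ‖B k j‖|)
    (fun j _ => by positivity) (Finset.mem_univ j)

/-- The elements of `SU(H, K)` with denominator `N` and bounded entries are finite in number. Let `g`
be in the set and `G` from `exists_rat`. The entries `x` of `N • G` are algebraic integers in `K`. For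
`τ : K →+* ℂ`: if `τ` is the inclusion or complex conjugation, `‖τ x‖ ≤ C'` with `C'` depending on
`N, B, C` only; otherwise `‖τ x‖ ≤ N * C_τ` with `C_τ` from `entries_bound'` for `H.map τ`, since
`(G.map τ)ᴴ * H.map τ * G.map τ = H.map τ`. There are finitely many `τ`, so
`NumberField.Embeddings.finite_of_norm_le` gives finitely many possible entries. -/
theorem finite_bounded {m : ℕ} {K : Subfield ℂ} {H : Matrix (Fin (m + 1)) (Fin (m + 1)) K}
    {B : Matrix (Fin (m + 1)) (Fin (m + 1)) ℂ} (hf : IsForm m K H B) (N : ℕ) (hN : 0 < N) (C : ℝ) :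
    {g : SUGroup m | (∀ i j, (N : ℂ) * (B⁻¹ * g.toMatrix * B) i j ∈ integers K) ∧
      ∀ i j, ‖g.toMatrix i j‖ ≤ C}.Finite := by
  have hK : NumberField K := hf.cm.1
  obtain ⟨D, hD0, hD⟩ := exists_bound B⁻¹ B C
  -- bounds for all embeddings
  have hτ : ∀ τ : K →+* ℂ, ∃ E : ℝ, ∀ (g : SUGroup m) (G : Matrix (Fin (m + 1)) (Fin (m + 1)) K),
      (∀ i j, ‖g.toMatrix i j‖ ≤ C) → G.map (fun x : K => (x : ℂ)) = B⁻¹ * g.toMatrix * B →
      (G.map τ)ᴴ * H.map τ * G.map τ = H.map τ → ∀ i j, ‖τ (G i j)‖ ≤ E := by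
    intro τ
    rcases hf.definite τ with h | h | h
    · refine ⟨D, fun g G hg hG _ i j => ?_⟩
      rw [h]
      have := congrFun (congrFun hG i) j
      rw [Matrix.map_apply] at this
      rw [this]
      exact hD _ hg i j
    · refine ⟨D, fun g G hg hG _ i j => ?_⟩
      rw [h, RCLike.norm_conj]
      have := congrFun (congrFun hG i) j
      rw [Matrix.map_apply] at this
      rw [this]
      exact hD _ hg i j
    · obtain ⟨E, hE⟩ := entries_bound' (H.map τ) h
      refine ⟨E, fun g G _ _ hG i j => ?_⟩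
      exact hE _ hG i j
  choose E hE using hτ
  -- the finite set of entries
  have hfin : ({x : K | IsIntegral ℤ x ∧ ∀ φ : K →+* ℂ, ‖φ x‖ ≤ N * ∑ τ, |E τ|}).Finite :=
    NumberField.Embeddings.finite_of_norm_le K ℂ _
  let F : Set ℂ := (fun x : K => (x : ℂ)) '' {x : K | IsIntegral ℤ x ∧
    ∀ φ : K →+* ℂ, ‖φ x‖ ≤ N * ∑ τ, |E τ|}
  have hF : F.Finite := hfin.image _
  have hpi : (Set.univ.pi fun _ : Fin (m + 1) => Set.univ.pi fun _ : Fin (m + 1) => F).Finite :=
    Set.Finite.pi fun _ => Set.Finite.pi fun _ => hF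
  have hNC : (N : ℂ) ≠ 0 := by exact_mod_cast hN.ne'
  have hBu : IsUnit B.det := isUnit_iff_ne_zero.2 hf.det
  refine Set.Finite.of_finite_image (f := fun g : SUGroup m => fun i j =>
    (N : ℂ) * (B⁻¹ * g.toMatrix * B) i j) (hpi.subset ?_) ?_
  · rintro _ ⟨g, ⟨hg1, hg2⟩, rfl⟩
    rw [Set.mem_univ_pi]
    intro i
    rw [Set.mem_univ_pi]
    intro j
    have hgK : EntriesIn K B g.toMatrix := by
      intro i j
      have h1 : (N : ℂ) * (B⁻¹ * g.toMatrix * B) i j ∈ K := (hg1 i j).1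
      have h2 : (B⁻¹ * g.toMatrix * B) i j = (N : ℂ)⁻¹ * ((N : ℂ) *
          (B⁻¹ * g.toMatrix * B) i j) := by
        rw [← mul_assoc, inv_mul_cancel₀ hNC, one_mul]
      show (B⁻¹ * g.toMatrix * B) i j ∈ K
      rw [h2]
      exact K.mul_mem (K.inv_mem (natCast_mem K N)) h1
    obtain ⟨G, hG1, -, hG3⟩ := exists_rat hf g hgK
    have hij : ((G i j : K) : ℂ) = (B⁻¹ * g.toMatrix * B) i j := by
      have := congrFun (congrFun hG1 i) j
      rwa [Matrix.map_apply] at this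
    refine ⟨(N : K) * G i j, ⟨?_, ?_⟩, ?_⟩
    · have h1 : IsIntegral ℤ ((N : ℂ) * (B⁻¹ * g.toMatrix * B) i j) := (hg1 i j).2
      rw [← hij] at h1
      have h2 : IsIntegral ℤ (algebraMap K ℂ ((N : K) * G i j)) := by
        convert h1 using 1
        rw [map_mul, map_natCast]
        rfl
      exact (isIntegral_algebraMap_iff (algebraMap K ℂ).injective).1 h2
    · intro φ
      rw [map_mul, map_natCast, norm_mul, Complex.norm_natCast]
      refine mul_le_mul_of_nonneg_left ?_ (Nat.cast_nonneg _)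
      refine (hE φ g G hg2 hG1 (hG3 φ) i j).trans ((le_abs_self _).trans ?_)
      exact Finset.single_le_sum (f := fun τ => |E τ|) (fun τ _ => abs_nonneg _)
        (Finset.mem_univ φ)
    · show (((N : K) * G i j : K) : ℂ) = (N : ℂ) * (B⁻¹ * g.toMatrix * B) i j
      rw [← hij]
      push_cast
      rfl
  · intro g _ h _ hgh
    apply toMatrix_injective
    have h1 : B⁻¹ * g.toMatrix * B = B⁻¹ * h.toMatrix * B := by
      ext i j
      have := congrFun (congrFun hgh i) j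
      exact mul_left_cancel₀ hNC this
    calc g.toMatrix = B * (B⁻¹ * g.toMatrix * B) * B⁻¹ := by
          rw [← Matrix.mul_assoc, ← Matrix.mul_assoc, Matrix.mul_nonsing_inv B hBu,
            Matrix.one_mul, Matrix.mul_assoc, Matrix.mul_nonsing_inv B hBu, Matrix.mul_one]
      _ = B * (B⁻¹ * h.toMatrix * B) * B⁻¹ := by rw [h1]
      _ = h.toMatrix := by
          rw [← Matrix.mul_assoc, ← Matrix.mul_assoc, Matrix.mul_nonsing_inv B hBu,
            Matrix.one_mul, Matrix.mul_assoc, Matrix.mul_nonsing_inv B hBu, Matrix.mul_one]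

/-- There is a neighbourhood of `1` in `SU(m,1)` containing no other element with denominator `N`
(rational over `K`): take a bounded neighbourhood, and remove the finite set of `finite_bounded`
minus `1` (a finite set is closed). -/
theorem exists_nhd {m : ℕ} {K : Subfield ℂ} {H : Matrix (Fin (m + 1)) (Fin (m + 1)) K}
    {B : Matrix (Fin (m + 1)) (Fin (m + 1)) ℂ} (hf : IsForm m K H B) (N : ℕ) (hN : 0 < N) :
    ∃ U : Set (SUGroup m), IsOpen U ∧ 1 ∈ U ∧
      ∀ g ∈ U, (∀ i j, (N : ℂ) * (B⁻¹ * g.toMatrix * B) i j ∈ integers K) → g = 1 := by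
  have hfin := finite_bounded hf N hN 2
  have hent : ∀ i j : Fin (m + 1), Continuous fun g : SUGroup m => ‖g.toMatrix i j‖ :=
    fun i j => ((continuous_toMatrix m).matrix_elem i j).norm
  refine ⟨(⋂ i, ⋂ j, {g : SUGroup m | ‖g.toMatrix i j‖ < 2}) ∩
    ({g : SUGroup m | (∀ i j, (N : ℂ) * (B⁻¹ * g.toMatrix * B) i j ∈ integers K) ∧
      ∀ i j, ‖g.toMatrix i j‖ ≤ 2} \ {1})ᶜ, ?_, ?_, ?_⟩
  · refine IsOpen.inter ?_ (hfin.subset Set.sdiff_subset).isClosed.isOpen_compl
    exact isOpen_iInter_of_finite fun i => isOpen_iInter_of_finite fun j =>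
      isOpen_lt (hent i j) continuous_const
  · refine ⟨?_, fun h => h.2 rfl⟩
    simp only [Set.mem_iInter, Set.mem_ofPred_eq]
    intro i j
    rw [toMatrix_one, Matrix.one_apply]
    split_ifs <;> norm_num
  · rintro g ⟨hg1, hg2⟩ hg
    by_contra hne
    simp only [Set.mem_iInter, Set.mem_ofPred_eq] at hg1
    exact hg2 ⟨⟨hg, fun i j => (hg1 i j).le⟩, hne⟩

end Pool.Agent.Lib.MP_5d4057_al.Hyb
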