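import Pool.Agent.Lib.MP_5d4057_al.Hyb.Key
import Pool.Agent.Lib.MP_5d4057_al.Hyb.Frame
import Pool.Agent.Lib.MP_5d4057_al.Hyb.Glue
import Pool.Agent.Lib.MP_5d4057_al.Hyb.Null
import Pool.Agent.Lib.MP_5d4057_al.Hyb.Angle
import Pool.Agent.Lib.MP_5d4057_al.Hyb.Den
import Pool.Agent.Lib.MP_5d4057_al.Hyb.DenB
import Pool.Agent.Lib.MP_5d4057_al.Hyb.Sep
import Pool.Agent.Lib.MP_5d4057_al.Hyb.CovB
import Pool.Agent.Lib.MP_5d4057_al.Hyb.Intg

namespace Pool.Agent.Lib.MP_5d4057_al.Hyb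

open Matrix Pool.Agent.Lib.MP_5d4057_al ComplexOrder

theorem entriesIn_conj {m : ℕ} {R : Set ℂ} (g : SUGroup m)
    (B A : Matrix (Fin (m + 1)) (Fin (m + 1)) ℂ) :
    EntriesIn R (g.toMatrix * B) (g.toMatrix * A * (g⁻¹).toMatrix) ↔ EntriesIn R B A := by
  have h : (g.toMatrix * B)⁻¹ * (g.toMatrix * A * (g⁻¹).toMatrix) * (g.toMatrix * B) =
      B⁻¹ * A * B := by
    rw [Matrix.mul_inv_rev, ← toMatrix_inv]
    calc B⁻¹ * (g⁻¹).toMatrix * (g.toMatrix * A * (g⁻¹).toMatrix) * (g.toMatrix * B)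
        = B⁻¹ * ((g⁻¹).toMatrix * g.toMatrix) * A * ((g⁻¹).toMatrix * g.toMatrix) * B := by
          simp only [Matrix.mul_assoc]
      _ = _ := by rw [toMatrix_inv_mul]; simp only [Matrix.mul_one, Matrix.mul_assoc]
  simp only [EntriesIn, h]

theorem IsForm.conj {m : ℕ} {K : Subfield ℂ} {H : Matrix (Fin (m + 1)) (Fin (m + 1)) K}
    {B : Matrix (Fin (m + 1)) (Fin (m + 1)) ℂ} (hf : IsForm m K H B) (g : SUGroup m) :
    IsForm m K H (g.toMatrix * B) where
  cm := hf.cm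
  det := by rw [det_mul, det_toMatrix, one_mul]; exact hf.det
  form := by
    rw [← hf.form, conjTranspose_mul]
    calc Bᴴ * g.toMatrixᴴ * J m * (g.toMatrix * B)
        = Bᴴ * (g.toMatrixᴴ * J m * g.toMatrix) * B := by simp only [Matrix.mul_assoc]
      _ = _ := by rw [pres]
  definite := hf.definite

/-- The fields attached to the pieces are the trace fields. -/
theorem traceField_piece {k : ℕ} (hk : 1 ≤ k) (Γ : Subgroup (SUGroup (k + 1)))
    (hL : IsLattice Γ) (g : SUGroup (k + 2)) {K : Subfield ℂ}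
    {H : Matrix (Fin (k + 2 + 1)) (Fin (k + 2 + 1)) K}
    {B : Matrix (Fin (k + 2 + 1)) (Fin (k + 2 + 1)) ℂ} (hf : IsForm (k + 2) K H B)
    (hr : ∀ γ ∈ Γ, EntriesIn K B (g * extend (k + 1) γ * g⁻¹).toMatrix) : traceField Γ = K := by
  have hf' := hf.conj g⁻¹
  have hr' : ∀ γ ∈ Γ, EntriesIn K ((g⁻¹).toMatrix * B) (extend (k + 1) γ).toMatrix := by
    intro γ hγ
    have h1 := (entriesIn_conj (R := K) g⁻¹ B (g * extend (k + 1) γ * g⁻¹).toMatrix).2 (hr γ hγ)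
    have h2 : (g⁻¹).toMatrix * (g * extend (k + 1) γ * g⁻¹).toMatrix * (g⁻¹⁻¹).toMatrix =
        (extend (k + 1) γ).toMatrix := by
      rw [← toMatrix_mul, ← toMatrix_mul]
      congr 1
      group
    rwa [h2] at h1
  obtain ⟨H', D, h1, h2⟩ := restrict_form (by omega : 1 ≤ k + 1) Γ hL K H _ hf' hr'
  exact traceField_eq (by omega) Γ hL K H' D h1 h2

theorem traceField_three {k : ℕ} (hk : 2 ≤ k) (Γ₃ : Subgroup (SUGroup k)) (h₃ : IsLattice Γ₃)
    (Γ : Subgroup (SUGroup (k + 1))) (hL : IsLattice Γ) (hA : IsArithmetic (k + 1) Γ)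
    (hsub : ∀ γ ∈ Γ₃, extend k γ ∈ Γ) : traceField Γ = traceField Γ₃ := by
  obtain ⟨K, H, B, hf, hr, -⟩ := hA
  rw [traceField_eq (by omega) Γ hL K H B hf hr]
  obtain ⟨H', D, h1, h2⟩ := restrict_form (by omega : 1 ≤ k) Γ₃ h₃ K H B hf
    (fun γ hγ => hr _ (hsub γ hγ))
  exact (traceField_eq hk Γ₃ h₃ K H' D h1 h2).symm

theorem unitary_two {X : Matrix (Fin 2) (Fin 2) ℂ} (hX : Xᴴ * X = 1) :
    (X 0 1 = 0 → X 1 0 = 0) ∧ (X 0 0 = 0 → X 1 1 = 0) := by
  have hX' : X * Xᴴ = 1 := mul_eq_one_comm.1 hX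
  have c0 := congrFun (congrFun hX 0) 0
  have c1 := congrFun (congrFun hX 1) 1
  have r0 := congrFun (congrFun hX' 0) 0
  have r1 := congrFun (congrFun hX' 1) 1
  simp only [Matrix.mul_apply, Fin.sum_univ_two, conjTranspose_apply, RCLike.star_def,
    Matrix.one_apply_eq] at c0 c1 r0 r1
  rw [← Complex.normSq_eq_conj_mul_self, ← Complex.normSq_eq_conj_mul_self] at c0 c1
  rw [Complex.mul_conj, Complex.mul_conj] at r0 r1
  norm_cast at c0 c1 r0 r1
  constructor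
  · intro h
    rw [h] at r0
    simp at r0
    rw [r0] at c0
    exact Complex.normSq_eq_zero.1 (by linarith)
  · intro h
    rw [h] at c0
    simp at c0
    rw [c0] at r1
    exact Complex.normSq_eq_zero.1 (by linarith)

theorem toMatrix_gen_one {k : ℕ} {g : Fin 2 → SUGroup (k + 2)} {X : Matrix (Fin 2) (Fin 2) ℂ}
    {ζ : ℂ} (hζ : star ζ * ζ = 1) (hX : Xᴴ * X = 1)
    (hg : (g 1).toMatrix = (g 0).toMatrix * (ζ • bsum X 1)) :
    ((g 1)⁻¹).toMatrix = (star ζ • bsum Xᴴ 1) * ((g 0)⁻¹).toMatrix := by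
  rw [toMatrix_inv]
  refine Matrix.inv_eq_right_inv ?_
  rw [hg]
  have hX' : X * Xᴴ = 1 := mul_eq_one_comm.1 hX
  calc (g 0).toMatrix * ζ • bsum X 1 * (star ζ • bsum Xᴴ 1 * ((g 0)⁻¹).toMatrix)
      = (star ζ * ζ) • ((g 0).toMatrix * (bsum X 1 * bsum Xᴴ 1) * ((g 0)⁻¹).toMatrix) := by
        simp only [Matrix.mul_assoc, Matrix.mul_smul, Matrix.smul_mul, smul_smul]
    _ = 1 := by rw [hζ, one_smul, bsum_mul, hX', Matrix.mul_one, bsum_one, Matrix.mul_one,
      toMatrix_mul_inv]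

/-- If `X 0 1 = 0` all elements of the hybrid fix the vector `g 0 e_0`. -/
theorem X01_ne {k : ℕ} (Γ : Fin 2 → Subgroup (SUGroup (k + 1)))
    (g : Fin 2 → SUGroup (k + 2)) (hlat : IsLattice (hybrid Γ g)) (X : Matrix (Fin 2) (Fin 2) ℂ)
    (ζ : ℂ) (hζ : star ζ * ζ = 1) (hX : Xᴴ * X = 1)
    (hg : (g 1).toMatrix = (g 0).toMatrix * (ζ • bsum X 1)) : X 0 1 ≠ 0 := by
  intro h01
  have h10 := (unitary_two hX).1 h01
  let e : Fin (k + 2 + 1) → ℂ := Fin.cons 1 (Fin.cons 0 0)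
  have he : ∀ A : Matrix (Fin (k + 1 + 1)) (Fin (k + 1 + 1)) ℂ, dsum 1 A *ᵥ e = e := by
    intro A
    have : e = Fin.cons 1 0 := by
      ext i
      refine Fin.cases rfl (fun i => ?_) i
      refine Fin.cases rfl (fun i => rfl) i
    rw [this, dsum_mulVec_cons, mulVec_zero, mul_one]
  have key : ∀ γ ∈ hybrid Γ g, γ.toMatrix *ᵥ ((g 0).toMatrix *ᵥ e) = (g 0).toMatrix *ᵥ e := by
    intro γ hγ
    induction hγ using Subgroup.closure_induction with
    | mem x hx =>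
      obtain ⟨b, γ, hγ, rfl⟩ := hx
      fin_cases b
      · show ((g 0 * extend (k + 1) γ * (g 0)⁻¹).toMatrix) *ᵥ ((g 0).toMatrix *ᵥ e) = _
        rw [mulVec_mulVec, ← toMatrix_mul, inv_mul_cancel_right, toMatrix_mul, ← mulVec_mulVec,
          extend_toMatrix, he]
      · show ((g 1 * extend (k + 1) γ * (g 1)⁻¹).toMatrix) *ᵥ ((g 0).toMatrix *ᵥ e) = _
        have h1 : ((g 1)⁻¹).toMatrix *ᵥ ((g 0).toMatrix *ᵥ e) =
            (star ζ * star (X 0 0)) • e := by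
          rw [toMatrix_gen_one hζ hX hg, mulVec_mulVec, Matrix.mul_assoc, toMatrix_inv_mul,
            Matrix.mul_one, smul_mulVec, bsum_mulVec_cons, mul_smul]
          congr 1
          ext i
          refine Fin.cases ?_ (fun i => Fin.cases ?_ (fun i => ?_) i) i
          · simp [e]
          · simp [e, h01]
          · simp [e]
        have h2 : (g 0).toMatrix *ᵥ e =
            (g 1).toMatrix *ᵥ (((g 1)⁻¹).toMatrix *ᵥ ((g 0).toMatrix *ᵥ e)) := by
          rw [mulVec_mulVec, mulVec_mulVec, toMatrix_mul_inv, Matrix.one_mul]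
        rw [toMatrix_mul, toMatrix_mul, ← mulVec_mulVec, ← mulVec_mulVec, h1, mulVec_smul,
          extend_toMatrix, he, ← h1, ← h2]
    | one => rw [toMatrix_one, one_mulVec]
    | mul x y _ _ hx hy => rw [toMatrix_mul, ← mulVec_mulVec, hy, hx]
    | inv x _ hx =>
      conv_lhs => rw [← hx]
      rw [mulVec_mulVec, toMatrix_inv_mul, one_mulVec]
  have hspan := span_top (by omega : 1 ≤ k + 2) (hybrid Γ g) hlat
  have hv : (g 0).toMatrix *ᵥ e ≠ 0 := by
    intro h0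
    have : ((g 0)⁻¹).toMatrix *ᵥ ((g 0).toMatrix *ᵥ e) = e := by
      rw [mulVec_mulVec, toMatrix_inv_mul, one_mulVec]
    rw [h0, mulVec_zero] at this
    have := congrFun this 0
    simp [e] at this
  set v := (g 0).toMatrix *ᵥ e with hvdef
  have hall : ∀ A : Matrix (Fin (k + 2 + 1)) (Fin (k + 2 + 1)) ℂ, ∃ c : ℂ, A *ᵥ v = c • v := by
    intro A
    have hA : A ∈ Submodule.span ℂ
        (SUGroup.toMatrix '' ((hybrid Γ g : Subgroup (SUGroup (k + 2))) : Set (SUGroup (k + 2)))) := by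
      rw [hspan]; trivial
    induction hA using Submodule.span_induction with
    | mem x hx =>
      obtain ⟨γ, hγ, rfl⟩ := hx
      exact ⟨1, by rw [key γ hγ, one_smul]⟩
    | zero => exact ⟨0, by simp⟩
    | add x y _ _ hx hy =>
      obtain ⟨c, hc⟩ := hx
      obtain ⟨d, hd⟩ := hy
      exact ⟨c + d, by rw [add_mulVec, hc, hd, add_smul]⟩
    | smul a x _ hx =>
      obtain ⟨c, hc⟩ := hx
      exact ⟨a * c, by rw [smul_mulVec, hc, smul_smul]⟩
  obtain ⟨i, hi⟩ := Function.ne_iff.1 hv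
  obtain ⟨j, hj⟩ : ∃ j : Fin (k + 2 + 1), j ≠ i := exists_ne i
  obtain ⟨c, hc⟩ := hall (Matrix.single j i 1)
  have h1 := congrFun hc i
  have h2 := congrFun hc j
  have e1 : (Matrix.single j i (1 : ℂ) *ᵥ v) i = 0 := by
    simp [Matrix.mulVec, dotProduct, Matrix.single_apply, hj]
  have e2 : (Matrix.single j i (1 : ℂ) *ᵥ v) j = v i := by
    simp [Matrix.mulVec, dotProduct, Matrix.single_apply]
  rw [e1] at h1
  rw [e2] at h2
  simp only [Pi.smul_apply, smul_eq_mul] at h1 h2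
  rcases mul_eq_zero.1 h1.symm with h3 | h3
  · rw [h3, zero_mul] at h2
    exact hi h2
  · exact hi h3

end Pool.Agent.Lib.MP_5d4057_al.Hyb
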