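import Pool.Agent.Lib.MP_5d4057_al.Hyb.SplitForm

namespace Pool.Agent.Lib.MP_5d4057_al.Hyb

open Matrix Pool.Agent.Lib.MP_5d4057_al ComplexOrder

/-- The common normal form of two `K`-forms on `ℂ ⊕ W` and `ℂ ⊕ W`, `W = ℂ^{k+1}`, which agree on
`W`: bases `μ b ⊕ D`, `b = 0, 1`. -/
structure IsNF (k : ℕ) (K : Subfield ℂ) (D : Matrix (Fin (k + 1)) (Fin (k + 1)) ℂ)
    (HD : Matrix (Fin (k + 1)) (Fin (k + 1)) K) (μ : Fin 2 → ℂ) (q : Fin 2 → K) : Prop where
  det : D.det ≠ 0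
  form : Dᴴ * J k * D = HD.map (fun x : K => (x : ℂ))
  μ_ne : ∀ b, μ b ≠ 0
  q_eq : ∀ b, (q b : ℂ) = star (μ b) * μ b
  definite : ∀ (b : Fin 2) (τ : K →+* ℂ), (∀ x : K, τ x = x) ∨
    (∀ x : K, τ x = (starRingEnd ℂ) (x : ℂ)) ∨
    (dsum (τ (q b)) (HD.map τ)).PosDef ∨ (-(dsum (τ (q b)) (HD.map τ))).PosDef

/-- A definite matrix scaled by a nonzero real number is definite. -/
private theorem def_of_smul {n : ℕ} {M : Matrix (Fin n) (Fin n) ℂ} {r : ℝ} (hr : r ≠ 0)
    (h : ((r : ℂ) • M).PosDef ∨ (-((r : ℂ) • M)).PosDef) : M.PosDef ∨ (-M).PosDef := by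
  have hpos : ∀ (s : ℝ), 0 < s → (0 : ℂ) < ((s⁻¹ : ℝ) : ℂ) := by
    intro s hs
    exact_mod_cast inv_pos.2 hs
  rcases lt_or_gt_of_ne hr with hneg | hposr
  · have hs : 0 < -r := neg_pos.2 hneg
    have hinv : ((((-r)⁻¹ : ℝ)) : ℂ) * (r : ℂ) = -1 := by
      have : (-r)⁻¹ * r = -1 := by field_simp
      exact_mod_cast this
    rcases h with h | h
    · right
      have h2 := h.smul (hpos (-r) hs)
      rw [smul_smul, hinv, neg_one_smul] at h2
      exact h2
    · left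
      have h2 := h.smul (hpos (-r) hs)
      rw [smul_neg, smul_smul, hinv, neg_one_smul, neg_neg] at h2
      exact h2
  · have hinv : (((r⁻¹ : ℝ)) : ℂ) * (r : ℂ) = 1 := by
      have : r⁻¹ * r = 1 := by field_simp
      exact_mod_cast this
    rcases h with h | h
    · left
      have h2 := h.smul (hpos r hposr)
      rw [smul_smul, hinv, one_smul] at h2
      exact h2
    · right
      have h2 := h.smul (hpos r hposr)
      rw [smul_neg, smul_smul, hinv, one_smul] at h2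
      exact h2

/-- Congruence of definite matrices. -/
private theorem def_congr {n : ℕ} {A P : Matrix (Fin n) (Fin n) ℂ} (hP : P.det ≠ 0)
    (h : A.PosDef ∨ (-A).PosDef) : (Pᴴ * A * P).PosDef ∨ (-(Pᴴ * A * P)).PosDef := by
  have hinj : Function.Injective P.mulVec := Matrix.mulVec_injective_of_det_ne_zero hP
  rcases h with h | h
  · exact Or.inl (h.conjTranspose_mul_mul_same hinj)
  · right
    have h2 := h.conjTranspose_mul_mul_same hinj
    rwa [Matrix.mul_neg, Matrix.neg_mul] at h2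

/-- Take `t b, D b, Q b, q b, H' b` from `split_form` for `B b`. Both `D 0` and `D 1` make
`Γ₃` rational over `K` (see `restrict_form`), and `Γ₃` spans (`span_top`), so `exists_similar` with
`B = D 0`, `B' = D 1` gives `ν ≠ 0` and `Y` over `K` with `D 1 * Y = ν • D 0`. Put `D = D 0`,
`HD = H' 0`, `μ 0 = t 0`, `μ 1 = ν⁻¹ * t 1`. For `b = 1`:
`B 1 * (Q 1 * dsum 1 Y) = dsum (t 1) (D 1 * Y) = dsum (t 1) (ν • D) = ν • dsum (μ 1) D`, so `σ 1 = ν`.
For `q 1` we need `star ν * ν ∈ K`: `Yᴴ (H' 1) Y = (D 1 * Y)ᴴ J (D 1 * Y) = star ν * ν • HD` and some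
entry of `HD` is nonzero (`D` and `J` are invertible); the `q 1` of the normal form is `q' / c` with
`q' = star (t 1) * t 1 ∈ K` and `c = star ν * ν ∈ K`, `c ≠ 0`. Definiteness for `b = 1`: over `K`,
`Yᴴ (H' 1) Y = c • HD`, so
`dsum (τ q') ((H' 1).map τ)` is congruent (by the invertible `dsum 1 (Y.map τ)`) to
`dsum (τ q') (τ c • HD.map τ) = τ c • dsum (τ (q 1)) (HD.map τ)`; it is definite of some sign, and
`τ c` is a nonzero real number (`c` is fixed by complex conjugation, so `τ c` is by `hf.cm`), so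
`dsum (τ (q 1)) (HD.map τ)` is definite of some sign. -/
theorem exists_normal_form {k : ℕ} (hk : 1 ≤ k) (Γ₃ : Subgroup (SUGroup k)) (h3 : IsLattice Γ₃)
    (K : Subfield ℂ) (H : Fin 2 → Matrix (Fin (k + 1 + 1)) (Fin (k + 1 + 1)) K)
    (B : Fin 2 → Matrix (Fin (k + 1 + 1)) (Fin (k + 1 + 1)) ℂ)
    (hf : ∀ b, IsForm (k + 1) K (H b) (B b))
    (hr : ∀ b, ∀ γ ∈ Γ₃, EntriesIn K (B b) (extend k γ).toMatrix) :
    ∃ (D : Matrix (Fin (k + 1)) (Fin (k + 1)) ℂ) (HD : Matrix (Fin (k + 1)) (Fin (k + 1)) K)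
      (μ : Fin 2 → ℂ) (q : Fin 2 → K), IsNF k K D HD μ q ∧
      (∀ γ ∈ Γ₃, EntriesIn K D γ.toMatrix) ∧
      ∀ b, ∃ (σ : ℂ) (Q : Matrix (Fin (k + 1 + 1)) (Fin (k + 1 + 1)) K), σ ≠ 0 ∧ Q.det ≠ 0 ∧
        B b * Q.map (fun x : K => (x : ℂ)) = σ • dsum (μ b) D := by
  classical
  have hsplit := fun b => split_form hk Γ₃ h3 K (H b) (B b) (hf b) (hr b)
  choose t D Q q H' ht hD hQ hBQ hq hform hdef using hsplit
  -- both `D b` make `Γ₃` rational
  have hent : ∀ b, ∀ γ ∈ Γ₃, EntriesIn K (D b) γ.toMatrix := by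
    intro b γ hγ i j
    have h1 := EntriesIn.change (B' := dsum (t b) (D b)) (σ := 1) (hf b).det one_ne_zero (hQ b)
      (by rw [one_smul]; exact hBQ b) (hr b γ hγ)
    have h2 := h1 i.succ j.succ
    rw [extend_toMatrix, dsum_inv _ _ (ht b) (hD b), dsum_mul, dsum_mul, dsum_succ_succ] at h2
    exact h2
  obtain ⟨ν, Y, hν, hY, hYD⟩ := exists_similar (K := K) (SUGroup.toMatrix '' (Γ₃ : Set (SUGroup k)))
    (span_top hk Γ₃ h3) (D 0) (D 1) (hD 0) (hD 1)
    (by rintro _ ⟨γ, hγ, rfl⟩; exact hent 0 γ hγ) (by rintro _ ⟨γ, hγ, rfl⟩; exact hent 1 γ hγ)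
  -- conjugation on `K`
  have hcm := (hf 0).cm
  let cK : K → K := fun x => ⟨(starRingEnd ℂ) x, hcm.2.2.1 x x.2⟩
  have hcK : ∀ x : K, ((cK x : K) : ℂ) = (starRingEnd ℂ) (x : ℂ) := fun x => rfl
  have hcτ : ∀ (τ : K →+* ℂ) (x : K), τ (cK x) = (starRingEnd ℂ) (τ x) :=
    fun τ x => hcm.2.2.2 τ x (cK x) rfl
  set YT : Matrix (Fin (k + 1)) (Fin (k + 1)) K := Matrix.of fun i j => cK (Y j i) with hYT
  set ι : K →+* ℂ := K.subtype with hι
  have hYTι : YT.map (fun x : K => (x : ℂ)) = (Y.map (fun x : K => (x : ℂ)))ᴴ := by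
    ext i j
    rfl
  have hYTτ : ∀ τ : K →+* ℂ, YT.map τ = (Y.map τ)ᴴ := by
    intro τ
    ext i j
    exact hcτ τ (Y j i)
  have hmap : ∀ A C : Matrix (Fin (k + 1)) (Fin (k + 1)) K, (A * C).map (fun x : K => (x : ℂ)) =
      A.map (fun x : K => (x : ℂ)) * C.map (fun x : K => (x : ℂ)) := by
    intro A C
    exact Matrix.map_mul (f := ι)
  have hkey : (YT * H' 1 * Y).map (fun x : K => (x : ℂ)) =
      (star ν * ν) • (H' 0).map (fun x : K => (x : ℂ)) := by
    rw [hmap, hmap, hYTι, ← hform 0, ← hform 1]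
    calc (Y.map (fun x : K => (x : ℂ)))ᴴ * ((D 1)ᴴ * J k * D 1) * Y.map (fun x : K => (x : ℂ))
        = (D 1 * Y.map (fun x : K => (x : ℂ)))ᴴ * J k * (D 1 * Y.map (fun x : K => (x : ℂ))) := by
          rw [conjTranspose_mul]
          simp only [Matrix.mul_assoc]
      _ = (star ν * ν) • ((D 0)ᴴ * J k * D 0) := by
          rw [hYD, conjTranspose_smul, Matrix.smul_mul, Matrix.smul_mul, Matrix.mul_smul,
            smul_smul]
  have hne : ∃ i j, H' 0 i j ≠ 0 := by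
    by_contra hcon
    push Not at hcon
    have h0 : (H' 0).map (fun x : K => (x : ℂ)) = 0 := by
      ext i j
      rw [Matrix.map_apply, hcon i j]
      rfl
    have h1 := hform 0
    rw [h0] at h1
    have h2 := congrArg det h1
    rw [det_mul, det_mul, det_conjTranspose, Matrix.det_zero] at h2
    exact (mul_ne_zero (mul_ne_zero (star_ne_zero.2 (hD 0)) (det_J_ne k)) (hD 0)) h2
  obtain ⟨i₀, j₀, hne⟩ := hne
  set c : K := (YT * H' 1 * Y) i₀ j₀ / H' 0 i₀ j₀ with hc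
  have hcν : (c : ℂ) = star ν * ν := by
    have h1 := congrFun (congrFun hkey i₀) j₀
    rw [Matrix.map_apply, Matrix.smul_apply, Matrix.map_apply, smul_eq_mul] at h1
    have hne' : ((H' 0 i₀ j₀ : K) : ℂ) ≠ 0 := by
      intro h
      exact hne (Subtype.ext h)
    rw [hc, Subfield.coe_div, h1]
    field_simp
  have hc0 : c ≠ 0 := by
    intro h
    have h1 : (c : ℂ) = 0 := by rw [h]; rfl
    rw [hcν] at h1
    exact (mul_ne_zero (star_ne_zero.2 hν) hν) h1
  have hkeyK : YT * H' 1 * Y = c • H' 0 := by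
    ext i j
    have h1 := congrFun (congrFun hkey i) j
    rw [Matrix.map_apply, Matrix.smul_apply, Matrix.map_apply, smul_eq_mul, ← hcν] at h1
    rw [h1]
    rfl
  clear_value c
  refine ⟨D 0, H' 0, ![t 0, ν⁻¹ * t 1], ![q 0, q 1 / c], ?_, hent 0, ?_⟩
  · refine ⟨hD 0, hform 0, ?_, ?_, ?_⟩
    · rw [Fin.forall_fin_two]
      exact ⟨ht 0, mul_ne_zero (inv_ne_zero hν) (ht 1)⟩
    · rw [Fin.forall_fin_two]
      refine ⟨hq 0, ?_⟩
      show ((q 1 / c : K) : ℂ) = star (ν⁻¹ * t 1) * (ν⁻¹ * t 1)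
      rw [Subfield.coe_div, hcν, hq 1, star_mul', star_inv₀]
      have h1 : star ν ≠ 0 := star_ne_zero.2 hν
      field_simp
    · rw [Fin.forall_fin_two]
      refine ⟨hdef 0, ?_⟩
      intro τ
      show _ ∨ _ ∨ (dsum (τ (q 1 / c)) ((H' 0).map τ)).PosDef ∨
        (-(dsum (τ (q 1 / c)) ((H' 0).map τ))).PosDef
      rcases hdef 1 τ with h | h | h
      · exact Or.inl h
      · exact Or.inr (Or.inl h)
      right
      right
      -- `τ c` is a nonzero real number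
      have hcc : cK c = c := by
        apply Subtype.ext
        rw [hcK, hcν]
        rw [map_mul]
        show (starRingEnd ℂ) ((starRingEnd ℂ) ν) * (starRingEnd ℂ) ν = (starRingEnd ℂ) ν * ν
        rw [Complex.conj_conj, mul_comm]
      have hτc := hcτ τ c
      rw [hcc] at hτc
      obtain ⟨r, hr'⟩ := Complex.conj_eq_iff_real.1 hτc.symm
      have hr0 : r ≠ 0 := by
        intro h0
        rw [h0] at hr'
        have : τ c = 0 := by rw [hr']; simp
        exact hc0 ((map_eq_zero τ).1 this)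
      apply def_of_smul hr0
      have hP : (dsum (1 : ℂ) (Y.map τ)).det ≠ 0 := by
        rw [det_dsum, one_mul]
        have : (Y.map τ).det = τ Y.det := by
          rw [RingHom.map_det]
          rfl
        rw [this]
        exact (map_ne_zero τ).2 hY
      have h5 := def_congr hP h
      have h6 : (dsum (1 : ℂ) (Y.map τ))ᴴ * dsum (τ (q 1)) ((H' 1).map τ) *
          dsum (1 : ℂ) (Y.map τ) = (r : ℂ) • dsum (τ (q 1 / c)) ((H' 0).map τ) := by
        rw [dsum_conjTranspose, dsum_mul, dsum_mul, ← hYTτ, smul_dsum]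
        congr 1
        · rw [star_one, one_mul, mul_one, ← hr', ← map_mul]
          congr 1
          field_simp
        · rw [← hr']
          have h7 := congrArg (fun A : Matrix (Fin (k + 1)) (Fin (k + 1)) K => A.map τ) hkeyK
          simp only [Matrix.map_mul] at h7
          rw [h7]
          ext i j
          simp
      rw [h6] at h5
      exact h5
  · rw [Fin.forall_fin_two]
    refine ⟨⟨1, Q 0, one_ne_zero, hQ 0, ?_⟩, ⟨ν, Q 1 * dsum 1 Y, hν, ?_, ?_⟩⟩
    · rw [one_smul]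
      exact hBQ 0
    · rw [det_mul, det_dsum, one_mul]
      exact mul_ne_zero (hQ 1) hY
    · show B 1 * (Q 1 * dsum 1 Y).map (fun x : K => (x : ℂ)) = ν • dsum (ν⁻¹ * t 1) (D 0)
      have h1 : (Q 1 * dsum 1 Y).map (fun x : K => (x : ℂ)) =
          (Q 1).map (fun x : K => (x : ℂ)) * (dsum 1 Y).map (fun x : K => (x : ℂ)) :=
        Matrix.map_mul (f := ι)
      rw [h1, ← Matrix.mul_assoc, hBQ 1, dsum_map _ _ _ rfl, dsum_mul, smul_dsum, hYD]
      congr 1
      show t 1 * 1 = ν * (ν⁻¹ * t 1)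
      field_simp

end Pool.Agent.Lib.MP_5d4057_al.Hyb
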