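import Pool.Agent.Lib.MP_5d4057_al.Hyb.Span

/-! Subgroups of finite index of lattices: recurrence, and the span. -/

set_option autoImplicit false

namespace Pool.Agent.Lib.MP_5d4057_al.Hyb

open Matrix Pool.Agent.Lib.MP_5d4057_al Filter Topology MeasureTheory

/-- Recurrence for subgroups of finite index of a lattice. -/
theorem recurrence_fin {G : Type} [Group G] [TopologicalSpace G] [IsTopologicalGroup G]
    [SecondCountableTopology G] (Γ Γ' : Subgroup G) (hΓ : IsLattice Γ) (hfin : Γ'.relIndex Γ ≠ 0)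
    (h : G) (N : Set G) (hN : IsOpen N) (h1 : (1 : G) ∈ N) :
    ∃ n : ℕ, 1 ≤ n ∧ ∃ u1 ∈ N, ∃ u2 ∈ N, u2⁻¹ * h ^ n * u1 ∈ Γ' := by
  classical
  obtain ⟨-, μ, hμ0, hμf, hinv⟩ := hΓ
  let _ : MeasurableSpace (G ⧸ Γ) := borel _
  have : BorelSpace (G ⧸ Γ) := ⟨rfl⟩
  obtain ⟨V, hV⟩ : ∃ V : Set (G ⧸ Γ), V = (QuotientGroup.mk : G → G ⧸ Γ) '' N := ⟨_, rfl⟩
  have hVo : IsOpen V := by rw [hV]; exact QuotientGroup.isOpenMap_coe N hN
  have hVm : MeasurableSet V := hVo.measurableSet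
  have hcont : ∀ g : G, Continuous (fun x : G ⧸ Γ => g • x) := fun g => continuous_const_smul g
  have hV0 : μ V ≠ 0 := by
    intro h0
    obtain ⟨s, hs, hd⟩ := TopologicalSpace.exists_countable_dense G
    apply hμ0
    rw [← Measure.measure_univ_eq_zero]
    have hcov : (Set.univ : Set (G ⧸ Γ)) ⊆ ⋃ g ∈ s, (fun x : G ⧸ Γ => g⁻¹ • x) ⁻¹' V := by
      intro x _
      induction x using QuotientGroup.induction_on with
      | H g0 =>
        have ho : IsOpen ((fun g : G => g⁻¹ * g0) ⁻¹' N) := hN.preimage (by fun_prop)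
        obtain ⟨g, hg1, hg2⟩ := hd.exists_mem_open ho ⟨g0, by simpa using h1⟩
        rw [Set.mem_iUnion₂]
        refine ⟨g, hg1, ?_⟩
        rw [hV]
        exact ⟨g⁻¹ * g0, hg2, rfl⟩
    refine measure_mono_null hcov ?_
    rw [measure_biUnion_null_iff hs]
    intro g _
    rw [hinv _ _ hVm, h0]
  obtain ⟨r, hr⟩ : ∃ r, r = Γ'.relIndex Γ := ⟨_, rfl⟩
  obtain ⟨M, hM⟩ := ENNReal.exists_nat_mul_gt hV0 (ENNReal.mul_ne_top (ENNReal.natCast_ne_top r) hμf)
  -- a point in more than `r` of the sets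
  obtain ⟨x, hx⟩ : ∃ x : G ⧸ Γ, r < ((Finset.range M).filter fun i => h ^ i • x ∈ V).card := by
    by_contra hcon
    push Not at hcon
    have e1 : ∑ i ∈ Finset.range M, μ ((fun x : G ⧸ Γ => h ^ i • x) ⁻¹' V) = M * μ V := by
      have : ∀ i ∈ Finset.range M, μ ((fun x : G ⧸ Γ => h ^ i • x) ⁻¹' V) = μ V :=
        fun i _ => hinv _ _ hVm
      rw [Finset.sum_congr rfl this, Finset.sum_const, Finset.card_range, nsmul_eq_mul]
    have e2 : ∀ i, ∫⁻ x, ((fun x : G ⧸ Γ => h ^ i • x) ⁻¹' V).indicator 1 x ∂μ =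
        μ ((fun x : G ⧸ Γ => h ^ i • x) ⁻¹' V) := fun i =>
      lintegral_indicator_one (hVm.preimage (hcont _).measurable)
    have e3 : ∫⁻ x, ∑ i ∈ Finset.range M, ((fun x : G ⧸ Γ => h ^ i • x) ⁻¹' V).indicator 1 x ∂μ ≤
        r * μ Set.univ := by
      rw [← lintegral_const]
      refine lintegral_mono fun x => ?_
      have e4 : ∑ i ∈ Finset.range M,
          ((fun x : G ⧸ Γ => h ^ i • x) ⁻¹' V).indicator (1 : G ⧸ Γ → ENNReal) x =
          (((Finset.range M).filter fun i => h ^ i • x ∈ V).card : ENNReal) := by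
        rw [Finset.card_filter]
        push_cast
        refine Finset.sum_congr rfl fun i _ => ?_
        by_cases hi : h ^ i • x ∈ V
        · rw [Set.indicator_of_mem (show x ∈ (fun x : G ⧸ Γ => h ^ i • x) ⁻¹' V from hi), if_pos hi]
          rfl
        · rw [Set.indicator_of_notMem (show x ∉ (fun x : G ⧸ Γ => h ^ i • x) ⁻¹' V from hi),
            if_neg hi]
      show ∑ i ∈ Finset.range M,
          ((fun x : G ⧸ Γ => h ^ i • x) ⁻¹' V).indicator (1 : G ⧸ Γ → ENNReal) x ≤ r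
      rw [e4]
      exact_mod_cast hcon x
    rw [lintegral_finsetSum _ fun i _ =>
      measurable_one.indicator (hVm.preimage (hcont _).measurable)] at e3
    simp only [e2] at e3
    rw [e1] at e3
    exact absurd e3 (not_le.2 hM)
  obtain ⟨T, hT⟩ : ∃ T : Finset ℕ, T = (Finset.range M).filter fun i => h ^ i • x ∈ V := ⟨_, rfl⟩
  rw [← hT] at hx
  obtain ⟨g, rfl⟩ := QuotientGroup.mk_surjective x
  have hu : ∀ i ∈ T, ∃ u ∈ N, u⁻¹ * h ^ i * g ∈ Γ := by
    intro i hi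
    rw [hT, Finset.mem_filter, hV] at hi
    obtain ⟨u, hu, hu2⟩ := hi.2
    refine ⟨u, hu, ?_⟩
    have e3 : ((u : G) : G ⧸ Γ) = ((h ^ i * g : G) : G ⧸ Γ) := hu2
    rw [QuotientGroup.eq] at e3
    rwa [mul_assoc]
  choose! u huN huΓ using hu
  -- pigeonhole
  obtain ⟨f, hf⟩ : ∃ f : ℕ → Γ ⧸ Γ'.subgroupOf Γ, f = fun i =>
      if hi : i ∈ T then (((⟨(u i)⁻¹ * h ^ i * g, huΓ i hi⟩ : Γ)⁻¹ : Γ) : Γ ⧸ Γ'.subgroupOf Γ)
      else ((1 : Γ) : Γ ⧸ Γ'.subgroupOf Γ) := ⟨_, rfl⟩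
  have hfi : (Γ'.subgroupOf Γ).FiniteIndex := ⟨hfin⟩
  have hfq : Finite (Γ ⧸ Γ'.subgroupOf Γ) := Subgroup.finite_quotient_of_finiteIndex
  let _ : Fintype (Γ ⧸ Γ'.subgroupOf Γ) := Fintype.ofFinite _
  have hcard : (Finset.univ : Finset (Γ ⧸ Γ'.subgroupOf Γ)).card < T.card := by
    rw [Finset.card_univ, ← Nat.card_eq_fintype_card]
    have e1 : Nat.card (Γ ⧸ Γ'.subgroupOf Γ) = r := hr.symm
    rw [e1]
    exact hx
  obtain ⟨i, hi, j, hj, hij, hfij⟩ := Finset.exists_ne_map_eq_of_card_lt_of_maps_to hcard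
    (f := f) (fun i _ => Finset.mem_univ _)
  have main : ∀ i j : ℕ, i ∈ T → j ∈ T → i < j → f i = f j →
      ∃ n : ℕ, 1 ≤ n ∧ ∃ u1 ∈ N, ∃ u2 ∈ N, u2⁻¹ * h ^ n * u1 ∈ Γ' := by
    intro i j hi hj hij hfij
    rw [hf] at hfij
    simp only [dif_pos hi, dif_pos hj] at hfij
    rw [eq_comm, QuotientGroup.eq, inv_inv, Subgroup.mem_subgroupOf] at hfij
    refine ⟨j - i, by omega, u i, huN i hi, u j, huN j hj, ?_⟩
    have e1 : (u j)⁻¹ * h ^ (j - i) * u i = (u j)⁻¹ * h ^ j * g * ((u i)⁻¹ * h ^ i * g)⁻¹ := by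
      have e2 : h ^ j = h ^ (j - i) * h ^ i := by rw [← pow_add]; congr 1; omega
      rw [e2]
      group
    rw [e1]
    exact hfij
  rcases lt_or_gt_of_ne hij with hlt | hlt
  · exact main i j hi hj hlt hfij
  · exact main j i hj hi hlt hfij.symm

private theorem nil_mul_nil (m : ℕ) (w : Fin (m + 1) → ℂ) (hw : hm m w w = 0) :
    nil m w * nil m w = 0 := by
  rw [nil, Matrix.smul_mul, Matrix.mul_smul, rk_mul, hw, zero_smul, smul_zero, smul_zero]

private theorem nil_conj (m : ℕ) (w : Fin (m + 1) → ℂ) :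
    (nil m w)ᴴ * J m = -(J m * nil m w) := by
  rw [nil, conjTranspose_smul, Matrix.smul_mul, rk_conjTranspose, Matrix.mul_smul, ← neg_smul]
  congr 1
  simp

private theorem nil_pres (m : ℕ) (w : Fin (m + 1) → ℂ) (hw : hm m w w = 0) :
    (1 + nil m w)ᴴ * J m * (1 + nil m w) = J m := by
  rw [conjTranspose_add, conjTranspose_one, Matrix.add_mul, Matrix.one_mul, nil_conj,
    Matrix.mul_add, Matrix.mul_one, Matrix.add_mul, Matrix.neg_mul, Matrix.mul_assoc,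
    nil_mul_nil m w hw, Matrix.mul_zero, neg_zero, add_zero]
  abel

private theorem nil_det (m : ℕ) (w : Fin (m + 1) → ℂ) (hw : hm m w w = 0) :
    (1 + nil m w).det = 1 := by
  have h : nil m w = replicateCol Unit (Complex.I • w) * replicateRow Unit (star w ᵥ* J m) := by
    rw [nil, rk]
    ext i j
    simp [vecMulVec_apply, Matrix.mul_apply, mul_assoc]
  rw [h, det_one_add_replicateCol_mul_replicateRow]
  rw [dotProduct_smul, ← dotProduct_mulVec]
  have : star w ⬝ᵥ J m *ᵥ w = 0 := hw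
  rw [this]
  simp

private theorem one_add_nil_pow (m : ℕ) (w : Fin (m + 1) → ℂ) (hw : hm m w w = 0) (n : ℕ) :
    (1 + nil m w) ^ n = 1 + (n : ℂ) • nil m w := by
  induction n with
  | zero => simp
  | succ n ih =>
    rw [pow_succ, ih, Matrix.add_mul, Matrix.one_mul, Matrix.mul_add, Matrix.mul_one,
      Matrix.smul_mul, nil_mul_nil m w hw, smul_zero, add_zero, Nat.cast_succ, add_smul, one_smul]
    abel

private theorem approx_null_of (m : ℕ) (Γ : Subgroup (SUGroup m))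
    (hrec : ∀ (h : SUGroup m) (N : Set (SUGroup m)), IsOpen N → (1 : SUGroup m) ∈ N →
      ∃ n : ℕ, 1 ≤ n ∧ ∃ u1 ∈ N, ∃ u2 ∈ N, u2⁻¹ * h ^ n * u1 ∈ Γ)
    (w : Fin (m + 1) → ℂ) (hw : hm m w w = 0) :
    ∃ (γ : ℕ → SUGroup m) (t : ℕ → ℝ), (∀ j, γ j ∈ Γ) ∧ Tendsto t atTop (𝓝 0) ∧
      Tendsto (fun j => (t j : ℂ) • (γ j).toMatrix) atTop (𝓝 (nil m w)) := by
  set u : SUGroup m := ofMatrix (1 + nil m w) (nil_det m w hw) (nil_pres m w hw) with hu
  obtain ⟨V, hV⟩ := (𝓝 (1 : SUGroup m)).exists_antitone_basis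
  have hrec' : ∀ j : ℕ, ∃ n : ℕ, 1 ≤ n ∧ ∃ u1 ∈ interior (V j), ∃ u2 ∈ interior (V j),
      u2⁻¹ * (u ^ (j + 1)) ^ n * u1 ∈ Γ := fun j =>
    hrec (u ^ (j + 1)) (interior (V j)) isOpen_interior
      (mem_interior_iff_mem_nhds.2 (hV.1.mem_of_mem trivial))
  choose n hn u1 hu1 u2 hu2 hmem using hrec'
  have h1 : Tendsto u1 atTop (𝓝 1) := hV.tendsto fun j => interior_subset (hu1 j)
  have h2 : Tendsto u2 atTop (𝓝 1) := hV.tendsto fun j => interior_subset (hu2 j)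
  have h1m : Tendsto (fun j => (u1 j).toMatrix) atTop (𝓝 1) := by
    have := ((continuous_toMatrix m).tendsto 1).comp h1
    rwa [toMatrix_one] at this
  have h2m : Tendsto (fun j => ((u2 j)⁻¹).toMatrix) atTop (𝓝 1) := by
    have h2' : Tendsto (fun j => (u2 j)⁻¹) atTop (𝓝 (1 : SUGroup m)⁻¹) := h2.inv
    rw [inv_one] at h2'
    have := ((continuous_toMatrix m).tendsto 1).comp h2'
    rwa [toMatrix_one] at this
  have hM : ∀ j : ℕ, ((j : ℝ) + 1) ≤ (((j + 1) * n j : ℕ) : ℝ) := by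
    intro j
    have : j + 1 ≤ (j + 1) * n j := Nat.le_mul_of_pos_right _ (hn j)
    exact_mod_cast this
  have hM0 : ∀ j : ℕ, (0 : ℝ) < (((j + 1) * n j : ℕ) : ℝ) := fun j =>
    lt_of_lt_of_le (by positivity) (hM j)
  have ht : Tendsto (fun j : ℕ => 1 / (((j + 1) * n j : ℕ) : ℝ)) atTop (𝓝 0) := by
    refine squeeze_zero (fun j => (div_nonneg zero_le_one (hM0 j).le)) (fun j => ?_)
      tendsto_one_div_add_atTop_nhds_zero_nat
    exact one_div_le_one_div_of_le (by positivity) (hM j)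
  refine ⟨fun j => (u2 j)⁻¹ * (u ^ (j + 1)) ^ (n j) * u1 j,
    fun j => 1 / (((j + 1) * n j : ℕ) : ℝ), hmem, ht, ?_⟩
  have heq : ∀ j, ((1 / (((j + 1) * n j : ℕ) : ℝ) : ℝ) : ℂ) •
      ((u2 j)⁻¹ * (u ^ (j + 1)) ^ (n j) * u1 j).toMatrix =
      ((u2 j)⁻¹).toMatrix * (((1 / (((j + 1) * n j : ℕ) : ℝ) : ℝ) : ℂ) • 1 + nil m w) *
        (u1 j).toMatrix := by
    intro j
    have hne : ((((j + 1) * n j : ℕ) : ℝ) : ℂ) ≠ 0 := Complex.ofReal_ne_zero.2 (hM0 j).ne'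
    rw [toMatrix_mul, toMatrix_mul, ← pow_mul, toMatrix_pow, hu, toMatrix_ofMatrix,
      one_add_nil_pow m w hw, ← Matrix.smul_mul, ← Matrix.mul_smul, smul_add, smul_smul]
    congr 3
    have : ((1 / (((j + 1) * n j : ℕ) : ℝ) : ℝ) : ℂ) * (((j + 1) * n j : ℕ) : ℂ) = 1 := by
      rw [← Complex.ofReal_natCast, ← Complex.ofReal_mul, one_div, inv_mul_cancel₀ (hM0 j).ne',
        Complex.ofReal_one]
    rw [this, one_smul]
  simp only [heq]
  have hlim : Tendsto (fun j : ℕ => (((1 / (((j + 1) * n j : ℕ) : ℝ) : ℝ) : ℂ) •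
      (1 : Matrix (Fin (m + 1)) (Fin (m + 1)) ℂ) + nil m w)) atTop (𝓝 ((0 : ℂ) • 1 + nil m w)) := by
    refine Tendsto.add ?_ tendsto_const_nhds
    refine Tendsto.smul ?_ tendsto_const_nhds
    have := (Complex.continuous_ofReal.tendsto 0).comp ht
    rw [Complex.ofReal_zero] at this
    exact this
  have := (h2m.mul hlim).mul h1m
  simpa using this

private theorem nil_mem_of (m : ℕ) (Γ : Subgroup (SUGroup m))
    (hrec : ∀ (h : SUGroup m) (N : Set (SUGroup m)), IsOpen N → (1 : SUGroup m) ∈ N →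
      ∃ n : ℕ, 1 ≤ n ∧ ∃ u1 ∈ N, ∃ u2 ∈ N, u2⁻¹ * h ^ n * u1 ∈ Γ)
    (w : Fin (m + 1) → ℂ) (hw : hm m w w = 0) (S : Submodule ℝ (Matrix (Fin (m + 1)) (Fin (m + 1)) ℂ))
    (hS : ∀ γ ∈ Γ, γ.toMatrix ∈ S) : nil m w ∈ S := by
  obtain ⟨γ, t, hγ, -, hlim⟩ := approx_null_of m Γ hrec w hw
  have hcl : IsClosed (S : Set (Matrix (Fin (m + 1)) (Fin (m + 1)) ℂ)) :=
    Submodule.closed_of_finiteDimensional S
  refine hcl.mem_of_tendsto hlim (Eventually.of_forall fun j => ?_)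
  have : ((t j : ℂ)) • (γ j).toMatrix = (t j) • (γ j).toMatrix := by
    ext a b
    simp
  show ((t j : ℂ)) • (γ j).toMatrix ∈ S
  rw [this]
  exact S.smul_mem _ (hS _ (hγ j))

theorem span_top_of {m : ℕ} (h : 1 ≤ m) (Γ : Subgroup (SUGroup m))
    (hrec : ∀ (h : SUGroup m) (N : Set (SUGroup m)), IsOpen N → (1 : SUGroup m) ∈ N →
      ∃ n : ℕ, 1 ≤ n ∧ ∃ u1 ∈ N, ∃ u2 ∈ N, u2⁻¹ * h ^ n * u1 ∈ Γ) :
    Submodule.span ℂ (SUGroup.toMatrix '' (Γ : Set (SUGroup m))) = ⊤ := by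
  set S := Submodule.span ℂ (SUGroup.toMatrix '' (Γ : Set (SUGroup m))) with hS
  have hmem : ∀ γ ∈ Γ, γ.toMatrix ∈ S := fun γ hγ => Submodule.subset_span ⟨γ, hγ, rfl⟩
  have hmul : ∀ A ∈ S, ∀ B ∈ S, A * B ∈ S := by
    intro A hA B hB
    induction hA using Submodule.span_induction with
    | mem x hx =>
      obtain ⟨γ, hγ, rfl⟩ := hx
      induction hB using Submodule.span_induction with
      | mem y hy =>
        obtain ⟨δ, hδ, rfl⟩ := hy
        rw [← toMatrix_mul]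
        exact hmem _ (Γ.mul_mem hγ hδ)
      | zero => rw [Matrix.mul_zero]; exact S.zero_mem
      | add x y _ _ hx hy => rw [Matrix.mul_add]; exact S.add_mem hx hy
      | smul t x _ hx => rw [Matrix.mul_smul]; exact S.smul_mem _ hx
    | zero => rw [Matrix.zero_mul]; exact S.zero_mem
    | add x y _ _ hx hy => rw [Matrix.add_mul]; exact S.add_mem hx hy
    | smul t x _ hx => rw [Matrix.smul_mul]; exact S.smul_mem _ hx
  have hrk : ∀ w, hm m w w = 0 → rk m w w ∈ S := by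
    intro w hw
    have h1 : nil m w ∈ S.restrictScalars ℝ := nil_mem_of m Γ hrec w hw _ hmem
    have h2 : nil m w ∈ S := h1
    have h3 : rk m w w = (-Complex.I) • nil m w := by
      rw [nil, smul_smul]
      simp
    rw [h3]
    exact S.smul_mem _ h2
  rw [eq_top_iff, ← span_rk_nv h, Submodule.span_le]
  rintro A ⟨i, j, rfl⟩
  by_cases hij : i = j
  · subst hij
    exact hrk _ (nv_null h i)
  · have h1 := hmul _ (hrk _ (nv_null h i)) _ (hrk _ (nv_null h j))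
    rw [rk_mul] at h1
    have h2 := S.smul_mem (hm m (nv m i) (nv m j))⁻¹ h1
    rwa [smul_smul, inv_mul_cancel₀ (nv_ne h i j hij), one_smul] at h2

/-- A subgroup of finite index of a lattice in `SU(m,1)`, `m ≥ 1`, spans the matrix algebra. -/
theorem span_top_fin {m : ℕ} (h : 1 ≤ m) (Γ Γ' : Subgroup (SUGroup m)) (hΓ : IsLattice Γ)
    (hfin : Γ'.relIndex Γ ≠ 0) :
    Submodule.span ℂ (SUGroup.toMatrix '' (Γ' : Set (SUGroup m))) = ⊤ :=
  span_top_of h Γ' fun x N hN h1 => recurrence_fin Γ Γ' hΓ hfin x N hN h1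

end Pool.Agent.Lib.MP_5d4057_al.Hyb
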