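import Pool.Agent.Lib.MP_5d4057_al.Hyb.Blk

namespace Pool.Agent.Lib.MP_5d4057_al.Hyb

open Matrix

/-- Let `S` be a multiplicatively closed set of `n × n` matrices containing `1` and spanning all
matrices, `n ≥ 2`. Then the differences `A - 1` with `A ∈ S` span all matrices too. Let `I` be their
span. For `A, B ∈ S`: `A * (B - 1) = (A * B - 1) - (A - 1) ∈ I` and similarly on the right, so `I` is
stable under left and right multiplication by all matrices (`S` spans). `I ≠ ⊥`, otherwise
`S ⊆ {1}` and the span of `S` is at most one dimensional, but `n ≥ 2`. If `X ∈ I` with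
`X a b ≠ 0`, then `single i a 1 * X * single b j 1 = X a b • single i j 1 ∈ I`. -/
theorem span_sub_one {n : ℕ} (hn : 2 ≤ n) (S : Set (Matrix (Fin n) (Fin n) ℂ)) (h1 : 1 ∈ S)
    (hmul : ∀ A ∈ S, ∀ B ∈ S, A * B ∈ S) (hS : Submodule.span ℂ S = ⊤) :
    Submodule.span ℂ {X | ∃ A ∈ S, X = A - 1} = ⊤ := by
  set I : Submodule ℂ (Matrix (Fin n) (Fin n) ℂ) :=
    Submodule.span ℂ {X | ∃ A ∈ S, X = A - 1} with hI
  have hmem : ∀ A ∈ S, A - 1 ∈ I := fun A hA => Submodule.subset_span ⟨A, hA, rfl⟩
  have hl : ∀ X ∈ I, ∀ A : Matrix (Fin n) (Fin n) ℂ, A * X ∈ I := by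
    intro X hX A
    have hA : A ∈ Submodule.span ℂ S := by
      rw [hS]
      trivial
    induction hA using Submodule.span_induction with
    | mem A hA =>
      induction hX using Submodule.span_induction with
      | mem X hX =>
        obtain ⟨B, hB, rfl⟩ := hX
        have h2 : A * (B - 1) = (A * B - 1) - (A - 1) := by
          rw [mul_sub, mul_one]
          abel
        rw [h2]
        exact I.sub_mem (hmem _ (hmul A hA B hB)) (hmem A hA)
      | zero => rw [mul_zero]; exact I.zero_mem
      | add X Y _ _ hX hY => rw [mul_add]; exact I.add_mem hX hY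
      | smul c X _ hX => rw [mul_smul_comm]; exact I.smul_mem c hX
    | zero => rw [zero_mul]; exact I.zero_mem
    | add A B _ _ hA hB => rw [add_mul]; exact I.add_mem hA hB
    | smul c A _ hA => rw [smul_mul_assoc]; exact I.smul_mem c hA
  have hr : ∀ X ∈ I, ∀ A : Matrix (Fin n) (Fin n) ℂ, X * A ∈ I := by
    intro X hX A
    have hA : A ∈ Submodule.span ℂ S := by
      rw [hS]
      trivial
    induction hA using Submodule.span_induction with
    | mem A hA =>
      induction hX using Submodule.span_induction with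
      | mem X hX =>
        obtain ⟨B, hB, rfl⟩ := hX
        have h2 : (B - 1) * A = (B * A - 1) - (A - 1) := by
          rw [sub_mul, one_mul]
          abel
        rw [h2]
        exact I.sub_mem (hmem _ (hmul B hB A hA)) (hmem A hA)
      | zero => rw [zero_mul]; exact I.zero_mem
      | add X Y _ _ hX hY => rw [add_mul]; exact I.add_mem hX hY
      | smul c X _ hX => rw [smul_mul_assoc]; exact I.smul_mem c hX
    | zero => rw [mul_zero]; exact I.zero_mem
    | add A B _ _ hA hB => rw [mul_add]; exact I.add_mem hA hB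
    | smul c A _ hA => rw [mul_smul_comm]; exact I.smul_mem c hA
  have hne : ∃ A ∈ S, A ≠ 1 := by
    by_contra hcon
    push Not at hcon
    have h2 : Submodule.span ℂ S ≤ Submodule.span ℂ {(1 : Matrix (Fin n) (Fin n) ℂ)} :=
      Submodule.span_mono fun A hA => hcon A hA
    rw [hS] at h2
    have h3 : (single (⟨0, by omega⟩ : Fin n) (⟨1, by omega⟩ : Fin n) (1 : ℂ)) ∈
        Submodule.span ℂ {(1 : Matrix (Fin n) (Fin n) ℂ)} := h2 trivial
    obtain ⟨c, hc⟩ := Submodule.mem_span_singleton.1 h3
    have h4 := congrFun (congrFun hc ⟨0, by omega⟩) ⟨1, by omega⟩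
    rw [Matrix.smul_apply, Matrix.one_apply_ne (by simp [Fin.ext_iff]),
      Matrix.single_apply_same, smul_zero] at h4
    exact zero_ne_one h4
  obtain ⟨A, hA, hA1⟩ := hne
  have hX := hmem A hA
  have hX0 : A - 1 ≠ 0 := sub_ne_zero.2 hA1
  obtain ⟨a, b, hab⟩ : ∃ a b, (A - 1) a b ≠ 0 := by
    by_contra hcon
    push Not at hcon
    exact hX0 (by ext i j; exact hcon i j)
  have hs : ∀ i j : Fin n, single i j (1 : ℂ) ∈ I := by
    intro i j
    have h2 : single i a (1 : ℂ) * (A - 1) * single b j (1 : ℂ) ∈ I := hr _ (hl _ hX _) _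
    rw [Matrix.single_mul_mul_single, one_mul, mul_one] at h2
    have h3 : single i j (1 : ℂ) = ((A - 1) a b)⁻¹ • single i j ((A - 1) a b) := by
      rw [Matrix.smul_single, smul_eq_mul, inv_mul_cancel₀ hab]
    rw [h3]
    exact I.smul_mem _ h2
  rw [eq_top_iff]
  intro M _
  rw [Matrix.matrix_eq_sum_single M]
  refine I.sum_mem fun i _ => I.sum_mem fun j _ => ?_
  have h3 : single i j (M i j) = M i j • single i j (1 : ℂ) := by
    rw [Matrix.smul_single, smul_eq_mul, mul_one]
  rw [h3]
  exact I.smul_mem _ (hs i j)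

end Pool.Agent.Lib.MP_5d4057_al.Hyb
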