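import Pool.Agent.Lib.MP_5d4057_al.Hyb.Norm
import Pool.Agent.Lib.MP_5d4057_al.Hyb.Aug
import Pool.Agent.Lib.MP_5d4057_al.Hyb.Phi

namespace Pool.Agent.Lib.MP_5d4057_al.Hyb

open Matrix Pool.Agent.Lib.MP_5d4057_al

private theorem AngleK_sub {n : ℕ} (A : Matrix (Fin n) (Fin n) ℂ) :
    dsum 0 (A - 1) = dsum 1 A - 1 := by
  ext i j
  refine Fin.cases ?_ (fun i => ?_) i <;> refine Fin.cases ?_ (fun j => ?_) j <;>
    simp [Matrix.sub_apply, Matrix.one_apply, Fin.ext_iff]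

private theorem AngleK_add {n : ℕ} (A B : Matrix (Fin n) (Fin n) ℂ) :
    dsum 0 (A + B) = dsum 0 A + dsum 0 B := by
  ext i j
  refine Fin.cases ?_ (fun i => ?_) i <;> refine Fin.cases ?_ (fun j => ?_) j <;> simp

private theorem AngleK_smul {K : Subfield ℂ} {n : ℕ} (c : K) (A : Matrix (Fin n) (Fin n) ℂ) :
    dsum 0 (c • A) = c • dsum 0 A := by
  ext i j
  refine Fin.cases ?_ (fun i => ?_) i <;> refine Fin.cases ?_ (fun j => ?_) j <;> simp

private theorem AngleK_zero {n : ℕ} : dsum 0 (0 : Matrix (Fin n) (Fin n) ℂ) = 0 := by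
  ext i j
  refine Fin.cases ?_ (fun i => ?_) i <;> refine Fin.cases ?_ (fun j => ?_) j <;> simp

/-- Let `Γ` be a lattice in `SU(k+1,1)`, rational over `K` in the basis `E`. Every operator
`dsum 0 A` with `A` rational over `K` in the basis `E` is a `K`-combination of the
`dsum 1 γ - 1`, `γ ∈ Γ`. Indeed `A` is a complex combination of the `γ - 1` (`span_top`,
`span_sub_one`), so `E⁻¹ * A * E` is one of the `E⁻¹ * (γ - 1) * E`, all with entries in `K`; by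
`mem_span_of_entries` the coefficients may be taken in `K`, and `dsum 0 (γ - 1) = dsum 1 γ - 1`. -/
theorem dsum_mem_span {k : ℕ} {K : Subfield ℂ} (Γ : Subgroup (SUGroup (k + 1)))
    (hL : IsLattice Γ) (E : Matrix (Fin (k + 1 + 1)) (Fin (k + 1 + 1)) ℂ) (hE : E.det ≠ 0)
    (hr : ∀ γ ∈ Γ, EntriesIn K E γ.toMatrix) (A : Matrix (Fin (k + 1 + 1)) (Fin (k + 1 + 1)) ℂ)
    (hA : EntriesIn K E A) :
    dsum 0 A ∈ Submodule.span K {X | ∃ γ ∈ Γ, X = dsum 1 γ.toMatrix - 1} := by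
  set T : Set (Matrix (Fin (k + 1 + 1)) (Fin (k + 1 + 1)) ℂ) :=
    {X | ∃ A ∈ SUGroup.toMatrix '' (Γ : Set (SUGroup (k + 1))), X = A - 1} with hT
  have h1 : Submodule.span ℂ T = ⊤ := by
    refine span_sub_one (by omega) _ ⟨1, Γ.one_mem, toMatrix_one⟩ ?_ (span_top (by omega) Γ hL)
    rintro _ ⟨γ, hγ, rfl⟩ _ ⟨γ', hγ', rfl⟩
    exact ⟨γ * γ', Γ.mul_mem hγ hγ', rfl⟩
  have hE1 := Matrix.mul_nonsing_inv E (isUnit_iff_ne_zero.2 hE)
  have hE2 := Matrix.nonsing_inv_mul E (isUnit_iff_ne_zero.2 hE)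
  set S : Set (Matrix (Fin (k + 1 + 1)) (Fin (k + 1 + 1)) ℂ) :=
    {X | ∃ γ ∈ Γ, X = E⁻¹ * (γ.toMatrix - 1) * E} with hS
  have h2 : ∀ M ∈ Submodule.span ℂ T, E⁻¹ * M * E ∈ Submodule.span ℂ S := by
    intro M hM
    induction hM using Submodule.span_induction with
    | mem M hM =>
      obtain ⟨_, ⟨γ, hγ, rfl⟩, rfl⟩ := hM
      exact Submodule.subset_span ⟨γ, hγ, rfl⟩
    | zero => rw [Matrix.mul_zero, Matrix.zero_mul]; exact Submodule.zero_mem _
    | add A B _ _ hA hB => rw [Matrix.mul_add, Matrix.add_mul]; exact Submodule.add_mem _ hA hB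
    | smul c A _ hA => rw [Matrix.mul_smul, Matrix.smul_mul]; exact Submodule.smul_mem _ c hA
  have h3 : E⁻¹ * A * E ∈ Submodule.span K S := by
    refine mem_span_of_entries K S ?_ _ hA (h2 A (by rw [h1]; exact Submodule.mem_top))
    rintro _ ⟨γ, hγ, rfl⟩ i j
    rw [Matrix.mul_sub, Matrix.sub_mul, Matrix.mul_one, hE2, Matrix.sub_apply, Matrix.one_apply]
    refine K.sub_mem (hr γ hγ i j) ?_
    split_ifs
    · exact K.one_mem
    · exact K.zero_mem
  have h4 : ∀ M ∈ Submodule.span K S, dsum 0 (E * M * E⁻¹) ∈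
      Submodule.span K {X | ∃ γ ∈ Γ, X = dsum 1 γ.toMatrix - 1} := by
    intro M hM
    induction hM using Submodule.span_induction with
    | mem M hM =>
      obtain ⟨γ, hγ, rfl⟩ := hM
      refine Submodule.subset_span ⟨γ, hγ, ?_⟩
      have h5 : E * (E⁻¹ * (γ.toMatrix - 1) * E) * E⁻¹ = γ.toMatrix - 1 := by
        calc E * (E⁻¹ * (γ.toMatrix - 1) * E) * E⁻¹
            = (E * E⁻¹) * (γ.toMatrix - 1) * (E * E⁻¹) := by simp only [Matrix.mul_assoc]
          _ = _ := by rw [hE1, Matrix.one_mul, Matrix.mul_one]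
      rw [h5, AngleK_sub]
    | zero => rw [Matrix.mul_zero, Matrix.zero_mul, AngleK_zero]; exact Submodule.zero_mem _
    | add A B _ _ hA hB =>
      rw [Matrix.mul_add, Matrix.add_mul, AngleK_add]
      exact Submodule.add_mem _ hA hB
    | smul c A _ hA =>
      rw [Matrix.mul_smul, Matrix.smul_mul, AngleK_smul]
      exact Submodule.smul_mem _ c hA
  have h5 := h4 _ h3
  have h6 : E * (E⁻¹ * A * E) * E⁻¹ = A := by
    calc E * (E⁻¹ * A * E) * E⁻¹ = (E * E⁻¹) * A * (E * E⁻¹) := by simp only [Matrix.mul_assoc]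
      _ = A := by rw [hE1, Matrix.one_mul, Matrix.mul_one]
  rwa [h6] at h5

/-- traces of products of `K`-combinations of the `γ - 1` -/
private theorem AngleK_trace {m : ℕ} {K : Subfield ℂ} (Γ' : Subgroup (SUGroup m))
    (htr : ∀ γ ∈ Γ', γ.toMatrix.trace ∈ K) (X Y : Matrix (Fin (m + 1)) (Fin (m + 1)) ℂ)
    (hX : X ∈ Submodule.span K {X | ∃ γ ∈ Γ', X = γ.toMatrix - 1})
    (hY : Y ∈ Submodule.span K {X | ∃ γ ∈ Γ', X = γ.toMatrix - 1}) : (X * Y).trace ∈ K := by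
  induction hX using Submodule.span_induction with
  | mem X hX =>
    obtain ⟨γ, hγ, rfl⟩ := hX
    induction hY using Submodule.span_induction with
    | mem Y hY =>
      obtain ⟨γ', hγ', rfl⟩ := hY
      have h1 : (γ.toMatrix - 1) * (γ'.toMatrix - 1) =
          (γ * γ').toMatrix - γ.toMatrix - γ'.toMatrix + (1 : SUGroup m).toMatrix := by
        rw [toMatrix_mul, toMatrix_one, sub_mul, mul_sub, mul_sub, Matrix.mul_one, Matrix.one_mul,
          Matrix.one_mul]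
        abel
      rw [h1, trace_add, trace_sub, trace_sub]
      exact K.add_mem (K.sub_mem (K.sub_mem (htr _ (Γ'.mul_mem hγ hγ')) (htr _ hγ)) (htr _ hγ'))
        (htr _ Γ'.one_mem)
    | zero => rw [Matrix.mul_zero, trace_zero]; exact K.zero_mem
    | add A B _ _ hA hB => rw [Matrix.mul_add, trace_add]; exact K.add_mem hA hB
    | smul c A _ hA =>
      rw [Matrix.mul_smul, trace_smul]
      exact K.mul_mem c.2 hA
  | zero => rw [Matrix.zero_mul, trace_zero]; exact K.zero_mem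
  | add A B _ _ hA hB => rw [Matrix.add_mul, trace_add]; exact K.add_mem hA hB
  | smul c A _ hA =>
    rw [Matrix.smul_mul, trace_smul]
    exact K.mul_mem c.2 hA

/-- conjugation of the `K`-combinations of the `dsum 1 γ - 1` -/
private theorem AngleK_conj {k : ℕ} {K : Subfield ℂ} (Γ : Subgroup (SUGroup (k + 1)))
    (g : SUGroup (k + 2)) (Γ' : Subgroup (SUGroup (k + 2)))
    (hsub : ∀ γ ∈ Γ, g * extend (k + 1) γ * g⁻¹ ∈ Γ')
    (X : Matrix (Fin (k + 2 + 1)) (Fin (k + 2 + 1)) ℂ)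
    (hX : X ∈ Submodule.span K {X : Matrix (Fin (k + 1 + 1 + 1)) (Fin (k + 1 + 1 + 1)) ℂ |
      ∃ γ ∈ Γ, X = dsum 1 γ.toMatrix - 1}) :
    g.toMatrix * X * (g⁻¹).toMatrix ∈ Submodule.span K {X | ∃ γ ∈ Γ', X = γ.toMatrix - 1} := by
  induction hX using Submodule.span_induction with
  | mem X hX =>
    obtain ⟨γ, hγ, rfl⟩ := hX
    refine Submodule.subset_span ⟨_, hsub γ hγ, ?_⟩
    rw [toMatrix_mul, toMatrix_mul, extend_toMatrix, Matrix.mul_sub, Matrix.sub_mul,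
      Matrix.mul_one, toMatrix_mul_inv]
  | zero => rw [Matrix.mul_zero, Matrix.zero_mul]; exact Submodule.zero_mem _
  | add A B _ _ hA hB => rw [Matrix.mul_add, Matrix.add_mul]; exact Submodule.add_mem _ hA hB
  | smul c A _ hA => rw [Matrix.mul_smul, Matrix.smul_mul]; exact Submodule.smul_mem _ c hA

private theorem AngleK_ent {n : ℕ} (E : Matrix (Fin (n + 1)) (Fin (n + 1)) ℂ)
    (v w : Fin (n + 1) → ℂ) (i j : Fin (n + 1)) :
    (E⁻¹ * rk n v w * E) i j = (E⁻¹ *ᵥ w) i * (star v ᵥ* (J n * E)) j := by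
  rw [rk, mul_vecMulVec, vecMulVec_mul, vecMul_vecMul, vecMulVec_apply]

/-- If all traces of `Γ'` are in `K` the angle is rational. Choose `a, b` with `HD a b ≠ 0` (`D` and
`J` are invertible) and `w₁ = D e_a`, `w₂ = D e_b` (columns of `D`), so `⟨w₁, w₂⟩ = HD a b`. Put
`A₀ = rk (cons 0 w₁) (cons (μ 0) 0)` and `A₁ = rk (cons (μ 1) 0) (cons 0 w₂)` (operators on
`ℂ ⊕ W`); they are rational over `K` in the bases `dsum (μ 0) D`, `dsum (μ 1) D`: in these bases they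
are `vecMulVec (cons 1 0) (cons 0 (row a of HD))` and `vecMulVec (cons 0 e_b) (cons (q 1) 0)`. By
`dsum_mem_span`, `Y₀ = g 0 * dsum 0 A₀ * (g 0)⁻¹` and `Y₁ = g 1 * dsum 0 A₁ * (g 1)⁻¹` are
`K`-combinations of elements `γ - 1` with `γ ∈ Γ'` (`hsub`), so `tr (Y₀ * Y₁)` is a `K`-combination of
traces of elements of `Γ'` (and of `1`), hence in `K`. By `dsum_one_rk`, `conj_rk`, `rk_mul`,
`trace_rk`, with `ŵ = cons 0 (cons 0 w)`, `x b = cons 0 (cons (μ b) 0)`: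
`tr (Y₀ * Y₁) = ⟨g₀ ŵ₁, g₁ ŵ₂⟩ * ⟨g₁ x₁, g₀ x₀⟩`, and by `hg`, `bsum_mulVec_cons`, `hm_mulVec`,
`hm_cons` this is `(ζ * ⟨w₁,w₂⟩) * (star ζ * star (X 1 1 * μ 1) * μ 0) = HD a b * star z` with
`z = star (μ 0) * μ 1 * X 1 1`. So `star z ∈ K` and `z ∈ K` (`hcm`). -/
theorem angle_mem_of_trace {k : ℕ} {K : Subfield ℂ} (hcm : IsCM K)
    {D : Matrix (Fin (k + 1)) (Fin (k + 1)) ℂ} {HD : Matrix (Fin (k + 1)) (Fin (k + 1)) K}
    {μ : Fin 2 → ℂ} {q : Fin 2 → K} (hn : IsNF k K D HD μ q)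
    (Γ : Fin 2 → Subgroup (SUGroup (k + 1))) (hL : ∀ b, IsLattice (Γ b))
    (hr : ∀ b, ∀ γ ∈ Γ b, EntriesIn K (dsum (μ b) D) γ.toMatrix)
    (g : Fin 2 → SUGroup (k + 2)) (X : Matrix (Fin 2) (Fin 2) ℂ) (ζ : ℂ) (hζ : star ζ * ζ = 1)
    (hg : (g 1).toMatrix = (g 0).toMatrix * (ζ • bsum X 1)) (Γ' : Subgroup (SUGroup (k + 2)))
    (hsub : ∀ b, ∀ γ ∈ Γ b, g b * extend (k + 1) γ * (g b)⁻¹ ∈ Γ')
    (htr : ∀ γ ∈ Γ', γ.toMatrix.trace ∈ K) :
    star (μ 0) * μ 1 * X 1 1 ∈ K := by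
  have hDu := isUnit_iff_ne_zero.2 hn.det
  have hD2 := Matrix.nonsing_inv_mul D hDu
  -- a nonzero entry of `HD`
  obtain ⟨a, b, hab⟩ : ∃ a b, HD a b ≠ 0 := by
    by_contra hcon
    push Not at hcon
    have h0 : HD = 0 := by
      ext i j
      rw [hcon i j]
      rfl
    have h1 := congrArg Matrix.det hn.form
    rw [h0, det_mul, det_mul, det_conjTranspose] at h1
    have h2 : ((0 : Matrix (Fin (k + 1)) (Fin (k + 1)) K).map (fun x : K => (x : ℂ))) = 0 := by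
      ext i j
      rfl
    rw [h2, Matrix.det_zero] at h1
    exact mul_ne_zero (mul_ne_zero (star_ne_zero.2 hn.det) (det_J_ne k)) hn.det h1
  set w₁ : Fin (k + 1) → ℂ := fun i => D i a with hw₁
  set w₂ : Fin (k + 1) → ℂ := fun i => D i b with hw₂
  have hrow : ∀ (c j : Fin (k + 1)), (star (fun i => D i c) ᵥ* (J k * D)) j = (HD c j : ℂ) := by
    intro c j
    have h1 := congrFun (congrFun hn.form c) j
    rw [Matrix.map_apply] at h1
    rw [← h1, Matrix.mul_assoc, Matrix.mul_apply]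
    rfl
  have hcol : ∀ (c : Fin (k + 1)), D⁻¹ *ᵥ (fun i => D i c) = Pi.single c 1 := by
    intro c
    have h1 : (fun i => D i c) = D *ᵥ Pi.single c 1 := by
      rw [Matrix.mulVec_single_one]
      rfl
    rw [h1, mulVec_mulVec, hD2, one_mulVec]
  have hw12 : hm k w₁ w₂ = (HD a b : ℂ) := by
    rw [← hrow a b, hm]
    have h1 : w₂ = D *ᵥ Pi.single b 1 := by
      rw [Matrix.mulVec_single_one]
      rfl
    rw [h1, mulVec_mulVec, dotProduct_mulVec, dotProduct_single, mul_one]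
  have hdet : ∀ c, (dsum (μ c) D).det ≠ 0 := fun c => by
    rw [det_dsum]
    exact mul_ne_zero (hn.μ_ne c) hn.det
  set A₀ := rk (k + 1) (Fin.cons 0 w₁) (Fin.cons (μ 0) 0) with hA₀
  set A₁ := rk (k + 1) (Fin.cons (μ 1) 0) (Fin.cons 0 w₂) with hA₁
  have hstar : ∀ (x : ℂ) (v : Fin (k + 1) → ℂ),
      star (Fin.cons x v : Fin (k + 1 + 1) → ℂ) = Fin.cons (star x) (star v) := by
    intro x v
    ext i
    refine Fin.cases ?_ (fun i => ?_) i <;> rfl
  have hvm : ∀ (x t : ℂ) (v : Fin (k + 1) → ℂ) (M : Matrix (Fin (k + 1)) (Fin (k + 1)) ℂ),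
      (Fin.cons x v : Fin (k + 1 + 1) → ℂ) ᵥ* dsum t M = Fin.cons (x * t) (v ᵥ* M) := by
    intro x t v M
    ext i
    refine Fin.cases ?_ (fun i => ?_) i <;> simp [Matrix.vecMul, dotProduct, Fin.sum_univ_succ]
  have hE₀ : EntriesIn K (dsum (μ 0) D) A₀ := by
    intro i j
    rw [hA₀, AngleK_ent, dsum_inv _ _ (hn.μ_ne 0) hn.det, dsum_mulVec_cons, J_succ, dsum_mul,
      hstar, hvm, inv_mul_cancel₀ (hn.μ_ne 0), mulVec_zero, star_zero, zero_mul]
    refine K.mul_mem ?_ ?_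
    · refine Fin.cases ?_ (fun i => ?_) i
      · exact K.one_mem
      · exact K.zero_mem
    · refine Fin.cases ?_ (fun j => ?_) j
      · exact K.zero_mem
      · rw [Fin.cons_succ, hw₁, hrow]
        exact (HD a j).2
  have hE₁ : EntriesIn K (dsum (μ 1) D) A₁ := by
    intro i j
    rw [hA₁, AngleK_ent, dsum_inv _ _ (hn.μ_ne 1) hn.det, dsum_mulVec_cons, J_succ, dsum_mul,
      hstar, hvm, star_zero, zero_vecMul, mul_zero, hw₂, hcol, one_mul, ← hn.q_eq 1]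
    refine K.mul_mem ?_ ?_
    · refine Fin.cases ?_ (fun i => ?_) i
      · exact K.zero_mem
      · rw [Fin.cons_succ, Pi.single_apply]
        split_ifs
        · exact K.one_mem
        · exact K.zero_mem
    · refine Fin.cases ?_ (fun j => ?_) j
      · exact (q 1).2
      · exact K.zero_mem
  have hY₀ := AngleK_conj (Γ 0) (g 0) Γ' (hsub 0) _
    (dsum_mem_span (Γ 0) (hL 0) (dsum (μ 0) D) (hdet 0) (hr 0) A₀ hE₀)
  have hY₁ := AngleK_conj (Γ 1) (g 1) Γ' (hsub 1) _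
    (dsum_mem_span (Γ 1) (hL 1) (dsum (μ 1) D) (hdet 1) (hr 1) A₁ hE₁)
  have htrace := AngleK_trace Γ' htr _ _ hY₀ hY₁
  rw [hA₀, hA₁, dsum_one_rk, dsum_one_rk, conj_rk, conj_rk, rk_mul, trace_smul, trace_rk,
    hg] at htrace
  have hb : ∀ v : Fin (k + 2 + 1) → ℂ, ((g 0).toMatrix * (ζ • bsum X 1)) *ᵥ v =
      ζ • ((g 0).toMatrix *ᵥ (bsum X 1 *ᵥ v)) := by
    intro v
    rw [Matrix.mul_smul, smul_mulVec, mulVec_mulVec]
  rw [hb, hb, bsum_mulVec_cons, bsum_mulVec_cons, hm_smul_right, hm_smul_left, hm_mulVec,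
    hm_mulVec, hm_cons, hm_cons, hm_cons, hm_cons] at htrace
  simp only [one_mulVec, star_zero, mul_zero, zero_add, add_zero] at htrace
  rw [hw12] at htrace
  have h0 : hm k (0 : Fin (k + 1) → ℂ) 0 = 0 := by
    rw [hm, mulVec_zero, dotProduct_zero]
  rw [h0, add_zero, smul_eq_mul] at htrace
  have hz : ζ * (HD a b : ℂ) * (star ζ * (star (X 1 1 * μ 1) * μ 0)) =
      (HD a b : ℂ) * star (star (μ 0) * μ 1 * X 1 1) := by
    rw [star_mul, star_mul, star_mul, star_star]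
    calc _ = (star ζ * ζ) * ((HD a b : ℂ) * (star (μ 1) * star (X 1 1) * μ 0)) := by ring
      _ = _ := by rw [hζ]; ring
  rw [hz] at htrace
  have hab' : (HD a b : ℂ) ≠ 0 := fun h => hab (Subtype.ext h)
  have h1 : star (star (μ 0) * μ 1 * X 1 1) ∈ K := by
    have h2 := K.mul_mem (K.inv_mem (HD a b).2) htrace
    rwa [inv_mul_cancel_left₀ hab'] at h2
  have h3 := hcm.2.2.1 _ h1
  have h4 : (starRingEnd ℂ) (star (star (μ 0) * μ 1 * X 1 1)) = star (μ 0) * μ 1 * X 1 1 :=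
    star_star _
  rwa [h4] at h3

end Pool.Agent.Lib.MP_5d4057_al.Hyb
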