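import Pool.Agent.Lib.MP_5d4057_al.Hyb.Glue

namespace Pool.Agent.Lib.MP_5d4057_al.Hyb

open Matrix Pool.Agent.Lib.MP_5d4057_al ComplexOrder

/-- `X ⊕ A` is positive definite if `X` and `A` are; `X = !![a, star b; b, d]` is if `0 < a`, `0 < d`
and `star b * b < a * d` (all complex numbers, real order; completing the square:
`a (a |x|² + 2 re(..) + d |y|²) = |a x + star b y|² + (a d - |b|²) |y|²`). -/
theorem posDef_bsum {n : ℕ} (a b d : ℂ) (A : Matrix (Fin n) (Fin n) ℂ) (ha : 0 < a) (hd : 0 < d)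
    (hb : star b * b < a * d) (hA : A.PosDef) : (bsum !![a, star b; b, d] A).PosDef := by
  have hreal : ∀ t : ℂ, 0 < t → ∃ r : ℝ, 0 < r ∧ t = (r : ℂ) := by
    intro t ht
    have h := Complex.lt_def.1 ht
    refine ⟨t.re, by simpa using h.1, ?_⟩
    apply Complex.ext
    · simp
    · simpa using h.2.symm
  obtain ⟨ra, hra, rfl⟩ := hreal a ha
  obtain ⟨rd, hrd, rfl⟩ := hreal d hd
  have hstar : ∀ r : ℝ, star (r : ℂ) = (r : ℂ) := fun r => Complex.conj_ofReal r
  have hra' : (ra : ℂ) ≠ 0 := by exact_mod_cast hra.ne'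
  have hpos : ∀ z : ℂ, z ≠ 0 → 0 < star z * z := by
    intro z hz
    refine lt_of_le_of_ne (star_mul_self_nonneg z) ?_
    intro h
    rcases mul_eq_zero.1 h.symm with h | h
    · exact hz (star_eq_zero.1 h)
    · exact hz h
  have hinv : (0 : ℂ) < ((ra⁻¹ : ℝ) : ℂ) := by
    exact_mod_cast inv_pos.2 hra
  refine Matrix.PosDef.of_dotProduct_mulVec_pos ?_ ?_
  · rw [Matrix.IsHermitian, bsum_conjTranspose, hA.1]
    congr 1
    ext i j
    fin_cases i <;> fin_cases j <;> simp
  · intro x hx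
    obtain ⟨p, q, v, rfl⟩ : ∃ (p q : ℂ) (v : Fin n → ℂ), x = Fin.cons p (Fin.cons q v) :=
      ⟨x 0, x 1, Fin.tail (Fin.tail x), by
        rw [show Fin.cons (x 1) (Fin.tail (Fin.tail x)) = Fin.tail x from
          Fin.cons_self_tail (Fin.tail x), Fin.cons_self_tail]⟩
    rw [bsum_mulVec_cons]
    have hdot : star (Fin.cons p (Fin.cons q v) : Fin (n + 2) → ℂ) ⬝ᵥ
        (Fin.cons ((!![(ra : ℂ), star b; b, (rd : ℂ)]) 0 0 * p + (!![(ra : ℂ), star b; b, (rd : ℂ)]) 0 1 * q)
          (Fin.cons ((!![(ra : ℂ), star b; b, (rd : ℂ)]) 1 0 * p + (!![(ra : ℂ), star b; b, (rd : ℂ)]) 1 1 * q)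
            (A *ᵥ v)) : Fin (n + 2) → ℂ) =
        (star p * ((ra : ℂ) * p + star b * q) + star q * (b * p + (rd : ℂ) * q)) +
          star v ⬝ᵥ (A *ᵥ v) := by
      simp [dotProduct, Fin.sum_univ_succ]
      ring
    rw [hdot]
    set Q : ℂ := star p * ((ra : ℂ) * p + star b * q) + star q * (b * p + (rd : ℂ) * q) with hQ
    have key : (ra : ℂ) * Q = star ((ra : ℂ) * p + star b * q) * ((ra : ℂ) * p + star b * q) +
        ((ra : ℂ) * (rd : ℂ) - star b * b) * (star q * q) := by
      rw [hQ, star_add, star_mul, star_mul, star_star, hstar]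
      ring
    have hdet : 0 < (ra : ℂ) * (rd : ℂ) - star b * b := sub_pos.2 hb
    have hQe : Q = ((ra⁻¹ : ℝ) : ℂ) * ((ra : ℂ) * Q) := by
      push_cast
      field_simp
    have hQ0 : 0 ≤ Q := by
      rw [hQe]
      refine mul_nonneg hinv.le ?_
      rw [key]
      exact add_nonneg (star_mul_self_nonneg _) (mul_nonneg hdet.le (star_mul_self_nonneg _))
    by_cases hv : v = 0
    · have hQpos : 0 < Q := by
        rw [hQe]
        refine mul_pos hinv ?_
        rw [key]
        by_cases hq : q = 0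
        · have hp : p ≠ 0 := by
            intro hp
            apply hx
            rw [hp, hq, hv]
            ext i
            refine Fin.cases rfl (fun i => Fin.cases rfl (fun i => rfl) i) i
          refine add_pos_of_pos_of_nonneg (hpos _ ?_) (mul_nonneg hdet.le (star_mul_self_nonneg _))
          rw [hq, mul_zero, add_zero]
          exact mul_ne_zero hra' hp
        · exact add_pos_of_nonneg_of_pos (star_mul_self_nonneg _) (mul_pos hdet (hpos q hq))
      rw [hv]
      simpa using hQpos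
    · have h2 : 0 < star v ⬝ᵥ (A *ᵥ v) := hA.dotProduct_mulVec_pos hv
      exact add_pos_of_nonneg_of_pos hQ0 h2

private theorem DefA_block {n : ℕ} (t : ℂ) (A : Matrix (Fin n) (Fin n) ℂ) (hA : (dsum t A).PosDef) :
    0 < t ∧ A.PosDef := by
  refine ⟨by simpa using hA.diag_pos (i := 0), ?_⟩
  have : A = (dsum t A).submatrix Fin.succ Fin.succ := by
    ext i j
    simp
  rw [this]
  exact hA.submatrix (Fin.succ_injective _)

private theorem DefA_neg {n : ℕ} (s : ℂ) (A : Matrix (Fin n) (Fin n) ℂ) :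
    -(dsum s A) = dsum (-s) (-A) := by
  ext i j
  refine Fin.cases ?_ (fun i => ?_) i <;> refine Fin.cases ?_ (fun j => ?_) j <;> simp

private theorem DefA_ne {n : ℕ} (A : Matrix (Fin (n + 1)) (Fin (n + 1)) ℂ) (h1 : A.PosDef)
    (h2 : (-A).PosDef) : False := by
  have a1 := h1.diag_pos (i := 0)
  have a2 := h2.diag_pos (i := 0)
  rw [Matrix.neg_apply] at a2
  exact absurd a1 (lt_asymm (neg_pos.1 a2))

private theorem DefA_negb {n : ℕ} (a b d : ℂ) (A : Matrix (Fin n) (Fin n) ℂ) :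
    -(bsum !![a, star b; b, d] A) = bsum !![-a, star (-b); -b, -d] (-A) := by
  ext i j
  refine Fin.cases ?_ (fun i => Fin.cases ?_ (fun i => ?_) i) i <;>
    refine Fin.cases ?_ (fun j => Fin.cases ?_ (fun j => ?_) j) j <;> simp

/-- Definiteness of the glued form at any angle. Take `Hg = bsum !![q 1, z'; z, q 0] HD` as in
`glue_form` (same computation; `z'` the conjugate of `z`). Here `c = |X 1 1|²`, so over `ℂ`, and
hence in `K`, `z' * z = q 0 * q 1 * c`. Let `τ : K →+* ℂ`; by `hc` either `τ` is the inclusion or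
complex conjugation or `(τ c).re < 1`. In the last case use `hn.definite 0 τ` and
`hn.definite 1 τ`: `τ (q 0)`, `τ (q 1)` and `HD.map τ` are positive (definite), or all are negative
(definite) (compare the lemmas `hblock`, `hneg`, `hne` in the proof of `glue_form`);
`τ z' = conj (τ z)` by `hcm`, `τ c` is real (`c` is real) and
`conj (τ z) * τ z = τ (q 0) * τ (q 1) * τ c < τ (q 0) * τ (q 1)`. Conclude with `posDef_bsum` (for the
negative sign apply it to `-τ (q 1)`, `-τ z`, `-τ (q 0)`, `-(HD.map τ)`). -/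
theorem glue_form_angle {k : ℕ} {K : Subfield ℂ} {D : Matrix (Fin (k + 1)) (Fin (k + 1)) ℂ}
    {HD : Matrix (Fin (k + 1)) (Fin (k + 1)) K} {μ : Fin 2 → ℂ} {q : Fin 2 → K} (hcm : IsCM K)
    (hn : IsNF k K D HD μ q) (X : Matrix (Fin 2) (Fin 2) ℂ) (hX : Xᴴ * X = 1)
    (hz : star (μ 0) * μ 1 * X 1 1 ∈ K) (c : K) (hcc : (c : ℂ) = star (X 1 1) * X 1 1)
    (hc : ∀ τ : K →+* ℂ, (∀ x : K, τ x = x) ∨ (∀ x : K, τ x = (starRingEnd ℂ) (x : ℂ)) ∨
      (τ c).re < 1) :
    ∃ Hg : Matrix (Fin (k + 3)) (Fin (k + 3)) K,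
      (gB μ X D)ᴴ * J (k + 2) * gB μ X D = Hg.map (fun x : K => (x : ℂ)) ∧
      ∀ τ : K →+* ℂ, (∀ x : K, τ x = x) ∨
        (∀ x : K, τ x = (starRingEnd ℂ) (x : ℂ)) ∨ (Hg.map τ).PosDef ∨ (-(Hg.map τ)).PosDef := by
  have hz' : (starRingEnd ℂ) (star (μ 0) * μ 1 * X 1 1) ∈ K := hcm.2.2.1 _ hz
  refine ⟨bsum !![q 1, ⟨_, hz'⟩; ⟨_, hz⟩, q 0] HD, ?_, ?_⟩
  · rw [gB, bsum_conjTranspose, J_succ_succ, bsum_mul, bsum_mul, hn.form, bsum_map _ _ _ rfl,
      Matrix.mul_one]
    congr 1
    have c1 := congrFun (congrFun hX 1) 1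
    simp only [Matrix.mul_apply, Fin.sum_univ_two, conjTranspose_apply,
      Matrix.one_apply_eq] at c1
    have q1 := hn.q_eq 1
    have q0 := hn.q_eq 0
    ext i j
    fin_cases i <;> fin_cases j
    · simp [Matrix.mul_apply, Fin.sum_univ_two, q1]
      simp at c1
      linear_combination ((starRingEnd ℂ) (μ 1) * μ 1) * c1
    · simp [Matrix.mul_apply, Fin.sum_univ_two]
      ring
    · simp [Matrix.mul_apply, Fin.sum_univ_two]
      ring
    · simp [Matrix.mul_apply, Fin.sum_univ_two, q0]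
  · intro τ
    rcases hc τ with h | h | hτc
    · exact Or.inl h
    · exact Or.inr (Or.inl h)
    set z : K := ⟨star (μ 0) * μ 1 * X 1 1, hz⟩ with hzdef
    set z' : K := ⟨(starRingEnd ℂ) (star (μ 0) * μ 1 * X 1 1), hz'⟩ with hz'def
    have hτz : τ z' = star (τ z) := hcm.2.2.2 τ z z' rfl
    have hprod : z' * z = q 0 * q 1 * c := by
      apply Subtype.ext
      show (starRingEnd ℂ) (star (μ 0) * μ 1 * X 1 1) * (star (μ 0) * μ 1 * X 1 1) =
        (q 0 : ℂ) * (q 1 : ℂ) * (c : ℂ)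
      rw [hn.q_eq 0, hn.q_eq 1, hcc]
      simp only [map_mul, RCLike.star_def, Complex.conj_conj]
      ring
    have hprod' : star (τ z) * τ z = τ (q 0) * τ (q 1) * τ c := by
      rw [← hτz, ← map_mul, hprod, map_mul, map_mul]
    have hcreal : (c : ℂ) = (starRingEnd ℂ) (c : ℂ) := by
      rw [hcc]
      simp only [map_mul, RCLike.star_def, Complex.conj_conj]
      ring
    have hτc' : τ c = (starRingEnd ℂ) (τ c) := hcm.2.2.2 τ c c hcreal
    have hτc1 : τ c < 1 := by
      rw [Complex.lt_def]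
      refine ⟨by simpa using hτc, ?_⟩
      rw [Complex.one_im]
      exact Complex.conj_eq_iff_im.1 hτc'.symm
    have hmap : (bsum !![q 1, z'; z, q 0] HD).map τ =
        bsum !![τ (q 1), star (τ z); τ z, τ (q 0)] (HD.map τ) := by
      rw [bsum_map _ _ _ (map_zero τ)]
      congr 1
      ext i j
      fin_cases i <;> fin_cases j <;> simp [hτz]
    rw [hmap]
    rcases hn.definite 0 τ with h | h | h | h
    · exact Or.inl h
    · exact Or.inr (Or.inl h)
    · obtain ⟨a1, a2⟩ := DefA_block _ _ h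
      rcases hn.definite 1 τ with h' | h' | h' | h'
      · exact Or.inl h'
      · exact Or.inr (Or.inl h')
      · refine Or.inr (Or.inr (Or.inl ?_))
        have b1 := (DefA_block _ _ h').1
        refine posDef_bsum _ _ _ _ b1 a1 ?_ a2
        rw [hprod', mul_comm (τ (q 0))]
        exact mul_lt_of_lt_one_right (mul_pos b1 a1) hτc1
      · rw [DefA_neg] at h'
        exact (DefA_ne _ a2 (DefA_block _ _ h').2).elim
    · rw [DefA_neg] at h
      obtain ⟨a1, a2⟩ := DefA_block _ _ h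
      rcases hn.definite 1 τ with h' | h' | h' | h'
      · exact Or.inl h'
      · exact Or.inr (Or.inl h')
      · exact (DefA_ne _ (DefA_block _ _ h').2 a2).elim
      · rw [DefA_neg] at h'
        refine Or.inr (Or.inr (Or.inr ?_))
        have b1 := (DefA_block _ _ h').1
        rw [DefA_negb]
        refine posDef_bsum _ _ _ _ b1 a1 ?_ a2
        rw [star_neg, neg_mul_neg, hprod', mul_comm (τ (q 0))]
        have e : τ (q 1) * τ (q 0) = -τ (q 1) * -τ (q 0) := by ring
        rw [e]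
        exact mul_lt_of_lt_one_right (mul_pos b1 a1) hτc1

end Pool.Agent.Lib.MP_5d4057_al.Hyb
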