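import Pool.Agent.Lib.MP_5d4057_al.Hyb.Rk

namespace Pool.Agent.Lib.MP_5d4057_al.Hyb

open Matrix Pool.Agent.Lib.MP_5d4057_al ComplexOrder

/-- The matrix over `K` of a `K`-rational element of `SU(m,1)`, and its conjugates.
`G i j = ⟨(B⁻¹ * g * B) i j, _⟩`. Over `ℂ`, with `M = B⁻¹ * g * B` we have `B * M = g * B`, so
`Mᴴ * (Bᴴ * J * B) * M = (g * B)ᴴ * J * (g * B) = Bᴴ * J * B` (`pres`). Let `G'` be the matrix over
`K` with `(G' i k : ℂ) = conj (G k i)` (it exists by `hf.cm`); then `G' * H * G = H` over `K`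
(injectivity of `K → ℂ`), and `τ (G' i k) = conj (τ (G k i))`, again by `hf.cm`. The trace:
`tr (B⁻¹ * g * B) = tr g`. -/
theorem exists_rat {m : ℕ} {K : Subfield ℂ} {H : Matrix (Fin (m + 1)) (Fin (m + 1)) K}
    {B : Matrix (Fin (m + 1)) (Fin (m + 1)) ℂ} (hf : IsForm m K H B) (g : SUGroup m)
    (hg : EntriesIn K B g.toMatrix) :
    ∃ G : Matrix (Fin (m + 1)) (Fin (m + 1)) K,
      G.map (fun x : K => (x : ℂ)) = B⁻¹ * g.toMatrix * B ∧ (G.trace : ℂ) = g.toMatrix.trace ∧
      ∀ τ : K →+* ℂ, (G.map τ)ᴴ * H.map τ * G.map τ = H.map τ := by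
  have hB : IsUnit B.det := isUnit_iff_ne_zero.2 hf.det
  set M : Matrix (Fin (m + 1)) (Fin (m + 1)) ℂ := B⁻¹ * g.toMatrix * B with hM
  set G : Matrix (Fin (m + 1)) (Fin (m + 1)) K := Matrix.of fun i j => ⟨M i j, hg i j⟩ with hG
  set G' : Matrix (Fin (m + 1)) (Fin (m + 1)) K :=
    Matrix.of fun i k => ⟨(starRingEnd ℂ) (G k i : ℂ), hf.cm.2.2.1 _ (G k i).2⟩ with hG'
  have hGM : G.map (fun x : K => (x : ℂ)) = M := by
    ext i j
    rfl
  have hGM' : G'.map (fun x : K => (x : ℂ)) = Mᴴ := by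
    ext i j
    rfl
  have hBM : B * M = g.toMatrix * B := by
    rw [hM, ← Matrix.mul_assoc, ← Matrix.mul_assoc, Matrix.mul_nonsing_inv B hB, Matrix.one_mul]
  have hpres : g.toMatrixᴴ * J m * g.toMatrix = J m := g.2
  have hC : Mᴴ * (Bᴴ * J m * B) * M = Bᴴ * J m * B := by
    calc Mᴴ * (Bᴴ * J m * B) * M = (B * M)ᴴ * J m * (B * M) := by
          rw [Matrix.conjTranspose_mul B M]
          simp only [Matrix.mul_assoc]
      _ = Bᴴ * (g.toMatrixᴴ * J m * g.toMatrix) * B := by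
          rw [hBM, Matrix.conjTranspose_mul g.toMatrix B]
          simp only [Matrix.mul_assoc]
      _ = Bᴴ * J m * B := by rw [hpres]
  have hK : G' * H * G = H := by
    have hinj : Function.Injective (fun x : K => (x : ℂ)) := Subtype.coe_injective
    apply Matrix.map_injective hinj
    have h1 : (G' * H * G).map (fun x : K => (x : ℂ)) =
        G'.map (fun x : K => (x : ℂ)) * H.map (fun x : K => (x : ℂ)) *
          G.map (fun x : K => (x : ℂ)) := by
      have h2 := Matrix.map_mul (L := G' * H) (M := G) (f := K.subtype)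
      have h3 := Matrix.map_mul (L := G') (M := H) (f := K.subtype)
      rw [h3] at h2
      exact h2
    show (G' * H * G).map (fun x : K => (x : ℂ)) = H.map (fun x : K => (x : ℂ))
    rw [h1, hGM, hGM', ← hf.form, hC]
  refine ⟨G, hGM, ?_, fun τ => ?_⟩
  · have h1 : (G.trace : ℂ) = M.trace := by
      simp only [Matrix.trace, Matrix.diag]
      rw [AddSubmonoidClass.coe_finsetSum]
      rfl
    rw [h1, hM, Matrix.trace_mul_comm, ← Matrix.mul_assoc, Matrix.mul_nonsing_inv B hB,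
      Matrix.one_mul]
  · have h1 : G'.map τ = (G.map τ)ᴴ := by
      ext i j
      exact hf.cm.2.2.2 τ (G j i) (G' i j) rfl
    rw [← h1, ← Matrix.map_mul, ← Matrix.map_mul, hK]

end Pool.Agent.Lib.MP_5d4057_al.Hyb
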