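import Pool.Agent.Lib.MP_5d4057_al.Hyb.Split
import Pool.Agent.Lib.MP_5d4057_al.Hyb.Span
import Pool.Agent.Lib.MP_5d4057_al.Hyb.Sig

namespace Pool.Agent.Lib.MP_5d4057_al.Hyb

open Matrix Pool.Agent.Lib.MP_5d4057_al ComplexOrder

open scoped MatrixOrder in
private theorem ProjA_sqrt {n : ℕ} (H : Matrix (Fin n) (Fin n) ℂ) (hH : H.PosDef) :
    ∃ R : Matrix (Fin n) (Fin n) ℂ, IsUnit R.det ∧ H = Rᴴ * R := by
  obtain ⟨R, hR⟩ := CStarAlgebra.nonneg_iff_eq_star_mul_self.mp hH.posSemidef.nonneg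
  refine ⟨R, ?_, hR⟩
  have h1 : H.det ≠ 0 := hH.det_pos.ne'
  rw [hR, Matrix.det_mul] at h1
  exact isUnit_iff_ne_zero.2 (right_ne_zero_of_mul h1)

private theorem ProjA_trace {n : ℕ} (H A : Matrix (Fin n) (Fin n) ℂ) (hH : H.PosDef)
    (hA : Aᴴ * H = H * A) : 0 ≤ (A * A).trace.re := by
  obtain ⟨R, hR, rfl⟩ := ProjA_sqrt H hH
  have h1 := Matrix.nonsing_inv_mul R hR
  have h2 := Matrix.mul_nonsing_inv R hR
  have h1' : Rᴴ * R⁻¹ᴴ = 1 := by
    rw [← Matrix.conjTranspose_mul, h1, Matrix.conjTranspose_one]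
  have h2' : R⁻¹ᴴ * Rᴴ = 1 := by
    rw [← Matrix.conjTranspose_mul, h2, Matrix.conjTranspose_one]
  have h3 : (R * A * R⁻¹)ᴴ = R * A * R⁻¹ := by
    rw [Matrix.conjTranspose_mul, Matrix.conjTranspose_mul]
    calc R⁻¹ᴴ * (Aᴴ * Rᴴ) = R⁻¹ᴴ * (Aᴴ * Rᴴ) * (R * R⁻¹) := by rw [h2, Matrix.mul_one]
      _ = R⁻¹ᴴ * (Aᴴ * (Rᴴ * R)) * R⁻¹ := by simp only [Matrix.mul_assoc]
      _ = (R⁻¹ᴴ * Rᴴ) * (R * A * R⁻¹) := by rw [hA]; simp only [Matrix.mul_assoc]
      _ = _ := by rw [h2', Matrix.one_mul]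
  have h4 : (A * A).trace = ((R * A * R⁻¹)ᴴ * (R * A * R⁻¹)).trace := by
    rw [h3]
    have h5 : R * A * R⁻¹ * (R * A * R⁻¹) = R * (A * A * R⁻¹) := by
      calc R * A * R⁻¹ * (R * A * R⁻¹) = R * (A * (R⁻¹ * R) * A * R⁻¹) := by
            simp only [Matrix.mul_assoc]
        _ = _ := by rw [h1, Matrix.mul_one]
    rw [h5, Matrix.trace_mul_comm R (A * A * R⁻¹), Matrix.mul_assoc (A * A), h1, Matrix.mul_one]
  rw [h4]
  exact (Complex.nonneg_iff.1 (Matrix.posSemidef_conjTranspose_mul_self _).trace_nonneg).1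

/-- If `A` is self-adjoint for the definite form `H` then `tr (A * A) ≥ 0`. For positive definite
`H = Rᴴ * R`, `R` invertible (e.g. the square root), `A' = R * A * R⁻¹` is Hermitian and
`tr (A * A) = tr (A'ᴴ * A') ≥ 0`. For negative definite `H` use `-H`. -/
theorem trace_sq_nonneg {n : ℕ} (H A : Matrix (Fin n) (Fin n) ℂ) (hH : H.PosDef ∨ (-H).PosDef)
    (hA : Aᴴ * H = H * A) : 0 ≤ (A * A).trace.re := by
  rcases hH with h | h
  · exact ProjA_trace H A h hA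
  · refine ProjA_trace (-H) A h ?_
    rw [Matrix.mul_neg, Matrix.neg_mul, hA]

private theorem ProjA_rk (m : ℕ) :
    dsum 1 0 = rk (m + 1) (Pi.single 0 1) (Pi.single 0 1) := by
  rw [rk, J_succ]
  ext i j
  rw [vecMulVec_apply]
  refine Fin.cases ?_ (fun i => ?_) i
  · refine Fin.cases ?_ (fun j => ?_) j
    · simp [vecMul, dotProduct, Fin.sum_univ_succ]
    · simp [vecMul, dotProduct, Fin.sum_univ_succ]
  · refine Fin.cases ?_ (fun j => ?_) j
    · simp
    · simp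

private theorem ProjA_hm (m : ℕ) : hm (m + 1) (Pi.single 0 1) (Pi.single 0 1) = 1 := by
  rw [← trace_rk, ← ProjA_rk, Matrix.trace, Fin.sum_univ_succ]
  simp [Matrix.diag]

private theorem ProjA_map_mul {K : Subfield ℂ} {n : ℕ} (M N : Matrix (Fin n) (Fin n) K) :
    (M * N).map (fun x : K => (x : ℂ)) =
      M.map (fun x : K => (x : ℂ)) * N.map (fun x : K => (x : ℂ)) :=
  Matrix.map_mul (f := K.subtype)

private theorem ProjA_proj {k : ℕ} (hk : 1 ≤ k) (Γ : Subgroup (SUGroup (k + 1)))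
    (hL : IsLattice Γ) (g : SUGroup (k + 2)) {K : Subfield ℂ}
    {B : Matrix (Fin (k + 2 + 1)) (Fin (k + 2 + 1)) ℂ} (hB : B.det ≠ 0)
    (hr : ∀ γ ∈ Γ, EntriesIn K B (g * extend (k + 1) γ * g⁻¹).toMatrix) :
    ∃ p : Matrix (Fin (k + 2 + 1)) (Fin (k + 2 + 1)) K, p.map (fun x : K => (x : ℂ)) =
      B⁻¹ * rk (k + 2) (g.toMatrix *ᵥ Pi.single 0 1) (g.toMatrix *ᵥ Pi.single 0 1) * B := by
  have hB1 := Matrix.nonsing_inv_mul B (isUnit_iff_ne_zero.2 hB)
  have hinv : ((g⁻¹).toMatrix * B)⁻¹ = B⁻¹ * g.toMatrix := by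
    refine Matrix.inv_eq_left_inv ?_
    calc B⁻¹ * g.toMatrix * ((g⁻¹).toMatrix * B)
        = B⁻¹ * (g.toMatrix * (g⁻¹).toMatrix) * B := by simp only [Matrix.mul_assoc]
      _ = 1 := by rw [toMatrix_mul_inv, Matrix.mul_one, hB1]
  have h1 := proj_entries (n := k + 2) (by omega) K
    (SUGroup.toMatrix '' (Γ : Set (SUGroup (k + 1)))) ⟨1, Γ.one_mem, rfl⟩
    (by
      rintro _ ⟨γ, hγ, rfl⟩ _ ⟨δ, hδ, rfl⟩
      exact ⟨γ * δ, Γ.mul_mem hγ hδ, rfl⟩)
    (span_top (by omega) Γ hL) ((g⁻¹).toMatrix * B)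
    (by
      rw [Matrix.det_mul]
      exact mul_ne_zero (by rw [det_toMatrix]; exact one_ne_zero) hB)
    (by
      rintro _ ⟨γ, hγ, rfl⟩ i j
      have h2 := hr γ hγ i j
      have h3 : ((g⁻¹).toMatrix * B)⁻¹ * dsum 1 γ.toMatrix * ((g⁻¹).toMatrix * B) =
          B⁻¹ * (g * extend (k + 1) γ * g⁻¹).toMatrix * B := by
        rw [hinv, toMatrix_mul, toMatrix_mul, extend_toMatrix]
        simp only [Matrix.mul_assoc]
      rw [h3]
      exact h2)
  have h4 : B⁻¹ * rk (k + 2) (g.toMatrix *ᵥ Pi.single 0 1) (g.toMatrix *ᵥ Pi.single 0 1) * B =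
      1 - ((g⁻¹).toMatrix * B)⁻¹ * dsum 0 (1 : Matrix (Fin (k + 2)) (Fin (k + 2)) ℂ) *
        ((g⁻¹).toMatrix * B) := by
    rw [hinv, ← conj_rk, ← ProjA_rk]
    have h5 : dsum 1 0 = 1 - dsum 0 (1 : Matrix (Fin (k + 1 + 1)) (Fin (k + 1 + 1)) ℂ) := by
      rw [← dsum_one]
      ext i j
      refine Fin.cases ?_ (fun i => ?_) i <;> refine Fin.cases ?_ (fun j => ?_) j <;> simp
    rw [h5]
    have h6 : g.toMatrix * (1 - dsum 0 (1 : Matrix (Fin (k + 1 + 1)) (Fin (k + 1 + 1)) ℂ)) *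
        (g⁻¹).toMatrix = 1 - g.toMatrix * dsum 0 1 * (g⁻¹).toMatrix := by
      rw [Matrix.mul_sub, Matrix.sub_mul, Matrix.mul_one, toMatrix_mul_inv]
    rw [h6, Matrix.mul_sub, Matrix.sub_mul, Matrix.mul_one, hB1]
    simp only [Matrix.mul_assoc]
  have h7 : ∀ i j, (B⁻¹ * rk (k + 2) (g.toMatrix *ᵥ Pi.single 0 1)
      (g.toMatrix *ᵥ Pi.single 0 1) * B) i j ∈ K := by
    intro i j
    rw [h4, Matrix.sub_apply, Matrix.one_apply]
    refine K.sub_mem ?_ (h1 i j)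
    split_ifs
    · exact K.one_mem
    · exact K.zero_mem
  exact ⟨Matrix.of fun i j => ⟨_, h7 i j⟩, rfl⟩

/-- The angle of two rational hyperplanes. Let `P b = g b * dsum 1 0 * (g b)⁻¹`, the orthogonal
projection onto the line of `f b = g b e₀` (`= rk (f b) (f b)`, since `dsum 1 0 = rk e₀ e₀`,
`e₀ = cons 1 0`, and `conj_rk`). By `proj_entries` for `(g b)⁻¹ * B` and `S = toMatrix '' Γ b`
(`n = k + 2`, `span_top`) the matrix `1 - P b`, hence `P b`, has entries in `K` in the basis `B`. Let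
`p b` be the matrix over `K` with `(p b).map = B⁻¹ * P b * B`, and `c = tr (p 0 * p 1)`; then
`c = tr (P 0 * P 1) = ⟨f 0, f 1⟩ * ⟨f 1, f 0⟩ = star z₀ * z₀` with
`z₀ = ((g 0)ᴴ * J * g 1) 0 0 = ⟨f 0, f 1⟩`. Moreover `p b * p b = p b`, `tr (p b) = 1`, and
`(p b)' * H = H * p b` where `(p b)'` is the conjugate transpose over `K` (`rk_conjTranspose`, `hf.form`).
Let `τ : K →+* ℂ` be neither the inclusion nor complex conjugation; then `H.map τ` is definite, and
`A = (p 0).map τ - (p 1).map τ` satisfies `Aᴴ * H.map τ = H.map τ * A` (use `hf.cm`), so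
`0 ≤ re tr (A * A) = 2 - 2 re (τ c)` by `trace_sq_nonneg`. -/
theorem exists_cos {k : ℕ} (hk : 1 ≤ k) (Γ : Fin 2 → Subgroup (SUGroup (k + 1)))
    (hL : ∀ b, IsLattice (Γ b)) (g : Fin 2 → SUGroup (k + 2)) {K : Subfield ℂ}
    {H : Matrix (Fin (k + 2 + 1)) (Fin (k + 2 + 1)) K}
    {B : Matrix (Fin (k + 2 + 1)) (Fin (k + 2 + 1)) ℂ} (hf : IsForm (k + 2) K H B)
    (hr : ∀ b, ∀ γ ∈ Γ b, EntriesIn K B (g b * extend (k + 1) γ * (g b)⁻¹).toMatrix) :
    ∃ c : K, (c : ℂ) = star (((g 0).toMatrixᴴ * J (k + 2) * (g 1).toMatrix) 0 0) *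
        ((g 0).toMatrixᴴ * J (k + 2) * (g 1).toMatrix) 0 0 ∧
      ∀ τ : K →+* ℂ, (∀ x : K, τ x = x) ∨ (∀ x : K, τ x = (starRingEnd ℂ) (x : ℂ)) ∨
        (τ c).re ≤ 1 := by
  have hBu : IsUnit B.det := isUnit_iff_ne_zero.2 hf.det
  have hB1 := Matrix.nonsing_inv_mul B hBu
  have hB2 := Matrix.mul_nonsing_inv B hBu
  have hinj : Function.Injective (fun x : K => (x : ℂ)) := Subtype.coe_injective
  choose p hp using fun b => ProjA_proj hk (Γ b) (hL b) (g b) hf.det (hr b)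
  set f : Fin 2 → Fin (k + 2 + 1) → ℂ := fun b => (g b).toMatrix *ᵥ Pi.single 0 1 with hfdef
  have hff : ∀ b, hm (k + 2) (f b) (f b) = 1 := fun b => by
    rw [hfdef]
    show hm (k + 2) ((g b).toMatrix *ᵥ Pi.single 0 1) ((g b).toMatrix *ᵥ Pi.single 0 1) = 1
    rw [hm_mulVec]
    exact ProjA_hm (k + 1)
  have hp' : ∀ b, (p b).map (fun x : K => (x : ℂ)) = B⁻¹ * rk (k + 2) (f b) (f b) * B := hp
  have hprod : ∀ a b, (p a * p b).map (fun x : K => (x : ℂ)) =
      hm (k + 2) (f a) (f b) • (B⁻¹ * rk (k + 2) (f b) (f a) * B) := by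
    intro a b
    rw [ProjA_map_mul, hp', hp']
    calc B⁻¹ * rk (k + 2) (f a) (f a) * B * (B⁻¹ * rk (k + 2) (f b) (f b) * B)
        = B⁻¹ * (rk (k + 2) (f a) (f a) * (B * B⁻¹) * rk (k + 2) (f b) (f b)) * B := by
          simp only [Matrix.mul_assoc]
      _ = _ := by
          rw [hB2, Matrix.mul_one, rk_mul, Matrix.mul_smul, Matrix.smul_mul]
  have hidem : ∀ b, p b * p b = p b := by
    intro b
    apply Matrix.map_injective hinj
    show (p b * p b).map (fun x : K => (x : ℂ)) = (p b).map (fun x : K => (x : ℂ))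
    rw [hprod, hff, one_smul, hp']
  have htrace : ∀ M : Matrix (Fin (k + 2 + 1)) (Fin (k + 2 + 1)) K,
      ((M.trace : K) : ℂ) = (M.map (fun x : K => (x : ℂ))).trace := by
    intro M
    simp only [Matrix.trace, Matrix.diag]
    rw [AddSubmonoidClass.coe_finsetSum]
    rfl
  have htrc : ∀ a b, (B⁻¹ * rk (k + 2) (f b) (f a) * B).trace = hm (k + 2) (f b) (f a) := by
    intro a b
    rw [Matrix.trace_mul_comm, ← Matrix.mul_assoc, hB2, Matrix.one_mul, trace_rk]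
  have htr1 : ∀ b, (p b).trace = 1 := by
    intro b
    apply Subtype.coe_injective
    show (((p b).trace : K) : ℂ) = ((1 : K) : ℂ)
    rw [htrace, hp', htrc, hff]
    rfl
  have hc : (((p 0 * p 1).trace : K) : ℂ) =
      hm (k + 2) (f 0) (f 1) * hm (k + 2) (f 1) (f 0) := by
    rw [htrace, hprod, Matrix.trace_smul, htrc, smul_eq_mul]
  have hz : hm (k + 2) (f 0) (f 1) = ((g 0).toMatrixᴴ * J (k + 2) * (g 1).toMatrix) 0 0 := by
    rw [hm, hfdef]
    show star ((g 0).toMatrix *ᵥ Pi.single 0 1) ⬝ᵥ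
      (J (k + 2) *ᵥ ((g 1).toMatrix *ᵥ Pi.single 0 1)) = _
    rw [star_mulVec, ← dotProduct_mulVec, mulVec_mulVec, mulVec_mulVec]
    have h1 : (star (Pi.single 0 1 : Fin (k + 2 + 1) → ℂ)) = Pi.single 0 1 := by
      ext k
      by_cases hk : k = 0
      · subst hk; simp
      · simp [Pi.single_eq_of_ne hk]
    rw [h1, single_one_dotProduct, mulVec_single_one, Matrix.col_apply]
  refine ⟨(p 0 * p 1).trace, ?_, fun τ => ?_⟩
  · rw [hc, hz, ← hm_star (f 0) (f 1), hz]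
    ring
  rcases hf.definite τ with h | h | h
  · exact Or.inl h
  · exact Or.inr (Or.inl h)
  · refine Or.inr (Or.inr ?_)
    -- self-adjointness
    have hadj : ∀ b, ((p b).map τ)ᴴ * H.map τ = H.map τ * (p b).map τ := by
      intro b
      set G' : Matrix (Fin (k + 2 + 1)) (Fin (k + 2 + 1)) K :=
        Matrix.of fun i j => ⟨(starRingEnd ℂ) (p b j i : ℂ), hf.cm.2.2.1 _ (p b j i).2⟩ with hG'
      have h1 : G'.map τ = ((p b).map τ)ᴴ := by
        ext i j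
        exact hf.cm.2.2.2 τ (p b j i) (G' i j) rfl
      have h2 : G'.map (fun x : K => (x : ℂ)) = ((p b).map (fun x : K => (x : ℂ)))ᴴ := by
        ext i j
        rfl
      have h3 : G' * H = H * p b := by
        apply Matrix.map_injective hinj
        show (G' * H).map (fun x : K => (x : ℂ)) = (H * p b).map (fun x : K => (x : ℂ))
        rw [ProjA_map_mul, ProjA_map_mul, h2, hp', ← hf.form]
        calc (B⁻¹ * rk (k + 2) (f b) (f b) * B)ᴴ * (Bᴴ * J (k + 2) * B)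
            = (B * (B⁻¹ * rk (k + 2) (f b) (f b) * B))ᴴ * (J (k + 2) * B) := by
              rw [Matrix.conjTranspose_mul B]
              simp only [Matrix.mul_assoc]
          _ = (rk (k + 2) (f b) (f b) * B)ᴴ * (J (k + 2) * B) := by
              congr 2
              rw [← Matrix.mul_assoc, ← Matrix.mul_assoc, hB2, Matrix.one_mul]
          _ = Bᴴ * ((rk (k + 2) (f b) (f b))ᴴ * J (k + 2)) * B := by
              rw [Matrix.conjTranspose_mul]
              simp only [Matrix.mul_assoc]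
          _ = Bᴴ * J (k + 2) * (B * B⁻¹) * rk (k + 2) (f b) (f b) * B := by
              rw [rk_conjTranspose, hB2, Matrix.mul_one]
              simp only [Matrix.mul_assoc]
          _ = _ := by simp only [Matrix.mul_assoc]
      rw [← h1, ← Matrix.map_mul, ← Matrix.map_mul, h3]
    have h4 := trace_sq_nonneg (H.map τ) ((p 0).map τ - (p 1).map τ) h (by
      rw [Matrix.conjTranspose_sub, Matrix.sub_mul, Matrix.mul_sub, hadj, hadj])
    have h5 : ((p 0).map τ - (p 1).map τ) * ((p 0).map τ - (p 1).map τ) =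
        ((p 0 - p 1) * (p 0 - p 1)).map τ := by
      rw [Matrix.map_mul, Matrix.map_sub τ (fun a b => map_sub τ a b)]
    have h6 : ((p 0 - p 1) * (p 0 - p 1)).trace = 2 - 2 * (p 0 * p 1).trace := by
      rw [Matrix.sub_mul, Matrix.mul_sub, Matrix.mul_sub, hidem, hidem, Matrix.trace_sub,
        Matrix.trace_sub, Matrix.trace_sub, htr1, htr1, Matrix.trace_mul_comm (p 1) (p 0)]
      ring
    have h7 : (((p 0 - p 1) * (p 0 - p 1)).map τ).trace =
        τ ((p 0 - p 1) * (p 0 - p 1)).trace := by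
      simp only [Matrix.trace, Matrix.diag, Matrix.map_apply]
      rw [map_sum]
    rw [h5, h7, h6, map_sub, map_mul, map_ofNat, Complex.sub_re, Complex.mul_re] at h4
    simp at h4
    linarith

end Pool.Agent.Lib.MP_5d4057_al.Hyb
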