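import Pool.Agent.Lib.MP_5d4057_al.Hyb.Final
import Pool.Agent.Lib.MP_5d4057_al.Hyb.AngleK
import Pool.Agent.Lib.MP_5d4057_al.Hyb.DefA
import Pool.Agent.Lib.MP_5d4057_al.Hyb.ProjA

namespace Pool.Agent.Lib.MP_5d4057_al.Hyb

open Matrix Pool.Agent.Lib.MP_5d4057_al ComplexOrder

/-- The square of the cosine of the angle between the hyperplanes, as a complex number. -/
noncomputable def cosSq {m : ℕ} (g : Fin 2 → SUGroup m) : ℂ :=
  star (((g 0).toMatrixᴴ * J m * (g 1).toMatrix) 0 0) *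
    ((g 0).toMatrixᴴ * J m * (g 1).toMatrix) 0 0

theorem cosSq_eq {k : ℕ} {g : Fin 2 → SUGroup (k + 2)} {X : Matrix (Fin 2) (Fin 2) ℂ}
    {ζ : ℂ} (hζ : star ζ * ζ = 1) (hX : Xᴴ * X = 1)
    (hg : (g 1).toMatrix = (g 0).toMatrix * (ζ • bsum X 1)) :
    cosSq g = star (X 1 1) * X 1 1 ∧ cosSq g + star (X 0 1) * X 0 1 = 1 := by
  have h1 : (g 0).toMatrixᴴ * J (k + 2) * (g 1).toMatrix = ζ • bsum X (J k) := by
    rw [hg]
    calc (g 0).toMatrixᴴ * J (k + 2) * ((g 0).toMatrix * ζ • bsum X 1)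
        = ((g 0).toMatrixᴴ * J (k + 2) * (g 0).toMatrix) * (ζ • bsum X 1) := by
          simp only [Matrix.mul_assoc]
      _ = J (k + 2) * (ζ • bsum X 1) := by rw [pres]
      _ = _ := by rw [J_succ_succ, Matrix.mul_smul, bsum_mul, Matrix.one_mul, Matrix.mul_one]
  have h2 : cosSq g = star (X 0 0) * X 0 0 := by
    rw [cosSq, h1, Matrix.smul_apply, bsum_00, smul_eq_mul, star_mul]
    linear_combination (star (X 0 0) * X 0 0) * hζ
  have hX' : X * Xᴴ = 1 := mul_eq_one_comm.1 hX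
  have c0 := congrFun (congrFun hX 1) 1
  have r0 := congrFun (congrFun hX' 0) 0
  simp only [Matrix.mul_apply, Fin.sum_univ_two, conjTranspose_apply,
    Matrix.one_apply_eq] at c0 r0
  rw [h2]
  constructor
  · linear_combination r0 - c0
  · linear_combination r0

/-- The criterion at any angle. -/
theorem criterion {k : ℕ} (hk : 1 ≤ k) (Γ₃ : Subgroup (SUGroup k))
    (Γ : Fin 2 → Subgroup (SUGroup (k + 1))) (g : Fin 2 → SUGroup (k + 2))
    (h₃ : IsLattice Γ₃) (hL : ∀ b, IsLattice (Γ b)) (hA : ∀ b, IsArithmetic (k + 1) (Γ b))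
    (hsub : ∀ b, ∀ γ ∈ Γ₃, extend k γ ∈ Γ b)
    (hagree : ∀ γ ∈ Γ₃, g 0 * extend (k + 1) (extend k γ) * (g 0)⁻¹ =
      g 1 * extend (k + 1) (extend k γ) * (g 1)⁻¹)
    (hlat : IsLattice (hybrid Γ g)) :
    IsArithmetic (k + 2) (hybrid Γ g) ↔
      traceField (Γ 0) = traceField (Γ 1) ∧
      (∀ γ ∈ hybrid Γ g, IsIntegral ℤ γ.toMatrix.trace ∧
        γ.toMatrix.trace ∈ traceField (Γ 0)) ∧
      ∃ c : traceField (Γ 0), (c : ℂ) = cosSq g ∧ ∀ τ : traceField (Γ 0) →+* ℂ,
        (∀ x : traceField (Γ 0), τ x = x) ∨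
          (∀ x : traceField (Γ 0), τ x = (starRingEnd ℂ) (x : ℂ)) ∨ (τ c).re < 1 := by
  obtain ⟨X, ζ, hζ, hX, hg⟩ := frame hk Γ₃ h₃ g hagree
  have h01 := X01_ne Γ g hlat X ζ hζ hX hg
  obtain ⟨hcos, hcos1⟩ := cosSq_eq hζ hX hg
  constructor
  · rintro hAr
    have hmp := main_mp hk Γ g hL hAr
    obtain ⟨K, H, B, hf, hr, hc⟩ := hAr
    have h : ∀ b, traceField (Γ b) = K := by
      intro b
      refine traceField_piece hk (Γ b) (hL b) (g b) hf (fun γ hγ => hr _ ?_)
      exact Subgroup.subset_closure ⟨b, γ, hγ, rfl⟩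
    refine ⟨hmp.1, fun γ hγ => ⟨hmp.2 γ hγ, ?_⟩, ?_⟩
    · rw [h 0]
      obtain ⟨G, -, hG, -⟩ := exists_rat hf γ (hr γ hγ)
      rw [← hG]
      exact G.trace.2
    · rw [h 0]
      obtain ⟨c, hc1, hc2⟩ := exists_cos hk Γ hL g hf
        (fun b γ hγ => hr _ (Subgroup.subset_closure ⟨b, γ, hγ, rfl⟩))
      refine ⟨c, hc1, fun τ => ?_⟩
      rcases hc2 τ with h2 | h2 | h2
      · exact Or.inl h2
      · exact Or.inr (Or.inl h2)
      · refine Or.inr (Or.inr (lt_of_le_of_ne h2 ?_))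
        intro h3
        have hcreal : (c : ℂ) = (starRingEnd ℂ) (c : ℂ) := by
          rw [hc1]
          simp only [map_mul, RCLike.star_def, Complex.conj_conj]
          ring
        have h4 := hf.cm.2.2.2 τ c c hcreal
        have h5 : τ c = 1 := by
          apply Complex.ext
          · rw [h3]; rfl
          · have := congrArg Complex.im h4
            rw [Complex.conj_im] at this
            simp only [Complex.one_im]
            linarith
        have h6 : c = 1 := τ.injective (by rw [h5, map_one])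
        have h7 : cosSq g = 1 := by
          have : (c : ℂ) = cosSq g := hc1
          rw [← this, h6]
          rfl
        rw [h7] at hcos1
        have h8 : star (X 0 1) * X 0 1 = 0 := by linear_combination hcos1
        rcases mul_eq_zero.1 h8 with h9 | h9
        · exact h01 (star_eq_zero.1 h9)
        · exact h01 h9
  · rintro ⟨htr, hint, c, hc1, hc2⟩
    refine build hk Γ₃ Γ g h₃ hL hA hsub hlat htr (fun γ hγ => (hint γ hγ).1) X ζ hζ hX hg ?_
    intro D HD μ q hcm hn h3D hrat hT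
    have hzK := angle_mem_of_trace hcm hn Γ hL hrat g X ζ hζ hg (hybrid Γ g)
      (fun b γ hγ => Subgroup.subset_closure ⟨b, γ, hγ, rfl⟩) (fun γ hγ => (hint γ hγ).2)
    exact ⟨hzK, glue_form_angle hcm hn X hX hzK c (hc1.trans hcos) hc2⟩

end Pool.Agent.Lib.MP_5d4057_al.Hyb
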