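import Pool.Agent.Lib.MP_5d4057_al.Hyb.Main

namespace Pool.Agent.Lib.MP_5d4057_al.Hyb

open Matrix Pool.Agent.Lib.MP_5d4057_al ComplexOrder

theorem main_mp {k : ℕ} (hk : 1 ≤ k) (Γ : Fin 2 → Subgroup (SUGroup (k + 1)))
    (g : Fin 2 → SUGroup (k + 2)) (hL : ∀ b, IsLattice (Γ b))
    (hA : IsArithmetic (k + 2) (hybrid Γ g)) :
    traceField (Γ 0) = traceField (Γ 1) ∧
      ∀ γ ∈ hybrid Γ g, IsIntegral ℤ γ.toMatrix.trace := by
  obtain ⟨K, H, B, hf, hr, hc⟩ := hA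
  have h : ∀ b, traceField (Γ b) = K := by
    intro b
    refine traceField_piece hk (Γ b) (hL b) (g b) hf (fun γ hγ => hr _ ?_)
    exact Subgroup.subset_closure ⟨b, γ, hγ, rfl⟩
  exact ⟨(h 0).trans (h 1).symm, fun γ hγ => isIntegral_trace hf.det _ hc γ hγ⟩

theorem EntriesIn.gB_mem {k : ℕ} {K : Subfield ℂ} (Γ : Fin 2 → Subgroup (SUGroup (k + 1)))
    (g : Fin 2 → SUGroup (k + 2)) (B : Matrix (Fin (k + 2 + 1)) (Fin (k + 2 + 1)) ℂ)
    (h : ∀ b, ∀ γ ∈ Γ b, EntriesIn K B (g b * extend (k + 1) γ * (g b)⁻¹).toMatrix) :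
    ∀ γ ∈ hybrid Γ g, EntriesIn K B γ.toMatrix := by
  let S : Subgroup (SUGroup (k + 2)) :=
    { carrier := {x | EntriesIn K B x.toMatrix ∧ EntriesIn K B (x⁻¹).toMatrix}
      mul_mem' := fun {x y} hx hy => ⟨EntriesIn.mul (R := K.toSubring) hx.1 hy.1, by
        rw [_root_.mul_inv_rev]
        exact EntriesIn.mul (R := K.toSubring) hy.2 hx.2⟩
      one_mem' := ⟨EntriesIn.one (R := K.toSubring), by
        rw [inv_one]; exact EntriesIn.one (R := K.toSubring)⟩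
      inv_mem' := fun {x} hx => ⟨hx.2, by rw [inv_inv]; exact hx.1⟩ }
  have hle : hybrid Γ g ≤ S := by
    refine (Subgroup.closure_le S).2 ?_
    rintro x ⟨b, γ, hγ, rfl⟩
    refine ⟨h b γ hγ, ?_⟩
    have := h b γ⁻¹ (inv_mem hγ)
    have e : (g b * extend (k + 1) γ * (g b)⁻¹)⁻¹ = g b * extend (k + 1) γ⁻¹ * (g b)⁻¹ := by
      rw [map_inv]; group
    rwa [e]
  exact fun γ hγ => (hle hγ).1

theorem tau_of_null {k : ℕ} {K : Subfield ℂ} {D : Matrix (Fin (k + 1)) (Fin (k + 1)) ℂ}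
    {HD : Matrix (Fin (k + 1)) (Fin (k + 1)) K} {μ : Fin 2 → ℂ} {q : Fin 2 → K} (hcm : IsCM K)
    (hn : IsNF k K D HD μ q) (x : Fin (k + 1) → K) (hx0 : x ≠ 0)
    (hx : hm k (D *ᵥ fun i => (x i : ℂ)) (D *ᵥ fun i => (x i : ℂ)) = 0) (τ : K →+* ℂ) :
    (∀ x : K, τ x = x) ∨ (∀ x : K, τ x = (starRingEnd ℂ) (x : ℂ)) := by
  let y : Fin (k + 1) → K := fun i => ⟨(starRingEnd ℂ) (x i : ℂ), hcm.2.2.1 _ (x i).2⟩
  have h1 : (∑ i, y i * ∑ j, HD i j * x j : K) = 0 := by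
    apply Subtype.ext
    have h2 : hm k (D *ᵥ fun i => (x i : ℂ)) (D *ᵥ fun i => (x i : ℂ)) =
        ∑ i, (y i : ℂ) * ∑ j, (HD i j : ℂ) * (x j : ℂ) := by
      rw [hm, star_mulVec, ← dotProduct_mulVec, mulVec_mulVec, mulVec_mulVec, hn.form]
      rfl
    rw [hx] at h2
    simpa using h2.symm
  have h3 : ∑ i, (starRingEnd ℂ) (τ (x i)) * ∑ j, τ (HD i j) * τ (x j) = 0 := by
    have h4 := congrArg τ h1
    rw [map_sum, map_zero] at h4
    rw [← h4]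
    refine Finset.sum_congr rfl fun i _ => ?_
    rw [map_mul, map_sum, hcm.2.2.2 τ (x i) (y i) rfl]
    simp only [map_mul]
  let v : Fin (k + 1 + 1) → ℂ := Fin.cons 0 fun i => τ (x i)
  have hv : v ≠ 0 := by
    intro h
    apply hx0
    ext i
    have := congrFun h i.succ
    simp only [v, Fin.cons_succ, Pi.zero_apply] at this
    have h5 : x i = 0 := (map_eq_zero τ).1 this
    rw [h5]; rfl
  have hval : star v ⬝ᵥ (dsum (τ (q 0)) (HD.map τ) *ᵥ v) = 0 := by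
    rw [dsum_mulVec_cons]
    rw [dotProduct, Fin.sum_univ_succ]
    simp only [Pi.star_apply, v, Fin.cons_zero, Fin.cons_succ, mul_zero, zero_add]
    rw [← h3]
    rfl
  rcases hn.definite 0 τ with h | h | h | h
  · exact Or.inl h
  · exact Or.inr h
  · have := h.dotProduct_mulVec_pos hv
    rw [hval] at this
    exact absurd this (lt_irrefl _)
  · have := h.dotProduct_mulVec_pos hv
    rw [neg_mulVec, dotProduct_neg, hval, neg_zero] at this
    exact absurd this (lt_irrefl _)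

/-- The assembly of the arithmetic structure of the hybrid from the structures of the pieces. -/
theorem build {k : ℕ} (hk : 1 ≤ k) (Γ₃ : Subgroup (SUGroup k))
    (Γ : Fin 2 → Subgroup (SUGroup (k + 1))) (g : Fin 2 → SUGroup (k + 2))
    (h₃ : IsLattice Γ₃) (hL : ∀ b, IsLattice (Γ b)) (hA : ∀ b, IsArithmetic (k + 1) (Γ b))
    (hsub : ∀ b, ∀ γ ∈ Γ₃, extend k γ ∈ Γ b)
    (hlat : IsLattice (hybrid Γ g)) (htr : traceField (Γ 0) = traceField (Γ 1))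
    (hint : ∀ γ ∈ hybrid Γ g, IsIntegral ℤ γ.toMatrix.trace)
    (X : Matrix (Fin 2) (Fin 2) ℂ) (ζ : ℂ) (hζ : star ζ * ζ = 1) (hX : Xᴴ * X = 1)
    (hg : (g 1).toMatrix = (g 0).toMatrix * (ζ • bsum X 1))
    (hcase : ∀ (D : Matrix (Fin (k + 1)) (Fin (k + 1)) ℂ)
      (HD : Matrix (Fin (k + 1)) (Fin (k + 1)) (traceField (Γ 0))) (μ : Fin 2 → ℂ)
      (q : Fin 2 → traceField (Γ 0)), IsCM (traceField (Γ 0)) →
      IsNF k (traceField (Γ 0)) D HD μ q →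
      (∀ γ ∈ Γ₃, EntriesIn (traceField (Γ 0)) D γ.toMatrix) →
      (∀ b, ∀ γ ∈ Γ b, EntriesIn (traceField (Γ 0)) (dsum (μ b) D) γ.toMatrix) →
      (∀ x : Fin (k + 1) → traceField (Γ 0),
        hm k (D *ᵥ fun i => (x i : ℂ)) (D *ᵥ fun i => (x i : ℂ)) = 0 →
        ∀ b, ∃ N : ℕ, 0 < N ∧ ∀ β ∈ integers (traceField (Γ 0)), ∃ γ ∈ Γ b, γ.toMatrix =
          T (k + 1) (Fin.cons 0 (D *ᵥ fun i => (x i : ℂ))) (Fin.cons ((N : ℂ) * β * μ b) 0)) →
      star (μ 0) * μ 1 * X 1 1 ∈ traceField (Γ 0) ∧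
      ∃ Hg : Matrix (Fin (k + 3)) (Fin (k + 3)) (traceField (Γ 0)),
        (gB μ X D)ᴴ * J (k + 2) * gB μ X D = Hg.map (fun x : traceField (Γ 0) => (x : ℂ)) ∧
        ∀ τ : traceField (Γ 0) →+* ℂ, (∀ x : traceField (Γ 0), τ x = x) ∨
          (∀ x : traceField (Γ 0), τ x = (starRingEnd ℂ) (x : ℂ)) ∨
          (Hg.map τ).PosDef ∨ (-(Hg.map τ)).PosDef) :
    IsArithmetic (k + 2) (hybrid Γ g) := by
  -- the two fields are equal
  have hdata : ∃ (K : Subfield ℂ) (H : Fin 2 → Matrix (Fin (k + 1 + 1)) (Fin (k + 1 + 1)) K)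
      (B : Fin 2 → Matrix (Fin (k + 1 + 1)) (Fin (k + 1 + 1)) ℂ), K = traceField (Γ 0) ∧
      ∀ b, IsForm (k + 1) K (H b) (B b) ∧ (∀ γ ∈ Γ b, EntriesIn K (B b) γ.toMatrix) ∧
        Subgroup.Commensurable (Γ b) (integralPoints (k + 1) K (B b)) := by
    obtain ⟨K₀, H₀, B₀, hf₀, hr₀, hc₀⟩ := hA 0
    obtain ⟨K₁, H₁, B₁, hf₁, hr₁, hc₁⟩ := hA 1
    have e₀ := traceField_eq (by omega : 2 ≤ k + 1) (Γ 0) (hL 0) K₀ H₀ B₀ hf₀ hr₀
    have e₁ := traceField_eq (by omega : 2 ≤ k + 1) (Γ 1) (hL 1) K₁ H₁ B₁ hf₁ hr₁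
    have e : K₁ = K₀ := by rw [← e₀, ← e₁, htr]
    subst e
    refine ⟨K₁, fun b => if b = 0 then H₀ else H₁, fun b => if b = 0 then B₀ else B₁,
      e₀.symm, ?_⟩
    intro b
    fin_cases b
    · exact ⟨hf₀, hr₀, hc₀⟩
    · exact ⟨hf₁, hr₁, hc₁⟩
  obtain ⟨K, H, B, hK, hB⟩ := hdata
  subst hK
  have hcm : IsCM (traceField (Γ 0)) := (hB 0).1.cm
  obtain ⟨D, HD, μ, q, hn, h3D, hQ⟩ := exists_normal_form hk Γ₃ h₃ _ H B (fun b => (hB b).1)
    (fun b γ hγ => (hB b).2.1 _ (hsub b γ hγ))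
  have h01 := X01_ne Γ g hlat X ζ hζ hX hg
  have hrat : ∀ b, ∀ γ ∈ Γ b, EntriesIn (traceField (Γ 0)) (dsum (μ b) D) γ.toMatrix := by
    intro b γ hγ
    obtain ⟨σ, Q, hσ, hQd, hQe⟩ := hQ b
    exact EntriesIn.change (hB b).1.det hσ hQd hQe ((hB b).2.1 γ hγ)
  obtain ⟨hzK, Hg, hHg, hdef⟩ := hcase D HD μ q hcm hn h3D hrat (by
    intro x hx b
    obtain ⟨σ, Q, hσ, hQd, hQe⟩ := hQ b
    exact exists_T_mem hcm hn.det hn.form (μ b) (q b) (hn.μ_ne b) (hn.q_eq b) x hx (B b)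
      (hB b).1.det σ hσ Q hQd hQe (Γ b) (hB b).2.2)
  have hform : IsForm (k + 2) (traceField (Γ 0)) Hg (gB μ X D) :=
    { cm := hcm
      det := gB_det μ X D hn.det hn.μ_ne h01
      form := hHg
      definite := hdef }
  have hforms : IsForm (k + 2) (traceField (Γ 0)) Hg ((g 0).toMatrix * gB μ X D) :=
    hform.conj (g 0)
  have hent : ∀ γ ∈ hybrid Γ g,
      EntriesIn (traceField (Γ 0)) ((g 0).toMatrix * gB μ X D) γ.toMatrix := by
    refine EntriesIn.gB_mem Γ g _ ?_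
    intro b γ hγ
    have hA' := hrat b γ hγ
    fin_cases b
    · have := glue_entries_zero hn X h01 hzK γ.toMatrix hA'
      rw [← entriesIn_conj (g 0)] at this
      exact this
    · have := glue_entries_one hcm hn X hX h01 hzK γ.toMatrix hA'
      rw [← entriesIn_conj (g 0)] at this
      have e : (g 0).toMatrix * (bsum X 1 * dsum 1 γ.toMatrix * bsum Xᴴ 1) * ((g 0)⁻¹).toMatrix =
          (g 1 * extend (k + 1) γ * (g 1)⁻¹).toMatrix := by
        rw [toMatrix_mul, toMatrix_mul, toMatrix_gen_one hζ hX hg, hg, extend_toMatrix]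
        simp only [Matrix.mul_assoc, Matrix.mul_smul, Matrix.smul_mul, smul_smul]
        rw [hζ, one_smul]
      rw [e] at this
      exact this
  have hspan := span_top (by omega : 1 ≤ k + 2) (hybrid Γ g) hlat
  obtain ⟨N, hN, hden⟩ := exists_bounded_denom hcm.1 _ hforms.det (hybrid Γ g) hspan hent hint
  refine ⟨traceField (Γ 0), Hg, (g 0).toMatrix * gB μ X D, hforms, hent, ?_, ?_⟩
  · obtain ⟨U, hU, h1U, hsep⟩ := exists_nhd hforms N hN
    refine relIndex_ne_zero_of_isLattice (hybrid Γ g) _ hlat U hU h1U ?_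
    intro a ha c hc b hb hmem
    refine hsep _ hmem ?_
    intro i j
    rw [toMatrix_mul, toMatrix_mul, inv_mul_conj_mul, inv_mul_conj_mul]
    have hsum : (N : ℂ) * ((((g 0).toMatrix * gB μ X D)⁻¹ * a.toMatrix * ((g 0).toMatrix * gB μ X D)) *
        (((g 0).toMatrix * gB μ X D)⁻¹ * c.toMatrix * ((g 0).toMatrix * gB μ X D)) *
        (((g 0).toMatrix * gB μ X D)⁻¹ * b.toMatrix * ((g 0).toMatrix * gB μ X D))) i j =
        ∑ l, (∑ p, (((g 0).toMatrix * gB μ X D)⁻¹ * a.toMatrix * ((g 0).toMatrix * gB μ X D)) i p *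
          ((N : ℂ) * (((g 0).toMatrix * gB μ X D)⁻¹ * c.toMatrix *
            ((g 0).toMatrix * gB μ X D)) p l)) *
          (((g 0).toMatrix * gB μ X D)⁻¹ * b.toMatrix * ((g 0).toMatrix * gB μ X D)) l j := by
      rw [Matrix.mul_apply, Finset.mul_sum]
      refine Finset.sum_congr rfl fun l _ => ?_
      rw [Matrix.mul_apply, Finset.sum_mul, Finset.sum_mul, Finset.mul_sum]
      refine Finset.sum_congr rfl fun p _ => ?_
      ring
    rw [hsum]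
    refine Subring.sum_mem _ fun l _ => Subring.mul_mem _ (Subring.sum_mem _ fun p _ => ?_)
      (hb.1 l j)
    exact Subring.mul_mem _ (ha.1 i p) (hden c hc p l)
  · exact relIndex_ne_zero_of_denom hcm.1 _ hforms.det (hybrid Γ g) N hN hden

theorem main_mpr {k : ℕ} (hk : 1 ≤ k) (Γ₃ : Subgroup (SUGroup k))
    (Γ : Fin 2 → Subgroup (SUGroup (k + 1))) (g : Fin 2 → SUGroup (k + 2))
    (h₃ : IsLattice Γ₃) (hL : ∀ b, IsLattice (Γ b)) (hA : ∀ b, IsArithmetic (k + 1) (Γ b))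
    (hsub : ∀ b, ∀ γ ∈ Γ₃, extend k γ ∈ Γ b)
    (hagree : ∀ γ ∈ Γ₃, g 0 * extend (k + 1) (extend k γ) * (g 0)⁻¹ =
      g 1 * extend (k + 1) (extend k γ) * (g 1)⁻¹)
    (hcase : Orthogonal g ∨ ∃ γ ∈ Γ₃, γ ≠ 1 ∧ IsNilpotent (γ.toMatrix - 1))
    (hlat : IsLattice (hybrid Γ g)) (htr : traceField (Γ 0) = traceField (Γ 1))
    (hint : ∀ γ ∈ hybrid Γ g, IsIntegral ℤ γ.toMatrix.trace) :
    IsArithmetic (k + 2) (hybrid Γ g) := by
  obtain ⟨X, ζ, hζ, hX, hg⟩ := frame hk Γ₃ h₃ g hagree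
  have hζ0 : ζ ≠ 0 := by
    rintro rfl
    simp at hζ
  have horth : Orthogonal g → X 1 1 = 0 := by
    intro ho
    apply (unitary_two hX).2
    have h1 : (g 0).toMatrixᴴ * J (k + 2) * (g 1).toMatrix = ζ • bsum X (J k) := by
      rw [hg]
      calc (g 0).toMatrixᴴ * J (k + 2) * ((g 0).toMatrix * ζ • bsum X 1)
          = ((g 0).toMatrixᴴ * J (k + 2) * (g 0).toMatrix) * (ζ • bsum X 1) := by
            simp only [Matrix.mul_assoc]
        _ = J (k + 2) * (ζ • bsum X 1) := by rw [pres]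
        _ = _ := by rw [J_succ_succ, Matrix.mul_smul, bsum_mul, Matrix.one_mul, Matrix.mul_one]
    have h2 : (ζ • bsum X (J k)) 0 0 = 0 := by
      rw [← h1]
      exact ho
    rw [Matrix.smul_apply, bsum_00, smul_eq_mul] at h2
    exact (mul_eq_zero.1 h2).resolve_left hζ0
  refine build hk Γ₃ Γ g h₃ hL hA hsub hlat htr hint X ζ hζ hX hg ?_
  intro D HD μ q hcm hn h3D hrat hT
  have hz : star (μ 0) * μ 1 * X 1 1 ∈ traceField (Γ 0) ∧
      (X 1 1 = 0 ∨ ∀ τ : traceField (Γ 0) →+* ℂ, (∀ x : traceField (Γ 0), τ x = x) ∨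
      (∀ x : traceField (Γ 0), τ x = (starRingEnd ℂ) (x : ℂ))) := by
    rcases hcase with ho | hu
    · have h11 := horth ho
      refine ⟨?_, Or.inl h11⟩
      rw [h11, mul_zero]
      exact (traceField (Γ 0)).zero_mem
    · obtain ⟨x, hx0, hx⟩ := exists_null hn.det Γ₃ h3D hu
      refine ⟨?_, Or.inr (tau_of_null hcm hn x hx0 hx)⟩
      choose N hN hT using hT x hx
      exact angle_mem hcm hn x hx0 hx Γ N hN hT g X ζ hζ hg (hybrid Γ g) hlat.1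
        (fun b γ hγ => Subgroup.subset_closure ⟨b, γ, hγ, rfl⟩)
  obtain ⟨hzK, hzτ⟩ := hz
  obtain ⟨Hg, hHg, hdef⟩ := glue_form hcm hn X hX hzK
  refine ⟨hzK, Hg, hHg, ?_⟩
  intro τ
  rcases hzτ with h | h
  · exact hdef h τ
  · rcases h τ with h | h
    · exact Or.inl h
    · exact Or.inr (Or.inl h)

end Pool.Agent.Lib.MP_5d4057_al.Hyb
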