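import Pool.Agent.Lib.MP_5d4057_al.Hyb.ArithB
import Pool.Agent.Lib.MP_5d4057_al.Hyb.Final
import Pool.Agent.Lib.MP_5d4057_al.Hyb.Norm

/-! A hybrid which is an arithmetic lattice is contained in `SU(H, K)`. -/

set_option autoImplicit false

namespace Pool.Agent.Lib.MP_5d4057_al.Hyb

open Matrix Pool.Agent.Lib.MP_5d4057_al ComplexOrder

variable {m : ℕ} {K : Subfield ℂ}

/-- Conjugation by `g` as an automorphism of the algebra of matrices. -/
noncomputable def cjAlg (K : Subfield ℂ) (g : SUGroup m) : Matrix (Fin (m + 1)) (Fin (m + 1)) ℂ ≃ₐ[K]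
    Matrix (Fin (m + 1)) (Fin (m + 1)) ℂ :=
  { toFun := fun a => g.toMatrix * a * g⁻¹.toMatrix
    invFun := fun a => g⁻¹.toMatrix * a * g.toMatrix
    left_inv := fun a => by
      show g⁻¹.toMatrix * (g.toMatrix * a * g⁻¹.toMatrix) * g.toMatrix = a
      calc g⁻¹.toMatrix * (g.toMatrix * a * g⁻¹.toMatrix) * g.toMatrix
          = (g⁻¹.toMatrix * g.toMatrix) * a * (g⁻¹.toMatrix * g.toMatrix) := by
            simp only [Matrix.mul_assoc]
        _ = a := by rw [toMatrix_inv_mul, Matrix.one_mul, Matrix.mul_one]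
    right_inv := fun a => by
      show g.toMatrix * (g⁻¹.toMatrix * a * g.toMatrix) * g⁻¹.toMatrix = a
      calc g.toMatrix * (g⁻¹.toMatrix * a * g.toMatrix) * g⁻¹.toMatrix
          = (g.toMatrix * g⁻¹.toMatrix) * a * (g.toMatrix * g⁻¹.toMatrix) := by
            simp only [Matrix.mul_assoc]
        _ = a := by rw [toMatrix_mul_inv, Matrix.one_mul, Matrix.mul_one]
    map_mul' := fun a b => by
      show g.toMatrix * (a * b) * g⁻¹.toMatrix =
        (g.toMatrix * a * g⁻¹.toMatrix) * (g.toMatrix * b * g⁻¹.toMatrix)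
      calc g.toMatrix * (a * b) * g⁻¹.toMatrix
          = g.toMatrix * a * 1 * b * g⁻¹.toMatrix := by
            rw [Matrix.mul_one]
            simp only [Matrix.mul_assoc]
        _ = _ := by
            rw [← toMatrix_inv_mul g]
            simp only [Matrix.mul_assoc]
    map_add' := fun a b => by
      show g.toMatrix * (a + b) * g⁻¹.toMatrix =
        g.toMatrix * a * g⁻¹.toMatrix + g.toMatrix * b * g⁻¹.toMatrix
      rw [Matrix.mul_add, Matrix.add_mul]
    commutes' := fun r => by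
      show g.toMatrix * (algebraMap K _ r) * g⁻¹.toMatrix = algebraMap K _ r
      rw [Algebra.algebraMap_eq_smul_one, Matrix.mul_smul, Matrix.smul_mul, Matrix.mul_one,
        toMatrix_mul_inv] }

theorem cjAlg_apply (g : SUGroup m) (a : Matrix (Fin (m + 1)) (Fin (m + 1)) ℂ) :
    cjAlg K g a = g.toMatrix * a * g⁻¹.toMatrix := rfl

/-- The conjugate algebra. -/
noncomputable def conjAlg (A : Subalgebra K (Matrix (Fin (m + 1)) (Fin (m + 1)) ℂ)) (g : SUGroup m) :
    Subalgebra K (Matrix (Fin (m + 1)) (Fin (m + 1)) ℂ) :=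
  A.map (cjAlg K g).symm.toAlgHom

theorem mem_conjAlg {A : Subalgebra K (Matrix (Fin (m + 1)) (Fin (m + 1)) ℂ)} {g : SUGroup m}
    {a : Matrix (Fin (m + 1)) (Fin (m + 1)) ℂ} :
    a ∈ conjAlg A g ↔ g.toMatrix * a * g⁻¹.toMatrix ∈ A := by
  rw [conjAlg, Subalgebra.mem_map]
  constructor
  · rintro ⟨x, hx, rfl⟩
    have h1 : cjAlg K g ((cjAlg K g).symm x) ∈ A := by
      rw [AlgEquiv.apply_symm_apply]
      exact hx
    exact h1
  · intro h
    exact ⟨_, h, (cjAlg K g).symm_apply_apply a⟩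

theorem finrank_conjAlg (A : Subalgebra K (Matrix (Fin (m + 1)) (Fin (m + 1)) ℂ))
    (g : SUGroup m) : Module.finrank K (conjAlg A g) = Module.finrank K A :=
  (LinearEquiv.finrank_eq (A.equivMapOfInjective (cjAlg K g).symm.toAlgHom
    (cjAlg K g).symm.injective).toLinearEquiv).symm

theorem span_conjAlg {A : Subalgebra K (Matrix (Fin (m + 1)) (Fin (m + 1)) ℂ)}
    (hA : Submodule.span ℂ (A : Set (Matrix (Fin (m + 1)) (Fin (m + 1)) ℂ)) = ⊤) (g : SUGroup m) :
    Submodule.span ℂ (conjAlg A g : Set (Matrix (Fin (m + 1)) (Fin (m + 1)) ℂ)) = ⊤ := by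
  rw [eq_top_iff]
  intro x _
  have h1 : ∀ y ∈ Submodule.span ℂ (A : Set (Matrix (Fin (m + 1)) (Fin (m + 1)) ℂ)),
      g⁻¹.toMatrix * y * g.toMatrix ∈
        Submodule.span ℂ (conjAlg A g : Set (Matrix (Fin (m + 1)) (Fin (m + 1)) ℂ)) := by
    intro y hy
    induction hy using Submodule.span_induction with
    | mem y hy =>
      refine Submodule.subset_span ?_
      rw [SetLike.mem_coe, mem_conjAlg]
      have : g.toMatrix * (g⁻¹.toMatrix * y * g.toMatrix) * g⁻¹.toMatrix = y :=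
        (cjAlg K g).apply_symm_apply y
      rw [this]
      exact hy
    | zero => rw [Matrix.mul_zero, Matrix.zero_mul]; exact Submodule.zero_mem _
    | add a b _ _ ha hb =>
      rw [Matrix.mul_add, Matrix.add_mul]
      exact Submodule.add_mem _ ha hb
    | smul t a _ ha =>
      rw [Matrix.mul_smul, Matrix.smul_mul]
      exact Submodule.smul_mem _ _ ha
  have h2 := h1 (g.toMatrix * x * g⁻¹.toMatrix) (by rw [hA]; trivial)
  have h3 : g⁻¹.toMatrix * (g.toMatrix * x * g⁻¹.toMatrix) * g.toMatrix = x :=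
    (cjAlg K g).symm_apply_apply x
  rwa [h3] at h2

theorem adjoint_conj (g : SUGroup m) (a : Matrix (Fin (m + 1)) (Fin (m + 1)) ℂ) :
    adjoint m (g.toMatrix * a * g⁻¹.toMatrix) = g.toMatrix * adjoint m a * g⁻¹.toMatrix := by
  have h1 : ∀ x : SUGroup m, J m * x.toMatrixᴴ = x⁻¹.toMatrix * J m := by
    intro x
    have h2 := pres x
    have h3 : x.toMatrixᴴ * J m = J m * x⁻¹.toMatrix := by
      calc x.toMatrixᴴ * J m = x.toMatrixᴴ * J m * (x.toMatrix * x⁻¹.toMatrix) := by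
            rw [toMatrix_mul_inv, Matrix.mul_one]
        _ = (x.toMatrixᴴ * J m * x.toMatrix) * x⁻¹.toMatrix := by simp only [Matrix.mul_assoc]
        _ = _ := by rw [h2]
    calc J m * x.toMatrixᴴ = J m * (x.toMatrixᴴ * J m) * J m := by
          rw [Matrix.mul_assoc, Matrix.mul_assoc, J_mul_J, Matrix.mul_one]
      _ = _ := by
          rw [h3]
          calc J m * (J m * x⁻¹.toMatrix) * J m = (J m * J m) * x⁻¹.toMatrix * J m := by
                simp only [Matrix.mul_assoc]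
            _ = _ := by rw [J_mul_J, Matrix.one_mul]
  rw [adjoint, adjoint, conjTranspose_mul, conjTranspose_mul]
  have h2 := h1 g⁻¹
  have h3 := h1 g
  rw [inv_inv] at h2
  calc J m * (g⁻¹.toMatrixᴴ * (aᴴ * g.toMatrixᴴ)) * J m
      = (J m * g⁻¹.toMatrixᴴ) * aᴴ * (g.toMatrixᴴ * J m) := by simp only [Matrix.mul_assoc]
    _ = g.toMatrix * J m * aᴴ * (J m * (J m * g.toMatrixᴴ) * J m) := by
        rw [h2]
        congr 1
        calc g.toMatrixᴴ * J m = (J m * J m) * g.toMatrixᴴ * J m := by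
              rw [J_mul_J, Matrix.one_mul]
          _ = _ := by simp only [Matrix.mul_assoc]
    _ = _ := by
        rw [h3]
        calc g.toMatrix * J m * aᴴ * (J m * (g⁻¹.toMatrix * J m) * J m)
            = g.toMatrix * J m * aᴴ * J m * g⁻¹.toMatrix * (J m * J m) := by
              simp only [Matrix.mul_assoc]
          _ = _ := by
              rw [J_mul_J, Matrix.mul_one]
              simp only [Matrix.mul_assoc]

theorem IsUnitaryForm.conj {A : Subalgebra K (Matrix (Fin (m + 1)) (Fin (m + 1)) ℂ)}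
    (h : IsUnitaryForm m K A) (g : SUGroup m) : IsUnitaryForm m K (conjAlg A g) where
  cm := h.cm
  rank := by rw [finrank_conjAlg, h.rank]
  span := span_conjAlg h.span g
  adj a ha := by
    rw [mem_conjAlg] at ha ⊢
    rw [← adjoint_conj]
    exact h.adj _ ha
  pos τ := by
    rcases h.pos τ with h1 | h1 | h1
    · exact Or.inl h1
    · exact Or.inr (Or.inl h1)
    · refine Or.inr (Or.inr fun a ha x hx => ?_)
      rw [mem_conjAlg] at ha
      refine h1 _ ha x ?_
      rw [hx, adjoint_conj]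
      have e1 : g.toMatrix * adjoint m a * g⁻¹.toMatrix * (g.toMatrix * a * g⁻¹.toMatrix) =
          g.toMatrix * (adjoint m a * a) * g⁻¹.toMatrix := by
        calc g.toMatrix * adjoint m a * g⁻¹.toMatrix * (g.toMatrix * a * g⁻¹.toMatrix)
            = g.toMatrix * adjoint m a * (g⁻¹.toMatrix * g.toMatrix) * a * g⁻¹.toMatrix := by
              simp only [Matrix.mul_assoc]
          _ = _ := by
              rw [toMatrix_inv_mul, Matrix.mul_one]
              simp only [Matrix.mul_assoc]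
      have e2 : (g.toMatrix * (adjoint m a * a) * g⁻¹.toMatrix).trace =
          (adjoint m a * a).trace := by
        rw [Matrix.trace_mul_comm, ← Matrix.mul_assoc, toMatrix_inv_mul, Matrix.one_mul]
      rw [e1, e2]

/-- The elements of `Γ` are rational up to a scalar. -/
theorem exists_scalar (hm : 1 ≤ m) {Γ : Subgroup (SUGroup m)} (hΓ : IsLattice Γ)
    {B : Matrix (Fin (m + 1)) (Fin (m + 1)) ℂ}
    (hB : B.det ≠ 0) (hc : Subgroup.Commensurable Γ (integralPoints m K B))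
    {γ : SUGroup m} (hγ : γ ∈ Γ) :
    ∃ l : ℂ, l ≠ 0 ∧ EntriesIn K B (l⁻¹ • γ.toMatrix) := by
  obtain ⟨Γ', hΓ'⟩ : ∃ Γ', Γ' = Γ ⊓ integralPoints m K B := ⟨_, rfl⟩
  have hfin : Γ'.relIndex Γ ≠ 0 := by
    rw [hΓ', Subgroup.inf_relIndex_left]
    exact hc.2
  have hΓ'K : ∀ x ∈ Γ', EntriesIn K B x.toMatrix := by
    intro x hx
    rw [hΓ'] at hx
    exact fun i j => (hx.2.1 i j).1
  obtain ⟨φ, hφ⟩ : ∃ φ : SUGroup m →* SUGroup m, φ = (MulAut.conj γ).toMonoidHom := ⟨_, rfl⟩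
  have hφi : Function.Injective φ := by rw [hφ]; exact (MulAut.conj γ).injective
  have hmap : Γ.map φ = Γ := by
    ext x
    rw [Subgroup.mem_map]
    constructor
    · rintro ⟨y, hy, rfl⟩
      rw [hφ]
      exact Γ.mul_mem (Γ.mul_mem hγ hy) (Γ.inv_mem hγ)
    · intro hx
      refine ⟨γ⁻¹ * x * γ, Γ.mul_mem (Γ.mul_mem (Γ.inv_mem hγ) hx) hγ, ?_⟩
      rw [hφ]
      show γ * (γ⁻¹ * x * γ) * γ⁻¹ = x
      group
  have hfin2 : (Γ'.map φ).relIndex Γ ≠ 0 := by
    have h1 := Subgroup.relIndex_map_map_of_injective Γ' Γ hφi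
    rw [hmap] at h1
    rw [h1]
    exact hfin
  obtain ⟨Δ, hΔ⟩ : ∃ Δ, Δ = Γ' ⊓ Γ'.map φ := ⟨_, rfl⟩
  have hΔfin : Δ.relIndex Γ ≠ 0 := by rw [hΔ]; exact Subgroup.relIndex_inf_ne_zero hfin hfin2
  have hspan := span_top_fin hm Γ Δ hΓ hΔfin
  have hgd : (γ.toMatrix * B).det ≠ 0 := by
    rw [det_mul, det_toMatrix, one_mul]
    exact hB
  obtain ⟨ν, Y, hν, hY, hYB⟩ := exists_similar (K := K)
    (SUGroup.toMatrix '' (Δ : Set (SUGroup m))) hspan B (γ.toMatrix * B) hB hgd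
    (by
      rintro _ ⟨x, hx, rfl⟩
      rw [SetLike.mem_coe, hΔ] at hx
      exact hΓ'K x hx.1)
    (by
      rintro _ ⟨x, hx, rfl⟩
      rw [SetLike.mem_coe, hΔ] at hx
      obtain ⟨y, hy, hyx⟩ := hx.2
      have h1 : x.toMatrix = γ.toMatrix * y.toMatrix * (γ⁻¹).toMatrix := by
        rw [← hyx, hφ]
        rfl
      rw [h1]
      exact (entriesIn_conj γ B y.toMatrix).2 (hΓ'K y hy))
  have hBu := isUnit_iff_ne_zero.2 hB
  have hYm : (Y.map (fun x : K => (x : ℂ))).det ≠ 0 := by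
    have h1 : (Y.map (fun x : K => (x : ℂ))).det = ((Y.det : K) : ℂ) :=
      (RingHom.map_det K.subtype Y).symm
    rw [h1]
    exact fun h => hY (Subtype.ext h)
  have hYu := isUnit_iff_ne_zero.2 hYm
  have hYinv : (Y.map (fun x : K => (x : ℂ)))⁻¹ = (Y⁻¹).map (fun x : K => (x : ℂ)) := by
    apply inv_eq_right_inv
    rw [← map_coe_mul', Matrix.mul_nonsing_inv _ (isUnit_iff_ne_zero.2 hY)]
    exact Matrix.map_one _ rfl rfl
  have h1 : B⁻¹ * γ.toMatrix * B = ν • (Y⁻¹).map (fun x : K => (x : ℂ)) := by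
    rw [← hYinv]
    calc B⁻¹ * γ.toMatrix * B = B⁻¹ * (γ.toMatrix * B * Y.map (fun x : K => (x : ℂ))) *
          (Y.map (fun x : K => (x : ℂ)))⁻¹ := by
          simp only [Matrix.mul_assoc]
          rw [Matrix.mul_nonsing_inv _ hYu, Matrix.mul_one]
      _ = _ := by
          rw [hYB, Matrix.mul_smul, Matrix.nonsing_inv_mul _ hBu, Matrix.smul_mul, Matrix.one_mul]
  have h2 : B⁻¹ * (ν⁻¹ • γ.toMatrix) * B = (Y⁻¹).map (fun x : K => (x : ℂ)) := by
    rw [Matrix.mul_smul, Matrix.smul_mul, h1, smul_smul, inv_mul_cancel₀ hν, one_smul]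
  refine ⟨ν, hν, fun i j => ?_⟩
  rw [h2]
  exact (Y⁻¹ i j).2

theorem trace_mem_of_entriesIn {N : ℕ} {B a : Matrix (Fin N) (Fin N) ℂ} (hB : B.det ≠ 0)
    (ha : EntriesIn K B a) : a.trace ∈ K := by
  have h1 : (B⁻¹ * a * B).trace = a.trace := by
    rw [Matrix.trace_mul_comm, ← Matrix.mul_assoc,
      Matrix.mul_nonsing_inv _ (isUnit_iff_ne_zero.2 hB), Matrix.one_mul]
  rw [← h1, Matrix.trace]
  exact K.sum_mem fun i _ => ha i i

theorem smul_entriesIn {N : ℕ} {B a : Matrix (Fin N) (Fin N) ℂ} {r : ℂ} (hr : r ∈ K)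
    (ha : EntriesIn K B a) : EntriesIn K B (r • a) := by
  intro i j
  rw [Matrix.mul_smul, Matrix.smul_mul, Matrix.smul_apply, smul_eq_mul]
  exact K.mul_mem hr (ha i j)

/-- A hybrid which is an arithmetic lattice (in the general sense) is contained in `SU(H, K)` and
commensurable with `SU(H, O_K)`. -/
theorem isArithmetic_of_isArith {k : ℕ} (Γ : Fin 2 → Subgroup (SUGroup (k + 1)))
    (g : Fin 2 → SUGroup (k + 2)) (hL : ∀ b, IsLattice (Γ b)) (hlat : IsLattice (hybrid Γ g))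
    (hG : IsArith (k + 2) (hybrid Γ g)) : IsArithmetic (k + 2) (hybrid Γ g) := by
  obtain ⟨K, A, O, hU, hO, hc⟩ := hG
  obtain ⟨Λ, hΛ⟩ : ∃ Λ, Λ = unitPoints (k + 2) O := ⟨_, rfl⟩
  obtain ⟨φ, hφ⟩ : ∃ φ : Fin 2 → SUGroup (k + 1) →* SUGroup (k + 2),
    φ = fun b => (MulAut.conj (g b)).toMonoidHom.comp (extend (k + 1)) := ⟨_, rfl⟩
  have hφa : ∀ b γ, φ b γ = g b * extend (k + 1) γ * (g b)⁻¹ := by
    intro b γ
    rw [hφ]
    rfl
  have hfin : ∀ b, (Γ b ⊓ Λ.comap (φ b)).relIndex (Γ b) ≠ 0 := by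
    intro b
    rw [Subgroup.inf_relIndex_left, Subgroup.relIndex_comap]
    intro h
    have hc2 := hc.2
    rw [← hΛ] at hc2
    refine hc2 (Subgroup.relIndex_eq_zero_of_le_right ?_ h)
    rintro _ ⟨γ, hγ, rfl⟩
    rw [hφa]
    exact Subgroup.subset_closure ⟨b, γ, hγ, rfl⟩
  -- the idempotents
  have hid : ∀ b, ∃ c : ℂ, c ≠ 0 ∧ c • (Matrix.single 0 0 1 :
      Matrix (Fin (k + 1 + 1 + 1)) (Fin (k + 1 + 1 + 1)) ℂ) ∈ conjAlg A (g b) := by
    intro b
    have hspan := span_top_fin (by omega : 1 ≤ k + 1) (Γ b) _ (hL b) (hfin b)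
    refine idem_mem (by omega : 1 ≤ k + 1) (by rw [finrank_conjAlg, hU.rank])
      (span_conjAlg hU.span (g b)) hspan ?_
    rintro _ ⟨γ, hγ, rfl⟩
    have h1 : φ b γ ∈ Λ := hγ.2
    rw [hΛ, hφa] at h1
    rw [mem_conjAlg]
    exact hO.sub _ h1.1
  choose c hc0 hce using hid
  obtain ⟨B₀, hB₀, hAB₀, hw⟩ := exists_KBasis (conjAlg A (g 0)) (by rw [finrank_conjAlg, hU.rank])
    (span_conjAlg hU.span (g 0)) (hc0 0) (hce 0)
  obtain ⟨H, hH⟩ := form_of_KBasis (by omega) (hU.conj (g 0)) hB₀ hAB₀ hw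
  obtain ⟨B, hBd⟩ : ∃ B, B = (g 0).toMatrix * B₀ := ⟨_, rfl⟩
  have hf : IsForm (k + 2) K H B := by
    refine ⟨hH.cm, ?_, ?_, hH.definite⟩
    · rw [hBd, det_mul, det_toMatrix, one_mul]
      exact hB₀
    · rw [hBd, conjTranspose_mul, ← hH.form]
      calc B₀ᴴ * (g 0).toMatrixᴴ * J (k + 2) * ((g 0).toMatrix * B₀)
          = B₀ᴴ * ((g 0).toMatrixᴴ * J (k + 2) * (g 0).toMatrix) * B₀ := by
            simp only [Matrix.mul_assoc]
        _ = _ := by rw [pres]
  have hAB : ∀ a ∈ A, EntriesIn K B a := by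
    intro a ha
    have h1 : (g 0)⁻¹.toMatrix * a * (g 0).toMatrix ∈ conjAlg A (g 0) := by
      rw [mem_conjAlg]
      have : (g 0).toMatrix * ((g 0)⁻¹.toMatrix * a * (g 0).toMatrix) * (g 0)⁻¹.toMatrix = a :=
        (cjAlg K (g 0)).apply_symm_apply a
      rw [this]
      exact ha
    have h2 := (entriesIn_conj (g 0) B₀ _).2 (hAB₀ _ h1)
    have h3 : (g 0).toMatrix * ((g 0)⁻¹.toMatrix * a * (g 0).toMatrix) * (g 0)⁻¹.toMatrix = a :=
      (cjAlg K (g 0)).apply_symm_apply a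
    rw [h3, ← hBd] at h2
    exact h2
  have hcomm : Subgroup.Commensurable (hybrid Γ g) (integralPoints (k + 2) K B) :=
    hc.trans (commensurable_matOrder hU.cm.1 hU.rank hO hf.det hAB)
  refine ⟨K, H, B, hf, ?_, hcomm⟩
  refine EntriesIn.gB_mem Γ g B fun b γ hγ => ?_
  -- the idempotent is rational
  obtain ⟨e, he⟩ : ∃ e, e = (g b).toMatrix * (Matrix.single 0 0 1 :
      Matrix (Fin (k + 1 + 1 + 1)) (Fin (k + 1 + 1 + 1)) ℂ) * (g b)⁻¹.toMatrix := ⟨_, rfl⟩
  have htre : e.trace = 1 := by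
    rw [he, Matrix.trace_mul_comm, ← Matrix.mul_assoc, toMatrix_inv_mul, Matrix.one_mul,
      Matrix.trace_single_eq_same]
  have h1 : EntriesIn K B (c b • e) := by
    refine hAB _ ?_
    have h2 := mem_conjAlg.1 (hce b)
    rwa [Matrix.mul_smul, Matrix.smul_mul, ← he] at h2
  have hcK : c b ∈ K := by
    have h2 := trace_mem_of_entriesIn hf.det h1
    rwa [trace_smul, htre, smul_eq_mul, mul_one] at h2
  have heK : EntriesIn K B e := by
    have h2 := smul_entriesIn (K.inv_mem hcK) h1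
    rwa [smul_smul, inv_mul_cancel₀ (hc0 b), one_smul] at h2
  -- the scalar
  have hmem : g b * extend (k + 1) γ * (g b)⁻¹ ∈ hybrid Γ g :=
    Subgroup.subset_closure ⟨b, γ, hγ, rfl⟩
  obtain ⟨s, hs, hsK⟩ := exists_scalar (by omega : 1 ≤ k + 2) hlat hf.det hcomm hmem
  obtain ⟨x, hx⟩ : ∃ x, x = (g b * extend (k + 1) γ * (g b)⁻¹).toMatrix := ⟨_, rfl⟩
  rw [← hx] at hsK ⊢
  have hxe : x * e = e := by
    rw [hx, he, toMatrix_mul, toMatrix_mul, extend_toMatrix]
    have h2 : dsum 1 γ.toMatrix * (Matrix.single 0 0 1 :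
        Matrix (Fin (k + 1 + 1 + 1)) (Fin (k + 1 + 1 + 1)) ℂ) = Matrix.single 0 0 1 := by
      have h3 : (Matrix.single 0 0 1 : Matrix (Fin (k + 1 + 1 + 1)) (Fin (k + 1 + 1 + 1)) ℂ) =
          dsum 1 0 := by
        ext i j
        refine Fin.cases ?_ (fun i => ?_) i <;> refine Fin.cases ?_ (fun j => ?_) j
        · simp
        · rw [dsum_zero_succ, Matrix.single_apply_of_ne _ _ _ _ _
            (fun h => Fin.succ_ne_zero j h.2.symm)]
        · rw [dsum_succ_zero, Matrix.single_apply_of_ne _ _ _ _ _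
            (fun h => Fin.succ_ne_zero i h.1.symm)]
        · rw [dsum_succ_succ, Matrix.single_apply_of_ne _ _ _ _ _
            (fun h => Fin.succ_ne_zero i h.1.symm)]
          rfl
      rw [h3, dsum_mul, one_mul, Matrix.mul_zero]
    calc (g b).toMatrix * dsum 1 γ.toMatrix * (g b)⁻¹.toMatrix *
          ((g b).toMatrix * Matrix.single 0 0 1 * (g b)⁻¹.toMatrix)
        = (g b).toMatrix * dsum 1 γ.toMatrix * ((g b)⁻¹.toMatrix * (g b).toMatrix) *
          Matrix.single 0 0 1 * (g b)⁻¹.toMatrix := by simp only [Matrix.mul_assoc]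
      _ = (g b).toMatrix * (dsum 1 γ.toMatrix * Matrix.single 0 0 1) * (g b)⁻¹.toMatrix := by
          rw [toMatrix_inv_mul, Matrix.mul_one]
          simp only [Matrix.mul_assoc]
      _ = _ := by rw [h2]
  have h2 : EntriesIn K B (s⁻¹ • x * e) := EntriesIn.mul (R := K.toSubring) hsK heK
  rw [Matrix.smul_mul, hxe] at h2
  have h3 := trace_mem_of_entriesIn hf.det h2
  rw [trace_smul, htre, smul_eq_mul, mul_one] at h3
  have h4 : s ∈ K := by
    have := K.inv_mem h3
    rwa [inv_inv] at this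
  have h5 := smul_entriesIn h4 hsK
  rwa [smul_smul, mul_inv_cancel₀ hs, one_smul] at h5

/-- W5. The trace fields of the pieces of an arithmetic hybrid (in the general sense) agree. -/
theorem fields_of_isArith' {k : ℕ} (hk : 1 ≤ k) (Γ : Fin 2 → Subgroup (SUGroup (k + 1)))
    (g : Fin 2 → SUGroup (k + 2)) (hL : ∀ b, IsLattice (Γ b)) (hlat : IsLattice (hybrid Γ g))
    (hG : IsArith (k + 2) (hybrid Γ g)) : traceField (Γ 0) = traceField (Γ 1) :=
  (main_mp hk Γ g hL (isArithmetic_of_isArith Γ g hL hlat hG)).1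

end Pool.Agent.Lib.MP_5d4057_al.Hyb
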