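import Pool.Agent.Lib.MP_5d4057_al.Hyb.Rk

namespace Pool.Agent.Lib.MP_5d4057_al.Hyb

open Matrix Pool.Agent.Lib.MP_5d4057_al

variable {R : Type} {n : ℕ}

theorem dsum_inj [Zero R] {s t : R} {A B : Matrix (Fin n) (Fin n) R} (h : dsum s A = dsum t B) :
    s = t ∧ A = B :=
  ⟨congrFun (congrFun h 0) 0, by
    ext i j
    exact congrFun (congrFun h i.succ) j.succ⟩

theorem dsum_map {S : Type} [Zero R] [Zero S] (t : R) (A : Matrix (Fin n) (Fin n) R) (f : R → S)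
    (hf : f 0 = 0) : (dsum t A).map f = dsum (f t) (A.map f) := by
  ext i j
  refine Fin.cases ?_ (fun i => ?_) i <;> refine Fin.cases ?_ (fun j => ?_) j <;> simp [hf]

theorem trace_dsum [AddCommMonoid R] (t : R) (A : Matrix (Fin n) (Fin n) R) :
    (dsum t A).trace = t + A.trace := by
  simp [Matrix.trace, Fin.sum_univ_succ]

theorem smul_dsum [MulZeroClass R] (c t : R) (A : Matrix (Fin n) (Fin n) R) :
    c • dsum t A = dsum (c * t) (c • A) := by
  ext i j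
  refine Fin.cases ?_ (fun i => ?_) i <;> refine Fin.cases ?_ (fun j => ?_) j <;> simp

theorem dsum_mulVec_cons [NonUnitalNonAssocSemiring R] (t : R) (A : Matrix (Fin n) (Fin n) R)
    (x : R) (v : Fin n → R) : dsum t A *ᵥ Fin.cons x v = Fin.cons (t * x) (A *ᵥ v) := by
  ext i
  refine Fin.cases ?_ (fun i => ?_) i <;> simp [Matrix.mulVec, dotProduct, Fin.sum_univ_succ]

theorem dsum_inv (t : ℂ) (A : Matrix (Fin n) (Fin n) ℂ) (ht : t ≠ 0) (hA : A.det ≠ 0) :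
    (dsum t A)⁻¹ = dsum t⁻¹ A⁻¹ := by
  refine Matrix.inv_eq_right_inv ?_
  rw [dsum_mul, mul_inv_cancel₀ ht, Matrix.mul_nonsing_inv _ (isUnit_iff_ne_zero.2 hA), dsum_one]

/-- The block diagonal matrix `X ⊕ A` with a `2 × 2` block `X` in the upper left corner. -/
def bsum [Zero R] (X : Matrix (Fin 2) (Fin 2) R) (A : Matrix (Fin n) (Fin n) R) :
    Matrix (Fin (n + 2)) (Fin (n + 2)) R :=
  Matrix.of (Fin.cons (Fin.cons (X 0 0) (Fin.cons (X 0 1) 0))
    (Fin.cons (Fin.cons (X 1 0) (Fin.cons (X 1 1) 0)) fun i => Fin.cons 0 (Fin.cons 0 (A i))))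

section bsum

variable [Zero R] (X : Matrix (Fin 2) (Fin 2) R) (A : Matrix (Fin n) (Fin n) R) (i j : Fin n)

@[simp] theorem bsum_00 : bsum X A 0 0 = X 0 0 := rfl
@[simp] theorem bsum_01 : bsum X A 0 (Fin.succ 0) = X 0 1 := rfl
@[simp] theorem bsum_0j : bsum X A 0 j.succ.succ = 0 := rfl
@[simp] theorem bsum_10 : bsum X A (Fin.succ 0) 0 = X 1 0 := rfl
@[simp] theorem bsum_11 : bsum X A (Fin.succ 0) (Fin.succ 0) = X 1 1 := rfl
@[simp] theorem bsum_1j : bsum X A (Fin.succ 0) j.succ.succ = 0 := rfl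
@[simp] theorem bsum_i0 : bsum X A i.succ.succ 0 = 0 := rfl
@[simp] theorem bsum_i1 : bsum X A i.succ.succ (Fin.succ 0) = 0 := rfl
@[simp] theorem bsum_ij : bsum X A i.succ.succ j.succ.succ = A i j := rfl
@[simp] theorem bsum_01' : bsum X A 0 1 = X 0 1 := rfl
@[simp] theorem bsum_10' : bsum X A 1 0 = X 1 0 := rfl
@[simp] theorem bsum_11' : bsum X A 1 1 = X 1 1 := rfl
@[simp] theorem bsum_1j' : bsum X A 1 j.succ.succ = 0 := rfl
@[simp] theorem bsum_i1' : bsum X A i.succ.succ 1 = 0 := rfl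

end bsum

theorem bsum_mul [Semiring R] (X Y : Matrix (Fin 2) (Fin 2) R) (A B : Matrix (Fin n) (Fin n) R) :
    bsum X A * bsum Y B = bsum (X * Y) (A * B) := by
  ext i j
  refine Fin.cases ?_ (fun i => Fin.cases ?_ (fun i => ?_) i) i <;>
    refine Fin.cases ?_ (fun j => Fin.cases ?_ (fun j => ?_) j) j <;>
    simp only [Matrix.mul_apply, Fin.sum_univ_succ, bsum_00, bsum_01, bsum_0j, bsum_10, bsum_11,
      bsum_1j, bsum_i0, bsum_i1, bsum_ij, Fin.sum_univ_zero, mul_zero, zero_mul, add_zero,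
      zero_add, Finset.sum_const_zero] <;> rfl

theorem bsum_one [Zero R] [One R] :
    bsum (1 : Matrix (Fin 2) (Fin 2) R) (1 : Matrix (Fin n) (Fin n) R) = 1 := by
  ext i j
  refine Fin.cases ?_ (fun i => Fin.cases ?_ (fun i => ?_) i) i <;>
    refine Fin.cases ?_ (fun j => Fin.cases ?_ (fun j => ?_) j) j <;>
    simp [Matrix.one_apply, Fin.ext_iff] <;> rfl

theorem bsum_conjTranspose (X : Matrix (Fin 2) (Fin 2) ℂ) (A : Matrix (Fin n) (Fin n) ℂ) :
    (bsum X A)ᴴ = bsum Xᴴ Aᴴ := by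
  ext i j
  refine Fin.cases ?_ (fun i => Fin.cases ?_ (fun i => ?_) i) i <;>
    refine Fin.cases ?_ (fun j => Fin.cases ?_ (fun j => ?_) j) j <;>
    simp only [conjTranspose_apply, bsum_00, bsum_01, bsum_0j, bsum_10, bsum_11,
      bsum_1j, bsum_i0, bsum_i1, bsum_ij, star_zero]

theorem bsum_map {S : Type} [Zero R] [Zero S] (X : Matrix (Fin 2) (Fin 2) R)
    (A : Matrix (Fin n) (Fin n) R) (f : R → S) (hf : f 0 = 0) :
    (bsum X A).map f = bsum (X.map f) (A.map f) := by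
  ext i j
  refine Fin.cases ?_ (fun i => Fin.cases ?_ (fun i => ?_) i) i <;>
    refine Fin.cases ?_ (fun j => Fin.cases ?_ (fun j => ?_) j) j <;>
    simp only [map_apply, bsum_00, bsum_01, bsum_0j, bsum_10, bsum_11,
      bsum_1j, bsum_i0, bsum_i1, bsum_ij, hf]

theorem dsum_dsum [Zero R] (s t : R) (A : Matrix (Fin n) (Fin n) R) :
    dsum s (dsum t A) = bsum !![s, 0; 0, t] A := by
  ext i j
  refine Fin.cases ?_ (fun i => Fin.cases ?_ (fun i => ?_) i) i <;>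
    refine Fin.cases ?_ (fun j => Fin.cases ?_ (fun j => ?_) j) j <;> rfl

theorem smul_bsum [MulZeroClass R] (c : R) (X : Matrix (Fin 2) (Fin 2) R)
    (A : Matrix (Fin n) (Fin n) R) : c • bsum X A = bsum (c • X) (c • A) := by
  ext i j
  refine Fin.cases ?_ (fun i => Fin.cases ?_ (fun i => ?_) i) i <;>
    refine Fin.cases ?_ (fun j => Fin.cases ?_ (fun j => ?_) j) j <;>
    simp only [Matrix.smul_apply, bsum_00, bsum_01, bsum_0j, bsum_10, bsum_11,
      bsum_1j, bsum_i0, bsum_i1, bsum_ij, smul_eq_mul, mul_zero]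

theorem bsum_mulVec_cons [NonUnitalNonAssocSemiring R] (X : Matrix (Fin 2) (Fin 2) R)
    (A : Matrix (Fin n) (Fin n) R) (x y : R) (v : Fin n → R) :
    bsum X A *ᵥ Fin.cons x (Fin.cons y v) =
      Fin.cons (X 0 0 * x + X 0 1 * y) (Fin.cons (X 1 0 * x + X 1 1 * y) (A *ᵥ v)) := by
  ext i
  refine Fin.cases ?_ (fun i => Fin.cases ?_ (fun i => ?_) i) i <;>
    simp [Matrix.mulVec, dotProduct, Fin.sum_univ_succ]

theorem bsum_inj [Zero R] {X Y : Matrix (Fin 2) (Fin 2) R} {A B : Matrix (Fin n) (Fin n) R}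
    (h : bsum X A = bsum Y B) : X = Y ∧ A = B :=
  ⟨by
    ext i j
    fin_cases i <;> fin_cases j
    · exact congrFun (congrFun h 0) 0
    · exact congrFun (congrFun h 0) (Fin.succ 0)
    · exact congrFun (congrFun h (Fin.succ 0)) 0
    · exact congrFun (congrFun h (Fin.succ 0)) (Fin.succ 0), by
    ext i j
    exact congrFun (congrFun h i.succ.succ) j.succ.succ⟩

theorem bsum_inv (X : Matrix (Fin 2) (Fin 2) ℂ) (A : Matrix (Fin n) (Fin n) ℂ) (hX : X.det ≠ 0)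
    (hA : A.det ≠ 0) : (bsum X A)⁻¹ = bsum X⁻¹ A⁻¹ := by
  refine Matrix.inv_eq_right_inv ?_
  rw [bsum_mul, Matrix.mul_nonsing_inv _ (isUnit_iff_ne_zero.2 hX),
    Matrix.mul_nonsing_inv _ (isUnit_iff_ne_zero.2 hA), bsum_one]

theorem det_bsum_ne (X : Matrix (Fin 2) (Fin 2) ℂ) (A : Matrix (Fin n) (Fin n) ℂ)
    (hX : X.det ≠ 0) (hA : A.det ≠ 0) : (bsum X A).det ≠ 0 := by
  intro h
  have h1 : bsum X A * bsum X⁻¹ A⁻¹ = 1 := by
    rw [bsum_mul, Matrix.mul_nonsing_inv _ (isUnit_iff_ne_zero.2 hX),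
      Matrix.mul_nonsing_inv _ (isUnit_iff_ne_zero.2 hA), bsum_one]
  have := congrArg det h1
  rw [det_mul, h, det_one, zero_mul] at this
  exact zero_ne_one this

theorem J_succ_succ (m : ℕ) : J (m + 2) = bsum 1 (J m) := by
  rw [J_succ, J_succ, dsum_dsum]
  congr 1
  ext i j
  fin_cases i <;> fin_cases j <;> rfl

theorem hm_cons (m : ℕ) (x y : ℂ) (v w : Fin (m + 1) → ℂ) :
    hm (m + 1) (Fin.cons x v) (Fin.cons y w) = star x * y + hm m v w := by
  rw [hm, J_succ, dsum_mulVec_cons, hm]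
  simp [dotProduct, Fin.sum_univ_succ]

theorem dsum_one_rk (m : ℕ) (v w : Fin (m + 1) → ℂ) :
    dsum 0 (rk m v w) = rk (m + 1) (Fin.cons 0 v) (Fin.cons 0 w) := by
  ext i j
  rw [rk, rk, J_succ]
  refine Fin.cases ?_ (fun i => ?_) i <;> refine Fin.cases ?_ (fun j => ?_) j <;>
    simp [vecMulVec_apply, vecMul, dotProduct, Fin.sum_univ_succ]

end Pool.Agent.Lib.MP_5d4057_al.Hyb
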