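import Pool.Agent.Lib.MP_5d4057_al.Hyb.Defs

/-! The official notion of an arithmetic lattice of `SU(m,1)` (Weil's classification): unitary units of
orders in central simple algebras over CM fields. -/

set_option autoImplicit false

namespace Pool.Agent.Lib.MP_5d4057_al.Hyb

open Matrix Pool.Agent.Lib.MP_5d4057_al

/-- The adjoint of a matrix with respect to the form `J m` of signature `(m,1)`. -/
def adjoint (m : ℕ) (a : Matrix (Fin (m + 1)) (Fin (m + 1)) ℂ) :
    Matrix (Fin (m + 1)) (Fin (m + 1)) ℂ :=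
  J m * aᴴ * J m

/-- `A` is a central simple algebra over the CM field `K` with `A ⊗_K ℂ = M_(m+1)(ℂ)`, stable under
the adjoint, and the involution `a ↦ adjoint a` of `A` is positive at all embeddings of `K` other than the
identity and complex conjugation (the unitary group is compact there). -/
structure IsUnitaryForm (m : ℕ) (K : Subfield ℂ)
    (A : Subalgebra K (Matrix (Fin (m + 1)) (Fin (m + 1)) ℂ)) : Prop where
  cm : IsCM K
  rank : Module.finrank K A = (m + 1) ^ 2
  span : Submodule.span ℂ (A : Set (Matrix (Fin (m + 1)) (Fin (m + 1)) ℂ)) = ⊤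
  adj : ∀ a ∈ A, adjoint m a ∈ A
  pos : ∀ τ : K →+* ℂ, (∀ x : K, τ x = x) ∨ (∀ x : K, τ x = (starRingEnd ℂ) (x : ℂ)) ∨
    ∀ a ∈ A, ∀ x : K, (x : ℂ) = (adjoint m a * a).trace → 0 ≤ (τ x).re

/-- `O` is an order in `A`: a subring of `A`, finitely generated as an abelian group, with `ℚ O = A`. -/
structure IsOrder {m : ℕ} {K : Subfield ℂ}
    (A : Subalgebra K (Matrix (Fin (m + 1)) (Fin (m + 1)) ℂ))
    (O : Subring (Matrix (Fin (m + 1)) (Fin (m + 1)) ℂ)) : Prop where
  sub : ∀ a ∈ O, a ∈ A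
  fg : O.toAddSubgroup.FG
  full : ∀ a ∈ A, ∃ N : ℕ, 0 < N ∧ (N : ℂ) • a ∈ O

/-- The unitary units of determinant one of `O`: all `g` in `SU(m,1)` such that `g` and its inverse lie
in `O`. -/
def unitPoints (m : ℕ) (O : Subring (Matrix (Fin (m + 1)) (Fin (m + 1)) ℂ)) :
    Subgroup (SUGroup m) where
  carrier := {g | g.toMatrix ∈ O ∧ g⁻¹.toMatrix ∈ O}
  mul_mem' {g h} hg hh := ⟨O.mul_mem hg.1 hh.1, by
    rw [_root_.mul_inv_rev]
    exact O.mul_mem hh.2 hg.2⟩
  one_mem' := ⟨O.one_mem, by rw [inv_one]; exact O.one_mem⟩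
  inv_mem' {g} hg := ⟨hg.2, by rw [inv_inv]; exact hg.1⟩

/-- `Γ` is an arithmetic subgroup of `SU(m,1)`: commensurable with the unitary units of an order in a
central simple algebra over a CM field `K`, with a unitary involution, compact at the other places of `K`.
(By Weil these are all arithmetic lattices of `SU(m,1)`.) -/
def IsArith (m : ℕ) (Γ : Subgroup (SUGroup m)) : Prop :=
  ∃ (K : Subfield ℂ) (A : Subalgebra K (Matrix (Fin (m + 1)) (Fin (m + 1)) ℂ))
    (O : Subring (Matrix (Fin (m + 1)) (Fin (m + 1)) ℂ)),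
      IsUnitaryForm m K A ∧ IsOrder A O ∧ Subgroup.Commensurable Γ (unitPoints m O)

end Pool.Agent.Lib.MP_5d4057_al.Hyb
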