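import Pool.Agent.Lib.MP_5d4057_al.Hyb.Top

namespace Pool.Agent.Lib.MP_5d4057_al.Hyb

open Matrix Pool.Agent.Lib.MP_5d4057_al

/-- The Hermitian form `⟨a, b⟩ = a^* J b` of signature `(m,1)`. -/
noncomputable def hm (m : ℕ) (a b : Fin (m + 1) → ℂ) : ℂ := star a ⬝ᵥ (J m *ᵥ b)

/-- The rank one operator `y ↦ ⟨a, y⟩ b`. -/
noncomputable def rk (m : ℕ) (a b : Fin (m + 1) → ℂ) : Matrix (Fin (m + 1)) (Fin (m + 1)) ℂ :=
  vecMulVec b (star a ᵥ* J m)

variable {m : ℕ}

theorem J_conjTranspose (m : ℕ) : (J m)ᴴ = J m := by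
  rw [J, diagonal_conjTranspose]
  congr 1
  ext i
  rw [Pi.star_apply]
  split_ifs <;> simp

theorem J_mul_J (m : ℕ) : J m * J m = 1 := by
  rw [J, diagonal_mul_diagonal, ← diagonal_one]
  congr 1
  ext i
  split_ifs <;> simp

theorem det_J_ne (m : ℕ) : (J m).det ≠ 0 := by
  intro h
  have := congrArg det (J_mul_J m)
  rw [det_mul, h, det_one] at this
  simp at this

theorem hm_star (a b : Fin (m + 1) → ℂ) : star (hm m a b) = hm m b a := by
  rw [hm, hm, Matrix.star_dotProduct, star_star, star_mulVec, J_conjTranspose,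
    ← dotProduct_mulVec]

theorem hm_add_right (a b c : Fin (m + 1) → ℂ) : hm m a (b + c) = hm m a b + hm m a c := by
  rw [hm, mulVec_add, dotProduct_add]; rfl

theorem hm_smul_right (a b : Fin (m + 1) → ℂ) (t : ℂ) : hm m a (t • b) = t * hm m a b := by
  rw [hm, mulVec_smul, dotProduct_smul, smul_eq_mul]; rfl

theorem hm_add_left (a b c : Fin (m + 1) → ℂ) : hm m (a + b) c = hm m a c + hm m b c := by
  rw [hm, star_add, add_dotProduct]; rfl

theorem hm_smul_left (a b : Fin (m + 1) → ℂ) (t : ℂ) : hm m (t • a) b = star t * hm m a b := by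
  rw [hm, star_smul, smul_dotProduct, smul_eq_mul]; rfl

theorem rk_mulVec (a b y : Fin (m + 1) → ℂ) : rk m a b *ᵥ y = hm m a y • b := by
  rw [rk, vecMulVec_mulVec, hm, dotProduct_mulVec]
  simp

theorem rk_mul (a b c d : Fin (m + 1) → ℂ) : rk m a b * rk m c d = hm m a d • rk m c b := by
  rw [rk, rk, rk, vecMulVec_mul_vecMulVec, hm, dotProduct_mulVec]
  simp [vecMulVec_smul]

theorem trace_rk (a b : Fin (m + 1) → ℂ) : (rk m a b).trace = hm m a b := by
  rw [rk, trace_vecMulVec, hm, dotProduct_mulVec, dotProduct_comm]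

theorem rk_conjTranspose (a b : Fin (m + 1) → ℂ) : (rk m a b)ᴴ * J m = J m * rk m b a := by
  rw [rk, rk, conjTranspose_vecMulVec, mul_vecMulVec, vecMulVec_mul, star_vecMul, star_star,
    J_conjTranspose]

theorem hm_mulVec (g : SUGroup m) (a b : Fin (m + 1) → ℂ) :
    hm m (g.toMatrix *ᵥ a) (g.toMatrix *ᵥ b) = hm m a b := by
  rw [hm, star_mulVec, ← dotProduct_mulVec, mulVec_mulVec, mulVec_mulVec,
    pres, hm]

theorem conj_rk (g : SUGroup m) (a b : Fin (m + 1) → ℂ) :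
    g.toMatrix * rk m a b * (g⁻¹).toMatrix = rk m (g.toMatrix *ᵥ a) (g.toMatrix *ᵥ b) := by
  rw [rk, rk, mul_vecMulVec, vecMulVec_mul, star_mulVec]
  congr 1
  rw [vecMul_vecMul, vecMul_vecMul]
  congr 1
  calc J m * (g⁻¹).toMatrix = (g.toMatrixᴴ * J m * g.toMatrix) * (g⁻¹).toMatrix := by rw [pres]
    _ = g.toMatrixᴴ * J m * (g.toMatrix * (g⁻¹).toMatrix) := by simp only [Matrix.mul_assoc]
    _ = _ := by rw [toMatrix_mul_inv, Matrix.mul_one]

end Pool.Agent.Lib.MP_5d4057_al.Hyb
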