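import Pool.Agent.Lib.MP_5d4057_al.Hyb.ArithF
import Pool.Agent.Lib.MP_5d4057_al.Hyb.FinalA

/-! An arithmetic lattice which contains a lattice of a hyperplane is of simplest type. -/

set_option autoImplicit false

namespace Pool.Agent.Lib.MP_5d4057_al.Hyb

open Matrix Pool.Agent.Lib.MP_5d4057_al

/-- W3. An arithmetic lattice of `SU(k+1,1)` (in the general sense) which contains `1 ⊕ Γ₃`, `Γ₃` a lattice in
`SU(k,1)`, `k ≥ 1`, is commensurable with `SU(H, O_K)` for a Hermitian form `H` over `K`.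
Proof: (1) `Γ' = {γ ∈ Γ₃ : 1 ⊕ γ ∈ O}` has finite index, its `ℂ`-span is everything, so the `ℂ`-span of
`1 ⊕ Γ'` is `ℂ × M_(k+1)(ℂ)` and contains `e = 1 ⊕ 0`; `e` is the unique solution in that span of a linear
system with coefficients in `K` (`s e = e` for `s ∈ 1 ⊕ Γ'`, `tr e = 1`), so `e ∈ A` (or: a polynomial in
one element). (2) `A e = {a e}` has `K`-dimension `k + 2` (`e A e = K e`: the trace of an element of `A` is
in `K`); take a `K`-basis `a_i e`; `B` = the matrix with columns `a_i e_0`. Then `B⁻¹ A B = M(K)` and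
`(Bᴴ J B) i j` = the coefficient of `e (adjoint a_i) a_j e`, in `K`. (3) Definite at the other places: `pos` for
`a = B u vᴴ H B⁻¹`. (4) `O` and `B M(O_K) B⁻¹` are two orders of `A`: their unitary units are
commensurable. -/
theorem exists_form {k : ℕ} (hk : 1 ≤ k) {Γ₃ : Subgroup (SUGroup k)} (h₃ : IsLattice Γ₃)
    {Γ : Subgroup (SUGroup (k + 1))} (hA : IsArith (k + 1) Γ) (hsub : ∀ γ ∈ Γ₃, extend k γ ∈ Γ) :
    ∃ (K : Subfield ℂ) (H : Matrix (Fin (k + 2)) (Fin (k + 2)) K)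
      (B : Matrix (Fin (k + 2)) (Fin (k + 2)) ℂ), IsForm (k + 1) K H B ∧
        Subgroup.Commensurable Γ (integralPoints (k + 1) K B) := by
  obtain ⟨K, A, O, hU, hO, hc⟩ := hA
  obtain ⟨Λ, hΛ⟩ : ∃ Λ, Λ = unitPoints (k + 1) O := ⟨_, rfl⟩
  have hfin : (Γ₃ ⊓ Λ.comap (extend k)).relIndex Γ₃ ≠ 0 := by
    rw [Subgroup.inf_relIndex_left, Subgroup.relIndex_comap]
    intro h
    rw [← hΛ] at hc
    refine hc.2 (Subgroup.relIndex_eq_zero_of_le_right ?_ h)
    rintro _ ⟨γ, hγ, rfl⟩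
    exact hsub γ hγ
  have hspan := span_top_fin hk Γ₃ _ h₃ hfin
  obtain ⟨c, hc0, he⟩ := idem_mem hk hU.rank hU.span hspan (by
    rintro _ ⟨γ, hγ, rfl⟩
    have h1 : extend k γ ∈ Λ := hγ.2
    rw [hΛ] at h1
    exact hO.sub _ h1.1)
  obtain ⟨B, hB, hAB, hw⟩ := exists_KBasis A hU.rank hU.span hc0 he
  obtain ⟨H, hH⟩ := form_of_KBasis (by omega) hU hB hAB hw
  exact ⟨K, H, B, hH, hc.trans (commensurable_matOrder hU.cm.1 hU.rank hO hB hAB)⟩

end Pool.Agent.Lib.MP_5d4057_al.Hyb
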