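import Pool.Agent.Lib.MP_5d4057_al.Hyb.Defs

namespace Pool.Agent.Lib.MP_5d4057_al.Hyb

/-- If the only embedding of the number field `K ⊂ ℂ` in `ℂ` which is the identity on the subfield
`F` is the inclusion, then `F = K`: the number of `F`-embeddings of `K` in the algebraically closed
field `ℂ` is `[K : F]` (`AlgHom.card` or `Field.finSepDegree`..., `K / F` is finite and
separable). -/
theorem eq_of_emb (K : Subfield ℂ) (hK : NumberField K) (F : Subfield ℂ) (hFK : F ≤ K)
    (h : ∀ τ : K →+* ℂ, (∀ x : K, (x : ℂ) ∈ F → τ x = x) → ∀ x : K, τ x = x) : F = K := by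
  let _ : Algebra F K := (Subfield.inclusion hFK).toAlgebra
  have : IsScalarTower F K ℂ := IsScalarTower.of_algebraMap_eq fun x => rfl
  have : FiniteDimensional ℚ K := hK.to_finiteDimensional
  have : IsScalarTower ℚ F K := inferInstance
  have : FiniteDimensional F K := FiniteDimensional.right ℚ F K
  have : Algebra.IsSeparable F K := inferInstance
  have hcard := AlgHom.card F K ℂ
  have hsub : Subsingleton (K →ₐ[F] ℂ) := by
    refine ⟨fun τ σ => ?_⟩
    have key : ∀ τ : K →ₐ[F] ℂ, ∀ x : K, τ x = x := by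
      intro τ
      refine h τ.toRingHom ?_
      intro x hx
      have : τ (algebraMap F K ⟨x, hx⟩) = algebraMap F ℂ ⟨x, hx⟩ := τ.commutes _
      exact this
    ext x
    rw [key τ, key σ]
  have h1 : Module.finrank F K ≤ 1 := by
    rw [← hcard]
    exact Fintype.card_le_one_iff_subsingleton.2 hsub
  have h2 : Module.finrank F K = 1 := le_antisymm h1 Module.finrank_pos
  refine le_antisymm hFK fun x hx => ?_
  obtain ⟨c, hc⟩ := (finrank_eq_one_iff_of_nonzero' (1 : K) one_ne_zero).1 h2 ⟨x, hx⟩
  have : ((c : ℂ)) = x := by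
    have h3 := congrArg (fun y : K => (y : ℂ)) hc
    simp only [Algebra.smul_def, mul_one] at h3
    exact h3
  rw [← this]
  exact c.2

end Pool.Agent.Lib.MP_5d4057_al.Hyb
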