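import Pool.Agent.Lib.MP_5d4057_al.Hyb.Angle
import Pool.Agent.Lib.MP_5d4057_al.Hyb.Fld

namespace Pool.Agent.Lib.MP_5d4057_al.Hyb

open Matrix Pool.Agent.Lib.MP_5d4057_al

/-- A CM field contains a nonzero purely imaginary algebraic integer. -/
theorem exists_theta_im {K : Subfield ℂ} (hcm : IsCM K) :
    ∃ t : ℝ, t ≠ 0 ∧ (t : ℂ) * Complex.I ∈ integers K := by
  obtain ⟨θ, hθ, hne⟩ := exists_theta hcm
  refine ⟨2 * θ.im, ?_, ?_⟩
  · exact mul_ne_zero (by norm_num) fun h => hne (Complex.conj_eq_iff_im.2 h)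
  · have h1 : (starRingEnd ℂ) θ ∈ integers K := by
      refine ⟨hcm.2.2.1 θ hθ.1, ?_⟩
      have h2 : IsIntegral ℤ θ := hθ.2
      exact h2.map (starRingEnd ℂ).toIntAlgHom
    have h3 : ((2 * θ.im : ℝ) : ℂ) * Complex.I = θ - (starRingEnd ℂ) θ := by
      apply Complex.ext
      · simp
      · simp
        ring
    rw [h3]
    exact (integers K).sub_mem hθ h1

/-- A CM field with no embeddings other than the identity and complex conjugation is generated by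
any of its purely imaginary elements. -/
theorem closure_eq_of_im {K : Subfield ℂ} (hcm : IsCM K)
    (hemb : ∀ τ : K →+* ℂ, (∀ x : K, τ x = x) ∨ (∀ x : K, τ x = (starRingEnd ℂ) (x : ℂ)))
    (t : ℝ) (ht : t ≠ 0) (hK : (t : ℂ) * Complex.I ∈ K) :
    Subfield.closure {(t : ℂ) * Complex.I} = K := by
  refine eq_of_emb K hcm.1 _ ?_ ?_
  · rw [Subfield.closure_le]
    intro x hx
    rw [Set.mem_singleton_iff.1 hx]
    exact hK
  · intro τ hτ
    rcases hemb τ with h | h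
    · exact h
    · exfalso
      have h1 := hτ ⟨_, hK⟩ (Subfield.subset_closure rfl)
      rw [h ⟨_, hK⟩] at h1
      have h2 := congrArg Complex.im h1
      simp at h2
      exact ht (by linarith)

private theorem conj_sub' (u : ℂ) :
    star u - u = ((-2 * u.im : ℝ) : ℂ) * Complex.I := by
  apply Complex.ext
  · simp
  · simp
    ring

private theorem hm_zero' {m : ℕ} (v : Fin (m + 1) → ℂ) : hm m v 0 = 0 := by
  rw [hm, mulVec_zero, dotProduct_zero]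

/-- If the fields are different, the commutators force the angle to be a right angle. -/
theorem angle_zero {k : ℕ} (K : Fin 2 → Subfield ℂ) (hcm : ∀ b, IsCM (K b))
    (hemb : ∀ b, ∀ τ : K b →+* ℂ, (∀ x : K b, τ x = x) ∨
      (∀ x : K b, τ x = (starRingEnd ℂ) (x : ℂ)))
    (w : Fin (k + 1) → ℂ) (hw0 : w ≠ 0) (hw : hm k w w = 0) (ν : Fin 2 → ℂ) (hν : ∀ b, ν b ≠ 0)
    (Γ : Fin 2 → Subgroup (SUGroup (k + 1))) (N : Fin 2 → ℕ) (hN : ∀ b, 0 < N b)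
    (hT : ∀ b, ∀ β ∈ integers (K b), ∃ γ ∈ Γ b, γ.toMatrix =
      T (k + 1) (Fin.cons 0 w) (Fin.cons ((N b : ℂ) * β * ν b) 0))
    (g : Fin 2 → SUGroup (k + 2)) (X : Matrix (Fin 2) (Fin 2) ℂ) (ζ : ℂ) (hζ : star ζ * ζ = 1)
    (hg : (g 1).toMatrix = (g 0).toMatrix * (ζ • bsum X 1)) (Γ' : Subgroup (SUGroup (k + 2)))
    (hd : DiscreteTopology Γ') (hsub : ∀ b, ∀ γ ∈ Γ b, g b * extend (k + 1) γ * (g b)⁻¹ ∈ Γ') :
    X 1 1 = 0 ∨ K 0 = K 1 := by
  set W : Fin (k + 2 + 1) → ℂ := Fin.cons 0 (Fin.cons 0 w) with hW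
  set w' : Fin (k + 2 + 1) → ℂ := (g 0).toMatrix *ᵥ W with hw'
  obtain ⟨y, hy⟩ : ∃ y, y = star (ν 0) * ν 1 * X 1 1 := ⟨_, rfl⟩
  obtain ⟨y₀, hy₀⟩ : ∃ y₀ : ℂ → Fin (k + 2 + 1) → ℂ, ∀ α, y₀ α =
      Fin.cons 0 (Fin.cons ((N 0 : ℂ) * α * ν 0) 0) := ⟨_, fun _ => rfl⟩
  obtain ⟨y₁, hy₁⟩ : ∃ y₁ : ℂ → Fin (k + 2 + 1) → ℂ, ∀ β, y₁ β =
      Fin.cons (X 0 1 * ((N 1 : ℂ) * β * ν 1)) (Fin.cons (X 1 1 * ((N 1 : ℂ) * β * ν 1)) 0) :=
    ⟨_, fun _ => rfl⟩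
  have hmem : ∀ b, ∀ β ∈ integers (K b), ∃ γ ∈ Γ', γ.toMatrix =
      T (k + 2) ((g b).toMatrix *ᵥ W)
      ((g b).toMatrix *ᵥ Fin.cons 0 (Fin.cons ((N b : ℂ) * β * ν b) 0)) := by
    intro b β hβ
    obtain ⟨γ, hγ, he⟩ := hT b β hβ
    refine ⟨_, hsub b γ hγ, ?_⟩
    rw [toMatrix_mul, toMatrix_mul, extend_toMatrix, he, dsum_T, conj_T]
  have hm0 : ∀ α ∈ integers (K 0), ∃ γ ∈ Γ', γ.toMatrix =
      T (k + 2) w' ((g 0).toMatrix *ᵥ y₀ α) := by
    intro α hα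
    rw [hy₀]
    exact hmem 0 α hα
  have hm1 : ∀ β ∈ integers (K 1), ∃ γ ∈ Γ', γ.toMatrix =
      T (k + 2) w' ((g 0).toMatrix *ᵥ y₁ β) := by
    intro β hβ
    obtain ⟨γ, hγ, he⟩ := hmem 1 β hβ
    refine ⟨γ, hγ, ?_⟩
    rw [he, hg]
    have e1 : ((g 0).toMatrix * (ζ • bsum X (1 : Matrix (Fin (k + 1)) (Fin (k + 1)) ℂ))) *ᵥ W =
        ζ • w' := by
      rw [hw', hW, ← mulVec_mulVec, smul_mulVec, bsum_mulVec_cons, mulVec_smul]
      simp
    have e2 : ((g 0).toMatrix * (ζ • bsum X (1 : Matrix (Fin (k + 1)) (Fin (k + 1)) ℂ))) *ᵥ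
        Fin.cons 0 (Fin.cons ((N 1 : ℂ) * β * ν 1) 0) = ζ • ((g 0).toMatrix *ᵥ y₁ β) := by
      rw [hy₁, ← mulVec_mulVec, smul_mulVec, bsum_mulVec_cons, mulVec_smul]
      simp
    rw [e1, e2, T_smul _ _ ζ hζ]
  have f1 : hm (k + 2) w' w' = 0 := by
    rw [hw', hm_mulVec, hW, hm_cons, hm_cons, hw]
    simp
  have f2 : ∀ α, hm (k + 2) w' ((g 0).toMatrix *ᵥ y₀ α) = 0 := by
    intro α
    rw [hw', hm_mulVec, hW, hy₀, hm_cons, hm_cons, hm_zero']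
    simp
  have f3 : ∀ β, hm (k + 2) w' ((g 0).toMatrix *ᵥ y₁ β) = 0 := by
    intro β
    rw [hw', hm_mulVec, hW, hy₁, hm_cons, hm_cons, hm_zero']
    simp
  have f4 : ∀ α β, hm (k + 2) ((g 0).toMatrix *ᵥ y₀ α) ((g 0).toMatrix *ᵥ y₁ β) =
      (N 0 : ℂ) * N 1 * (star α * β * y) := by
    intro α β
    rw [hm_mulVec, hy₀, hy₁, hm_cons, hm_cons, hm_zero', hy]
    simp
    ring
  have f5 : ∀ α, hm (k + 2) ((g 0).toMatrix *ᵥ y₀ 1) ((g 0).toMatrix *ᵥ y₀ α) =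
      (N 0 : ℂ) * N 0 * (star (ν 0) * ν 0) * α := by
    intro α
    rw [hm_mulVec, hy₀, hy₀, hm_cons, hm_cons, hm_zero']
    simp
    ring
  have hw'0 : w' ≠ 0 := by
    intro h0
    have h1 : W = 0 := by
      have h2 : ((g 0)⁻¹).toMatrix *ᵥ w' = W := by
        rw [hw', mulVec_mulVec, toMatrix_inv_mul, one_mulVec]
      rw [← h2, h0, mulVec_zero]
    apply hw0
    ext i
    exact congrFun h1 i.succ.succ
  have hq : star (ν 0) * ν 0 = ((Complex.normSq (ν 0) : ℝ) : ℂ) :=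
    (Complex.normSq_eq_conj_mul_self (z := ν 0)).symm
  obtain ⟨t₀, ht₀, hi₀⟩ := exists_theta_im (hcm 0)
  obtain ⟨t₁, ht₁, hi₁⟩ := exists_theta_im (hcm 1)
  have hN0 : (N 0 : ℝ) ≠ 0 := Nat.cast_ne_zero.2 (hN 0).ne'
  have hN1 : (N 1 : ℝ) ≠ 0 := Nat.cast_ne_zero.2 (hN 1).ne'
  obtain ⟨c, hc⟩ : ∃ c : ℝ, c = ((N 0 : ℝ) * N 0 * Complex.normSq (ν 0)) * (-2 * t₀) := ⟨_, rfl⟩
  have hc0 : c ≠ 0 := by
    have h2 : Complex.normSq (ν 0) ≠ 0 := by
      rw [Ne, Complex.normSq_eq_zero]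
      exact hν 0
    rw [hc]
    exact mul_ne_zero (mul_ne_zero (mul_ne_zero hN0 hN0) h2) (mul_ne_zero (by norm_num) ht₀)
  have h1K0 : (1 : ℂ) ∈ integers (K 0) := (integers (K 0)).one_mem
  have h1K1 : (1 : ℂ) ∈ integers (K 1) := (integers (K 1)).one_mem
  have g1 : ∃ γ ∈ Γ', γ.toMatrix = Z (k + 2) w' ((c : ℂ) * Complex.I) := by
    have h1 := comm_mem Γ' w' _ _ f1 (f2 1) (f2 _) (hm0 1 h1K0) (hm0 _ hi₀)
    rw [← hm_star, f5, conj_sub'] at h1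
    have e1 : ((N 0 : ℂ) * N 0 * (star (ν 0) * ν 0) * ((t₀ : ℂ) * Complex.I)) =
        ((((N 0 : ℝ) * N 0 * Complex.normSq (ν 0)) * t₀ : ℝ) : ℂ) * Complex.I := by
      rw [hq]
      push_cast
      ring
    have e2 : (-2 * ((N 0 : ℂ) * N 0 * (star (ν 0) * ν 0) * ((t₀ : ℂ) * Complex.I)).im : ℝ) = c := by
      rw [e1, hc]
      simp
      ring
    rw [e2] at h1
    exact h1
  have g2 : ∀ α ∈ integers (K 0), ∀ β ∈ integers (K 1), ∃ r : ℚ, (star α * β * y).im = r * c := by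
    intro α hα β hβ
    have h1 := comm_mem Γ' w' _ _ f1 (f2 α) (f3 β) (hm0 α hα) (hm1 β hβ)
    rw [← hm_star, f4, conj_sub'] at h1
    obtain ⟨r, hr⟩ := rat_of_discrete Γ' hd w' hw'0 f1 _ _ hc0 h1 g1
    have e1 : ((N 0 : ℂ) * N 1 * (star α * β * y)).im = (N 0 : ℝ) * N 1 * (star α * β * y).im := by
      have : ((N 0 : ℂ) * N 1 * (star α * β * y)) =
          (((N 0 : ℝ) * N 1 : ℝ) : ℂ) * (star α * β * y) := by push_cast; ring
      rw [this, Complex.im_ofReal_mul]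
    rw [e1] at hr
    refine ⟨r / (-2 * ((N 0 : ℚ) * N 1)), ?_⟩
    push_cast
    field_simp
    linear_combination (-1 : ℝ) * hr
  by_cases hX : X 1 1 = 0
  · exact Or.inl hX
  right
  have hy0 : y ≠ 0 := by
    rw [hy]
    exact mul_ne_zero (mul_ne_zero (star_ne_zero.2 (hν 0)) (hν 1)) hX
  obtain ⟨r₁, hr₁⟩ := g2 1 h1K0 1 h1K1
  obtain ⟨r₂, hr₂⟩ := g2 _ hi₀ 1 h1K1
  obtain ⟨r₃, hr₃⟩ := g2 1 h1K0 _ hi₁
  obtain ⟨r₄, hr₄⟩ := g2 _ hi₀ _ hi₁
  have a1 : y.im = r₁ * c := by rw [← hr₁]; simp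
  have a2 : -(t₀ * y.re) = r₂ * c := by rw [← hr₂]; simp
  have a3 : t₁ * y.re = r₃ * c := by rw [← hr₃]; simp
  have a4 : t₀ * t₁ * y.im = r₄ * c := by
    rw [← hr₄]
    have : star ((t₀ : ℂ) * Complex.I) * ((t₁ : ℂ) * Complex.I) * y =
        ((t₀ * t₁ : ℝ) : ℂ) * y := by
      have h1 : star ((t₀ : ℂ) * Complex.I) = -((t₀ : ℂ) * Complex.I) := by simp
      rw [h1]
      push_cast
      linear_combination (-(t₀ : ℂ) * t₁ * y) * Complex.I_sq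
    rw [this, Complex.im_ofReal_mul]
  have hrel : ∃ p q : ℚ, t₁ = p * t₀ ∧ t₀ = q * t₁ ∨ t₁ = p * t₀⁻¹ ∧ t₀ = q * t₁⁻¹ := by
    by_cases hre : y.re = 0
    · have him : y.im ≠ 0 := fun h => hy0 (Complex.ext hre h)
      have hr10 : (r₁ : ℝ) ≠ 0 := by
        intro h
        rw [h, zero_mul] at a1
        exact him a1
      refine ⟨r₄ / r₁, r₄ / r₁, Or.inr ?_⟩
      have h1 : t₀ * t₁ = r₄ / r₁ := by
        rw [eq_div_iff hr10]
        have : (t₀ * t₁ * r₁ - r₄) * c = 0 := by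
          rw [a1] at a4
          linear_combination a4
        rcases mul_eq_zero.1 this with h | h
        · linarith
        · exact absurd h hc0
      push_cast
      rw [← h1]
      constructor
      · field_simp
      · field_simp
    · have hr20 : (r₂ : ℝ) ≠ 0 := by
        intro h
        rw [h, zero_mul] at a2
        exact hre ((mul_eq_zero.1 (neg_eq_zero.1 a2)).resolve_left ht₀)
      have hr30 : (r₃ : ℝ) ≠ 0 := by
        intro h
        rw [h, zero_mul] at a3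
        exact hre ((mul_eq_zero.1 a3).resolve_left ht₁)
      have key : t₁ * r₂ = -(t₀ * r₃) := by
        have : (t₁ * r₂ + t₀ * r₃) * c = 0 := by
          have h1 : t₁ * (r₂ * c) = -(t₀ * (r₃ * c)) := by rw [← a2, ← a3]; ring
          linear_combination h1
        rcases mul_eq_zero.1 this with h | h
        · linarith
        · exact absurd h hc0
      refine ⟨-r₃ / r₂, -r₂ / r₃, Or.inl ⟨?_, ?_⟩⟩
      · push_cast
        field_simp
        linarith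
      · push_cast
        field_simp
        linarith
  obtain ⟨p, q, hpq⟩ := hrel
  have hI : Complex.I ≠ 0 := Complex.I_ne_zero
  have ht₀' : (t₀ : ℂ) ≠ 0 := Complex.ofReal_ne_zero.2 ht₀
  have ht₁' : (t₁ : ℂ) ≠ 0 := Complex.ofReal_ne_zero.2 ht₁
  have hmem1 : (t₁ : ℂ) * Complex.I ∈ K 0 := by
    rcases hpq with ⟨h, -⟩ | ⟨h, -⟩
    · have : (t₁ : ℂ) * Complex.I = (p : ℂ) * ((t₀ : ℂ) * Complex.I) := by
        rw [h]; push_cast; ring
      rw [this]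
      exact (K 0).mul_mem (SubfieldClass.ratCast_mem _ p) hi₀.1
    · have : (t₁ : ℂ) * Complex.I = -(p : ℂ) * ((t₀ : ℂ) * Complex.I)⁻¹ := by
        rw [h]
        push_cast
        field_simp
        rw [Complex.I_sq]
        ring
      rw [this]
      exact (K 0).mul_mem ((K 0).neg_mem (SubfieldClass.ratCast_mem _ p)) ((K 0).inv_mem hi₀.1)
  have hmem0 : (t₀ : ℂ) * Complex.I ∈ K 1 := by
    rcases hpq with ⟨-, h⟩ | ⟨-, h⟩
    · have : (t₀ : ℂ) * Complex.I = (q : ℂ) * ((t₁ : ℂ) * Complex.I) := by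
        rw [h]; push_cast; ring
      rw [this]
      exact (K 1).mul_mem (SubfieldClass.ratCast_mem _ q) hi₁.1
    · have : (t₀ : ℂ) * Complex.I = -(q : ℂ) * ((t₁ : ℂ) * Complex.I)⁻¹ := by
        rw [h]
        push_cast
        field_simp
        rw [Complex.I_sq]
        ring
      rw [this]
      exact (K 1).mul_mem ((K 1).neg_mem (SubfieldClass.ratCast_mem _ q)) ((K 1).inv_mem hi₁.1)
  refine le_antisymm ?_ ?_
  · rw [← closure_eq_of_im (hcm 0) (hemb 0) t₀ ht₀ hi₀.1, Subfield.closure_le]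
    intro x hx
    rw [Set.mem_singleton_iff.1 hx]
    exact hmem0
  · rw [← closure_eq_of_im (hcm 1) (hemb 1) t₁ ht₁ hi₁.1, Subfield.closure_le]
    intro x hx
    rw [Set.mem_singleton_iff.1 hx]
    exact hmem1

end Pool.Agent.Lib.MP_5d4057_al.Hyb
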