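import Pool.Agent.Lib.MP_5d4057_al.Hyb.FinalA
import Pool.Agent.Lib.MP_5d4057_al.Hyb.AngleZ

namespace Pool.Agent.Lib.MP_5d4057_al.Hyb

open Matrix Pool.Agent.Lib.MP_5d4057_al ComplexOrder

theorem rk_smul_left {m : ℕ} (a b : Fin (m + 1) → ℂ) (t : ℂ) :
    rk m (t • a) b = star t • rk m a b := by
  rw [rk, rk, star_smul, smul_vecMul, vecMulVec_smul]

theorem rk_smul_right {m : ℕ} (a b : Fin (m + 1) → ℂ) (t : ℂ) :
    rk m a (t • b) = t • rk m a b := by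
  rw [rk, rk, smul_vecMulVec]

theorem T_smul_left {m : ℕ} (w x : Fin (m + 1) → ℂ) (η : ℂ) :
    T m (η • w) x = T m w (star η • x) := by
  simp only [T, rk_smul_left, rk_smul_right, hm_smul_left, hm_smul_right, star_star, smul_smul]
  congr 2
  ring

theorem entries_of_dsum {K : Subfield ℂ} {n : ℕ} {t : ℂ} {D A : Matrix (Fin n) (Fin n) ℂ}
    (ht : t ≠ 0) (hD : D.det ≠ 0) (h : EntriesIn K (dsum t D) (dsum 1 A)) : EntriesIn K D A := by
  intro i j
  have := h i.succ j.succ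
  rwa [dsum_inv t D ht hD, dsum_mul, dsum_mul] at this

/-- The data at a cusp of one piece. -/
theorem cusp_data {k : ℕ} (hk : 1 ≤ k) (Γ₃ : Subgroup (SUGroup k)) (h₃ : IsLattice Γ₃)
    (Γ : Subgroup (SUGroup (k + 1))) (hL : IsLattice Γ) (hA : IsArithmetic (k + 1) Γ)
    (hsub : ∀ γ ∈ Γ₃, extend k γ ∈ Γ) (γ₀ : SUGroup k) (hγ₀ : γ₀ ∈ Γ₃) (hγ1 : γ₀ ≠ 1)
    (hnil : IsNilpotent (γ₀.toMatrix - 1)) :
    IsCM (traceField Γ) ∧ (∀ τ : traceField Γ →+* ℂ, (∀ x : traceField Γ, τ x = x) ∨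
      (∀ x : traceField Γ, τ x = (starRingEnd ℂ) (x : ℂ))) ∧
    ∃ (w : Fin (k + 1) → ℂ) (μ : ℂ) (N : ℕ), w ≠ 0 ∧ hm k w w = 0 ∧ γ₀.toMatrix *ᵥ w = w ∧
      μ ≠ 0 ∧ 0 < N ∧ ∀ β ∈ integers (traceField Γ), ∃ γ ∈ Γ, γ.toMatrix =
        T (k + 1) (Fin.cons 0 w) (Fin.cons ((N : ℂ) * β * μ) 0) := by
  obtain ⟨K, H, B, hf, hr, hc⟩ := hA
  have e := traceField_eq (by omega : 2 ≤ k + 1) Γ hL K H B hf hr
  subst e
  obtain ⟨t, D, Q, q, H', ht, hD, hQ, hBQ, hq, hform, hdef⟩ := split_form hk Γ₃ h₃ _ H B hf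
    (fun γ hγ => hr _ (hsub γ hγ))
  have hn : IsNF k (traceField Γ) D H' (fun _ => t) (fun _ => q) :=
    { det := hD
      form := hform
      μ_ne := fun _ => ht
      q_eq := fun _ => hq
      definite := fun _ τ => hdef τ }
  have hBQ' : B * Q.map (fun x : traceField Γ => (x : ℂ)) = (1 : ℂ) • dsum t D := by
    rw [hBQ, one_smul]
  have hD3 : EntriesIn (traceField Γ) D γ₀.toMatrix := by
    have h1 := EntriesIn.change hf.det one_ne_zero hQ hBQ' (hr _ (hsub γ₀ hγ₀))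
    rw [extend_toMatrix] at h1
    exact entries_of_dsum ht hD h1
  obtain ⟨x, hx0, hx, hfix⟩ := exists_null_fixed hD γ₀ hD3 hγ1 hnil
  obtain ⟨N, hN, hT⟩ := exists_T_mem hf.cm hD hform t q ht hq x hx B hf.det 1 one_ne_zero Q hQ
    hBQ' Γ hc
  refine ⟨hf.cm, tau_of_null hf.cm hn x hx0 hx, _, t, N, ?_, hx, hfix, ht, hN, hT⟩
  intro h0
  apply hx0
  have h5 : D⁻¹ *ᵥ (D *ᵥ fun i => (x i : ℂ)) = fun i => (x i : ℂ) := by
    rw [mulVec_mulVec, Matrix.nonsing_inv_mul _ (isUnit_iff_ne_zero.2 hD), one_mulVec]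
  rw [h0, mulVec_zero] at h5
  ext i
  exact (congrFun h5 i).symm

theorem fields_eq_of_not_orth {k : ℕ} (hk : 1 ≤ k) (Γ₃ : Subgroup (SUGroup k))
    (Γ : Fin 2 → Subgroup (SUGroup (k + 1))) (g : Fin 2 → SUGroup (k + 2))
    (h₃ : IsLattice Γ₃) (hL : ∀ b, IsLattice (Γ b)) (hA : ∀ b, IsArithmetic (k + 1) (Γ b))
    (hsub : ∀ b, ∀ γ ∈ Γ₃, extend k γ ∈ Γ b)
    (hagree : ∀ γ ∈ Γ₃, g 0 * extend (k + 1) (extend k γ) * (g 0)⁻¹ =
      g 1 * extend (k + 1) (extend k γ) * (g 1)⁻¹)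
    (hu : ∃ γ ∈ Γ₃, γ ≠ 1 ∧ IsNilpotent (γ.toMatrix - 1))
    (hd : DiscreteTopology (hybrid Γ g)) (ho : ¬ Orthogonal g) :
    traceField (Γ 0) = traceField (Γ 1) := by
  by_cases h2 : 2 ≤ k
  · exact (traceField_three h2 Γ₃ h₃ (Γ 0) (hL 0) (hA 0) (hsub 0)).trans
      (traceField_three h2 Γ₃ h₃ (Γ 1) (hL 1) (hA 1) (hsub 1)).symm
  obtain rfl : k = 1 := by omega
  obtain ⟨X, ζ, hζ, hX, hg⟩ := frame hk Γ₃ h₃ g hagree
  obtain ⟨γ₀, hγ₀, hγ1, hnil⟩ := hu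
  obtain ⟨hcm0, hemb0, w₀, μ₀, N₀, hw00, hw0, hf0, hμ0, hN0, hT0⟩ :=
    cusp_data hk Γ₃ h₃ (Γ 0) (hL 0) (hA 0) (hsub 0) γ₀ hγ₀ hγ1 hnil
  obtain ⟨hcm1, hemb1, w₁, μ₁, N₁, hw10, hw1, hf1, hμ1, hN1, hT1⟩ :=
    cusp_data hk Γ₃ h₃ (Γ 1) (hL 1) (hA 1) (hsub 1) γ₀ hγ₀ hγ1 hnil
  -- the two null vectors are proportional
  obtain ⟨η, hη⟩ : ∃ η : ℂ, w₁ = η • w₀ := by
    have hM : γ₀.toMatrix - 1 ≠ 0 := by
      intro h
      exact hγ1 (toMatrix_injective ((sub_eq_zero.1 h).trans toMatrix_one.symm))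
    have e0 : (γ₀.toMatrix - 1) *ᵥ w₀ = 0 := by rw [sub_mulVec, hf0, one_mulVec, sub_self]
    have e1 : (γ₀.toMatrix - 1) *ᵥ w₁ = 0 := by rw [sub_mulVec, hf1, one_mulVec, sub_self]
    set M : Matrix (Fin 2) (Fin 2) ℂ := γ₀.toMatrix - 1 with hMdef
    have r0 : ∀ i, M i 0 * w₀ 0 + M i 1 * w₀ 1 = 0 := by
      intro i
      have := congrFun e0 i
      rwa [mulVec, dotProduct, Fin.sum_univ_two] at this
    have r1 : ∀ i, M i 0 * w₁ 0 + M i 1 * w₁ 1 = 0 := by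
      intro i
      have := congrFun e1 i
      rwa [mulVec, dotProduct, Fin.sum_univ_two] at this
    have hdet : w₀ 0 * w₁ 1 - w₀ 1 * w₁ 0 = 0 := by
      by_contra hne
      apply hM
      ext i j
      have a0 : M i 0 * (w₀ 0 * w₁ 1 - w₀ 1 * w₁ 0) = 0 := by
        linear_combination (w₁ 1) * r0 i - (w₀ 1) * r1 i
      have a1 : M i 1 * (w₀ 0 * w₁ 1 - w₀ 1 * w₁ 0) = 0 := by
        linear_combination (w₀ 0) * r1 i - (w₁ 0) * r0 i
      have b0 := (mul_eq_zero.1 a0).resolve_right hne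
      have b1 := (mul_eq_zero.1 a1).resolve_right hne
      fin_cases j
      · exact b0
      · exact b1
    by_cases h00 : w₀ 0 = 0
    · have h01 : w₀ 1 ≠ 0 := by
        intro h
        apply hw00
        ext i
        fin_cases i
        · exact h00
        · exact h
      refine ⟨w₁ 1 / w₀ 1, ?_⟩
      ext i
      fin_cases i
      · simp only [Fin.zero_eta, Pi.smul_apply, smul_eq_mul]
        field_simp
        rw [h00] at hdet ⊢
        linear_combination -hdet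
      · simp only [Fin.mk_one, Pi.smul_apply, smul_eq_mul]
        field_simp
    · refine ⟨w₁ 0 / w₀ 0, ?_⟩
      ext i
      fin_cases i
      · simp only [Fin.zero_eta, Pi.smul_apply, smul_eq_mul]
        field_simp
      · simp only [Fin.mk_one, Pi.smul_apply, smul_eq_mul]
        field_simp
        linear_combination hdet
  have hη0 : η ≠ 0 := by
    rintro rfl
    rw [zero_smul] at hη
    exact hw10 hη
  have hor := angle_zero (K := fun b => traceField (Γ b)) (k := 1)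
    (by intro b; fin_cases b; exacts [hcm0, hcm1])
    (by intro b; fin_cases b; exacts [hemb0, hemb1]) w₀ hw00 hw0
    (fun b => if b = 0 then μ₀ else star η * μ₁)
    (by
      intro b
      fin_cases b
      · exact hμ0
      · exact mul_ne_zero (star_ne_zero.2 hη0) hμ1) Γ (fun b => if b = 0 then N₀ else N₁)
    (by intro b; fin_cases b; exacts [hN0, hN1])
    (by
      intro b
      fin_cases b
      · exact hT0
      · intro β hβ
        obtain ⟨γ, hγ, he⟩ := hT1 β hβ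
        refine ⟨γ, hγ, ?_⟩
        rw [he, hη]
        have e1 : (Fin.cons 0 (η • w₀) : Fin (1 + 1 + 1) → ℂ) = η • Fin.cons 0 w₀ := by
          ext i
          refine Fin.cases ?_ (fun i => ?_) i
          · simp
          · simp
        rw [e1, T_smul_left]
        congr 1
        ext i
        refine Fin.cases ?_ (fun i => ?_) i
        · simp
          ring
        · simp)
    g X ζ hζ hg (hybrid Γ g) hd (fun b γ hγ => Subgroup.subset_closure ⟨b, γ, hγ, rfl⟩)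
  rcases hor with h | h
  · exfalso
    apply ho
    have h1 := (cosSq_eq hζ hX hg).1
    rw [h, mul_zero, cosSq] at h1
    rcases mul_eq_zero.1 h1 with h2 | h2
    · exact star_eq_zero.1 h2
    · exact h2
  · exact h

end Pool.Agent.Lib.MP_5d4057_al.Hyb
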