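import Pool.Agent.Lib.MP_5d4057_al.Hyb.Arith
import Pool.Agent.Lib.MP_5d4057_al.Hyb.FinalA

/-! Comparison of `IsArith` (all arithmetic lattices) with `IsArithmetic` (contained in `SU(H,K)`). -/

set_option autoImplicit false

namespace Pool.Agent.Lib.MP_5d4057_al.Hyb

open Matrix Pool.Agent.Lib.MP_5d4057_al

section integral

/-- The trace of a complex matrix which is integral over `ℤ` is an algebraic integer. -/
theorem isIntegral_trace_of_isIntegral {n : ℕ} (A : Matrix (Fin n) (Fin n) ℂ)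
    (h : IsIntegral ℤ A) : IsIntegral ℤ A.trace := by
  rcases Nat.eq_zero_or_pos n with h0 | h0
  · subst h0
    rw [Matrix.trace, Finset.univ_eq_empty, Finset.sum_empty]
    exact isIntegral_zero
  have : Nonempty (Fin n) := ⟨⟨0, h0⟩⟩
  rw [Matrix.trace_eq_sum_roots_charpoly]
  refine IsIntegral.multiset_sum fun μ hμ => ?_
  have hroot : A.charpoly.IsRoot μ := (Polynomial.mem_roots'.1 hμ).2
  have hs : μ ∈ spectrum ℂ A := Matrix.mem_spectrum_iff_isRoot_charpoly.2 hroot
  obtain ⟨p, hp, hpe⟩ := h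
  refine ⟨p, hp, ?_⟩
  have h1 := spectrum.subset_polynomial_aeval A (p.map (algebraMap ℤ ℂ)) ⟨μ, hs, rfl⟩
  have h2 : Polynomial.aeval A (p.map (algebraMap ℤ ℂ)) = 0 := by
    rw [Polynomial.aeval_map_algebraMap]
    exact hpe
  rw [h2, spectrum.zero_eq, Set.mem_singleton_iff] at h1
  rw [Polynomial.eval₂_eq_eval_map]
  exact h1

/-- The elements of an order are integral over `ℤ`. -/
theorem isIntegral_of_mem_fg {R : Type} [Ring R] (O : Subring R) (hO : O.toAddSubgroup.FG) {x : R}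
    (hx : x ∈ O) : IsIntegral ℤ x := by
  refine IsIntegral.of_mem_of_fg (subalgebraOfSubring O) ?_ x hx
  rw [Submodule.fg_iff_addSubgroup_fg]
  exact hO

/-- W2. The traces of an arithmetic lattice are algebraic integers: a power of `γ` lies in the order,
so it is a root of a monic integer polynomial; hence all eigenvalues of `γ` are integral. -/
theorem IsArith.integral {m : ℕ} {Γ : Subgroup (SUGroup m)} (h : IsArith m Γ) :
    ∀ γ ∈ Γ, IsIntegral ℤ γ.toMatrix.trace := by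
  obtain ⟨K, A, O, -, hO, hc⟩ := h
  intro γ hγ
  have h1 : (unitPoints m O).relIndex Γ ≠ 0 := hc.2
  obtain ⟨r, hr, -, hmem⟩ := Subgroup.exists_pow_mem_of_index_ne_zero h1 ⟨γ, hγ⟩
  have h2 : γ ^ r ∈ unitPoints m O := hmem
  refine isIntegral_trace_of_isIntegral _ (IsIntegral.of_pow hr ?_)
  have h3 := h2.1
  rw [toMatrix_pow] at h3
  exact isIntegral_of_mem_fg O hO.fg h3

end integral

section form

variable {m : ℕ} {K : Subfield ℂ}

/-- The algebra `B M(K) B⁻¹`. -/
def entAlg (K : Subfield ℂ) (B : Matrix (Fin (m + 1)) (Fin (m + 1)) ℂ) (hB : IsUnit B.det) :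
    Subalgebra K (Matrix (Fin (m + 1)) (Fin (m + 1)) ℂ) where
  carrier := {a | EntriesIn K B a}
  mul_mem' {a b} ha hb := EntriesIn.mul (R := K.toSubring) ha hb
  one_mem' := EntriesIn.one (R := K.toSubring)
  add_mem' {a b} ha hb := fun i j => by
    rw [Matrix.mul_add, Matrix.add_mul, Matrix.add_apply]
    exact K.add_mem (ha i j) (hb i j)
  zero_mem' := fun i j => by
    rw [Matrix.mul_zero, Matrix.zero_mul]
    exact K.zero_mem
  algebraMap_mem' c := fun i j => by
    have h1 : (algebraMap K (Matrix (Fin (m + 1)) (Fin (m + 1)) ℂ)) c = (c : ℂ) • 1 := by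
      rw [Algebra.algebraMap_eq_smul_one]
      rfl
    rw [h1, Matrix.mul_smul, Matrix.smul_mul, Matrix.mul_one, Matrix.nonsing_inv_mul B hB,
      Matrix.smul_apply, Matrix.one_apply, smul_eq_mul]
    split_ifs
    · rw [mul_one]; exact c.2
    · rw [mul_zero]; exact K.zero_mem

/-- The order `B M(O_K) B⁻¹`. -/
def entOrd (K : Subfield ℂ) (B : Matrix (Fin (m + 1)) (Fin (m + 1)) ℂ) :
    Subring (Matrix (Fin (m + 1)) (Fin (m + 1)) ℂ) where
  carrier := {a | EntriesIn (integers K) B a}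
  mul_mem' {a b} ha hb := EntriesIn.mul ha hb
  one_mem' := EntriesIn.one
  add_mem' {a b} ha hb := fun i j => by
    rw [Matrix.mul_add, Matrix.add_mul, Matrix.add_apply]
    exact (integers K).add_mem (ha i j) (hb i j)
  zero_mem' := fun i j => by
    rw [Matrix.mul_zero, Matrix.zero_mul]
    exact (integers K).zero_mem
  neg_mem' {a} ha := fun i j => by
    rw [Matrix.mul_neg, Matrix.neg_mul, Matrix.neg_apply]
    exact (integers K).neg_mem (ha i j)

/-- `G ↦ B G B⁻¹`. -/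
noncomputable def entLin (K : Subfield ℂ) (B : Matrix (Fin (m + 1)) (Fin (m + 1)) ℂ) :
    Matrix (Fin (m + 1)) (Fin (m + 1)) K →ₗ[K] Matrix (Fin (m + 1)) (Fin (m + 1)) ℂ where
  toFun G := B * G.map (fun x : K => (x : ℂ)) * B⁻¹
  map_add' G G' := by
    have h1 : (G + G').map (fun x : K => (x : ℂ)) =
        G.map (fun x : K => (x : ℂ)) + G'.map (fun x : K => (x : ℂ)) := by
      ext i j; rfl
    rw [h1, Matrix.mul_add, Matrix.add_mul]
  map_smul' c G := by
    have h1 : (c • G).map (fun x : K => (x : ℂ)) = (c : ℂ) • G.map (fun x : K => (x : ℂ)) := by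
      ext i j; rfl
    rw [h1, Matrix.mul_smul, Matrix.smul_mul]
    rfl

theorem inv_mul_ent (B : Matrix (Fin (m + 1)) (Fin (m + 1)) ℂ) (hB : IsUnit B.det)
    (X : Matrix (Fin (m + 1)) (Fin (m + 1)) ℂ) : B⁻¹ * (B * X * B⁻¹) * B = X := by
  rw [Matrix.mul_assoc B, ← Matrix.mul_assoc B⁻¹, Matrix.nonsing_inv_mul B hB, Matrix.one_mul,
    Matrix.mul_assoc, Matrix.nonsing_inv_mul B hB, Matrix.mul_one]

theorem ent_mul_inv (B : Matrix (Fin (m + 1)) (Fin (m + 1)) ℂ) (hB : IsUnit B.det)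
    (X : Matrix (Fin (m + 1)) (Fin (m + 1)) ℂ) : B * (B⁻¹ * X * B) * B⁻¹ = X := by
  rw [Matrix.mul_assoc B⁻¹, ← Matrix.mul_assoc B, Matrix.mul_nonsing_inv B hB, Matrix.one_mul,
    Matrix.mul_assoc, Matrix.mul_nonsing_inv B hB, Matrix.mul_one]

theorem entLin_range (B : Matrix (Fin (m + 1)) (Fin (m + 1)) ℂ) (hB : IsUnit B.det) :
    LinearMap.range (entLin K B) = Subalgebra.toSubmodule (entAlg K B hB) := by
  ext a
  constructor
  · rintro ⟨G, rfl⟩
    show EntriesIn K B (B * G.map (fun x : K => (x : ℂ)) * B⁻¹)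
    intro i j
    rw [inv_mul_ent B hB]
    exact (G i j).2
  · intro ha
    have ha' : EntriesIn K B a := ha
    refine ⟨Matrix.of fun i j => ⟨(B⁻¹ * a * B) i j, ha' i j⟩, ?_⟩
    show B * (B⁻¹ * a * B) * B⁻¹ = a
    exact ent_mul_inv B hB a

theorem entLin_injective (B : Matrix (Fin (m + 1)) (Fin (m + 1)) ℂ) (hB : IsUnit B.det) :
    Function.Injective (entLin K B) := by
  intro G G' h
  have h1 : B * G.map (fun x : K => (x : ℂ)) * B⁻¹ = B * G'.map (fun x : K => (x : ℂ)) * B⁻¹ := h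
  have h2 := congrArg (fun X => B⁻¹ * X * B) h1
  simp only [inv_mul_ent B hB] at h2
  ext i j
  exact congrFun (congrFun h2 i) j

theorem finrank_entAlg (B : Matrix (Fin (m + 1)) (Fin (m + 1)) ℂ) (hB : IsUnit B.det) :
    Module.finrank K (entAlg K B hB) = (m + 1) ^ 2 := by
  rw [← Subalgebra.finrank_toSubmodule, ← entLin_range B hB,
    LinearMap.finrank_range_of_inj (entLin_injective B hB), Module.finrank_matrix,
    Fintype.card_fin, Module.finrank_self, mul_one, sq]

theorem span_entAlg (B : Matrix (Fin (m + 1)) (Fin (m + 1)) ℂ) (hB : IsUnit B.det) :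
    Submodule.span ℂ (entAlg K B hB : Set (Matrix (Fin (m + 1)) (Fin (m + 1)) ℂ)) = ⊤ := by
  rw [eq_top_iff]
  rintro X -
  have h1 : X = ∑ i, ∑ j, (B⁻¹ * X * B) i j • (B * single i j 1 * B⁻¹) := by
    have h2 := matrix_eq_sum_single (B⁻¹ * X * B)
    have h3 : X = B * (∑ i, ∑ j, single i j ((B⁻¹ * X * B) i j)) * B⁻¹ := by
      rw [← h2, ent_mul_inv B hB]
    conv_lhs => rw [h3]
    rw [Finset.mul_sum, Finset.sum_mul]
    refine Finset.sum_congr rfl fun i _ => ?_
    rw [Finset.mul_sum, Finset.sum_mul]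
    refine Finset.sum_congr rfl fun j _ => ?_
    rw [← Matrix.smul_mul, ← Matrix.mul_smul, smul_single, smul_eq_mul, mul_one]
  rw [h1]
  refine Submodule.sum_mem _ fun i _ => Submodule.sum_mem _ fun j _ =>
    Submodule.smul_mem _ _ (Submodule.subset_span ?_)
  show EntriesIn K B (B * single i j 1 * B⁻¹)
  intro a b
  rw [inv_mul_ent B hB, Matrix.single_apply]
  split_ifs
  · exact K.one_mem
  · exact K.zero_mem

/-- The adjoint in the basis `B`. -/
theorem inv_adjoint_mul {H : Matrix (Fin (m + 1)) (Fin (m + 1)) K}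
    {B : Matrix (Fin (m + 1)) (Fin (m + 1)) ℂ} (hf : IsForm m K H B)
    (a : Matrix (Fin (m + 1)) (Fin (m + 1)) ℂ) :
    B⁻¹ * adjoint m a * B = (H.map (fun x : K => (x : ℂ)))⁻¹ * (B⁻¹ * a * B)ᴴ *
      H.map (fun x : K => (x : ℂ)) := by
  have hB : IsUnit B.det := isUnit_iff_ne_zero.2 hf.det
  have hBH : IsUnit Bᴴ.det := by
    rw [det_conjTranspose]
    exact hB.star
  rw [← hf.form]
  have h1 : (Bᴴ * J m * B)⁻¹ = B⁻¹ * J m * (Bᴴ)⁻¹ := by
    rw [Matrix.mul_inv_rev, Matrix.mul_inv_rev]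
    have h2 : (J m)⁻¹ = J m := Matrix.inv_eq_left_inv (J_mul_J m)
    rw [h2, Matrix.mul_assoc]
  rw [h1, conjTranspose_mul, conjTranspose_mul, adjoint, conjTranspose_nonsing_inv]
  calc B⁻¹ * (J m * aᴴ * J m) * B = B⁻¹ * J m * 1 * aᴴ * 1 * J m * B := by
        simp only [Matrix.mul_assoc, Matrix.one_mul]
    _ = B⁻¹ * J m * ((Bᴴ)⁻¹ * Bᴴ) * aᴴ * ((Bᴴ)⁻¹ * Bᴴ) * J m * B := by
        rw [Matrix.nonsing_inv_mul _ hBH]
    _ = _ := by simp only [Matrix.mul_assoc]

/-- The matrix over `K` of the adjoint. -/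
theorem exists_adj (hcm : IsCM K) (G : Matrix (Fin (m + 1)) (Fin (m + 1)) K) :
    ∃ G' : Matrix (Fin (m + 1)) (Fin (m + 1)) K,
      G'.map (fun x : K => (x : ℂ)) = (G.map (fun x : K => (x : ℂ)))ᴴ ∧
      ∀ τ : K →+* ℂ, G'.map τ = (G.map τ)ᴴ := by
  refine ⟨Matrix.of fun i k => ⟨(starRingEnd ℂ) (G k i : ℂ), hcm.2.2.1 _ (G k i).2⟩, ?_, fun τ => ?_⟩
  · ext i j
    rfl
  · ext i j
    exact hcm.2.2.2 τ (G j i) _ rfl

theorem map_coe_mul (G G' : Matrix (Fin (m + 1)) (Fin (m + 1)) K) :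
    (G * G').map (fun x : K => (x : ℂ)) =
      G.map (fun x : K => (x : ℂ)) * G'.map (fun x : K => (x : ℂ)) :=
  Matrix.map_mul (f := K.subtype)

theorem map_coe_inv (G : Matrix (Fin (m + 1)) (Fin (m + 1)) K) (hG : G.det ≠ 0) :
    (G⁻¹).map (fun x : K => (x : ℂ)) = (G.map (fun x : K => (x : ℂ)))⁻¹ := by
  symm
  apply Matrix.inv_eq_left_inv
  rw [← map_coe_mul, Matrix.nonsing_inv_mul _ (isUnit_iff_ne_zero.2 hG)]
  exact Matrix.map_one _ rfl rfl

theorem det_form_ne {H : Matrix (Fin (m + 1)) (Fin (m + 1)) K}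
    {B : Matrix (Fin (m + 1)) (Fin (m + 1)) ℂ} (hf : IsForm m K H B) : H.det ≠ 0 := by
  intro h0
  have h1 : (H.map (fun x : K => (x : ℂ))).det = ((H.det : K) : ℂ) :=
    (RingHom.map_det K.subtype H).symm
  rw [h0, ← hf.form, det_mul, det_mul, det_conjTranspose] at h1
  have h2 : (J m).det ≠ 0 := by
    intro h
    have := congrArg det (J_mul_J m)
    rw [det_mul, h, mul_zero, det_one] at this
    exact zero_ne_one this
  exact mul_ne_zero (mul_ne_zero (star_ne_zero.2 hf.det) h2) hf.det h1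

section order

open scoped ComplexOrder MatrixOrder Matrix.Norms.L2Operator

/-- The trace of `h⁻¹ gᴴ h g` is nonnegative for a positive definite `h`. -/
theorem trace_adj_nonneg {n : ℕ} {h : Matrix (Fin n) (Fin n) ℂ} (hh : h.PosDef)
    (g : Matrix (Fin n) (Fin n) ℂ) : 0 ≤ ((h⁻¹ * gᴴ * h * g).trace).re := by
  obtain ⟨c, hc⟩ : ∃ c : Matrix (Fin n) (Fin n) ℂ, h⁻¹ = cᴴ * c :=
    CStarAlgebra.nonneg_iff_eq_star_mul_self.mp hh.inv.posSemidef.nonneg
  have h1 : (c * (gᴴ * h * g) * cᴴ).PosSemidef :=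
    (hh.posSemidef.conjTranspose_mul_mul_same g).mul_mul_conjTranspose_same c
  have h2 : (h⁻¹ * gᴴ * h * g).trace = (c * (gᴴ * h * g) * cᴴ).trace := by
    rw [hc, Matrix.trace_mul_comm (c * (gᴴ * h * g)) cᴴ]
    simp only [Matrix.mul_assoc]
  rw [h2]
  have h3 := h1.trace_nonneg
  exact (Complex.le_def.1 h3).1

end order

open scoped ComplexOrder in
theorem isUnitaryForm_of_form {H : Matrix (Fin (m + 1)) (Fin (m + 1)) K}
    {B : Matrix (Fin (m + 1)) (Fin (m + 1)) ℂ} (hf : IsForm m K H B) (hB : IsUnit B.det) :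
    IsUnitaryForm m K (entAlg K B hB) where
  cm := hf.cm
  rank := finrank_entAlg B hB
  span := span_entAlg B hB
  adj a ha := by
    have ha' : EntriesIn K B a := ha
    obtain ⟨G', hG', -⟩ := exists_adj hf.cm
      (Matrix.of fun i j => (⟨(B⁻¹ * a * B) i j, ha' i j⟩ : K))
    have h1 : (Matrix.of fun i j => (⟨(B⁻¹ * a * B) i j, ha' i j⟩ : K)).map
        (fun x : K => (x : ℂ)) = B⁻¹ * a * B := rfl
    rw [h1] at hG'
    show EntriesIn K B (adjoint m a)
    intro i j
    rw [inv_adjoint_mul hf, ← hG', ← map_coe_inv H (det_form_ne hf), ← map_coe_mul, ← map_coe_mul]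
    exact ((H⁻¹ * G' * H) i j).2
  pos τ := by
    rcases hf.definite τ with h | h | h
    · exact Or.inl h
    · exact Or.inr (Or.inl h)
    · refine Or.inr (Or.inr fun a ha x hx => ?_)
      have ha' : EntriesIn K B a := ha
      obtain ⟨G, hG⟩ : ∃ G : Matrix (Fin (m + 1)) (Fin (m + 1)) K,
          G.map (fun x : K => (x : ℂ)) = B⁻¹ * a * B :=
        ⟨Matrix.of fun i j => ⟨(B⁻¹ * a * B) i j, ha' i j⟩, rfl⟩
      obtain ⟨G', hG', hτ⟩ := exists_adj hf.cm G
      have h1 : (x : ℂ) = (((H⁻¹ * G' * H * G).trace : K) : ℂ) := by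
        have h2 : (adjoint m a * a).trace = (B⁻¹ * (adjoint m a * a) * B).trace := by
          rw [Matrix.trace_mul_comm (B⁻¹ * (adjoint m a * a)) B, ← Matrix.mul_assoc,
            Matrix.mul_nonsing_inv B hB, Matrix.one_mul]
        rw [hx, h2, inv_mul_conj_mul, inv_adjoint_mul hf, ← hG, ← hG',
          ← map_coe_inv H (det_form_ne hf), ← map_coe_mul, ← map_coe_mul, ← map_coe_mul]
        simp only [Matrix.trace, Matrix.diag]
        rw [AddSubmonoidClass.coe_finsetSum]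
        rfl
      have h3 : x = (H⁻¹ * G' * H * G).trace := Subtype.ext h1
      have h4 : τ x = ((H.map τ)⁻¹ * (G.map τ)ᴴ * H.map τ * G.map τ).trace := by
        have h5 : (H⁻¹).map τ = (H.map τ)⁻¹ := by
          symm
          apply Matrix.inv_eq_left_inv
          rw [← Matrix.map_mul, Matrix.nonsing_inv_mul _ (isUnit_iff_ne_zero.2 (det_form_ne hf))]
          exact Matrix.map_one _ (map_zero τ) (map_one τ)
        rw [h3, ← hτ τ, ← h5, ← Matrix.map_mul, ← Matrix.map_mul, ← Matrix.map_mul]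
        exact AddMonoidHom.map_trace τ.toAddMonoidHom (H⁻¹ * G' * H * G)
      rw [h4]
      rcases h with h | h
      · exact trace_adj_nonneg h _
      · have h6 := trace_adj_nonneg h (G.map τ)
        have h7 : (-(H.map τ))⁻¹ = -(H.map τ)⁻¹ := by
          apply Matrix.inv_eq_left_inv
          rw [neg_mul_neg, Matrix.nonsing_inv_mul]
          have h8 : IsUnit (-(H.map τ)).det := (Matrix.isUnit_iff_isUnit_det _).1 h.isUnit
          rw [det_neg] at h8
          exact isUnit_of_mul_isUnit_right h8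
        rw [h7] at h6
        have h9 : -(H.map τ)⁻¹ * (G.map τ)ᴴ * -(H.map τ) * G.map τ =
            (H.map τ)⁻¹ * (G.map τ)ᴴ * H.map τ * G.map τ := by
          rw [Matrix.neg_mul, neg_mul_neg]
        rwa [h9] at h6

/-- `Y ↦ B Y B⁻¹` for integral `Y`. -/
noncomputable def intHom (K : Subfield ℂ) (B : Matrix (Fin (m + 1)) (Fin (m + 1)) ℂ) :
    (Fin (m + 1) → Fin (m + 1) → NumberField.RingOfIntegers K) →+
      Matrix (Fin (m + 1)) (Fin (m + 1)) ℂ where
  toFun Y := B * Matrix.of (fun i j => ((Y i j : K) : ℂ)) * B⁻¹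
  map_zero' := by
    have h1 : Matrix.of (fun i j : Fin (m + 1) =>
        ((((0 : Fin (m + 1) → Fin (m + 1) → NumberField.RingOfIntegers K) i j : K)) : ℂ)) = 0 := by
      ext i j; simp
    rw [h1, Matrix.mul_zero, Matrix.zero_mul]
  map_add' Y Y' := by
    have h1 : Matrix.of (fun i j : Fin (m + 1) => (((Y + Y') i j : K) : ℂ)) =
        Matrix.of (fun i j => ((Y i j : K) : ℂ)) + Matrix.of (fun i j => ((Y' i j : K) : ℂ)) := by
      ext i j; simp
    rw [h1, Matrix.mul_add, Matrix.add_mul]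

theorem mem_integers_lift {x : ℂ} (hx : x ∈ integers K) :
    ∃ y : NumberField.RingOfIntegers K, ((y : K) : ℂ) = x := by
  obtain ⟨h1, h2⟩ := hx
  have h2' : IsIntegral ℤ x := h2
  have h1' : x ∈ K := h1
  have h3 : IsIntegral ℤ (⟨x, h1'⟩ : K) :=
    (isIntegral_algHom_iff (K.subtype.toIntAlgHom) Subtype.val_injective).1 h2'
  exact ⟨⟨⟨x, h1'⟩, h3⟩, rfl⟩

theorem coe_mem_integers (y : NumberField.RingOfIntegers K) : ((y : K) : ℂ) ∈ integers K := by
  refine ⟨(y : K).2, ?_⟩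
  exact y.2.map (K.subtype.toIntAlgHom)

theorem intHom_range (B : Matrix (Fin (m + 1)) (Fin (m + 1)) ℂ) (hB : IsUnit B.det) :
    (intHom K B).range = (entOrd K B).toAddSubgroup := by
  ext a
  constructor
  · rintro ⟨Y, rfl⟩
    show EntriesIn (integers K) B (B * Matrix.of (fun i j => ((Y i j : K) : ℂ)) * B⁻¹)
    intro i j
    rw [inv_mul_ent B hB]
    exact coe_mem_integers _
  · intro ha
    have ha' : EntriesIn (integers K) B a := ha
    choose y hy using fun i j => mem_integers_lift (ha' i j)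
    refine ⟨y, ?_⟩
    show B * Matrix.of (fun i j => ((y i j : K) : ℂ)) * B⁻¹ = a
    have h1 : Matrix.of (fun i j => ((y i j : K) : ℂ)) = B⁻¹ * a * B := by
      ext i j
      exact hy i j
    rw [h1, ent_mul_inv B hB]

theorem fg_entOrd (hK : NumberField K) (B : Matrix (Fin (m + 1)) (Fin (m + 1)) ℂ)
    (hB : IsUnit B.det) : (entOrd K B).toAddSubgroup.FG := by
  rw [← intHom_range B hB]
  have h6 : Module.Finite ℤ (Fin (m + 1) → Fin (m + 1) → NumberField.RingOfIntegers K) :=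
    inferInstance
  have h7 : AddGroup.FG (Fin (m + 1) → Fin (m + 1) → NumberField.RingOfIntegers K) :=
    Module.Finite.iff_addGroup_fg.1 h6
  have h8 : AddGroup.FG (intHom K B).range := AddGroup.fg_range _
  exact (AddGroup.fg_iff_addSubgroup_fg _).1 h8

theorem isOrder_ent (hK : NumberField K) (B : Matrix (Fin (m + 1)) (Fin (m + 1)) ℂ)
    (hB : IsUnit B.det) : IsOrder (entAlg K B hB) (entOrd K B) where
  sub a ha := fun i j => by
    have ha' : EntriesIn (integers K) B a := ha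
    exact (ha' i j).1
  fg := fg_entOrd hK B hB
  full a ha := by
    have ha' : EntriesIn K B a := ha
    obtain ⟨N, hN, h⟩ := exists_denom hK
      (fun p : Fin (m + 1) × Fin (m + 1) => (⟨(B⁻¹ * a * B) p.1 p.2, ha' p.1 p.2⟩ : K))
    refine ⟨N, hN, ?_⟩
    have h1 : EntriesIn (integers K) B ((N : ℂ) • a) := by
      intro i j
      rw [Matrix.mul_smul, Matrix.smul_mul]
      exact h (i, j)
    exact h1

/-- W1. A group commensurable with `SU(H, O_K)` is arithmetic: `A = B M(K) B⁻¹`, `O = B M(O_K) B⁻¹`;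
positivity: `adjoint (B a B⁻¹) = B H⁻¹ aᴴ H B⁻¹` and `tr (h⁻¹ aᴴ h a) ≥ 0` for definite `h`. -/
theorem isArith_of_form {H : Matrix (Fin (m + 1)) (Fin (m + 1)) K}
    {B : Matrix (Fin (m + 1)) (Fin (m + 1)) ℂ} (h : IsForm m K H B) {Γ : Subgroup (SUGroup m)}
    (hΓ : Subgroup.Commensurable Γ (integralPoints m K B)) : IsArith m Γ := by
  have hB : IsUnit B.det := isUnit_iff_ne_zero.2 h.det
  exact ⟨K, entAlg K B hB, entOrd K B, isUnitaryForm_of_form h hB, isOrder_ent h.cm.1 B hB, hΓ⟩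

theorem IsArithmetic.isArith {Γ : Subgroup (SUGroup m)} (h : IsArithmetic m Γ) :
    IsArith m Γ := by
  obtain ⟨K, H, B, h1, _, h2⟩ := h
  exact isArith_of_form h1 h2

end form

end Pool.Agent.Lib.MP_5d4057_al.Hyb
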