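import Pool.Agent.Lib.MP_5d4057_al.Hyb.Rk

namespace Pool.Agent.Lib.MP_5d4057_al.Hyb

open Matrix Pool.Agent.Lib.MP_5d4057_al Filter Topology

/-- The operator `y ↦ i ⟨w, y⟩ w`; its square vanishes for a null vector `w`. -/
noncomputable def nil (m : ℕ) (w : Fin (m + 1) → ℂ) : Matrix (Fin (m + 1)) (Fin (m + 1)) ℂ :=
  Complex.I • rk m w w

private theorem nil_mul_nil (m : ℕ) (w : Fin (m + 1) → ℂ) (hw : hm m w w = 0) :
    nil m w * nil m w = 0 := by
  rw [nil, Matrix.smul_mul, Matrix.mul_smul, rk_mul, hw, zero_smul, smul_zero, smul_zero]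

private theorem nil_conj (m : ℕ) (w : Fin (m + 1) → ℂ) :
    (nil m w)ᴴ * J m = -(J m * nil m w) := by
  rw [nil, conjTranspose_smul, Matrix.smul_mul, rk_conjTranspose, Matrix.mul_smul, ← neg_smul]
  congr 1
  simp

private theorem nil_pres (m : ℕ) (w : Fin (m + 1) → ℂ) (hw : hm m w w = 0) :
    (1 + nil m w)ᴴ * J m * (1 + nil m w) = J m := by
  rw [conjTranspose_add, conjTranspose_one, Matrix.add_mul, Matrix.one_mul, nil_conj,
    Matrix.mul_add, Matrix.mul_one, Matrix.add_mul, Matrix.neg_mul, Matrix.mul_assoc,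
    nil_mul_nil m w hw, Matrix.mul_zero, neg_zero, add_zero]
  abel

private theorem nil_det (m : ℕ) (w : Fin (m + 1) → ℂ) (hw : hm m w w = 0) :
    (1 + nil m w).det = 1 := by
  have h : nil m w = replicateCol Unit (Complex.I • w) * replicateRow Unit (star w ᵥ* J m) := by
    rw [nil, rk]
    ext i j
    simp [vecMulVec_apply, Matrix.mul_apply, mul_assoc]
  rw [h, det_one_add_replicateCol_mul_replicateRow]
  rw [dotProduct_smul, ← dotProduct_mulVec]
  have : star w ⬝ᵥ J m *ᵥ w = 0 := hw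
  rw [this]
  simp

private theorem one_add_nil_pow (m : ℕ) (w : Fin (m + 1) → ℂ) (hw : hm m w w = 0) (n : ℕ) :
    (1 + nil m w) ^ n = 1 + (n : ℂ) • nil m w := by
  induction n with
  | zero => simp
  | succ n ih =>
    rw [pow_succ, ih, Matrix.add_mul, Matrix.one_mul, Matrix.mul_add, Matrix.mul_one,
      Matrix.smul_mul, nil_mul_nil m w hw, smul_zero, add_zero, Nat.cast_succ, add_smul, one_smul]
    abel

/-- Let `w` be null. Put `N = nil m w`. Then `N * N = 0` (`rk_mul`), `Nᴴ * J + J * N = 0`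
(`rk_conjTranspose`) and `det (1 + N) = 1` (rank one: `det (1 + vecMulVec u v) = 1 + v ⬝ᵥ u`, see
`Matrix.det_one_add_replicateCol_mul_replicateRow` or similar), so `u = 1 + N` is an element of
`SUGroup m` (`ofMatrix`), and `u ^ n = 1 + n • N`.
For `j : ℕ` let `U j` be an open neighbourhood of `1` in `SUGroup m` such that
`‖g.toMatrix - 1‖ < 1 / (j + 1)` and `‖(g⁻¹).toMatrix - 1‖ < 1 / (j + 1)` for `g ∈ U j` (any norm on
matrices, or work entrywise). Apply
`recurrence Γ hΓ (u ^ (j + 1)) (U j)` (file `Recur.lean`): there are `n ≥ 1`, `u1, u2 ∈ U j` with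
`u2⁻¹ * (u ^ (j + 1)) ^ n * u1 ∈ Γ`. Put `M = (j + 1) * n ≥ j + 1`, `t j = 1 / M` and
`γ j = u2⁻¹ * u ^ M * u1`; then `t j • γ j = u2⁻¹ * (t j • 1 + N) * u1 → N`. -/
theorem approx_null (m : ℕ) (Γ : Subgroup (SUGroup m)) (hΓ : IsLattice Γ) (w : Fin (m + 1) → ℂ)
    (hw : hm m w w = 0) :
    ∃ (γ : ℕ → SUGroup m) (t : ℕ → ℝ), (∀ j, γ j ∈ Γ) ∧ Tendsto t atTop (𝓝 0) ∧
      Tendsto (fun j => (t j : ℂ) • (γ j).toMatrix) atTop (𝓝 (nil m w)) := by
  set u : SUGroup m := ofMatrix (1 + nil m w) (nil_det m w hw) (nil_pres m w hw) with hu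
  obtain ⟨V, hV⟩ := (𝓝 (1 : SUGroup m)).exists_antitone_basis
  have hrec : ∀ j : ℕ, ∃ n : ℕ, 1 ≤ n ∧ ∃ u1 ∈ interior (V j), ∃ u2 ∈ interior (V j),
      u2⁻¹ * (u ^ (j + 1)) ^ n * u1 ∈ Γ := fun j =>
    recurrence Γ hΓ (u ^ (j + 1)) (interior (V j)) isOpen_interior
      (mem_interior_iff_mem_nhds.2 (hV.1.mem_of_mem trivial))
  choose n hn u1 hu1 u2 hu2 hmem using hrec
  have h1 : Tendsto u1 atTop (𝓝 1) := hV.tendsto fun j => interior_subset (hu1 j)
  have h2 : Tendsto u2 atTop (𝓝 1) := hV.tendsto fun j => interior_subset (hu2 j)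
  have h1m : Tendsto (fun j => (u1 j).toMatrix) atTop (𝓝 1) := by
    have := ((continuous_toMatrix m).tendsto 1).comp h1
    rwa [toMatrix_one] at this
  have h2m : Tendsto (fun j => ((u2 j)⁻¹).toMatrix) atTop (𝓝 1) := by
    have h2' : Tendsto (fun j => (u2 j)⁻¹) atTop (𝓝 (1 : SUGroup m)⁻¹) := h2.inv
    rw [inv_one] at h2'
    have := ((continuous_toMatrix m).tendsto 1).comp h2'
    rwa [toMatrix_one] at this
  have hM : ∀ j : ℕ, ((j : ℝ) + 1) ≤ (((j + 1) * n j : ℕ) : ℝ) := by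
    intro j
    have : j + 1 ≤ (j + 1) * n j := Nat.le_mul_of_pos_right _ (hn j)
    exact_mod_cast this
  have hM0 : ∀ j : ℕ, (0 : ℝ) < (((j + 1) * n j : ℕ) : ℝ) := fun j =>
    lt_of_lt_of_le (by positivity) (hM j)
  have ht : Tendsto (fun j : ℕ => 1 / (((j + 1) * n j : ℕ) : ℝ)) atTop (𝓝 0) := by
    refine squeeze_zero (fun j => (div_nonneg zero_le_one (hM0 j).le)) (fun j => ?_)
      tendsto_one_div_add_atTop_nhds_zero_nat
    exact one_div_le_one_div_of_le (by positivity) (hM j)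
  refine ⟨fun j => (u2 j)⁻¹ * (u ^ (j + 1)) ^ (n j) * u1 j,
    fun j => 1 / (((j + 1) * n j : ℕ) : ℝ), hmem, ht, ?_⟩
  have heq : ∀ j, ((1 / (((j + 1) * n j : ℕ) : ℝ) : ℝ) : ℂ) •
      ((u2 j)⁻¹ * (u ^ (j + 1)) ^ (n j) * u1 j).toMatrix =
      ((u2 j)⁻¹).toMatrix * (((1 / (((j + 1) * n j : ℕ) : ℝ) : ℝ) : ℂ) • 1 + nil m w) *
        (u1 j).toMatrix := by
    intro j
    have hne : ((((j + 1) * n j : ℕ) : ℝ) : ℂ) ≠ 0 := Complex.ofReal_ne_zero.2 (hM0 j).ne'
    rw [toMatrix_mul, toMatrix_mul, ← pow_mul, toMatrix_pow, hu, toMatrix_ofMatrix,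
      one_add_nil_pow m w hw, ← Matrix.smul_mul, ← Matrix.mul_smul, smul_add, smul_smul]
    congr 3
    have : ((1 / (((j + 1) * n j : ℕ) : ℝ) : ℝ) : ℂ) * (((j + 1) * n j : ℕ) : ℂ) = 1 := by
      rw [← Complex.ofReal_natCast, ← Complex.ofReal_mul, one_div, inv_mul_cancel₀ (hM0 j).ne',
        Complex.ofReal_one]
    rw [this, one_smul]
  simp only [heq]
  have hlim : Tendsto (fun j : ℕ => (((1 / (((j + 1) * n j : ℕ) : ℝ) : ℝ) : ℂ) •
      (1 : Matrix (Fin (m + 1)) (Fin (m + 1)) ℂ) + nil m w)) atTop (𝓝 ((0 : ℂ) • 1 + nil m w)) := by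
    refine Tendsto.add ?_ tendsto_const_nhds
    refine Tendsto.smul ?_ tendsto_const_nhds
    have := (Complex.continuous_ofReal.tendsto 0).comp ht
    rw [Complex.ofReal_zero] at this
    exact this
  have := (h2m.mul hlim).mul h1m
  simpa using this

/-- A real subspace of the finite dimensional real vector space of complex matrices is closed, and
it contains `t j • γ j` (real scalar), see `approx_null`. -/
theorem nil_mem (m : ℕ) (Γ : Subgroup (SUGroup m)) (hΓ : IsLattice Γ) (w : Fin (m + 1) → ℂ)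
    (hw : hm m w w = 0) (S : Submodule ℝ (Matrix (Fin (m + 1)) (Fin (m + 1)) ℂ))
    (hS : ∀ γ ∈ Γ, γ.toMatrix ∈ S) : nil m w ∈ S := by
  obtain ⟨γ, t, hγ, -, hlim⟩ := approx_null m Γ hΓ w hw
  have hcl : IsClosed (S : Set (Matrix (Fin (m + 1)) (Fin (m + 1)) ℂ)) :=
    Submodule.closed_of_finiteDimensional S
  refine hcl.mem_of_tendsto hlim (Eventually.of_forall fun j => ?_)
  have : ((t j : ℂ)) • (γ j).toMatrix = (t j) • (γ j).toMatrix := by
    ext a b
    simp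
  show ((t j : ℂ)) • (γ j).toMatrix ∈ S
  rw [this]
  exact S.smul_mem _ (hS _ (hγ j))

end Pool.Agent.Lib.MP_5d4057_al.Hyb
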