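import Pool.Agent.Lib.MP_5d4057_al.Hyb.Arith
import Pool.Agent.Lib.MP_5d4057_al.Hyb.Top

/-! Orders of the same algebra have commensurable unitary units. -/

set_option autoImplicit false

namespace Pool.Agent.Lib.MP_5d4057_al.Hyb

open Matrix Pool.Agent.Lib.MP_5d4057_al

variable {m : ℕ}

/-- The quotient of a finitely generated abelian group by its multiples of `N`. -/
theorem finite_quot_nsmul {M : Type} [AddCommGroup M] (h : AddGroup.FG M) {N : ℕ} (hN : 0 < N) :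
    Finite (M ⧸ (nsmulAddMonoidHom N : M →+ M).range) := by
  have h1 : Module.Finite ℤ M := Module.Finite.iff_addGroup_fg.2 h
  let P : Submodule ℤ M := AddSubgroup.toIntSubmodule (nsmulAddMonoidHom N : M →+ M).range
  have h2 : Module.IsTorsion ℤ (M ⧸ P) := by
    intro x
    obtain ⟨y, rfl⟩ := Submodule.Quotient.mk_surjective P x
    refine ⟨⟨(N : ℤ), mem_nonZeroDivisors_of_ne_zero (by exact_mod_cast hN.ne')⟩, ?_⟩
    show (N : ℤ) • (Submodule.Quotient.mk y : M ⧸ P) = 0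
    rw [← Submodule.Quotient.mk_smul, Submodule.Quotient.mk_eq_zero]
    exact ⟨y, by simp⟩
  have h3 : Finite (M ⧸ P) := Module.finite_of_fg_torsion (M ⧸ P) h2
  exact h3

/-- A subgroup which contains the elements congruent to one has finite index. -/
theorem relIndex_of_cong {O : Subring (Matrix (Fin (m + 1)) (Fin (m + 1)) ℂ)}
    (hO : O.toAddSubgroup.FG) {N : ℕ} (hN : 0 < N) (Λ Δ : Subgroup (SUGroup m))
    (hΛ : ∀ γ ∈ Λ, γ.toMatrix ∈ O)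
    (hΔ : ∀ γ ∈ Λ, (∃ a ∈ O, γ.toMatrix - 1 = (N : ℂ) • a) →
      (∃ a ∈ O, γ⁻¹.toMatrix - 1 = (N : ℂ) • a) → γ ∈ Δ) :
    Δ.relIndex Λ ≠ 0 := by
  have hfg : AddGroup.FG O.toAddSubgroup := (AddGroup.fg_iff_addSubgroup_fg _).2 hO
  have hQ := finite_quot_nsmul hfg hN
  obtain ⟨φ, hφ⟩ : ∃ φ : Λ → O.toAddSubgroup ⧸
      (nsmulAddMonoidHom N : O.toAddSubgroup →+ O.toAddSubgroup).range,
      φ = fun γ : Λ => (QuotientAddGroup.mk (⟨(γ : SUGroup m).toMatrix, hΛ γ γ.2⟩ :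
        O.toAddSubgroup)) := ⟨_, rfl⟩
  have hdiff : ∀ γ δ : Λ, φ γ = φ δ → ∃ a ∈ O,
      (δ : SUGroup m).toMatrix - (γ : SUGroup m).toMatrix = (N : ℂ) • a := by
    intro γ δ h
    rw [hφ] at h
    obtain ⟨a, ha⟩ := QuotientAddGroup.eq.1 h
    refine ⟨a, a.2, ?_⟩
    have h1 := congrArg (fun x : O.toAddSubgroup => (x : Matrix (Fin (m + 1)) (Fin (m + 1)) ℂ)) ha
    simp only [nsmulAddMonoidHom_apply, AddSubgroup.coe_nsmul, AddSubgroup.coe_add,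
      AddSubgroup.coe_neg] at h1
    rw [sub_eq_neg_add, ← h1, Nat.cast_smul_eq_nsmul]
  have hmem : ∀ γ δ : Λ, φ γ = φ δ → (γ : SUGroup m)⁻¹ * δ ∈ Δ := by
    intro γ δ h
    obtain ⟨a, ha, h1⟩ := hdiff γ δ h
    obtain ⟨a', ha', h1'⟩ := hdiff δ γ h.symm
    have hγ : (γ : SUGroup m)⁻¹.toMatrix ∈ O := hΛ _ (Λ.inv_mem γ.2)
    have hδ : (δ : SUGroup m)⁻¹.toMatrix ∈ O := hΛ _ (Λ.inv_mem δ.2)
    have e1 : (γ : SUGroup m)⁻¹.toMatrix * (γ : SUGroup m).toMatrix = 1 := by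
      rw [← toMatrix_mul, inv_mul_cancel, toMatrix_one]
    have e2 : (δ : SUGroup m)⁻¹.toMatrix * (δ : SUGroup m).toMatrix = 1 := by
      rw [← toMatrix_mul, inv_mul_cancel, toMatrix_one]
    refine hΔ _ (Λ.mul_mem (Λ.inv_mem γ.2) δ.2) ⟨_, O.mul_mem hγ ha, ?_⟩ ⟨_, O.mul_mem hδ ha', ?_⟩
    · rw [toMatrix_mul, ← e1, ← Matrix.mul_sub, h1, Matrix.mul_smul]
    · rw [_root_.mul_inv_rev, inv_inv, toMatrix_mul, ← e2, ← Matrix.mul_sub, h1', Matrix.mul_smul]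
  have hfin : Finite (Λ ⧸ Δ.subgroupOf Λ) := by
    refine Finite.of_injective (fun q : Λ ⧸ Δ.subgroupOf Λ => φ q.out) ?_
    intro q1 q2 h
    have h1 := hmem _ _ h
    have h2 : ((q1.out : Λ) : Λ ⧸ Δ.subgroupOf Λ) = ((q2.out : Λ) : Λ ⧸ Δ.subgroupOf Λ) := by
      rw [QuotientGroup.eq]
      exact h1
    rwa [QuotientGroup.out_eq', QuotientGroup.out_eq'] at h2
  rw [Subgroup.relIndex]
  exact Subgroup.index_ne_zero_of_finite

/-- Orders `O, O'` with `N O ⊆ O'` and `N' O' ⊆ O`. -/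
theorem commensurable_unitPoints {O O' : Subring (Matrix (Fin (m + 1)) (Fin (m + 1)) ℂ)}
    (hO : O.toAddSubgroup.FG) (hO' : O'.toAddSubgroup.FG) {N N' : ℕ} (hN : 0 < N) (hN' : 0 < N')
    (h : ∀ a ∈ O, (N : ℂ) • a ∈ O') (h' : ∀ a ∈ O', (N' : ℂ) • a ∈ O) :
    Subgroup.Commensurable (unitPoints m O) (unitPoints m O') := by
  have key : ∀ {O O' : Subring (Matrix (Fin (m + 1)) (Fin (m + 1)) ℂ)}, O.toAddSubgroup.FG →
      ∀ {N : ℕ}, 0 < N → (∀ a ∈ O, (N : ℂ) • a ∈ O') →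
      (unitPoints m O').relIndex (unitPoints m O) ≠ 0 := by
    intro O O' hO N hN h
    refine relIndex_of_cong hO hN _ _ (fun γ hγ => hγ.1) ?_
    rintro γ hγ ⟨a, ha, h1⟩ ⟨a', ha', h1'⟩
    refine ⟨?_, ?_⟩
    · rw [← sub_add_cancel γ.toMatrix 1, h1]
      exact O'.add_mem (h a ha) O'.one_mem
    · rw [← sub_add_cancel γ⁻¹.toMatrix 1, h1']
      exact O'.add_mem (h a' ha') O'.one_mem
  exact ⟨key hO' hN' h', key hO hN h⟩

end Pool.Agent.Lib.MP_5d4057_al.Hyb
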