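import Pool.Agent.Lib.MP_5d4057_al.Hyb.Arith

/-! A central simple algebra with a rational idempotent of rank one is a matrix algebra over `K`. -/

set_option autoImplicit false

namespace Pool.Agent.Lib.MP_5d4057_al.Hyb

open Matrix Pool.Agent.Lib.MP_5d4057_al

variable {N m : ℕ} {K : Subfield ℂ}

/-- The retraction of the complex matrices on a `K`-form. -/
theorem exists_retract (A : Subalgebra K (Matrix (Fin N) (Fin N) ℂ)) (hN : 0 < N)
    (hrank : Module.finrank K A = N ^ 2)
    (hspan : Submodule.span ℂ (A : Set (Matrix (Fin N) (Fin N) ℂ)) = ⊤) :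
    ∃ (F : Matrix (Fin N) (Fin N) ℂ →ₗ[K] Matrix (Fin N) (Fin N) ℂ) (f : ℂ →ₗ[K] K), f 1 = 1 ∧
      (∀ x, F x ∈ A) ∧ (∀ a ∈ A, ∀ z : ℂ, F (z • a) = f z • a) ∧
      (∀ a ∈ A, ∀ x, F (a * x) = a * F x) ∧ (∀ a ∈ A, ∀ x, F (x * a) = F x * a) ∧
      ∀ x, x ≠ 0 → ∃ z : ℂ, F (z • x) ≠ 0 := by
  classical
  have hfin : Module.Finite K A := Module.finite_of_finrank_pos (by rw [hrank]; positivity)
  obtain ⟨f, hf⟩ := LinearMap.exists_leftInverse_of_injective (Algebra.linearMap K ℂ)
    (LinearMap.ker_eq_bot.2 (algebraMap K ℂ).injective)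
  have hf1 : f 1 = 1 := by
    have := LinearMap.congr_fun hf 1
    simpa using this
  let b := Module.finBasis K A
  have hsp : ⊤ ≤ Submodule.span ℂ (Set.range fun i => (b i : Matrix (Fin N) (Fin N) ℂ)) := by
    rw [← hspan, Submodule.span_le]
    intro a ha
    have h1 := b.sum_repr ⟨a, ha⟩
    have h2 := congrArg (fun x : A => (x : Matrix (Fin N) (Fin N) ℂ)) h1
    simp only [AddSubmonoidClass.coe_finsetSum] at h2
    rw [SetLike.mem_coe, ← h2]
    refine Submodule.sum_mem _ fun i _ => ?_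
    have h3 : ((b.repr ⟨a, ha⟩ i • b i : A) : Matrix (Fin N) (Fin N) ℂ) =
        ((b.repr ⟨a, ha⟩ i : K) : ℂ) • (b i : Matrix (Fin N) (Fin N) ℂ) := rfl
    rw [h3]
    exact Submodule.smul_mem _ _ (Submodule.subset_span ⟨i, rfl⟩)
  have hcard : Fintype.card (Fin (Module.finrank K A)) =
      Module.finrank ℂ (Matrix (Fin N) (Fin N) ℂ) := by
    rw [Fintype.card_fin, hrank, Module.finrank_matrix]
    simp [sq]
  let bC := basisOfTopLeSpanOfCardEqFinrank (fun i => (b i : Matrix (Fin N) (Fin N) ℂ)) hsp hcard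
  have hbC : ∀ i, bC i = (b i : Matrix (Fin N) (Fin N) ℂ) := fun i => by
    simp [bC]
  obtain ⟨F, hF⟩ : ∃ F : Matrix (Fin N) (Fin N) ℂ →ₗ[K] Matrix (Fin N) (Fin N) ℂ,
      ∀ x, F x = ∑ i, f (bC.repr x i) • (b i : Matrix (Fin N) (Fin N) ℂ) := by
    refine ⟨∑ i, LinearMap.smulRight (f.comp ((bC.coord i).restrictScalars K))
      (b i : Matrix (Fin N) (Fin N) ℂ), fun x => ?_⟩
    simp [LinearMap.sum_apply]
  have hrepr : ∀ (a : A) (z : ℂ) i, bC.repr (z • (a : Matrix (Fin N) (Fin N) ℂ)) i =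
      z * ((b.repr a i : K) : ℂ) := by
    intro a z i
    have h1 := b.sum_repr a
    have h2 := congrArg (fun x : A => (x : Matrix (Fin N) (Fin N) ℂ)) h1
    simp only [AddSubmonoidClass.coe_finsetSum] at h2
    have h3 : (a : Matrix (Fin N) (Fin N) ℂ) = ∑ i, ((b.repr a i : K) : ℂ) • bC i := by
      rw [← h2]
      refine Finset.sum_congr rfl fun i _ => ?_
      rw [hbC]
      rfl
    have h4 : bC.repr (a : Matrix (Fin N) (Fin N) ℂ) i = ((b.repr a i : K) : ℂ) := by
      rw [h3, bC.repr_sum_self]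
    rw [map_smul, Finsupp.smul_apply, h4, smul_eq_mul]
  have hFA : ∀ x, F x ∈ A := by
    intro x
    rw [hF]
    exact sum_mem fun i _ => A.smul_mem (b i).2 _
  have hFz : ∀ a ∈ A, ∀ z : ℂ, F (z • a) = f z • a := by
    intro a ha z
    have h1 := b.sum_repr ⟨a, ha⟩
    have h2 := congrArg (fun x : A => (x : Matrix (Fin N) (Fin N) ℂ)) h1
    simp only [AddSubmonoidClass.coe_finsetSum] at h2
    rw [hF]
    conv_rhs => rw [← h2, Finset.smul_sum]
    refine Finset.sum_congr rfl fun i _ => ?_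
    rw [hrepr ⟨a, ha⟩ z i]
    have h3 : z * ((b.repr ⟨a, ha⟩ i : K) : ℂ) = (b.repr ⟨a, ha⟩ i : K) • z := by
      rw [mul_comm]
      rfl
    have h4 : ((b.repr ⟨a, ha⟩ i • b i : A) : Matrix (Fin N) (Fin N) ℂ) =
        (b.repr ⟨a, ha⟩ i : K) • (b i : Matrix (Fin N) (Fin N) ℂ) := rfl
    rw [h3, map_smul, h4, smul_smul, smul_eq_mul, mul_comm]
  have hexp : ∀ x : Matrix (Fin N) (Fin N) ℂ,
      x = ∑ i, bC.repr x i • (b i : Matrix (Fin N) (Fin N) ℂ) := by
    intro x
    conv_lhs => rw [← bC.sum_repr x]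
    exact Finset.sum_congr rfl fun i _ => by rw [hbC]
  refine ⟨F, f, hf1, hFA, hFz, ?_, ?_, ?_⟩
  · intro a ha x
    have h1 : a * x = ∑ i, bC.repr x i • (a * (b i : Matrix (Fin N) (Fin N) ℂ)) := by
      conv_lhs => rw [hexp x]
      rw [Finset.mul_sum]
      exact Finset.sum_congr rfl fun i _ => by rw [Matrix.mul_smul]
    rw [h1, map_sum, hF x, Finset.mul_sum]
    refine Finset.sum_congr rfl fun i _ => ?_
    rw [hFz _ (A.mul_mem ha (b i).2), Matrix.mul_smul]
  · intro a ha x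
    have h1 : x * a = ∑ i, bC.repr x i • ((b i : Matrix (Fin N) (Fin N) ℂ) * a) := by
      conv_lhs => rw [hexp x]
      rw [Finset.sum_mul]
      exact Finset.sum_congr rfl fun i _ => by rw [Matrix.smul_mul]
    rw [h1, map_sum, hF x, Finset.sum_mul]
    refine Finset.sum_congr rfl fun i _ => ?_
    rw [hFz _ (A.mul_mem (b i).2 ha), Matrix.smul_mul]
  · intro x hx
    obtain ⟨i, hi⟩ : ∃ i, bC.repr x i ≠ 0 := by
      by_contra hcon
      push Not at hcon
      apply hx
      rw [hexp x]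
      exact Finset.sum_eq_zero fun i _ => by rw [hcon i, zero_smul]
    refine ⟨(bC.repr x i)⁻¹, fun h0 => ?_⟩
    rw [hF] at h0
    have h1 : ∑ j, ((f (bC.repr ((bC.repr x i)⁻¹ • x) j) : K) : ℂ) • bC j = 0 := by
      rw [← h0]
      refine Finset.sum_congr rfl fun j _ => ?_
      rw [hbC]
      rfl
    have h2 := Fintype.linearIndependent_iff.1 bC.linearIndependent _ h1 i
    rw [map_smul, Finsupp.smul_apply, smul_eq_mul, inv_mul_cancel₀ hi, hf1] at h2
    exact one_ne_zero h2

/-- The `K`-form `A e` of `ℂ^N`. -/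
theorem exists_KBasis (A : Subalgebra K (Matrix (Fin (m + 1)) (Fin (m + 1)) ℂ))
    (hrank : Module.finrank K A = (m + 1) ^ 2)
    (hspan : Submodule.span ℂ (A : Set (Matrix (Fin (m + 1)) (Fin (m + 1)) ℂ)) = ⊤)
    {c : ℂ} (hc : c ≠ 0) (he : c • (Matrix.single 0 0 1 : Matrix (Fin (m + 1)) (Fin (m + 1)) ℂ) ∈ A) :
    ∃ B : Matrix (Fin (m + 1)) (Fin (m + 1)) ℂ, B.det ≠ 0 ∧ (∀ a ∈ A, EntriesIn K B a) ∧
      ∀ j, ∃ w ∈ A, w * Matrix.single 0 0 1 = w ∧ ∀ i, w i 0 = B i j := by
  classical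
  obtain ⟨F, f, hf1, hFA, hFz, -, -, -⟩ := exists_retract A (Nat.succ_pos m) hrank hspan
  have hfin : Module.Finite K A := Module.finite_of_finrank_pos (by rw [hrank]; positivity)
  obtain ⟨e, he0⟩ : ∃ e : Matrix (Fin (m + 1)) (Fin (m + 1)) ℂ, e = Matrix.single 0 0 1 := ⟨_, rfl⟩
  rw [← he0] at he ⊢
  have hcol : ∀ (x : Matrix (Fin (m + 1)) (Fin (m + 1)) ℂ) i j,
      (x * e) i j = if j = 0 then x i 0 else 0 := by
    intro x i j
    rw [he0, Matrix.mul_apply, Finset.sum_eq_single 0]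
    · by_cases hj : j = 0
      · subst hj
        simp
      · rw [if_neg hj, Matrix.single_apply_of_ne _ _ _ _ _ (fun h => hj h.2.symm), mul_zero]
    · intro k _ hk
      rw [Matrix.single_apply_of_ne _ _ _ _ _ (fun h => hk h.1.symm), mul_zero]
    · intro h
      exact absurd (Finset.mem_univ _) h
  let I : Submodule K (Matrix (Fin (m + 1)) (Fin (m + 1)) ℂ) :=
    { carrier := {x | x ∈ A ∧ x * e = x}
      add_mem' := fun {x y} hx hy => ⟨A.add_mem hx.1 hy.1, by rw [Matrix.add_mul, hx.2, hy.2]⟩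
      zero_mem' := ⟨A.zero_mem, Matrix.zero_mul _⟩
      smul_mem' := fun r x hx => ⟨A.smul_mem hx.1 r, by rw [Matrix.smul_mul, hx.2]⟩ }
  have hIle : I ≤ Subalgebra.toSubmodule A := fun x hx => hx.1
  have hAfin : FiniteDimensional K (Subalgebra.toSubmodule A) := hfin
  have hIfin : FiniteDimensional K I := Submodule.finiteDimensional_of_le hIle
  let w := Module.finBasis K I
  obtain ⟨v, hv⟩ : ∃ v : Fin (Module.finrank K I) → Fin (m + 1) → ℂ,
    v = fun i r => (w i : Matrix (Fin (m + 1)) (Fin (m + 1)) ℂ) r 0 := ⟨_, rfl⟩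
  -- columns
  have hzero : ∀ x : Matrix (Fin (m + 1)) (Fin (m + 1)) ℂ, x * e = x → (∀ r, x r 0 = 0) → x = 0 := by
    intro x hx h0
    ext i j
    rw [← hx, hcol]
    split_ifs
    · exact h0 i
    · rfl
  have hLI : LinearIndependent ℂ v := by
    rw [Fintype.linearIndependent_iff]
    intro z hz i
    by_contra hi
    have h1 : ∑ j, z j • (w j : Matrix (Fin (m + 1)) (Fin (m + 1)) ℂ) = 0 := by
      refine hzero _ ?_ ?_
      · rw [Finset.sum_mul]
        exact Finset.sum_congr rfl fun j _ => by rw [Matrix.smul_mul, (w j).2.2]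
      · intro r
        have := congrFun hz r
        rw [hv] at this
        simpa [Matrix.sum_apply, Finset.sum_apply] using this
    have h2 : F ((z i)⁻¹ • ∑ j, z j • (w j : Matrix (Fin (m + 1)) (Fin (m + 1)) ℂ)) = 0 := by
      rw [h1, smul_zero, map_zero]
    rw [Finset.smul_sum, map_sum] at h2
    have h3 : ∑ j, f ((z i)⁻¹ * z j) • w j = 0 := by
      apply Subtype.ext
      rw [AddSubmonoidClass.coe_finsetSum]
      show _ = (0 : Matrix (Fin (m + 1)) (Fin (m + 1)) ℂ)
      rw [← h2]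
      refine Finset.sum_congr rfl fun j _ => ?_
      rw [smul_smul, hFz _ (w j).2.1]
      rfl
    have h4 := Fintype.linearIndependent_iff.1 w.linearIndependent _ h3 i
    rw [inv_mul_cancel₀ hi, hf1] at h4
    exact one_ne_zero h4
  have hmemI : ∀ x ∈ I, (fun r => x r 0) ∈ Submodule.span ℂ (Set.range v) := by
    intro x hx
    have h1 := w.sum_repr ⟨x, hx⟩
    have h2 := congrArg (fun y : I => (y : Matrix (Fin (m + 1)) (Fin (m + 1)) ℂ)) h1
    simp only [AddSubmonoidClass.coe_finsetSum] at h2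
    have h3 : (fun r => x r 0) = ∑ j, ((w.repr ⟨x, hx⟩ j : K) : ℂ) • v j := by
      ext r
      have h4 := congrFun (congrFun h2 r) 0
      rw [← h4, hv]
      rw [Matrix.sum_apply, Finset.sum_apply]
      rfl
    rw [h3]
    exact Submodule.sum_mem _ fun j _ => Submodule.smul_mem _ _ (Submodule.subset_span ⟨j, rfl⟩)
  have hsp : Submodule.span ℂ (Set.range v) = ⊤ := by
    have h1 : ∀ M ∈ Submodule.span ℂ (A : Set (Matrix (Fin (m + 1)) (Fin (m + 1)) ℂ)),
        (fun r => (M * (c • e)) r 0) ∈ Submodule.span ℂ (Set.range v) := by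
      intro M hM
      induction hM using Submodule.span_induction with
      | mem x hx =>
        refine hmemI _ ⟨A.mul_mem hx he, ?_⟩
        rw [Matrix.mul_smul, Matrix.smul_mul, Matrix.mul_assoc, he0, Matrix.single_mul_single_same,
          mul_one]
      | zero =>
        have : (fun r => ((0 : Matrix (Fin (m + 1)) (Fin (m + 1)) ℂ) * (c • e)) r 0) = 0 := by
          ext r
          rw [Matrix.zero_mul]
          rfl
        rw [this]
        exact Submodule.zero_mem _
      | add x y _ _ hx hy =>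
        have : (fun r => ((x + y) * (c • e)) r 0) =
            (fun r => (x * (c • e)) r 0) + fun r => (y * (c • e)) r 0 := by
          ext r
          rw [Matrix.add_mul]
          rfl
        rw [this]
        exact Submodule.add_mem _ hx hy
      | smul t x _ hx =>
        have : (fun r => ((t • x) * (c • e)) r 0) = t • fun r => (x * (c • e)) r 0 := by
          ext r
          rw [Matrix.smul_mul]
          rfl
        rw [this]
        exact Submodule.smul_mem _ _ hx
    rw [eq_top_iff]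
    intro u _
    have h2 := h1 (Matrix.of fun r _ => u r) (by rw [hspan]; trivial)
    have h3 : (fun r => ((Matrix.of fun r (_ : Fin (m + 1)) => u r) * (c • e)) r 0) = c • u := by
      ext r
      rw [Matrix.mul_smul, Matrix.smul_apply, hcol]
      simp
    rw [h3] at h2
    have h4 := Submodule.smul_mem _ c⁻¹ h2
    rwa [smul_smul, inv_mul_cancel₀ hc, one_smul] at h4
  have hcard : Module.finrank K I = m + 1 := by
    have h1 := (Module.Basis.mk hLI hsp.ge)
    have h2 := Module.finrank_eq_card_basis h1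
    rw [Fintype.card_fin, Module.finrank_fin_fun] at h2
    exact h2.symm
  obtain ⟨B, hB⟩ : ∃ B : Matrix (Fin (m + 1)) (Fin (m + 1)) ℂ,
    B = Matrix.of fun r s => v (Fin.cast hcard.symm s) r := ⟨_, rfl⟩
  have hBu : IsUnit B := by
    rw [← Matrix.linearIndependent_cols_iff_isUnit]
    have h1 : B.col = v ∘ (finCongr hcard.symm) := by
      ext s r
      rw [hB]
      rfl
    rw [h1]
    exact hLI.comp _ (finCongr hcard.symm).injective
  have hBd : IsUnit B.det := (Matrix.isUnit_iff_isUnit_det B).1 hBu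
  refine ⟨B, hBd.ne_zero, ?_, ?_⟩
  · intro a ha
    -- the matrix of `a`
    have haI : ∀ j, a * (w j : Matrix (Fin (m + 1)) (Fin (m + 1)) ℂ) ∈ I := fun j =>
      ⟨A.mul_mem ha (w j).2.1, by rw [Matrix.mul_assoc, (w j).2.2]⟩
    obtain ⟨κ, hκ⟩ : ∃ κ : Matrix (Fin (m + 1)) (Fin (m + 1)) K, κ = Matrix.of fun r s =>
      w.repr ⟨_, haI (Fin.cast hcard.symm s)⟩ (Fin.cast hcard.symm r) := ⟨_, rfl⟩
    have h1 : a * B = B * κ.map (fun x : K => (x : ℂ)) := by
      ext r s
      have h2 := w.sum_repr ⟨_, haI (Fin.cast hcard.symm s)⟩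
      have h3 := congrArg (fun y : I => (y : Matrix (Fin (m + 1)) (Fin (m + 1)) ℂ) r 0) h2
      simp only [AddSubmonoidClass.coe_finsetSum] at h3
      rw [Matrix.sum_apply] at h3
      rw [Matrix.mul_apply, Matrix.mul_apply]
      have h4 : ∑ j, a r j * B j s = (a * (w (Fin.cast hcard.symm s) :
          Matrix (Fin (m + 1)) (Fin (m + 1)) ℂ)) r 0 := by
        rw [Matrix.mul_apply, hB, hv]
        rfl
      rw [h4, ← h3, ← (finCongr hcard.symm).sum_comp]
      refine Finset.sum_congr rfl fun j _ => ?_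
      rw [hB, hv, hκ, mul_comm]
      rfl
    intro i j
    rw [Matrix.mul_assoc, h1, ← Matrix.mul_assoc, Matrix.nonsing_inv_mul _ hBd, Matrix.one_mul]
    exact (κ i j).2
  · intro j
    refine ⟨w (Fin.cast hcard.symm j), (w _).2.1, (w _).2.2, fun i => ?_⟩
    rw [hB, hv]
    rfl

end Pool.Agent.Lib.MP_5d4057_al.Hyb
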