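import Pool.Agent.Lib.MP_5d4057_al.Hyb.ArithD
import Pool.Agent.Lib.MP_5d4057_al.Hyb.Rk
import Mathlib.Analysis.Matrix.Order

/-! The Hermitian form of an algebra with unitary involution with a rational idempotent. -/

set_option autoImplicit false

namespace Pool.Agent.Lib.MP_5d4057_al.Hyb

open Matrix Pool.Agent.Lib.MP_5d4057_al ComplexOrder

variable {m : ℕ} {K : Subfield ℂ}

/-- The conjugates of a CM field are dense in `ℂ`. -/
theorem dense_embedding (hcm : IsCM K) (τ : K →+* ℂ) : DenseRange τ := by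
  have h1 : IsClosed ((τ.fieldRange.topologicalClosure : Subfield ℂ) : Set ℂ) :=
    Subfield.isClosed_topologicalClosure _
  have h2 := Complex.subfield_eq_of_closed h1
  obtain ⟨x, hx, hxc⟩ := hcm.2.1
  have h3 : τ.fieldRange.topologicalClosure = ⊤ := by
    refine h2.resolve_left fun h => ?_
    have h4 : τ ⟨x, hx⟩ ∈ τ.fieldRange.topologicalClosure :=
      Subfield.le_topologicalClosure _ ⟨⟨x, hx⟩, rfl⟩
    rw [h] at h4
    obtain ⟨r, hr⟩ := h4
    have h5 := hcm.2.2.2 τ ⟨x, hx⟩ ⟨_, hcm.2.2.1 x hx⟩ rfl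
    rw [← hr] at h5
    have h6 : (starRingEnd ℂ) (Complex.ofRealHom r) = Complex.ofRealHom r := Complex.conj_ofReal r
    rw [h6, hr] at h5
    have h7 := τ.injective h5
    exact hxc (congrArg (fun y : K => (y : ℂ)) h7)
  intro z
  have h4 : z ∈ τ.fieldRange.topologicalClosure := by rw [h3]; trivial
  have h5 : z ∈ closure ((τ.fieldRange : Subfield ℂ) : Set ℂ) := h4
  have h6 : ((τ.fieldRange : Subfield ℂ) : Set ℂ) = Set.range τ := RingHom.coe_fieldRange τ
  rwa [h6] at h5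

/-- A nondegenerate Hermitian matrix with `Q(u) Q(v) ≥ 0` is definite. -/
theorem definite_of_prod {N : ℕ} {h : Matrix (Fin N) (Fin N) ℂ} (hh : h.IsHermitian)
    (hd : h.det ≠ 0)
    (hQ : ∀ u v : Fin N → ℂ, 0 ≤ (star u ⬝ᵥ h *ᵥ u).re * (star v ⬝ᵥ h *ᵥ v).re) :
    h.PosDef ∨ (-h).PosDef := by
  have hreal : ∀ u : Fin N → ℂ, star u ⬝ᵥ h *ᵥ u = ((star u ⬝ᵥ h *ᵥ u).re : ℂ) := by
    intro u
    refine Complex.ext rfl ?_
    rw [Complex.ofReal_im]
    exact hh.im_star_dotProduct_mulVec_self u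
  by_cases hp : ∃ u : Fin N → ℂ, 0 < (star u ⬝ᵥ h *ᵥ u).re
  · left
    obtain ⟨u, hu⟩ := hp
    have h1 : h.PosSemidef := by
      refine Matrix.PosSemidef.of_dotProduct_mulVec_nonneg hh fun v => ?_
      rw [hreal v]
      have h2 := hQ u v
      exact_mod_cast nonneg_of_mul_nonneg_right h2 hu
    exact h1.posDef_iff_det_ne_zero.2 hd
  · right
    push Not at hp
    have hneg : (-h).IsHermitian := hh.neg
    have h1 : (-h).PosSemidef := by
      refine Matrix.PosSemidef.of_dotProduct_mulVec_nonneg hneg fun v => ?_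
      rw [neg_mulVec, dotProduct_neg, hreal v]
      have h2 := hp v
      have h3 : (0 : ℝ) ≤ -(star v ⬝ᵥ h *ᵥ v).re := by linarith
      exact_mod_cast h3
    refine h1.posDef_iff_det_ne_zero.2 ?_
    rw [det_neg]
    exact mul_ne_zero (pow_ne_zero _ (by norm_num)) hd

private theorem J_herm' : (J m)ᴴ = J m := by
  ext i j
  rw [conjTranspose_apply, J, diagonal_apply, diagonal_apply]
  by_cases h : i = j
  · subst h
    rw [if_pos rfl]
    split_ifs <;> simp
  · rw [if_neg h, if_neg (fun h' => h h'.symm), star_zero]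

theorem map_coe_mul' {N : ℕ} (A C : Matrix (Fin N) (Fin N) K) :
    (A * C).map (fun x : K => (x : ℂ)) =
      A.map (fun x : K => (x : ℂ)) * C.map (fun x : K => (x : ℂ)) :=
  Matrix.map_mul (f := K.subtype)

/-- The inclusion of `A` in the matrices over `K` is surjective. -/
theorem mem_of_KBasis (A : Subalgebra K (Matrix (Fin (m + 1)) (Fin (m + 1)) ℂ))
    (hrank : Module.finrank K A = (m + 1) ^ 2) {B : Matrix (Fin (m + 1)) (Fin (m + 1)) ℂ}
    (hB : B.det ≠ 0) (hA : ∀ a ∈ A, EntriesIn K B a) (X : Matrix (Fin (m + 1)) (Fin (m + 1)) K) :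
    B * X.map (fun x : K => (x : ℂ)) * B⁻¹ ∈ A := by
  have hBu := isUnit_iff_ne_zero.2 hB
  have hfin : Module.Finite K A := Module.finite_of_finrank_pos (by rw [hrank]; positivity)
  let φ : A →ₗ[K] Matrix (Fin (m + 1)) (Fin (m + 1)) K :=
    { toFun := fun a => Matrix.of fun i j =>
        ⟨(B⁻¹ * (a : Matrix (Fin (m + 1)) (Fin (m + 1)) ℂ) * B) i j, hA a a.2 i j⟩
      map_add' := fun a b => by
        ext i j
        show (B⁻¹ * ((a : Matrix (Fin (m + 1)) (Fin (m + 1)) ℂ) +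
          (b : Matrix (Fin (m + 1)) (Fin (m + 1)) ℂ)) * B) i j = _
        rw [Matrix.mul_add, Matrix.add_mul]
        rfl
      map_smul' := fun r a => by
        ext i j
        show (B⁻¹ * ((r : ℂ) • (a : Matrix (Fin (m + 1)) (Fin (m + 1)) ℂ)) * B) i j = _
        rw [Matrix.mul_smul, Matrix.smul_mul]
        rfl }
  have hφ : ∀ a : A, (φ a).map (fun x : K => (x : ℂ)) =
      B⁻¹ * (a : Matrix (Fin (m + 1)) (Fin (m + 1)) ℂ) * B := fun a => rfl
  have h2 : ∀ Y : Matrix (Fin (m + 1)) (Fin (m + 1)) ℂ, B * (B⁻¹ * Y * B) * B⁻¹ = Y := by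
    intro Y
    calc B * (B⁻¹ * Y * B) * B⁻¹ = (B * B⁻¹) * Y * (B * B⁻¹) := by simp only [Matrix.mul_assoc]
      _ = Y := by rw [Matrix.mul_nonsing_inv _ hBu, Matrix.one_mul, Matrix.mul_one]
  have hinj : Function.Injective φ := by
    intro a b hab
    have h1 : B⁻¹ * (a : Matrix (Fin (m + 1)) (Fin (m + 1)) ℂ) * B =
        B⁻¹ * (b : Matrix (Fin (m + 1)) (Fin (m + 1)) ℂ) * B := by
      rw [← hφ, ← hφ, hab]
    apply Subtype.ext
    rw [← h2 (a : Matrix (Fin (m + 1)) (Fin (m + 1)) ℂ), h1, h2]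
  have hdim : Module.finrank K A =
      Module.finrank K (Matrix (Fin (m + 1)) (Fin (m + 1)) K) := by
    rw [hrank, Module.finrank_matrix]
    simp [sq]
  have hsurj := (LinearMap.injective_iff_surjective_of_finrank_eq_finrank hdim).1 hinj
  obtain ⟨a, ha⟩ := hsurj X
  rw [← ha, hφ, h2]
  exact a.2

/-- The Hermitian form. -/
theorem form_of_KBasis (hm : 1 ≤ m) {A : Subalgebra K (Matrix (Fin (m + 1)) (Fin (m + 1)) ℂ)}
    (hU : IsUnitaryForm m K A) {B : Matrix (Fin (m + 1)) (Fin (m + 1)) ℂ}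
    (hB : B.det ≠ 0) (hA : ∀ a ∈ A, EntriesIn K B a)
    (hw : ∀ j, ∃ w ∈ A, w * Matrix.single 0 0 1 = w ∧ ∀ i, w i 0 = B i j) :
    ∃ H : Matrix (Fin (m + 1)) (Fin (m + 1)) K, IsForm m K H B := by
  have hcm := hU.cm
  have hBu := isUnit_iff_ne_zero.2 hB
  have htr : ∀ a ∈ A, a.trace ∈ K := by
    intro a ha
    have h1 : (B⁻¹ * a * B).trace = a.trace := by
      rw [Matrix.trace_mul_comm, ← Matrix.mul_assoc, Matrix.mul_nonsing_inv _ hBu, Matrix.one_mul]
    rw [← h1, Matrix.trace]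
    exact K.sum_mem fun i _ => hA a ha i i
  -- the entries of the form
  have hent : ∀ i j, (Bᴴ * J m * B) i j ∈ K := by
    intro i j
    obtain ⟨wi, hwi, hwie, hwi0⟩ := hw i
    obtain ⟨wj, hwj, hwje, hwj0⟩ := hw j
    have hz : ∀ r s, s ≠ 0 → wj r s = 0 := by
      intro r s hs
      rw [← hwje, Matrix.mul_apply]
      exact Finset.sum_eq_zero fun t _ => by
        rw [Matrix.single_apply_of_ne _ _ _ _ _ (fun h => hs h.2.symm), mul_zero]
    have h0l : (0 : Fin (m + 1)) ≠ Fin.last m := by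
      intro h
      have := congrArg Fin.val h
      simp at this
      omega
    have hJ : wj * J m = wj := by
      ext r s
      rw [J, mul_diagonal]
      by_cases hs : s = 0
      · rw [hs, if_neg h0l, mul_one]
      · rw [hz r s hs, zero_mul]
    have h1 := htr _ (A.mul_mem (hU.adj wi hwi) hwj)
    have h2 : (adjoint m wi * wj).trace = (Bᴴ * J m * B) i j := by
      rw [adjoint, Matrix.mul_assoc, Matrix.mul_assoc, Matrix.trace_mul_comm, Matrix.mul_assoc,
        Matrix.mul_assoc, hJ, Matrix.trace, Finset.sum_eq_single 0]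
      · rw [Matrix.diag_apply, Matrix.mul_assoc, Matrix.mul_apply, Matrix.mul_apply]
        refine Finset.sum_congr rfl fun t _ => ?_
        rw [conjTranspose_apply, conjTranspose_apply, hwi0, Matrix.mul_apply, Matrix.mul_apply]
        congr 1
        exact Finset.sum_congr rfl fun u _ => by rw [hwj0]
      · intro s _ hs
        rw [Matrix.diag_apply, ← Matrix.mul_assoc, Matrix.mul_apply]
        exact Finset.sum_eq_zero fun t _ => by rw [hz t s hs, mul_zero]
      · intro h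
        exact absurd (Finset.mem_univ _) h
    rwa [← h2]
  obtain ⟨H, hH⟩ : ∃ H : Matrix (Fin (m + 1)) (Fin (m + 1)) K,
    H = Matrix.of fun i j => ⟨_, hent i j⟩ := ⟨_, rfl⟩
  have hform : Bᴴ * J m * B = H.map (fun x : K => (x : ℂ)) := by
    ext i j
    rw [hH]
    rfl
  refine ⟨H, hcm, hB, hform, ?_⟩
  intro τ
  rcases hU.pos τ with h | h | hpos
  · exact Or.inl h
  · exact Or.inr (Or.inl h)
  refine Or.inr (Or.inr ?_)
  -- conjugation on `K`
  let cK : K → K := fun x => ⟨(starRingEnd ℂ) x, hcm.2.2.1 x x.2⟩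
  have hcτ : ∀ x : K, τ (cK x) = star (τ x) := fun x => hcm.2.2.2 τ x (cK x) rfl
  obtain ⟨Hc, hHc⟩ : ∃ Hc, Hc = H.map (fun x : K => (x : ℂ)) := ⟨_, rfl⟩
  have hHcH : Hcᴴ = Hc := by
    rw [hHc, ← hform, conjTranspose_mul, conjTranspose_mul, conjTranspose_conjTranspose, J_herm',
      Matrix.mul_assoc]
  have hHK : ∀ i j, H j i = cK (H i j) := by
    intro i j
    have h1 := congrFun (congrFun hHcH j) i
    rw [conjTranspose_apply, hHc, Matrix.map_apply, Matrix.map_apply] at h1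
    exact Subtype.ext h1.symm
  have hHτ : (H.map τ).IsHermitian := by
    ext i j
    rw [conjTranspose_apply, Matrix.map_apply, Matrix.map_apply, hHK i j, hcτ, star_star]
  have hdetJ : (J m).det ≠ 0 := det_J_ne m
  have hHcd : Hc.det ≠ 0 := by
    rw [hHc, ← hform, det_mul, det_mul, det_conjTranspose]
    exact mul_ne_zero (mul_ne_zero (star_ne_zero.2 hB) hdetJ) hB
  have hHd : H.det ≠ 0 := by
    intro h0
    apply hHcd
    have h1 : (H.map (fun x : K => (x : ℂ))).det = ((H.det : K) : ℂ) :=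
      (RingHom.map_det K.subtype H).symm
    rw [hHc, h1, h0]
    rfl
  have hHτd : (H.map τ).det ≠ 0 := by
    have h1 : (H.map τ).det = τ H.det := (RingHom.map_det τ H).symm
    rw [h1]
    exact (map_ne_zero τ).2 hHd
  -- the form on `K`-vectors
  obtain ⟨qK, hqK⟩ : ∃ qK : (Fin (m + 1) → K) → K, qK = fun u => ∑ i, cK (u i) * ∑ j, H i j * u j :=
    ⟨_, rfl⟩
  have hqc : ∀ u : Fin (m + 1) → K, ((qK u : K) : ℂ) =
      star (fun i => (u i : ℂ)) ⬝ᵥ Hc *ᵥ fun i => (u i : ℂ) := by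
    intro u
    rw [hqK, hHc]
    push_cast
    rfl
  have hqτ : ∀ u : Fin (m + 1) → K, τ (qK u) =
      star (fun i => τ (u i)) ⬝ᵥ H.map τ *ᵥ fun i => τ (u i) := by
    intro u
    rw [hqK]
    simp only [map_sum, map_mul, hcτ]
    rfl
  have hprod : ∀ u v : Fin (m + 1) → K, 0 ≤ (τ (qK u * qK v)).re := by
    intro u v
    obtain ⟨X, hX⟩ : ∃ X : Matrix (Fin (m + 1)) (Fin (m + 1)) K,
      X = Matrix.of fun i j => u i * ∑ l, cK (v l) * H l j := ⟨_, rfl⟩
    obtain ⟨Xc, hXc⟩ : ∃ Xc, Xc = X.map (fun x : K => (x : ℂ)) := ⟨_, rfl⟩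
    obtain ⟨uc, huc⟩ : ∃ uc : Fin (m + 1) → ℂ, uc = fun i => (u i : ℂ) := ⟨_, rfl⟩
    obtain ⟨vc, hvc⟩ : ∃ vc : Fin (m + 1) → ℂ, vc = fun i => (v i : ℂ) := ⟨_, rfl⟩
    have hXe : Xc = vecMulVec uc (star vc ᵥ* Hc) := by
      ext i j
      rw [hXc, hX, vecMulVec_apply, huc, hHc, hvc, vecMul, dotProduct]
      simp only [Matrix.map_apply, Matrix.of_apply]
      push_cast
      rfl
    have hmem := mem_of_KBasis A hU.rank hB hA X
    rw [← hXc] at hmem
    refine hpos _ hmem _ ?_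
    have hHci : B⁻¹ * J m * (B⁻¹)ᴴ = Hc⁻¹ := by
      symm
      apply Matrix.inv_eq_left_inv
      rw [hHc, ← hform]
      calc B⁻¹ * J m * (B⁻¹)ᴴ * (Bᴴ * J m * B)
          = B⁻¹ * J m * ((B⁻¹)ᴴ * Bᴴ) * J m * B := by simp only [Matrix.mul_assoc]
        _ = B⁻¹ * (J m * J m) * B := by
            rw [← conjTranspose_mul, Matrix.mul_nonsing_inv _ hBu, conjTranspose_one,
              Matrix.mul_one]
            simp only [Matrix.mul_assoc]
        _ = 1 := by rw [J_mul_J, Matrix.mul_one, Matrix.nonsing_inv_mul _ hBu]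
    have h1 : (adjoint m (B * Xc * B⁻¹) * (B * Xc * B⁻¹)).trace = (Hc⁻¹ * Xcᴴ * Hc * Xc).trace := by
      rw [← hHci, adjoint, conjTranspose_mul, conjTranspose_mul]
      have e1 : J m * ((B⁻¹)ᴴ * (Xcᴴ * Bᴴ)) * J m * (B * Xc * B⁻¹) =
          (J m * (B⁻¹)ᴴ * Xcᴴ * (Bᴴ * J m * B) * Xc) * B⁻¹ := by simp only [Matrix.mul_assoc]
      rw [e1, Matrix.trace_mul_comm, hform, ← hHc]
      simp only [Matrix.mul_assoc]
    have hHcu := isUnit_iff_ne_zero.2 hHcd
    have hXH : Xcᴴ = vecMulVec (Hc *ᵥ vc) (star uc) := by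
      rw [hXe, conjTranspose_vecMulVec, star_vecMul, star_star, hHcH]
    have h2 : Hc⁻¹ * Xcᴴ * Hc * Xc =
        ((star uc ⬝ᵥ Hc *ᵥ uc)) • vecMulVec vc (star vc ᵥ* Hc) := by
      rw [hXH, mul_vecMulVec, mulVec_mulVec, Matrix.nonsing_inv_mul _ hHcu, one_mulVec,
        vecMulVec_mul, hXe]
      ext i j
      rw [vecMulVec_mul_vecMulVec, Matrix.smul_apply, vecMulVec_apply, vecMulVec_apply,
        ← dotProduct_mulVec, smul_eq_mul]
      rw [Pi.smul_apply, smul_eq_mul]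
      ring
    rw [h1, h2, trace_smul, trace_vecMulVec, smul_eq_mul]
    have h3 : vc ⬝ᵥ (star vc ᵥ* Hc) = star vc ⬝ᵥ Hc *ᵥ vc := by
      rw [dotProduct_comm, ← dotProduct_mulVec]
    rw [h3]
    push_cast
    rw [hqc, hqc, ← huc, ← hvc]
  -- density
  have hdense : DenseRange fun u : Fin (m + 1) → K => fun i => τ (u i) :=
    DenseRange.piMap fun _ => dense_embedding hcm τ
  have hQc : Continuous fun z : Fin (m + 1) → ℂ => (star z ⬝ᵥ H.map τ *ᵥ z).re := by
    refine Complex.continuous_re.comp ?_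
    exact Continuous.dotProduct continuous_star (Continuous.matrix_mulVec continuous_const
      continuous_id)
  have hreal : ∀ z : Fin (m + 1) → ℂ, star z ⬝ᵥ H.map τ *ᵥ z =
      ((star z ⬝ᵥ H.map τ *ᵥ z).re : ℂ) := by
    intro z
    refine Complex.ext rfl ?_
    rw [Complex.ofReal_im]
    exact hHτ.im_star_dotProduct_mulVec_self z
  have hKK : ∀ u v : Fin (m + 1) → K, 0 ≤ (star (fun i => τ (u i)) ⬝ᵥ H.map τ *ᵥ fun i => τ (u i)).re *
      (star (fun i => τ (v i)) ⬝ᵥ H.map τ *ᵥ fun i => τ (v i)).re := by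
    intro u v
    have h1 := hprod u v
    rw [map_mul, hqτ, hqτ, hreal, hreal (fun i => τ (v i)), ← Complex.ofReal_mul,
      Complex.ofReal_re] at h1
    exact h1
  have hK2 : ∀ (u : Fin (m + 1) → K) (z : Fin (m + 1) → ℂ),
      0 ≤ (star (fun i => τ (u i)) ⬝ᵥ H.map τ *ᵥ fun i => τ (u i)).re *
        (star z ⬝ᵥ H.map τ *ᵥ z).re := by
    intro u
    exact fun z => hdense.induction_on (p := fun z => 0 ≤ (star (fun i => τ (u i)) ⬝ᵥ
      H.map τ *ᵥ fun i => τ (u i)).re * (star z ⬝ᵥ H.map τ *ᵥ z).re) z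
      (isClosed_le continuous_const (continuous_const.mul hQc)) (fun v => hKK u v)
  refine definite_of_prod hHτ hHτd fun z z' => ?_
  exact hdense.induction_on (p := fun z => 0 ≤ (star z ⬝ᵥ H.map τ *ᵥ z).re *
    (star z' ⬝ᵥ H.map τ *ᵥ z').re) z (isClosed_le continuous_const (hQc.mul continuous_const))
    (fun u => hK2 u z')

end Pool.Agent.Lib.MP_5d4057_al.Hyb
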