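import Pool.Agent.Lib.MP_5d4057_al.Hyb.ArithC
import Pool.Agent.Lib.MP_5d4057_al.Hyb.ArithE
import Pool.Agent.Lib.MP_5d4057_al.Hyb.DenB
import Pool.Agent.Lib.MP_5d4057_al.Hyb.Denom
import Pool.Agent.Lib.MP_5d4057_al.Hyb.SpanFin

/-! The unitary units of an order and the integral points of the form; the rational idempotent. -/

set_option autoImplicit false

namespace Pool.Agent.Lib.MP_5d4057_al.Hyb

open Matrix Pool.Agent.Lib.MP_5d4057_al NumberField

variable {m : ℕ} {K : Subfield ℂ}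

theorem lift_integers {x : ℂ} (hx : x ∈ integers K) : ∃ y : 𝓞 K, ((y : K) : ℂ) = x := by
  obtain ⟨h1, h2⟩ := hx
  have h2' : IsIntegral ℤ x := h2
  have h1' : x ∈ K := h1
  have h3 : IsIntegral ℤ (⟨x, h1'⟩ : K) :=
    (isIntegral_algHom_iff (K.subtype.toIntAlgHom) Subtype.val_injective).1 h2'
  exact ⟨⟨⟨x, h1'⟩, h3⟩, rfl⟩

theorem coe_mem_integers (y : 𝓞 K) : ((y : K) : ℂ) ∈ integers K := by
  refine ⟨(y : K).2, ?_⟩
  exact y.2.map (K.subtype.toIntAlgHom)

/-- The order `B M(O_K) B⁻¹`. -/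
def matOrder (K : Subfield ℂ) (B : Matrix (Fin (m + 1)) (Fin (m + 1)) ℂ) (_hB : IsUnit B.det) :
    Subring (Matrix (Fin (m + 1)) (Fin (m + 1)) ℂ) where
  carrier := {a | EntriesIn (integers K) B a}
  mul_mem' := fun ha hb => EntriesIn.mul ha hb
  one_mem' := EntriesIn.one
  add_mem' := fun {a b} ha hb i j => by
    show (B⁻¹ * (a + b) * B) i j ∈ integers K
    rw [Matrix.mul_add, Matrix.add_mul]
    exact (integers K).add_mem (ha i j) (hb i j)
  zero_mem' := fun i j => by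
    rw [Matrix.mul_zero, Matrix.zero_mul]
    exact (integers K).zero_mem
  neg_mem' := fun {a} ha i j => by
    show (B⁻¹ * (-a) * B) i j ∈ integers K
    rw [Matrix.mul_neg, Matrix.neg_mul]
    exact (integers K).neg_mem (ha i j)

theorem mem_matOrder {B : Matrix (Fin (m + 1)) (Fin (m + 1)) ℂ} {hB : IsUnit B.det}
    {a : Matrix (Fin (m + 1)) (Fin (m + 1)) ℂ} :
    a ∈ matOrder K B hB ↔ EntriesIn (integers K) B a := Iff.rfl

theorem matOrder_fg (hK : NumberField K) (B : Matrix (Fin (m + 1)) (Fin (m + 1)) ℂ)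
    (hB : IsUnit B.det) : (matOrder K B hB).toAddSubgroup.FG := by
  let ψ : Matrix (Fin (m + 1)) (Fin (m + 1)) (𝓞 K) →+ Matrix (Fin (m + 1)) (Fin (m + 1)) ℂ :=
    { toFun := fun X => B * X.map (fun y : 𝓞 K => ((y : K) : ℂ)) * B⁻¹
      map_zero' := by
        rw [Matrix.map_zero _ (by simp), Matrix.mul_zero, Matrix.zero_mul]
      map_add' := fun X Y => by
        rw [Matrix.map_add _ (by intro a b; simp), Matrix.mul_add, Matrix.add_mul] }
  have hfin : Module.Finite ℤ (Matrix (Fin (m + 1)) (Fin (m + 1)) (𝓞 K)) := inferInstance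
  have hfg : AddGroup.FG (Matrix (Fin (m + 1)) (Fin (m + 1)) (𝓞 K)) :=
    Module.Finite.iff_addGroup_fg.1 hfin
  have hr : ψ.range = (matOrder K B hB).toAddSubgroup := by
    ext a
    constructor
    · rintro ⟨X, rfl⟩
      show EntriesIn (integers K) B (B * X.map (fun y : 𝓞 K => ((y : K) : ℂ)) * B⁻¹)
      intro i j
      have h1 : B⁻¹ * (B * X.map (fun y : 𝓞 K => ((y : K) : ℂ)) * B⁻¹) * B =
          X.map (fun y : 𝓞 K => ((y : K) : ℂ)) := by
        calc B⁻¹ * (B * X.map (fun y : 𝓞 K => ((y : K) : ℂ)) * B⁻¹) * B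
            = (B⁻¹ * B) * X.map (fun y : 𝓞 K => ((y : K) : ℂ)) * (B⁻¹ * B) := by
              simp only [Matrix.mul_assoc]
          _ = _ := by rw [Matrix.nonsing_inv_mul _ hB, Matrix.one_mul, Matrix.mul_one]
      rw [h1]
      exact coe_mem_integers (X i j)
    · intro ha
      have ha' : EntriesIn (integers K) B a := ha
      choose X hX using fun i j => lift_integers (ha' i j)
      refine ⟨Matrix.of X, ?_⟩
      show B * (Matrix.of X).map (fun y : 𝓞 K => ((y : K) : ℂ)) * B⁻¹ = a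
      have h1 : (Matrix.of X).map (fun y : 𝓞 K => ((y : K) : ℂ)) = B⁻¹ * a * B := by
        ext i j
        exact hX i j
      rw [h1]
      calc B * (B⁻¹ * a * B) * B⁻¹ = (B * B⁻¹) * a * (B * B⁻¹) := by simp only [Matrix.mul_assoc]
        _ = a := by rw [Matrix.mul_nonsing_inv _ hB, Matrix.one_mul, Matrix.mul_one]
  rw [← hr, ← AddGroup.fg_iff_addSubgroup_fg]
  exact AddGroup.fg_range ψ

/-- (4) of W3. -/
theorem commensurable_matOrder {A : Subalgebra K (Matrix (Fin (m + 1)) (Fin (m + 1)) ℂ)}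
    (hK : NumberField K) (hrank : Module.finrank K A = (m + 1) ^ 2)
    {O : Subring (Matrix (Fin (m + 1)) (Fin (m + 1)) ℂ)} (hO : IsOrder A O)
    {B : Matrix (Fin (m + 1)) (Fin (m + 1)) ℂ} (hB : B.det ≠ 0)
    (hA : ∀ a ∈ A, EntriesIn K B a) :
    Subgroup.Commensurable (unitPoints m O) (integralPoints m K B) := by
  classical
  have hBu := isUnit_iff_ne_zero.2 hB
  have e : integralPoints m K B = unitPoints m (matOrder K B hBu) := rfl
  rw [e]
  have hfg := matOrder_fg hK B hBu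
  -- `N O ⊆ O'`
  obtain ⟨N, hN, h⟩ : ∃ N : ℕ, 0 < N ∧ ∀ a ∈ O, (N : ℂ) • a ∈ matOrder K B hBu := by
    obtain ⟨S, hS⟩ := hO.fg
    have hSO : ∀ s ∈ S, s ∈ O := by
      intro s hs
      have : s ∈ AddSubgroup.closure (S : Set (Matrix (Fin (m + 1)) (Fin (m + 1)) ℂ)) :=
        AddSubgroup.subset_closure hs
      rw [hS] at this
      exact this
    obtain ⟨N, hN, h⟩ := exists_denom hK (ι := S × Fin (m + 1) × Fin (m + 1))
      (fun p => ⟨_, hA _ (hO.sub _ (hSO p.1 p.1.2)) p.2.1 p.2.2⟩)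
    refine ⟨N, hN, fun a ha => ?_⟩
    have ha' : a ∈ AddSubgroup.closure (S : Set (Matrix (Fin (m + 1)) (Fin (m + 1)) ℂ)) := by
      rw [hS]
      exact ha
    induction ha' using AddSubgroup.closure_induction with
    | mem s hs =>
      intro i j
      rw [Matrix.mul_smul, Matrix.smul_mul, Matrix.smul_apply, smul_eq_mul]
      exact h (⟨s, hs⟩, i, j)
    | zero => rw [smul_zero]; exact zero_mem _
    | add x y hx hy ihx ihy =>
      rw [hS] at hx hy
      rw [smul_add]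
      exact add_mem (ihx hx) (ihy hy)
    | neg x hx ihx =>
      rw [hS] at hx
      rw [smul_neg]
      exact neg_mem (ihx hx)
  -- `N' O' ⊆ O`
  obtain ⟨N', hN', h'⟩ : ∃ N' : ℕ, 0 < N' ∧ ∀ a ∈ matOrder K B hBu, (N' : ℂ) • a ∈ O := by
    have hmem : ∀ a ∈ matOrder K B hBu, a ∈ A := by
      intro a ha
      have ha' : EntriesIn (integers K) B a := ha
      have h1 := mem_of_KBasis A hrank hB hA (Matrix.of fun i j => ⟨_, (ha' i j).1⟩)
      have h2 : (Matrix.of fun i j => (⟨_, (ha' i j).1⟩ : K)).map (fun x : K => (x : ℂ)) =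
          B⁻¹ * a * B := rfl
      rw [h2] at h1
      have h3 : B * (B⁻¹ * a * B) * B⁻¹ = a := by
        calc B * (B⁻¹ * a * B) * B⁻¹ = (B * B⁻¹) * a * (B * B⁻¹) := by simp only [Matrix.mul_assoc]
          _ = a := by rw [Matrix.mul_nonsing_inv _ hBu, Matrix.one_mul, Matrix.mul_one]
      rwa [h3] at h1
    obtain ⟨S, hS⟩ := hfg
    have hSO : ∀ s ∈ S, s ∈ matOrder K B hBu := by
      intro s hs
      have : s ∈ AddSubgroup.closure (S : Set (Matrix (Fin (m + 1)) (Fin (m + 1)) ℂ)) :=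
        AddSubgroup.subset_closure hs
      rw [hS] at this
      exact this
    have hden : ∀ s : S, ∃ n : ℕ, 0 < n ∧ (n : ℂ) • (s : Matrix (Fin (m + 1)) (Fin (m + 1)) ℂ) ∈ O :=
      fun s => hO.full _ (hmem _ (hSO s s.2))
    choose n hn hnO using hden
    refine ⟨∏ s, n s, Finset.prod_pos fun s _ => hn s, fun a ha => ?_⟩
    have ha' : a ∈ AddSubgroup.closure (S : Set (Matrix (Fin (m + 1)) (Fin (m + 1)) ℂ)) := by
      rw [hS]
      exact ha
    induction ha' using AddSubgroup.closure_induction with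
    | mem s hs =>
      have h1 : ((∏ s, n s : ℕ) : ℂ) • s =
          (∏ t ∈ Finset.univ.erase (⟨s, hs⟩ : S), n t) • ((n ⟨s, hs⟩ : ℂ) • s) := by
        rw [← Finset.prod_erase_mul Finset.univ n (Finset.mem_univ (⟨s, hs⟩ : S)), Nat.cast_mul,
          ← smul_smul, Nat.cast_smul_eq_nsmul]
      rw [h1]
      exact nsmul_mem (hnO ⟨s, hs⟩) _
    | zero => rw [smul_zero]; exact zero_mem _
    | add x y hx hy ihx ihy =>
      rw [hS] at hx hy
      rw [smul_add]
      exact add_mem (ihx hx) (ihy hy)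
    | neg x hx ihx =>
      rw [hS] at hx
      rw [smul_neg]
      exact neg_mem (ihx hx)
  exact commensurable_unitPoints hO.fg (matOrder_fg hK B hBu) hN hN' h h'

/-- Fixed vectors of a spanning set. -/
theorem fixed_zero {N : ℕ} (hN : 2 ≤ N) {S : Set (Matrix (Fin N) (Fin N) ℂ)}
    (hS : Submodule.span ℂ S = ⊤) {y : Fin N → ℂ} (hy : ∀ A ∈ S, A *ᵥ y = y) : y = 0 := by
  have h1 : ∀ M ∈ Submodule.span ℂ S, ∃ c : ℂ, M *ᵥ y = c • y := by
    intro M hM
    induction hM using Submodule.span_induction with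
    | mem x hx => exact ⟨1, by rw [hy x hx, one_smul]⟩
    | zero => exact ⟨0, by rw [zero_mulVec, zero_smul]⟩
    | add a b _ _ ha hb =>
      obtain ⟨c, hc⟩ := ha
      obtain ⟨d, hd⟩ := hb
      exact ⟨c + d, by rw [add_mulVec, hc, hd, add_smul]⟩
    | smul t a _ ha =>
      obtain ⟨c, hc⟩ := ha
      exact ⟨t * c, by rw [smul_mulVec, hc, smul_smul]⟩
  by_contra hne
  obtain ⟨q, hq⟩ := Function.ne_iff.1 hne
  obtain ⟨p, hp⟩ : ∃ p : Fin N, p ≠ q := by
    have : Nontrivial (Fin N) := Fin.nontrivial_iff_two_le.2 hN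
    exact exists_ne q
  obtain ⟨c, hc⟩ := h1 (Matrix.single p q 1) (by rw [hS]; trivial)
  have h2 := congrFun hc q
  have h3 := congrFun hc p
  have e1 : (Matrix.single p q (1 : ℂ) *ᵥ y) q = 0 := by
    rw [mulVec, dotProduct]
    exact Finset.sum_eq_zero fun j _ => by
      rw [Matrix.single_apply_of_ne _ _ _ _ _ (fun h => hp h.1), zero_mul]
  have e2 : (Matrix.single p q (1 : ℂ) *ᵥ y) p = y q := by
    rw [mulVec, dotProduct, Finset.sum_eq_single q]
    · simp
    · intro j _ hj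
      rw [Matrix.single_apply_of_ne _ _ _ _ _ (fun h => hj h.2.symm), zero_mul]
    · intro h
      exact absurd (Finset.mem_univ _) h
  rw [e1, Pi.smul_apply, smul_eq_mul] at h2
  have h4 : c = 0 := (mul_eq_zero.1 h2.symm).resolve_right hq
  rw [e2, h4, zero_smul] at h3
  exact hq h3

theorem fixed_zero' {N : ℕ} (hN : 2 ≤ N) {S : Set (Matrix (Fin N) (Fin N) ℂ)}
    (hS : Submodule.span ℂ S = ⊤) {y : Fin N → ℂ} (hy : ∀ A ∈ S, y ᵥ* A = y) : y = 0 := by
  refine fixed_zero hN (S := (fun A : Matrix (Fin N) (Fin N) ℂ => Aᵀ) '' S) ?_ ?_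
  · have h1 := Submodule.map_span (Matrix.transposeLinearEquiv (Fin N) (Fin N) ℂ ℂ).toLinearMap S
    rw [hS, Submodule.map_top, LinearMap.range_eq_top.2
      (Matrix.transposeLinearEquiv (Fin N) (Fin N) ℂ ℂ).surjective] at h1
    exact h1.symm
  · rintro _ ⟨A, hA, rfl⟩
    show Aᵀ *ᵥ y = y
    rw [mulVec_transpose]
    exact hy A hA

/-- (1) of W3: the projection on the first basis vector is in `A`, up to a scalar. -/
theorem idem_mem {k : ℕ} (hk : 1 ≤ k) {A : Subalgebra K (Matrix (Fin (k + 1 + 1)) (Fin (k + 1 + 1)) ℂ)}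
    (hrank : Module.finrank K A = (k + 1 + 1) ^ 2)
    (hspan : Submodule.span ℂ (A : Set (Matrix (Fin (k + 1 + 1)) (Fin (k + 1 + 1)) ℂ)) = ⊤)
    {S : Set (Matrix (Fin (k + 1)) (Fin (k + 1)) ℂ)} (hS : Submodule.span ℂ S = ⊤)
    (hSA : ∀ s ∈ S, dsum 1 s ∈ A) :
    ∃ c : ℂ, c ≠ 0 ∧
      c • (Matrix.single 0 0 1 : Matrix (Fin (k + 1 + 1)) (Fin (k + 1 + 1)) ℂ) ∈ A := by
  obtain ⟨F, f, hf1, hFA, hFz, hl, hr, hne⟩ := exists_retract A (Nat.succ_pos _) hrank hspan
  obtain ⟨e, he⟩ : ∃ e : Matrix (Fin (k + 1 + 1)) (Fin (k + 1 + 1)) ℂ, e = dsum 1 0 := ⟨_, rfl⟩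
  have he' : e = Matrix.single 0 0 1 := by
    rw [he]
    ext i j
    refine Fin.cases ?_ (fun i => ?_) i <;> refine Fin.cases ?_ (fun j => ?_) j
    · simp
    · rw [dsum_zero_succ, Matrix.single_apply_of_ne _ _ _ _ _
        (fun h => Fin.succ_ne_zero j h.2.symm)]
    · rw [dsum_succ_zero, Matrix.single_apply_of_ne _ _ _ _ _
        (fun h => Fin.succ_ne_zero i h.1.symm)]
    · rw [dsum_succ_succ, Matrix.single_apply_of_ne _ _ _ _ _
        (fun h => Fin.succ_ne_zero i h.1.symm)]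
      rfl
  have he0 : e ≠ 0 := by
    intro h
    have := congrFun (congrFun h 0) 0
    rw [he, dsum_zero_zero] at this
    exact one_ne_zero this
  obtain ⟨z, hz⟩ := hne e he0
  obtain ⟨x, hx⟩ : ∃ x, x = F (z • e) := ⟨_, rfl⟩
  rw [← hx] at hz
  have hxA : x ∈ A := by rw [hx]; exact hFA _
  have hxl : ∀ s ∈ S, dsum 1 s * x = x := by
    intro s hs
    rw [hx, ← hl _ (hSA s hs), Matrix.mul_smul, he, dsum_mul, one_mul, Matrix.mul_zero]
  have hxr : ∀ s ∈ S, x * dsum 1 s = x := by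
    intro s hs
    rw [hx, ← hr _ (hSA s hs), Matrix.smul_mul, he, dsum_mul, one_mul, Matrix.zero_mul]
  have hk2 : 2 ≤ k + 1 := by omega
  have hcol : ∀ j, (fun i : Fin (k + 1) => x i.succ j) = 0 := by
    intro j
    refine fixed_zero hk2 hS fun s hs => ?_
    ext i
    have h1 := congrFun (congrFun (hxl s hs) i.succ) j
    rw [Matrix.mul_apply, Fin.sum_univ_succ, dsum_succ_zero, zero_mul, zero_add] at h1
    rw [← h1]
    rfl
  have hrow : ∀ i, (fun j : Fin (k + 1) => x i j.succ) = 0 := by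
    intro i
    refine fixed_zero' hk2 hS fun s hs => ?_
    ext j
    have h1 := congrFun (congrFun (hxr s hs) i) j.succ
    rw [Matrix.mul_apply, Fin.sum_univ_succ, dsum_zero_succ, mul_zero, zero_add] at h1
    rw [← h1]
    rfl
  have hxe : x = x 0 0 • Matrix.single 0 0 1 := by
    rw [← he', he]
    ext i j
    refine Fin.cases ?_ (fun i => ?_) i <;> refine Fin.cases ?_ (fun j => ?_) j
    · rw [Matrix.smul_apply, dsum_zero_zero, smul_eq_mul, mul_one]
    · rw [Matrix.smul_apply, dsum_zero_succ, smul_zero]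
      exact congrFun (hrow 0) j
    · rw [Matrix.smul_apply, dsum_succ_zero, smul_zero]
      exact congrFun (hcol 0) i
    · rw [Matrix.smul_apply, dsum_succ_succ, Matrix.zero_apply, smul_zero]
      exact congrFun (hcol j.succ) i
  refine ⟨x 0 0, ?_, ?_⟩
  · intro h
    apply hz
    rw [hxe, h, zero_smul]
  · rw [← hxe]
    exact hxA

end Pool.Agent.Lib.MP_5d4057_al.Hyb
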