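import Pool.Agent.Lib.MP_5d4057_al.Stmt

namespace Pool.Agent.Lib.MP_5d4057_al.Hyb

open MeasureTheory Pool.Agent.Lib.MP_5d4057_al ENNReal

section count

variable {G : Type} [Group G] (Γ : Subgroup G)

/-- The number of points of `A` in the coset `x`. -/
private noncomputable def cnt (A : Set G) (x : G ⧸ Γ) : ℝ≥0∞ :=
  ∑' g : G, (A ∩ (QuotientGroup.mk : G → G ⧸ Γ) ⁻¹' {x}).indicator 1 g

private theorem cnt_empty (x : G ⧸ Γ) : cnt Γ ∅ x = 0 := by simp [cnt]

private theorem cnt_mono {A B : Set G} (h : A ⊆ B) (x : G ⧸ Γ) : cnt Γ A x ≤ cnt Γ B x := by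
  refine ENNReal.tsum_le_tsum fun g => ?_
  exact Set.indicator_le_indicator_of_subset (Set.inter_subset_inter_left _ h)
    (fun _ => zero_le_one) g

private theorem cnt_iUnion {A : ℕ → Set G} (h : Pairwise (Function.onFun Disjoint A)) (x : G ⧸ Γ) :
    cnt Γ (⋃ i, A i) x = ∑' i, cnt Γ (A i) x := by
  simp only [cnt]
  rw [ENNReal.tsum_comm]
  refine tsum_congr fun g => ?_
  by_cases hg : g ∈ (⋃ i, A i) ∩ (QuotientGroup.mk : G → G ⧸ Γ) ⁻¹' {x}
  · obtain ⟨h1, h2⟩ := hg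
    obtain ⟨i, hi⟩ := Set.mem_iUnion.1 h1
    rw [Set.indicator_of_mem (show g ∈ (⋃ i, A i) ∩ (QuotientGroup.mk : G → G ⧸ Γ) ⁻¹' {x} from
      ⟨h1, h2⟩), tsum_eq_single i]
    · rw [Set.indicator_of_mem]
      exact ⟨hi, h2⟩
    · intro j hj
      rw [Set.indicator_of_notMem]
      rintro ⟨h3, -⟩
      exact Set.disjoint_left.1 (h hj) h3 hi
  · rw [Set.indicator_of_notMem hg]
    symm
    rw [ENNReal.tsum_eq_zero]
    intro i
    rw [Set.indicator_of_notMem]
    rintro ⟨h3, h4⟩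
    exact hg ⟨Set.mem_iUnion.2 ⟨i, h3⟩, h4⟩

private theorem cnt_eq_indicator {A : Set G}
    (h : ∀ a ∈ A, ∀ b ∈ A, a⁻¹ * b ∈ Γ → a = b) (x : G ⧸ Γ) :
    cnt Γ A x = ((QuotientGroup.mk : G → G ⧸ Γ) '' A).indicator 1 x := by
  by_cases hx : x ∈ (QuotientGroup.mk : G → G ⧸ Γ) '' A
  · rw [Set.indicator_of_mem hx]
    obtain ⟨a, ha, rfl⟩ := hx
    rw [cnt, tsum_eq_single a]
    · rw [Set.indicator_of_mem]
      · rfl
      · exact ⟨ha, rfl⟩
    · intro b hb
      rw [Set.indicator_of_notMem]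
      rintro ⟨h3, h4⟩
      exact hb (h b h3 a ha (QuotientGroup.eq.1 h4))
  · rw [Set.indicator_of_notMem hx, cnt, ENNReal.tsum_eq_zero]
    intro g
    rw [Set.indicator_of_notMem]
    rintro ⟨h3, h4⟩
    exact hx ⟨g, h3, h4⟩

private theorem cnt_le_one {A : Set G}
    (h : ∀ a ∈ A, ∀ b ∈ A, a⁻¹ * b ∈ Γ → a = b) (x : G ⧸ Γ) : cnt Γ A x ≤ 1 := by
  rw [cnt_eq_indicator Γ h]
  exact Set.indicator_le_self' (fun _ _ => zero_le_one) x

private theorem cnt_left (g : G) (A : Set G) (x : G ⧸ Γ) :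
    cnt Γ ((fun y => g * y) ⁻¹' A) x = cnt Γ A (g • x) := by
  rw [cnt, cnt, ← (Equiv.mulLeft g).tsum_eq
    (fun h : G => (A ∩ (QuotientGroup.mk : G → G ⧸ Γ) ⁻¹' {g • x}).indicator (1 : G → ℝ≥0∞) h)]
  refine tsum_congr fun y => ?_
  simp only [Set.indicator]
  congr 1
  simp only [Set.mem_inter_iff, Set.mem_preimage, Set.mem_singleton_iff, Equiv.coe_mulLeft,
    eq_iff_iff]
  refine and_congr Iff.rfl ?_
  constructor
  · rintro rfl
    rfl
  · intro h
    have : g • ((y : G) : G ⧸ Γ) = g • x := h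
    exact smul_left_cancel g this

private theorem cnt_right (γ : G) (hγ : γ ∈ Γ) (A : Set G) (x : G ⧸ Γ) :
    cnt Γ ((fun y => y * γ) ⁻¹' A) x = cnt Γ A x := by
  rw [cnt, cnt, ← (Equiv.mulRight γ).tsum_eq
    (fun h : G => (A ∩ (QuotientGroup.mk : G → G ⧸ Γ) ⁻¹' {x}).indicator (1 : G → ℝ≥0∞) h)]
  refine tsum_congr fun y => ?_
  simp only [Set.indicator]
  congr 1
  simp only [Set.mem_inter_iff, Set.mem_preimage, Set.mem_singleton_iff, Equiv.coe_mulRight,
    eq_iff_iff]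
  refine and_congr Iff.rfl ?_
  rw [QuotientGroup.mk_mul_of_mem y hγ]

private theorem cnt_le_sum {ι : Type} (t : Finset ι) (V : ι → Set G) (S : Set G)
    (hS : S ⊆ ⋃ i ∈ t, V i)
    (h : ∀ i, ∀ a ∈ V i, ∀ b ∈ V i, a⁻¹ * b ∈ Γ → a = b) (x : G ⧸ Γ) :
    cnt Γ S x ≤ t.card := by
  calc cnt Γ S x ≤ ∑ i ∈ t, cnt Γ (V i) x := by
        simp only [cnt]
        rw [← Summable.tsum_finsetSum (fun i _ => ENNReal.summable)]
        refine ENNReal.tsum_le_tsum fun g => ?_
        by_cases hg : g ∈ S ∩ (QuotientGroup.mk : G → G ⧸ Γ) ⁻¹' {x}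
        · obtain ⟨h1, h2⟩ := hg
          obtain ⟨i, hi, hgi⟩ := Set.mem_iUnion₂.1 (hS h1)
          rw [Set.indicator_of_mem (show g ∈ S ∩ (QuotientGroup.mk : G → G ⧸ Γ) ⁻¹' {x} from
            ⟨h1, h2⟩)]
          refine le_trans ?_ (Finset.single_le_sum (f := fun i =>
            (V i ∩ (QuotientGroup.mk : G → G ⧸ Γ) ⁻¹' {x}).indicator (1 : G → ℝ≥0∞) g)
            (fun _ _ => zero_le) hi)
          rw [Set.indicator_of_mem]
          exact ⟨hgi, h2⟩
        · rw [Set.indicator_of_notMem hg]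
          exact zero_le
    _ ≤ ∑ _i ∈ t, 1 := Finset.sum_le_sum fun i _ => cnt_le_one Γ (h i) x
    _ = t.card := by simp

end count

section main

variable {G : Type} [Group G] [TopologicalSpace G] [IsTopologicalGroup G]

private theorem exists_nhd (Γ : Subgroup G) (hΓ : DiscreteTopology Γ) :
    ∃ V : Set G, IsOpen V ∧ (1 : G) ∈ V ∧ ∀ a ∈ V, ∀ b ∈ V, a⁻¹ * b ∈ Γ → a = b := by
  have h1 : ({1} : Set Γ) ∈ nhds (1 : Γ) := by
    rw [nhds_discrete]; exact Filter.mem_pure.2 rfl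
  obtain ⟨U, hU, hU1⟩ := (mem_nhds_subtype _ _ _).1 h1
  have hU' : U ∈ nhds (1 : G) := hU
  have hc : Filter.Tendsto (fun q : G × G => q.1⁻¹ * q.2) (nhds (1, 1)) (nhds (1 : G)) := by
    have : Continuous (fun q : G × G => q.1⁻¹ * q.2) := by fun_prop
    have h := this.tendsto (1, 1)
    simpa using h
  have h2 := hc hU'
  rw [Filter.mem_map, nhds_prod_eq, Filter.mem_prod_same_iff] at h2
  obtain ⟨t, ht, htU⟩ := h2
  obtain ⟨V, hVt, hVo, hV1⟩ := mem_nhds_iff.1 ht
  refine ⟨V, hVo, hV1, fun a ha b hb hab => ?_⟩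
  have h3 : a⁻¹ * b ∈ U := htU (show (a, b) ∈ t ×ˢ t from ⟨hVt ha, hVt hb⟩)
  have h4 : (⟨a⁻¹ * b, hab⟩ : Γ) ∈ ({1} : Set Γ) := hU1 h3
  have h5 : a⁻¹ * b = 1 := congrArg Subtype.val h4
  exact (inv_mul_eq_one.1 h5)

end main

/-- The measure on `G` induced by the finite invariant measure `μ` on `G ⧸ Γ`. Let `p : G → G ⧸ Γ`
be the projection. Since `Γ` is discrete there is an open neighbourhood `V` of `1` with
`V⁻¹ * V ∩ Γ = {1}`, and `p` is injective on `g • V` for all `g`. For `A ⊆ G` and `x = p g` put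
`n A x = ∑' γ : Γ, A.indicator 1 (g * γ)` (an extended number, the number of points of `A` in the
coset; it does not depend on the choice of `g`). `n A` is measurable for measurable `A`: cover `G` by
countably many open sets `V i = g i • V`, disjointify them to Borel sets `A i`; then
`n A = ∑ i, indicator of p '' (A ∩ A i)` and `p` restricted to `V i` is a homeomorphism onto an open
set, so `p '' (A ∩ A i)` is Borel (`Topology.IsOpenEmbedding.measurableEmbedding`).
Put `ν A = ∫⁻ x, n A x ∂μ` (`Measure.ofMeasurable`). Countable additivity: `n` of a disjoint union is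
the sum. Left invariance: `n (g⁻¹ • A) x = n A (g • x)` and `μ` is invariant. Right invariance under
`Γ`: `n (A γ) = n A`. A compact set is covered by finitely many, `M`, sets `V i`, so `n ≤ M` on it and
`ν ≤ M * μ univ < ∞`. If `A` is injective modulo `Γ` then `n A ≤ 1`, so `ν A ≤ C = μ univ`.
`ν ≠ 0` because `n univ ≥ 1` and `μ ≠ 0`. -/
theorem exists_measure {G : Type} [Group G] [TopologicalSpace G] [IsTopologicalGroup G]
    [SecondCountableTopology G] [LocallyCompactSpace G] [T2Space G] (Γ : Subgroup G)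
    (hΓ : IsLattice Γ) :
    ∃ (ν : @Measure G (borel G)) (C : ℝ≥0∞), C ≠ ⊤ ∧ ν ≠ 0 ∧
      (∀ (g : G) (A : Set G), @MeasurableSet G (borel G) A → ν ((fun x => g * x) ⁻¹' A) = ν A) ∧
      (∀ S : Set G, IsCompact S → ν S ≠ ⊤) ∧
      (∀ γ ∈ Γ, ∀ A : Set G, @MeasurableSet G (borel G) A →
        ν ((fun x => x * γ) ⁻¹' A) = ν A) ∧
      (∀ A : Set G, @MeasurableSet G (borel G) A →
        (∀ a ∈ A, ∀ b ∈ A, a⁻¹ * b ∈ Γ → a = b) → ν A ≤ C) := by
  obtain ⟨hd, μ, hμ0, hμf, hμ⟩ := hΓ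
  let mG : MeasurableSpace G := borel G
  have : BorelSpace G := ⟨rfl⟩
  let mQ : MeasurableSpace (G ⧸ Γ) := borel (G ⧸ Γ)
  have : BorelSpace (G ⧸ Γ) := ⟨rfl⟩
  obtain ⟨V, hVo, hV1, hVinj⟩ := exists_nhd Γ hd
  -- the translates of `V`
  let W : G → Set G := fun g => (fun x => g⁻¹ * x) ⁻¹' V
  have hWo : ∀ g, IsOpen (W g) := fun g => hVo.preimage (continuous_const_mul _)
  have hWg : ∀ g, g ∈ W g := fun g => by show g⁻¹ * g ∈ V; rwa [inv_mul_cancel]
  have hWinj : ∀ g, ∀ a ∈ W g, ∀ b ∈ W g, a⁻¹ * b ∈ Γ → a = b := by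
    intro g a ha b hb hab
    have := hVinj (g⁻¹ * a) ha (g⁻¹ * b) hb (by
      have : (g⁻¹ * a)⁻¹ * (g⁻¹ * b) = a⁻¹ * b := by group
      rwa [this])
    exact mul_left_cancel this
  obtain ⟨s, hs, hsU⟩ := TopologicalSpace.countable_cover_nhds
    (fun g => (hWo g).mem_nhds (hWg g))
  have hsne : s.Nonempty := by
    by_contra h
    rw [Set.not_nonempty_iff_eq_empty] at h
    rw [h] at hsU
    have : (1 : G) ∈ (Set.univ : Set G) := Set.mem_univ _
    rw [← hsU] at this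
    simp at this
  obtain ⟨f, hf⟩ := hs.exists_eq_range hsne
  let D : ℕ → Set G := disjointed fun i => W (f i)
  have hDsub : ∀ i, D i ⊆ W (f i) := fun i => disjointed_subset _ i
  have hDm : ∀ i, MeasurableSet (D i) := fun i =>
    MeasurableSet.disjointed (fun j => (hWo (f j)).measurableSet) i
  have hDd : Pairwise (Function.onFun Disjoint D) := disjoint_disjointed _
  have hDU : ⋃ i, D i = Set.univ := by
    have h1 : ⋃ i, D i = ⋃ i, W (f i) := iUnion_disjointed
    rw [h1, ← hsU, hf, Set.biUnion_range]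
  -- measurability of images
  have himg : ∀ (i : ℕ) (A : Set G), MeasurableSet A →
      MeasurableSet ((QuotientGroup.mk : G → G ⧸ Γ) '' (A ∩ D i)) := by
    intro i A hA
    let q : W (f i) → G ⧸ Γ := fun x => (QuotientGroup.mk (x : G) : G ⧸ Γ)
    have hq : Topology.IsOpenEmbedding q := by
      refine Topology.IsOpenEmbedding.of_continuous_injective_isOpenMap ?_ ?_ ?_
      · exact QuotientGroup.continuous_mk.comp continuous_subtype_val
      · intro a b hab
        exact Subtype.ext (hWinj (f i) a a.2 b b.2 (QuotientGroup.eq.1 hab))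
      · exact (QuotientGroup.isOpenMap_coe).comp (hWo (f i)).isOpenMap_subtype_val
    have h1 : (QuotientGroup.mk : G → G ⧸ Γ) '' (A ∩ D i) =
        q '' ((Subtype.val : W (f i) → G) ⁻¹' (A ∩ D i)) := by
      ext x
      constructor
      · rintro ⟨a, ha, rfl⟩
        exact ⟨⟨a, hDsub i ha.2⟩, ha, rfl⟩
      · rintro ⟨a, ha, rfl⟩
        exact ⟨a, ha, rfl⟩
    rw [h1]
    exact hq.measurableEmbedding.measurableSet_image.2
      (measurable_subtype_coe (hA.inter (hDm i)))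
  have hcnt : ∀ A : Set G, cnt Γ A = fun x => ∑' i,
      ((QuotientGroup.mk : G → G ⧸ Γ) '' (A ∩ D i)).indicator 1 x := by
    intro A
    funext x
    have h1 : A = ⋃ i, (A ∩ D i) := by rw [← Set.inter_iUnion, hDU, Set.inter_univ]
    have h2 : cnt Γ A x = cnt Γ (⋃ i, (A ∩ D i)) x := by rw [← h1]
    rw [h2, cnt_iUnion]
    · refine tsum_congr fun i => ?_
      exact cnt_eq_indicator Γ (fun a ha b hb => hWinj (f i) a (hDsub i ha.2) b (hDsub i hb.2)) x
    · intro i j hij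
      exact (hDd hij).mono Set.inter_subset_right Set.inter_subset_right
  have hmeas : ∀ A : Set G, MeasurableSet A → Measurable (cnt Γ A) := by
    intro A hA
    rw [hcnt]
    exact Measurable.tsum fun i => measurable_one.indicator (himg i A hA)
  let ν : Measure G := Measure.ofMeasurable (fun A _ => ∫⁻ x, cnt Γ A x ∂μ)
    (by simp [cnt_empty]) (by
      intro A hA hAd
      show ∫⁻ x, cnt Γ (⋃ i, A i) x ∂μ = ∑' i, ∫⁻ x, cnt Γ (A i) x ∂μ
      rw [← lintegral_tsum fun i => (hmeas _ (hA i)).aemeasurable]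
      exact lintegral_congr fun x => cnt_iUnion Γ hAd x)
  have hν : ∀ A : Set G, MeasurableSet A → ν A = ∫⁻ x, cnt Γ A x ∂μ := fun A hA =>
    Measure.ofMeasurable_apply A hA
  refine ⟨ν, μ Set.univ, hμf, ?_, ?_, ?_, ?_, ?_⟩
  · intro h0
    have h1 : ν Set.univ = 0 := by rw [h0]; rfl
    rw [hν _ MeasurableSet.univ] at h1
    have h2 : μ Set.univ ≤ ∫⁻ x, cnt Γ Set.univ x ∂μ := by
      rw [← one_mul (μ Set.univ), ← lintegral_const]
      refine lintegral_mono fun x => ?_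
      obtain ⟨g, rfl⟩ := QuotientGroup.mk_surjective x
      refine le_trans ?_ (ENNReal.le_tsum g)
      rw [Set.indicator_of_mem]
      · rfl
      · exact ⟨Set.mem_univ _, rfl⟩
    rw [h1] at h2
    exact hμ0 (Measure.measure_univ_eq_zero.1 (le_antisymm h2 (zero_le)))
  · intro g A hA
    have hA' : MeasurableSet ((fun x => g * x) ⁻¹' A) :=
      (continuous_const_mul g).measurable hA
    rw [hν _ hA', hν _ hA]
    have hc : Measurable (fun x : G ⧸ Γ => g • x) := (continuous_const_smul g).measurable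
    have hmap : Measure.map (fun x : G ⧸ Γ => g • x) μ = μ := by
      ext B hB
      rw [Measure.map_apply hc hB]
      exact hμ g B hB
    calc ∫⁻ x, cnt Γ ((fun y => g * y) ⁻¹' A) x ∂μ = ∫⁻ x, cnt Γ A (g • x) ∂μ :=
          lintegral_congr fun x => cnt_left Γ g A x
      _ = ∫⁻ x, cnt Γ A x ∂(Measure.map (fun x : G ⧸ Γ => g • x) μ) :=
          (lintegral_map (hmeas A hA) hc).symm
      _ = ∫⁻ x, cnt Γ A x ∂μ := by rw [hmap]
  · intro S hS
    obtain ⟨t, ht⟩ := hS.elim_finite_subcover W hWo (fun x _ => Set.mem_iUnion.2 ⟨x, hWg x⟩)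
    rw [hν _ hS.isClosed.measurableSet]
    refine ne_top_of_le_ne_top ?_ (lintegral_mono fun x => cnt_le_sum Γ t W S ht hWinj x)
    rw [lintegral_const]
    exact ENNReal.mul_ne_top (ENNReal.natCast_ne_top _) hμf
  · intro γ hγ A hA
    have hA' : MeasurableSet ((fun x => x * γ) ⁻¹' A) :=
      (continuous_mul_const γ).measurable hA
    rw [hν _ hA', hν _ hA]
    exact lintegral_congr fun x => cnt_right Γ γ hγ A x
  · intro A hA hinj
    rw [hν _ hA]
    calc ∫⁻ x, cnt Γ A x ∂μ ≤ ∫⁻ _x, 1 ∂μ := lintegral_mono fun x => cnt_le_one Γ hinj x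
      _ = μ Set.univ := by rw [lintegral_const, one_mul]

end Pool.Agent.Lib.MP_5d4057_al.Hyb
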