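import Pool.Agent.Lib.MP_5d4057_al.Hyb.Blk

namespace Pool.Agent.Lib.MP_5d4057_al.Hyb

open Matrix Pool.Agent.Lib.MP_5d4057_al

/-- The Heisenberg translation of a null vector `w` in the direction `x ⊥ w`. -/
noncomputable def T (m : ℕ) (w x : Fin (m + 1) → ℂ) : Matrix (Fin (m + 1)) (Fin (m + 1)) ℂ :=
  1 + rk m w x - rk m x w - ((1 / 2 : ℂ) * hm m x x) • rk m w w

/-- The vertical translations. -/
noncomputable def Z (m : ℕ) (w : Fin (m + 1) → ℂ) (κ : ℂ) : Matrix (Fin (m + 1)) (Fin (m + 1)) ℂ :=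
  1 + κ • rk m w w

private theorem hm_swap_zero {m : ℕ} {a b : Fin (m + 1) → ℂ} (h : hm m a b = 0) :
    hm m b a = 0 := by
  rw [← hm_star, h, star_zero]

private theorem rk_smul_right {m : ℕ} (a b : Fin (m + 1) → ℂ) (t : ℂ) :
    rk m a (t • b) = t • rk m a b := by
  rw [rk, rk, smul_vecMulVec]

private theorem rk_smul_left {m : ℕ} (a b : Fin (m + 1) → ℂ) (t : ℂ) :
    rk m (t • a) b = star t • rk m a b := by
  rw [rk, rk, star_smul, smul_vecMul, vecMulVec_smul]

private theorem rk_add_right {m : ℕ} (a b c : Fin (m + 1) → ℂ) :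
    rk m a (b + c) = rk m a b + rk m a c := by
  rw [rk, rk, rk, add_vecMulVec]

private theorem rk_add_left {m : ℕ} (a b c : Fin (m + 1) → ℂ) :
    rk m (a + b) c = rk m a c + rk m b c := by
  rw [rk, rk, rk, star_add, add_vecMul, vecMulVec_add]

/-- Expand with `rk_mul`; all products vanish except
`rk w x * rk y w`-type ones: `(rk m w x - rk m x w) * (rk m w y - rk m y w) = -hm m x y • rk m w w`. -/
theorem T_mul {m : ℕ} (w x y : Fin (m + 1) → ℂ) (hw : hm m w w = 0) (hx : hm m w x = 0)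
    (hy : hm m w y = 0) : T m w x * T m w y = 1 + rk m w x + rk m w y - rk m x w - rk m y w -
      ((1 / 2 : ℂ) * hm m x x + (1 / 2 : ℂ) * hm m y y + hm m x y) • rk m w w := by
  have hx' := hm_swap_zero hx
  have hy' := hm_swap_zero hy
  simp only [T, Matrix.mul_sub, Matrix.sub_mul, Matrix.mul_add, Matrix.add_mul, Matrix.one_mul,
    Matrix.mul_one, Matrix.smul_mul, Matrix.mul_smul, rk_mul, hw, hx, hy, hx', hy', zero_smul,
    smul_zero]
  module

/-- `T w x * T w y = Z w (⟨y,x⟩ - ⟨x,y⟩) * (T w y * T w x)` by `T_mul`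
(`rk w w * (T w y * T w x) = rk w w`). -/
theorem T_comm {m : ℕ} (w x y : Fin (m + 1) → ℂ) (hw : hm m w w = 0) (hx : hm m w x = 0)
    (hy : hm m w y = 0) :
    T m w x * T m w y = Z m w (hm m y x - hm m x y) * (T m w y * T m w x) := by
  rw [T_mul w x y hw hx hy, T_mul w y x hw hy hx]
  simp only [Z, Matrix.mul_sub, Matrix.sub_mul, Matrix.mul_add, Matrix.add_mul, Matrix.one_mul,
    Matrix.mul_one, Matrix.smul_mul, Matrix.mul_smul, rk_mul, hw, hx, hy, zero_smul,
    smul_zero]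
  module

/-- Induction on `n` with `T_mul` for `x` and `n • x`. -/
theorem T_pow {m : ℕ} (w x : Fin (m + 1) → ℂ) (hw : hm m w w = 0) (hx : hm m w x = 0) (n : ℕ) :
    T m w x ^ n = T m w ((n : ℂ) • x) := by
  induction n with
  | zero =>
    rw [pow_zero, Nat.cast_zero, zero_smul, T]
    simp [hm, rk]
  | succ n ih =>
    have hnx : hm m w ((n : ℂ) • x) = 0 := by rw [hm_smul_right, hx, mul_zero]
    rw [pow_succ, ih, T_mul w _ x hw hnx hx, T]
    simp only [rk_smul_right, rk_smul_left, hm_smul_left, hm_smul_right, star_natCast]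
    push_cast
    module

/-- From `T_mul` with `y = -x`. -/
theorem T_mul_neg {m : ℕ} (w x : Fin (m + 1) → ℂ) (hw : hm m w w = 0) (hx : hm m w x = 0) :
    T m w x * T m w (-x) = 1 := by
  have hx1 : -x = (-1 : ℂ) • x := by simp
  have hnx : hm m w ((-1 : ℂ) • x) = 0 := by rw [hm_smul_right, hx, mul_zero]
  rw [hx1, T_mul w x _ hw hx hnx]
  simp only [rk_smul_right, rk_smul_left, hm_smul_left, hm_smul_right, star_neg, star_one]
  module

private theorem hm_self_star {m : ℕ} (x : Fin (m + 1) → ℂ) : star (hm m x x) = hm m x x :=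
  hm_star x x

/-- `(T w x)ᴴ * J = J * T w (-x)` by `rk_conjTranspose` (`(rk a b)ᴴ * J = J * rk b a`, and `⟨x,x⟩` is
real by `hm_star`), then `T_mul_neg`. -/
theorem T_pres {m : ℕ} (w x : Fin (m + 1) → ℂ) (hw : hm m w w = 0) (hx : hm m w x = 0) :
    (T m w x)ᴴ * J m * T m w x = J m := by
  have hx1 : -x = (-1 : ℂ) • x := by simp
  have hnx : hm m w (-x) = 0 := by rw [hx1, hm_smul_right, hx, mul_zero]
  have h1 : (T m w x)ᴴ * J m = J m * T m w (-x) := by
    rw [hx1]
    have hs : star ((1 / 2 : ℂ) * hm m x x) = (1 / 2 : ℂ) * hm m x x := by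
      rw [star_mul', hm_self_star]
      simp
    simp only [T, conjTranspose_sub, conjTranspose_add, conjTranspose_one, conjTranspose_smul,
      Matrix.sub_mul, Matrix.add_mul, Matrix.one_mul, Matrix.smul_mul, rk_conjTranspose,
      rk_smul_right, rk_smul_left, hm_smul_left, hm_smul_right, star_neg, star_one, hs,
      Matrix.mul_sub, Matrix.mul_add, Matrix.mul_one, Matrix.mul_smul]
    module
  have h2 : T m w (-x) * T m w x = 1 := by
    have := T_mul_neg w (-x) hw hnx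
    rwa [neg_neg] at this
  rw [h1, Matrix.mul_assoc, h2, Matrix.mul_one]

/-- `T w x = 1 + N` with `N ^ 3 = 0`, and `det (1 + N) = 1` for nilpotent `N` (the characteristic
polynomial of a nilpotent matrix over a field is `X ^ n`, see
`Matrix.isNilpotent_charpoly_sub_pow_of_isNilpotent`; `det (1 + N) = (-N).charpoly.eval 1`). -/
theorem T_det {m : ℕ} (w x : Fin (m + 1) → ℂ) (hw : hm m w w = 0) (hx : hm m w x = 0) :
    (T m w x).det = 1 := by
  have hx' := hm_swap_zero hx
  obtain ⟨N, hN⟩ : ∃ N : Matrix (Fin (m + 1)) (Fin (m + 1)) ℂ,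
      N = rk m w x - rk m x w - ((1 / 2 : ℂ) * hm m x x) • rk m w w := ⟨_, rfl⟩
  have hT : T m w x = 1 - (-N) := by
    rw [T, hN]
    module
  have h2 : N * N = -(hm m x x) • rk m w w := by
    rw [hN]
    simp only [Matrix.mul_sub, Matrix.sub_mul, Matrix.smul_mul, Matrix.mul_smul, rk_mul, hw, hx,
      hx', zero_smul, smul_zero]
    module
  have h3 : N * N * N = 0 := by
    rw [h2, hN]
    simp only [Matrix.mul_sub, Matrix.smul_mul, Matrix.mul_smul, rk_mul, hw, hx,
      hx', zero_smul, smul_zero, sub_zero]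
  have hnil : IsNilpotent (-N) := by
    refine ⟨3, ?_⟩
    rw [pow_succ, pow_succ, pow_one]
    simp [h3]
  have hch := Matrix.isNilpotent_charpoly_sub_pow_of_isNilpotent hnil
  have hch2 : (-N).charpoly - Polynomial.X ^ Fintype.card (Fin (m + 1)) = 0 := hch.eq_zero
  have hch3 : (-N).charpoly = Polynomial.X ^ Fintype.card (Fin (m + 1)) := sub_eq_zero.1 hch2
  rw [hT]
  have h4 : (1 - (-N)).det = ((-N).charpoly).eval 1 := by
    rw [Matrix.eval_charpoly]
    simp
  rw [h4, hch3]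
  simp

/-- `rk m (ζ • a) (ζ • b) = (star ζ * ζ) • rk m a b`. -/
theorem T_smul {m : ℕ} (w x : Fin (m + 1) → ℂ) (ζ : ℂ) (hζ : star ζ * ζ = 1) :
    T m (ζ • w) (ζ • x) = T m w x := by
  have h1 : ∀ a b : Fin (m + 1) → ℂ, rk m (ζ • a) (ζ • b) = rk m a b := by
    intro a b
    rw [rk_smul_right, rk_smul_left, smul_smul, mul_comm, hζ, one_smul]
  have h2 : hm m (ζ • x) (ζ • x) = hm m x x := by
    rw [hm_smul_left, hm_smul_right, ← mul_assoc, hζ, one_mul]
  rw [T, T, h1, h1, h1, h2]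

/-- Conjugation by an element of `SU(m,1)`: `conj_rk`, `hm_mulVec`. -/
theorem conj_T {m : ℕ} (g : SUGroup m) (w x : Fin (m + 1) → ℂ) :
    g.toMatrix * T m w x * (g⁻¹).toMatrix = T m (g.toMatrix *ᵥ w) (g.toMatrix *ᵥ x) := by
  simp only [T, Matrix.mul_sub, Matrix.sub_mul, Matrix.mul_add, Matrix.add_mul, Matrix.mul_one,
    Matrix.smul_mul, Matrix.mul_smul, conj_rk, hm_mulVec, toMatrix_mul_inv]

/-- `dsum 1 A = 1 + dsum 0 (A - 1)` and `dsum_one_rk`, `hm_cons`. -/
theorem dsum_T {m : ℕ} (w x : Fin (m + 1) → ℂ) :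
    dsum 1 (T m w x) = T (m + 1) (Fin.cons 0 w) (Fin.cons 0 x) := by
  have h1 : dsum 1 (T m w x) = 1 + dsum 0 (rk m w x) - dsum 0 (rk m x w) -
      ((1 / 2 : ℂ) * hm m x x) • dsum 0 (rk m w w) := by
    rw [← dsum_one]
    ext i j
    refine Fin.cases ?_ (fun i => ?_) i <;> refine Fin.cases ?_ (fun j => ?_) j <;>
      simp [T]
  rw [h1, dsum_one_rk, dsum_one_rk, dsum_one_rk, T, hm_cons]
  simp

/-- `Z w a * Z w b = Z w (a + b)` for null `w`. -/
theorem Z_mul {m : ℕ} (w : Fin (m + 1) → ℂ) (hw : hm m w w = 0) (a b : ℂ) :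
    Z m w a * Z m w b = Z m w (a + b) := by
  simp only [Z, Matrix.mul_add, Matrix.add_mul, Matrix.one_mul, Matrix.mul_one, Matrix.smul_mul,
    Matrix.mul_smul, rk_mul, hw, zero_smul, smul_zero]
  module

end Pool.Agent.Lib.MP_5d4057_al.Hyb
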