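import Pool.Agent.Lib.MP_5d4057_al.Hyb.Tr
import Pool.Agent.Lib.MP_5d4057_al.Hyb.Fld
import Pool.Agent.Lib.MP_5d4057_al.Hyb.Uni
import Pool.Agent.Lib.MP_5d4057_al.Hyb.Sig

namespace Pool.Agent.Lib.MP_5d4057_al.Hyb

open Matrix Pool.Agent.Lib.MP_5d4057_al ComplexOrder

/-- A lattice in `SU(m,1)`, `m ≥ 2`, which is rational over the CM field `K` has trace field `K`.
`traceField Γ ≤ K` by `exists_rat`. Use `eq_of_emb` with `F = traceField Γ`: let `τ : K →+* ℂ` be the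
identity on `F`. By `hf.definite τ` either `τ` is the inclusion (fine), or `τ x = conj x` for all
`x`: then `conj (tr γ) = tr γ` on `Γ`, contradicting `trace_nonreal`; or `H.map τ` is definite: then
`entries_bound'` bounds the entries of `G.map τ` (`G` from `exists_rat`), so
`tr γ = τ (tr G) = tr (G.map τ)` is bounded on `Γ`, contradicting `trace_unbounded`. -/
theorem traceField_eq {m : ℕ} (h : 2 ≤ m) (Γ : Subgroup (SUGroup m)) (hΓ : IsLattice Γ)
    (K : Subfield ℂ) (H : Matrix (Fin (m + 1)) (Fin (m + 1)) K)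
    (B : Matrix (Fin (m + 1)) (Fin (m + 1)) ℂ) (hf : IsForm m K H B)
    (hr : ∀ γ ∈ Γ, EntriesIn K B γ.toMatrix) : traceField Γ = K := by
  have hF : ∀ γ ∈ Γ, γ.toMatrix.trace ∈ traceField Γ := fun γ hγ =>
    Subfield.subset_closure ⟨γ, hγ, rfl⟩
  have hFK : traceField Γ ≤ K := by
    rw [traceField, Subfield.closure_le]
    rintro t ⟨γ, hγ, rfl⟩
    obtain ⟨G, -, hG, -⟩ := exists_rat hf γ (hr γ hγ)
    rw [← hG]
    exact G.trace.2
  refine eq_of_emb K hf.cm.1 (traceField Γ) hFK ?_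
  intro τ hτ
  rcases hf.definite τ with h1 | h1 | h1
  · exact h1
  · exfalso
    obtain ⟨γ, hγ, hne⟩ := trace_nonreal h Γ hΓ
    obtain ⟨G, -, hG, -⟩ := exists_rat hf γ (hr γ hγ)
    have h2 := hτ G.trace (by rw [hG]; exact hF γ hγ)
    rw [h1, hG] at h2
    exact hne h2
  · exfalso
    obtain ⟨C, hC⟩ := entries_bound' (H.map τ) h1
    obtain ⟨γ, hγ, hlt⟩ := trace_unbounded (by omega : 1 ≤ m) Γ hΓ (((m + 1 : ℕ) : ℝ) * C)
    obtain ⟨G, -, hG, hG2⟩ := exists_rat hf γ (hr γ hγ)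
    have h2 := hτ G.trace (by rw [hG]; exact hF γ hγ)
    have h3 : (G.map τ).trace = γ.toMatrix.trace := by
      rw [← hG, ← h2, Matrix.trace, Matrix.trace, map_sum]
      rfl
    have h4 : ‖(G.map τ).trace‖ ≤ ((m + 1 : ℕ) : ℝ) * C := by
      rw [Matrix.trace]
      calc ‖∑ i, (G.map τ).diag i‖ ≤ ∑ i, ‖(G.map τ).diag i‖ := norm_sum_le _ _
        _ ≤ ∑ _i : Fin (m + 1), C := Finset.sum_le_sum fun i _ => hC _ (hG2 τ) i i
        _ = _ := by simp
    rw [h3] at h4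
    exact absurd hlt (not_lt.2 h4)

end Pool.Agent.Lib.MP_5d4057_al.Hyb
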