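import Pool.Agent.Lib.MP_5d4057_al.Hyb.Aug
import Pool.Agent.Lib.MP_5d4057_al.Hyb.Phi

namespace Pool.Agent.Lib.MP_5d4057_al.Hyb

open Matrix

private def dl (n : ℕ) :
    Matrix (Fin n) (Fin n) ℂ →ₗ[ℂ] Matrix (Fin (n + 1)) (Fin (n + 1)) ℂ where
  toFun X := dsum 0 X
  map_add' X Y := by
    ext i j
    refine Fin.cases ?_ (fun i => ?_) i <;> refine Fin.cases ?_ (fun j => ?_) j <;> simp
  map_smul' c X := by
    ext i j
    refine Fin.cases ?_ (fun i => ?_) i <;> refine Fin.cases ?_ (fun j => ?_) j <;> simp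

private theorem dl_apply {n : ℕ} (X : Matrix (Fin n) (Fin n) ℂ) : dl n X = dsum 0 X := rfl

private noncomputable def cl {n : ℕ} (B : Matrix (Fin (n + 1)) (Fin (n + 1)) ℂ) :
    Matrix (Fin n) (Fin n) ℂ →ₗ[ℂ] Matrix (Fin (n + 1)) (Fin (n + 1)) ℂ :=
  (LinearMap.mulLeft ℂ B⁻¹).comp ((LinearMap.mulRight ℂ B).comp (dl n))

private theorem cl_apply {n : ℕ} (B : Matrix (Fin (n + 1)) (Fin (n + 1)) ℂ)
    (X : Matrix (Fin n) (Fin n) ℂ) : cl B X = B⁻¹ * dsum 0 X * B := by
  rw [cl, LinearMap.comp_apply, LinearMap.comp_apply, LinearMap.mulLeft_apply,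
    LinearMap.mulRight_apply, dl_apply, Matrix.mul_assoc]

private theorem cl_mul {n : ℕ} (B : Matrix (Fin (n + 1)) (Fin (n + 1)) ℂ) (hB : B.det ≠ 0)
    (X Y : Matrix (Fin n) (Fin n) ℂ) : cl B X * cl B Y = cl B (X * Y) := by
  rw [cl_apply, cl_apply, cl_apply]
  have hB1 := Matrix.mul_nonsing_inv B (isUnit_iff_ne_zero.2 hB)
  calc B⁻¹ * dsum 0 X * B * (B⁻¹ * dsum 0 Y * B)
      = B⁻¹ * (dsum 0 X * (B * B⁻¹) * dsum 0 Y) * B := by simp only [Matrix.mul_assoc]
    _ = B⁻¹ * dsum 0 (X * Y) * B := by rw [hB1, Matrix.mul_one, dsum_mul, mul_zero]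

private theorem dsum_sub_one {n : ℕ} (A : Matrix (Fin n) (Fin n) ℂ) :
    dsum 0 (A - 1) = dsum 1 A - 1 := by
  rw [← dsum_one]
  ext i j
  refine Fin.cases ?_ (fun i => ?_) i <;> refine Fin.cases ?_ (fun j => ?_) j <;> simp

private theorem cl_sub_one {n : ℕ} (K : Subfield ℂ)
    (B : Matrix (Fin (n + 1)) (Fin (n + 1)) ℂ) (hB : B.det ≠ 0) (A : Matrix (Fin n) (Fin n) ℂ)
    (h : EntriesIn K B (dsum 1 A)) (i j : Fin (n + 1)) : cl B (A - 1) i j ∈ K := by
  have hB2 := Matrix.nonsing_inv_mul B (isUnit_iff_ne_zero.2 hB)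
  rw [cl_apply, dsum_sub_one, Matrix.mul_sub, Matrix.sub_mul, Matrix.mul_one, hB2,
    Matrix.sub_apply, Matrix.one_apply]
  refine K.sub_mem (h i j) ?_
  split_ifs
  · exact K.one_mem
  · exact K.zero_mem

private theorem phi_mul' {K : Subfield ℂ} (φ : ℂ →ₗ[K] K) (x : ℂ) {a : ℂ} (ha : a ∈ K) :
    (φ (x * a) : ℂ) = φ x * a := by
  have h : x * a = (⟨a, ha⟩ : K) • x := by
    show x * a = a * x
    ring
  rw [h, map_smul]
  show a * (φ x : ℂ) = φ x * a
  ring

/-- Let `P = B⁻¹ * dsum 0 1 * B`. It has entries in `K`. For `A ∈ S` put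
`D A = B⁻¹ * (dsum 1 A - 1) * B = B⁻¹ * dsum 0 (A - 1) * B`, entries in `K`. Let `V` be the complex
span of the `D A`; by `span_sub_one` it is `{B⁻¹ * dsum 0 X * B | X}`, so `P ∈ V`, and `P` is a two
sided identity of `V`. Write `P = ∑ x_l • D A_l`, put `P' = ∑ φ (x_l) • D A_l` with `φ` from
`exists_phi`; it is in `V` and has entries in `K`. Applying `φ` entrywise to `P * D A = D A` gives
`P' * D A = D A` (because `D A` has entries in `K`, `φ` entrywise of `P * D A` is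
`(φ P) * D A = P' * D A`). Hence `P' * v = v` for all `v ∈ V`; with `v = P`: `P' * P = P`; and
`P' * P = P'` as `P' ∈ V`. So `P = P'` has entries in `K`. -/
theorem proj_entries {n : ℕ} (hn : 2 ≤ n) (K : Subfield ℂ) (S : Set (Matrix (Fin n) (Fin n) ℂ))
    (h1 : 1 ∈ S) (hmul : ∀ A ∈ S, ∀ B ∈ S, A * B ∈ S) (hS : Submodule.span ℂ S = ⊤)
    (B : Matrix (Fin (n + 1)) (Fin (n + 1)) ℂ) (hB : B.det ≠ 0)
    (h : ∀ A ∈ S, EntriesIn K B (dsum 1 A)) :
    EntriesIn K B (dsum 0 (1 : Matrix (Fin n) (Fin n) ℂ)) := by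
  obtain ⟨φ, hφ⟩ := exists_phi K
  have hT := span_sub_one hn S h1 hmul hS
  have hspan : ∀ X, cl B X ∈ Submodule.span ℂ (cl B '' {X | ∃ A ∈ S, X = A - 1}) := by
    intro X
    rw [Submodule.span_image, hT]
    exact Submodule.mem_map_of_mem Submodule.mem_top
  have hTK : ∀ M ∈ cl B '' {X | ∃ A ∈ S, X = A - 1}, ∀ i j, M i j ∈ K := by
    rintro _ ⟨_, ⟨A, hA, rfl⟩, rfl⟩ i j
    exact cl_sub_one K B hB A (h A hA) i j
  have key : ∀ M ∈ Submodule.span ℂ (cl B '' {X | ∃ A ∈ S, X = A - 1}), ∀ x : ℂ,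
      ∃ X, (x • M).map (fun z => ((φ z : K) : ℂ)) = cl B X := by
    intro M hM
    induction hM using Submodule.span_induction with
    | mem A hA =>
      intro x
      obtain ⟨X, hX, hXA⟩ := id hA
      refine ⟨(φ x : ℂ) • X, ?_⟩
      rw [map_smul, hXA]
      ext i j
      show ((φ (x * A i j) : K) : ℂ) = (φ x : ℂ) * A i j
      exact phi_mul' φ x (hTK A hA i j)
    | zero =>
      intro x
      refine ⟨0, ?_⟩
      rw [map_zero]
      ext i j
      show ((φ (x * 0) : K) : ℂ) = 0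
      rw [mul_zero, map_zero]
      rfl
    | add A C _ _ hA hC =>
      intro x
      obtain ⟨X, hX⟩ := hA x
      obtain ⟨Y, hY⟩ := hC x
      refine ⟨X + Y, ?_⟩
      rw [map_add, ← hX, ← hY]
      ext i j
      show ((φ (x * (A i j + C i j)) : K) : ℂ) =
        ((φ (x * A i j) : K) : ℂ) + ((φ (x * C i j) : K) : ℂ)
      rw [mul_add, map_add]
      rfl
    | smul c A _ hA =>
      intro x
      rw [smul_smul]
      exact hA (x * c)
  obtain ⟨X, hX⟩ := key _ (hspan 1) 1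
  rw [one_smul] at hX
  have hleft : ∀ M ∈ Submodule.span ℂ (cl B '' {X | ∃ A ∈ S, X = A - 1}),
      cl B X * M = M := by
    intro M hM
    induction hM using Submodule.span_induction with
    | mem A hA =>
      obtain ⟨Y, hY, hYA⟩ := id hA
      have h1A : cl B 1 * A = A := by
        rw [← hYA, cl_mul B hB, Matrix.one_mul]
      ext i j
      have h2 := congrFun (congrFun h1A i) j
      rw [Matrix.mul_apply] at h2 ⊢
      rw [← hX]
      calc ∑ l, ((cl B 1).map (fun z => ((φ z : K) : ℂ))) i l * A l j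
          = ∑ l, ((φ (cl B 1 i l * A l j) : K) : ℂ) :=
            Finset.sum_congr rfl fun l _ => (phi_mul' φ _ (hTK A hA l j)).symm
        _ = ((φ (∑ l, cl B 1 i l * A l j) : K) : ℂ) := by
            rw [map_sum]
            exact (map_sum K.subtype _ _).symm
        _ = A i j := by
            rw [h2]
            exact congrArg Subtype.val (hφ ⟨A i j, hTK A hA i j⟩)
    | zero => rw [Matrix.mul_zero]
    | add A C _ _ hA hC => rw [Matrix.mul_add, hA, hC]
    | smul c A _ hA => rw [Matrix.mul_smul, hA]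
  have h2 := hleft _ (hspan 1)
  rw [cl_mul B hB, Matrix.mul_one, ← hX] at h2
  intro i j
  rw [← cl_apply, ← h2]
  exact (φ (cl B 1 i j)).2

/-- A `K`-form of `ℂ ⊕ ℂⁿ` which is stable under `1 ⊕ S` splits. By `proj_entries`,
`P = B⁻¹ * dsum 0 1 * B` has entries in `K`, and so does `1 - P`. We have
`B * (1 - P) = dsum 1 0 * B`, nonzero, so some column `x = (1 - P) e_l` has `B x = t e_0`, `t ≠ 0`
(`t = B 0 l`). Expanding `det B` along row `0` there is `l'` such that
`D = B.submatrix Fin.succ (Fin.succAbove l')` has nonzero determinant. Let `Q` have first column `x`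
and other columns `P e_{succAbove l' i}`. As `B * P = dsum 0 1 * B` is `B` with the first row
replaced by `0`, `B * Q = dsum t D`. Its determinant is `t * det D ≠ 0`, so `det Q ≠ 0`. -/
theorem split {n : ℕ} (hn : 2 ≤ n) (K : Subfield ℂ) (S : Set (Matrix (Fin n) (Fin n) ℂ))
    (h1 : 1 ∈ S) (hmul : ∀ A ∈ S, ∀ B ∈ S, A * B ∈ S) (hS : Submodule.span ℂ S = ⊤)
    (B : Matrix (Fin (n + 1)) (Fin (n + 1)) ℂ) (hB : B.det ≠ 0)
    (h : ∀ A ∈ S, EntriesIn K B (dsum 1 A)) :
    ∃ (t : ℂ) (D : Matrix (Fin n) (Fin n) ℂ) (Q : Matrix (Fin (n + 1)) (Fin (n + 1)) K),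
      t ≠ 0 ∧ D.det ≠ 0 ∧ Q.det ≠ 0 ∧ B * Q.map (fun x : K => (x : ℂ)) = dsum t D := by
  have hP := proj_entries hn K S h1 hmul hS B hB h
  have hB1 := Matrix.mul_nonsing_inv B (isUnit_iff_ne_zero.2 hB)
  set P := B⁻¹ * dsum 0 (1 : Matrix (Fin n) (Fin n) ℂ) * B with hPdef
  have hBP : B * P = dsum 0 1 * B := by
    rw [hPdef]
    calc B * (B⁻¹ * dsum 0 (1 : Matrix (Fin n) (Fin n) ℂ) * B)
        = (B * B⁻¹) * dsum 0 1 * B := by simp only [Matrix.mul_assoc]
      _ = dsum 0 1 * B := by rw [hB1, Matrix.one_mul]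
  have hBP0 : ∀ j, (B * P) 0 j = 0 := by
    intro j
    rw [hBP, Matrix.mul_apply, Fin.sum_univ_succ]
    simp
  have hBPs : ∀ (i : Fin n) j, (B * P) i.succ j = B i.succ j := by
    intro i j
    rw [hBP, Matrix.mul_apply, Fin.sum_univ_succ]
    simp [Matrix.one_apply]
  obtain ⟨l, hl⟩ : ∃ l : Fin (n + 1), B 0 l * (B.submatrix Fin.succ l.succAbove).det ≠ 0 := by
    by_contra hcon
    push Not at hcon
    refine hB ?_
    rw [Matrix.det_succ_row_zero]
    refine Finset.sum_eq_zero fun l _ => ?_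
    rw [mul_assoc, hcon l, mul_zero]
  have hPK : ∀ i j, P i j ∈ K := hP
  have hQK : ∀ (i j : Fin (n + 1)), (Fin.cons ((1 - P) i l) (fun j => P i (l.succAbove j)) :
      Fin (n + 1) → ℂ) j ∈ K := by
    intro i j
    refine Fin.cases ?_ (fun j => ?_) j
    · rw [Fin.cons_zero, Matrix.sub_apply, Matrix.one_apply]
      refine K.sub_mem ?_ (hPK i l)
      split_ifs
      · exact K.one_mem
      · exact K.zero_mem
    · rw [Fin.cons_succ]
      exact hPK _ _
  set Q : Matrix (Fin (n + 1)) (Fin (n + 1)) K := Matrix.of fun i j => ⟨_, hQK i j⟩ with hQ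
  have hQ0 : ∀ i, (Q.map (fun x : K => (x : ℂ))) i 0 = (1 - P) i l := fun i => rfl
  have hQs : ∀ i (j : Fin n), (Q.map (fun x : K => (x : ℂ))) i j.succ = P i (l.succAbove j) :=
    fun i j => rfl
  have hBQ : B * Q.map (fun x : K => (x : ℂ)) =
      dsum (B 0 l) (B.submatrix Fin.succ l.succAbove) := by
    ext i j
    refine Fin.cases ?_ (fun j => ?_) j
    · have h2 : (B * Q.map (fun x : K => (x : ℂ))) i 0 = (B * (1 - P)) i l := by
        rw [Matrix.mul_apply, Matrix.mul_apply]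
        exact Finset.sum_congr rfl fun k _ => by rw [hQ0]
      rw [h2, Matrix.mul_sub, Matrix.mul_one, Matrix.sub_apply]
      refine Fin.cases ?_ (fun i => ?_) i
      · rw [hBP0, sub_zero, dsum_zero_zero]
      · rw [hBPs, sub_self, dsum_succ_zero]
    · have h2 : (B * Q.map (fun x : K => (x : ℂ))) i j.succ = (B * P) i (l.succAbove j) := by
        rw [Matrix.mul_apply, Matrix.mul_apply]
        exact Finset.sum_congr rfl fun k _ => by rw [hQs]
      rw [h2]
      refine Fin.cases ?_ (fun i => ?_) i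
      · rw [hBP0, dsum_zero_succ]
      · rw [hBPs, dsum_succ_succ, Matrix.submatrix_apply]
  refine ⟨B 0 l, B.submatrix Fin.succ l.succAbove, Q, left_ne_zero_of_mul hl,
    right_ne_zero_of_mul hl, ?_, hBQ⟩
  intro h0
  have h2 : (Q.map (fun x : K => (x : ℂ))).det = ((Q.det : K) : ℂ) :=
    (RingHom.map_det K.subtype Q).symm
  have h3 := congrArg Matrix.det hBQ
  rw [Matrix.det_mul, h2, h0, det_dsum] at h3
  refine hl ?_
  rw [← h3]
  exact mul_zero _

end Pool.Agent.Lib.MP_5d4057_al.Hyb
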