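import Pool.Agent.Lib.MP_5d4057_al.Hyb.Split
import Pool.Agent.Lib.MP_5d4057_al.Hyb.Span

namespace Pool.Agent.Lib.MP_5d4057_al.Hyb

open Matrix Pool.Agent.Lib.MP_5d4057_al ComplexOrder

private theorem map_hom_mul {K : Subfield ℂ} {n : ℕ} (τ : K →+* ℂ)
    (M N : Matrix (Fin n) (Fin n) K) : (M * N).map τ = M.map τ * N.map τ :=
  Matrix.map_mul (f := τ)

private theorem map_sub_mul {K : Subfield ℂ} {n : ℕ} (M N : Matrix (Fin n) (Fin n) K) :
    (M * N).map (fun x : K => (x : ℂ)) =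
      M.map (fun x : K => (x : ℂ)) * N.map (fun x : K => (x : ℂ)) :=
  Matrix.map_mul (f := K.subtype)

private theorem posDef_of_dsum {n : ℕ} {a : ℂ} {M : Matrix (Fin n) (Fin n) ℂ}
    (h : (dsum a M).PosDef) : M.PosDef := by
  have h1 := h.submatrix (e := Fin.succ) (Fin.succ_injective n)
  have h2 : (dsum a M).submatrix Fin.succ Fin.succ = M := by
    ext i j
    rw [Matrix.submatrix_apply, dsum_succ_succ]
  rwa [h2] at h1

private theorem neg_dsum' {n : ℕ} (a : ℂ) (M : Matrix (Fin n) (Fin n) ℂ) :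
    -(dsum a M) = dsum (-a) (-M) := by
  ext i j
  refine Fin.cases ?_ (fun i => ?_) i <;> refine Fin.cases ?_ (fun j => ?_) j <;> simp

/-- `split` for a lattice `Γ` in `SU(m,1)`, `m ≥ 1`, embedded in `SU(m+1,1)`, together with the
form. Apply `split` with `n = m + 1`, `S = toMatrix '' Γ` (`span_top`). Put
`H₁ = Qᴴ H Q` over `K` (the conjugate of `Q` has entries in `K` by `hf.cm`): over `ℂ` it is
`(dsum t D)ᴴ * J (m + 1) * dsum t D = dsum (star t * t) (Dᴴ * J m * D)` (`J_succ`, `dsum_mul`,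
`dsum_conjTranspose`), so `q = H₁ 0 0` and `H' i j = H₁ i.succ j.succ`, the other entries being `0`,
i.e. `H₁ = dsum q H'`. For `τ : K →+* ℂ`:
`dsum (τ q) (H'.map τ) = H₁.map τ = (Q.map τ)ᴴ * H.map τ * Q.map τ` (`hf.cm` again), and
`Q.map τ` is invertible, so definiteness is inherited (`Matrix.PosDef.conjTranspose_mul_mul_same` or
similar). -/
theorem split_form {m : ℕ} (h : 1 ≤ m) (Γ : Subgroup (SUGroup m)) (hΓ : IsLattice Γ)
    (K : Subfield ℂ) (H : Matrix (Fin (m + 1 + 1)) (Fin (m + 1 + 1)) K)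
    (B : Matrix (Fin (m + 1 + 1)) (Fin (m + 1 + 1)) ℂ) (hf : IsForm (m + 1) K H B)
    (hr : ∀ γ ∈ Γ, EntriesIn K B (extend m γ).toMatrix) :
    ∃ (t : ℂ) (D : Matrix (Fin (m + 1)) (Fin (m + 1)) ℂ)
      (Q : Matrix (Fin (m + 1 + 1)) (Fin (m + 1 + 1)) K) (q : K)
      (H' : Matrix (Fin (m + 1)) (Fin (m + 1)) K),
      t ≠ 0 ∧ D.det ≠ 0 ∧ Q.det ≠ 0 ∧ B * Q.map (fun x : K => (x : ℂ)) = dsum t D ∧
      (q : ℂ) = star t * t ∧ Dᴴ * J m * D = H'.map (fun x : K => (x : ℂ)) ∧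
      ∀ τ : K →+* ℂ, (∀ x : K, τ x = x) ∨ (∀ x : K, τ x = (starRingEnd ℂ) (x : ℂ)) ∨
        (dsum (τ q) (H'.map τ)).PosDef ∨ (-(dsum (τ q) (H'.map τ))).PosDef := by
  obtain ⟨t, D, Q, ht, hD, hQ, hBQ⟩ := split (n := m + 1) (by omega) K
    (SUGroup.toMatrix '' (Γ : Set (SUGroup m))) ⟨1, Γ.one_mem, toMatrix_one⟩
    (by
      rintro _ ⟨γ, hγ, rfl⟩ _ ⟨δ, hδ, rfl⟩
      exact ⟨γ * δ, Γ.mul_mem hγ hδ, toMatrix_mul γ δ⟩)
    (span_top h Γ hΓ) B hf.det
    (by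
      rintro _ ⟨γ, hγ, rfl⟩
      exact hr γ hγ)
  set Qs : Matrix (Fin (m + 1 + 1)) (Fin (m + 1 + 1)) K :=
    Matrix.of fun i j => ⟨(starRingEnd ℂ) (Q j i), hf.cm.2.2.1 _ (Q j i).2⟩ with hQs
  have hQs1 : Qs.map (fun x : K => (x : ℂ)) = (Q.map (fun x : K => (x : ℂ)))ᴴ := by
    ext i j
    rfl
  have hQs2 : ∀ τ : K →+* ℂ, Qs.map τ = (Q.map τ)ᴴ := by
    intro τ
    ext i j
    exact hf.cm.2.2.2 τ (Q j i) _ rfl
  set H₁ := Qs * H * Q with hH₁
  have hH₁c : H₁.map (fun x : K => (x : ℂ)) = dsum (star t * t) (Dᴴ * J m * D) := by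
    rw [hH₁, map_sub_mul, map_sub_mul, hQs1, ← hf.form]
    calc (Q.map (fun x : K => (x : ℂ)))ᴴ * (Bᴴ * J (m + 1) * B) * Q.map (fun x : K => (x : ℂ))
        = (B * Q.map (fun x : K => (x : ℂ)))ᴴ * J (m + 1) * (B * Q.map (fun x : K => (x : ℂ))) := by
          rw [Matrix.conjTranspose_mul]
          simp only [Matrix.mul_assoc]
      _ = dsum (star t * t) (Dᴴ * J m * D) := by
          rw [hBQ, dsum_conjTranspose, J_succ, dsum_mul, dsum_mul, mul_one]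
  have hent : ∀ i j, ((H₁ i j : K) : ℂ) = dsum (star t * t) (Dᴴ * J m * D) i j := by
    intro i j
    exact congrFun (congrFun hH₁c i) j
  set H' : Matrix (Fin (m + 1)) (Fin (m + 1)) K := Matrix.of fun i j => H₁ i.succ j.succ with hH'
  have hdH : H₁ = dsum (H₁ 0 0) H' := by
    ext i j
    refine Fin.cases ?_ (fun i => ?_) i <;> refine Fin.cases ?_ (fun j => ?_) j
    · rfl
    · rw [hent, dsum_zero_succ, dsum_zero_succ]
      rfl
    · rw [hent, dsum_succ_zero, dsum_succ_zero]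
      rfl
    · rfl
  refine ⟨t, D, Q, H₁ 0 0, H', ht, hD, hQ, hBQ, ?_, ?_, ?_⟩
  · rw [hent, dsum_zero_zero]
  · ext i j
    have := hent i.succ j.succ
    rw [dsum_succ_succ] at this
    exact this.symm
  · intro τ
    have h1 : dsum (τ (H₁ 0 0)) (H'.map τ) = (Q.map τ)ᴴ * H.map τ * Q.map τ := by
      rw [← dsum_map _ _ _ (map_zero τ), ← hdH, hH₁, map_hom_mul, map_hom_mul, hQs2]
    have h2 : (Q.map τ).det ≠ 0 := by
      have h3 : (Q.map τ).det = τ Q.det := (RingHom.map_det τ Q).symm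
      rw [h3]
      exact (map_ne_zero τ).2 hQ
    have h3 : Function.Injective (Q.map τ).mulVec :=
      Matrix.mulVec_injective_iff_isUnit.2
        ((Matrix.isUnit_iff_isUnit_det _).2 (isUnit_iff_ne_zero.2 h2))
    rw [h1]
    rcases hf.definite τ with h4 | h4 | h4 | h4
    · exact Or.inl h4
    · exact Or.inr (Or.inl h4)
    · exact Or.inr (Or.inr (Or.inl (h4.conjTranspose_mul_mul_same h3)))
    · refine Or.inr (Or.inr (Or.inr ?_))
      have h5 := h4.conjTranspose_mul_mul_same h3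
      rwa [Matrix.mul_neg, Matrix.neg_mul] at h5

/-- The form restricted to the hyperplane. From `split_form`: `(K, H', D)` is a form; definiteness
of a block of a definite matrix `dsum (τ q) (H'.map τ)` (evaluate on the vectors `Fin.cons 0 v`).
For `γ ∈ Γ`: `EntriesIn K (dsum t D) (dsum 1 γ)` by `EntriesIn.change` (with `σ = 1`), and
`(dsum t D)⁻¹ * dsum 1 γ * dsum t D = dsum 1 (D⁻¹ * γ * D)` (`dsum_inv`, `dsum_mul`). -/
theorem restrict_form {m : ℕ} (h : 1 ≤ m) (Γ : Subgroup (SUGroup m)) (hΓ : IsLattice Γ)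
    (K : Subfield ℂ) (H : Matrix (Fin (m + 1 + 1)) (Fin (m + 1 + 1)) K)
    (B : Matrix (Fin (m + 1 + 1)) (Fin (m + 1 + 1)) ℂ) (hf : IsForm (m + 1) K H B)
    (hr : ∀ γ ∈ Γ, EntriesIn K B (extend m γ).toMatrix) :
    ∃ (H' : Matrix (Fin (m + 1)) (Fin (m + 1)) K) (D : Matrix (Fin (m + 1)) (Fin (m + 1)) ℂ),
      IsForm m K H' D ∧ ∀ γ ∈ Γ, EntriesIn K D γ.toMatrix := by
  obtain ⟨t, D, Q, q, H', ht, hD, hQ, hBQ, hq, hform, hdef⟩ := split_form h Γ hΓ K H B hf hr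
  refine ⟨H', D, ⟨hf.cm, hD, hform, ?_⟩, ?_⟩
  · intro τ
    rcases hdef τ with h4 | h4 | h4 | h4
    · exact Or.inl h4
    · exact Or.inr (Or.inl h4)
    · exact Or.inr (Or.inr (Or.inl (posDef_of_dsum h4)))
    · rw [neg_dsum'] at h4
      exact Or.inr (Or.inr (Or.inr (posDef_of_dsum h4)))
  · intro γ hγ i j
    have h1 : EntriesIn K (dsum t D) (dsum 1 γ.toMatrix) := by
      refine EntriesIn.change (σ := 1) hf.det one_ne_zero hQ ?_ (hr γ hγ)
      rw [hBQ, one_smul]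
    have h2 := h1 i.succ j.succ
    rw [dsum_inv t D ht hD, dsum_mul, dsum_mul, dsum_succ_succ] at h2
    exact h2

end Pool.Agent.Lib.MP_5d4057_al.Hyb
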