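import Pool.Agent.Lib.MP_5d4057_al.Hyb.Approx

namespace Pool.Agent.Lib.MP_5d4057_al.Hyb

open Matrix Pool.Agent.Lib.MP_5d4057_al Filter Topology

private theorem hm_eq_sum {m : ℕ} (a b : Fin (m + 1) → ℂ) :
    hm m a b = ∑ k, star (a k) * ((if k = Fin.last m then -1 else 1) * b k) := by
  simp only [hm, J, dotProduct, mulVec_diagonal, Pi.star_apply]

private noncomputable def nv {m : ℕ} (s : ℂ) (i : Fin (m + 1)) : Fin (m + 1) → ℂ :=
  Pi.single i s + Pi.single (Fin.last m) 1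

private theorem hm_single {m : ℕ} (i j : Fin (m + 1)) (s t : ℂ) :
    hm m (Pi.single i s) (Pi.single j t) =
      if i = j then star s * ((if i = Fin.last m then -1 else 1) * t) else 0 := by
  rw [hm_eq_sum, Finset.sum_eq_single i]
  · by_cases h : i = j
    · subst h
      simp
    · simp [h]
  · intro k _ hk
    simp [Pi.single_apply, hk]
  · intro h
    exact absurd (Finset.mem_univ _) h

private theorem hm_nv {m : ℕ} (i j : Fin (m + 1)) (hi : i ≠ Fin.last m) (hj : j ≠ Fin.last m)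
    (s t : ℂ) : hm m (nv s i) (nv t j) = (if i = j then star s * t else 0) - 1 := by
  rw [nv, nv, hm_add_left, hm_add_right, hm_add_right, hm_single, hm_single, hm_single, hm_single,
    if_neg hi, if_neg hi, if_neg hj.symm, if_pos rfl]
  simp
  ring

private theorem nil_mul_nil {m : ℕ} (a b : Fin (m + 1) → ℂ) :
    nil m a * nil m b = (-(hm m a b)) • rk m b a := by
  rw [nil, nil, smul_mul_smul_comm, rk_mul, smul_smul, Complex.I_mul_I, neg_one_mul]

private theorem trace_nil_nil {m : ℕ} (a b : Fin (m + 1) → ℂ) :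
    (nil m a * nil m b).trace = -(hm m a b * hm m b a) := by
  rw [nil_mul_nil, trace_smul, trace_rk, smul_eq_mul]
  ring

private theorem trace_nil_nil_nil {m : ℕ} (a b c : Fin (m + 1) → ℂ) :
    (nil m a * nil m b * nil m c).trace =
      -Complex.I * (hm m a b * hm m b c * hm m c a) := by
  rw [nil_mul_nil, nil, smul_mul_smul_comm, rk_mul, trace_smul, trace_smul, trace_rk, smul_eq_mul,
    smul_eq_mul]
  ring

/-- The traces of a lattice in `SU(m,1)`, `m ≥ 1`, are unbounded. Suppose `‖tr γ‖ ≤ C` on `Γ`. For a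
null vector `w` take `γ j`, `t j` from `approx_null`. For `γ' ∈ Γ`:
`t j * tr (γ j * γ') → tr (nil w * γ')`, and the left side tends to `0`. So
`tr (nil w * γ') = 0` for all `γ' ∈ Γ`; `{X | tr (nil w * X) = 0}` is a real subspace, so it contains
`nil w'` for each null `w'` (`nil_mem`). But `tr (nil w * nil w') = -⟨w,w'⟩⟨w',w⟩` (`rk_mul`,
`trace_rk`), which is nonzero for `w = e_0 + e_m`, `w' = -e_0 + e_m`. -/
theorem trace_unbounded {m : ℕ} (h : 1 ≤ m) (Γ : Subgroup (SUGroup m)) (hΓ : IsLattice Γ) (C : ℝ) :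
    ∃ γ ∈ Γ, C < ‖γ.toMatrix.trace‖ := by
  by_contra hcon
  push Not at hcon
  have h0 : (0 : Fin (m + 1)) ≠ Fin.last m := by
    intro h1
    have := congrArg Fin.val h1
    simp at this
    omega
  have n1 : hm m (nv 1 0) (nv 1 0) = 0 := by rw [hm_nv _ _ h0 h0]; simp
  have n2 : hm m (nv (-1) 0) (nv (-1) 0) = 0 := by rw [hm_nv _ _ h0 h0]; simp
  obtain ⟨γ, t, hγ, ht, hlim⟩ := approx_null m Γ hΓ _ n1
  have key : ∀ γ' ∈ Γ, (nil m (nv 1 0) * γ'.toMatrix).trace = 0 := by
    intro γ' hγ'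
    have l1 : Tendsto (fun j => (((t j : ℂ) • (γ j).toMatrix) * γ'.toMatrix).trace) atTop
        (𝓝 ((nil m (nv 1 0) * γ'.toMatrix).trace)) := by
      have hc : Continuous fun X : Matrix (Fin (m + 1)) (Fin (m + 1)) ℂ =>
          (X * γ'.toMatrix).trace := by fun_prop
      exact (hc.tendsto _).comp hlim
    have l2 : Tendsto (fun j => (((t j : ℂ) • (γ j).toMatrix) * γ'.toMatrix).trace) atTop
        (𝓝 0) := by
      rw [tendsto_zero_iff_norm_tendsto_zero]
      have l3 : Tendsto (fun j => |t j| * C) atTop (𝓝 0) := by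
        have := (ht.abs).mul_const C
        simpa using this
      refine squeeze_zero (fun _ => norm_nonneg _) (fun j => ?_) l3
      rw [smul_mul, trace_smul, norm_smul, Complex.norm_real, Real.norm_eq_abs]
      exact mul_le_mul_of_nonneg_left (hcon _ (Γ.mul_mem (hγ j) hγ')) (abs_nonneg _)
    exact tendsto_nhds_unique l1 l2
  let S : Submodule ℝ (Matrix (Fin (m + 1)) (Fin (m + 1)) ℂ) :=
    { carrier := {X | (nil m (nv 1 0) * X).trace = 0}
      add_mem' := by
        intro a b ha hb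
        simp only [Set.mem_ofPred_eq] at ha hb ⊢
        rw [Matrix.mul_add, trace_add, ha, hb, add_zero]
      zero_mem' := by simp
      smul_mem' := by
        intro c a ha
        simp only [Set.mem_ofPred_eq] at ha ⊢
        rw [Matrix.mul_smul, trace_smul, ha, smul_zero] }
  have hS : nil m (nv (-1) 0) ∈ S := nil_mem m Γ hΓ _ n2 S key
  have hS' : (nil m (nv 1 0) * nil m (nv (-1) 0)).trace = 0 := hS
  rw [trace_nil_nil, hm_nv _ _ h0 h0, hm_nv _ _ h0 h0] at hS'
  simp at hS'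
  norm_num at hS'

/-- For `m ≥ 2` some trace is not real. Suppose `conj (tr γ) = tr γ` on `Γ`, that is
`(tr γ).im = 0`. Apply `nil_mem` three times, to the real subspaces
`{X | ∀ a b ∈ Γ, (tr (X * a * b)).im = 0}`, `{X | ∀ b ∈ Γ, (tr (nil w₀ * X * b)).im = 0}`,
`{X | (tr (nil w₀ * nil w₁ * X)).im = 0}`: so `(tr (nil w₀ * nil w₁ * nil w₂)).im = 0` for null
vectors `w₀, w₁, w₂`. But `tr (nil w₀ * nil w₁ * nil w₂) = I ^ 3 * ⟨w₀,w₁⟩⟨w₁,w₂⟩⟨w₂,w₀⟩`, and for
`w₀ = e_0 + e_m`, `w₁ = e_1 + e_m`, `w₂ = -e_0 + e_m` the product of the three forms is `-2`. -/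
theorem trace_nonreal {m : ℕ} (h : 2 ≤ m) (Γ : Subgroup (SUGroup m)) (hΓ : IsLattice Γ) :
    ∃ γ ∈ Γ, (starRingEnd ℂ) γ.toMatrix.trace ≠ γ.toMatrix.trace := by
  by_contra hcon
  push Not at hcon
  have hre : ∀ γ ∈ Γ, (γ.toMatrix.trace).im = 0 := fun γ hγ =>
    Complex.conj_eq_iff_im.1 (hcon γ hγ)
  have h0 : (0 : Fin (m + 1)) ≠ Fin.last m := by
    intro h1
    have := congrArg Fin.val h1
    simp at this
    omega
  have h1 : (⟨1, by omega⟩ : Fin (m + 1)) ≠ Fin.last m := by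
    intro h1
    have := congrArg Fin.val h1
    simp at this
    omega
  have h01 : (0 : Fin (m + 1)) ≠ ⟨1, by omega⟩ := by
    intro h1
    have := congrArg Fin.val h1
    simp at this
  have n0 : hm m (nv 1 0) (nv 1 0) = 0 := by rw [hm_nv _ _ h0 h0]; simp
  have n1 : hm m (nv 1 ⟨1, by omega⟩) (nv 1 ⟨1, by omega⟩) = 0 := by
    rw [hm_nv _ _ h1 h1]; simp
  have n2 : hm m (nv (-1) 0) (nv (-1) 0) = 0 := by rw [hm_nv _ _ h0 h0]; simp
  let S (P Q : Matrix (Fin (m + 1)) (Fin (m + 1)) ℂ) :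
      Submodule ℝ (Matrix (Fin (m + 1)) (Fin (m + 1)) ℂ) :=
    { carrier := {X | (P * X * Q).trace.im = 0}
      add_mem' := by
        intro a b ha hb
        simp only [Set.mem_ofPred_eq] at ha hb ⊢
        rw [Matrix.mul_add, Matrix.add_mul, trace_add, Complex.add_im, ha, hb, add_zero]
      zero_mem' := by simp
      smul_mem' := by
        intro c a ha
        simp only [Set.mem_ofPred_eq] at ha ⊢
        rw [Matrix.mul_smul, Matrix.smul_mul, trace_smul, Complex.smul_im, ha, smul_zero] }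
  have s1 : ∀ a ∈ Γ, (nil m (nv 1 0) * a.toMatrix).trace.im = 0 := by
    intro a ha
    have : nil m (nv 1 0) ∈ S 1 a.toMatrix := nil_mem m Γ hΓ _ n0 _ (fun γ hγ => by
      show (1 * γ.toMatrix * a.toMatrix).trace.im = 0
      rw [Matrix.one_mul, ← toMatrix_mul]
      exact hre _ (Γ.mul_mem hγ ha))
    have h2 : (1 * nil m (nv 1 0) * a.toMatrix).trace.im = 0 := this
    rwa [Matrix.one_mul] at h2
  have s2 : ∀ b ∈ Γ, (nil m (nv 1 0) * nil m (nv 1 ⟨1, by omega⟩) * b.toMatrix).trace.im = 0 := by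
    intro b hb
    exact nil_mem m Γ hΓ _ n1 (S (nil m (nv 1 0)) b.toMatrix) (fun γ hγ => by
      show (nil m (nv 1 0) * γ.toMatrix * b.toMatrix).trace.im = 0
      rw [Matrix.mul_assoc, ← toMatrix_mul]
      exact s1 _ (Γ.mul_mem hγ hb))
  have s3 : (nil m (nv 1 0) * nil m (nv 1 ⟨1, by omega⟩) * nil m (nv (-1) 0)).trace.im = 0 := by
    have : nil m (nv (-1) 0) ∈ S (nil m (nv 1 0) * nil m (nv 1 ⟨1, by omega⟩)) 1 :=
      nil_mem m Γ hΓ _ n2 _ (fun γ hγ => by
      show (nil m (nv 1 0) * nil m (nv 1 ⟨1, by omega⟩) * γ.toMatrix * 1).trace.im = 0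
      rw [Matrix.mul_one]
      exact s2 _ hγ)
    have h2 : (nil m (nv 1 0) * nil m (nv 1 ⟨1, by omega⟩) * nil m (nv (-1) 0) * 1).trace.im = 0 :=
      this
    rwa [Matrix.mul_one] at h2
  rw [trace_nil_nil_nil, hm_nv _ _ h0 h1, hm_nv _ _ h1 h0, hm_nv _ _ h0 h0, if_neg h01,
    if_neg h01.symm, if_pos rfl] at s3
  simp at s3

end Pool.Agent.Lib.MP_5d4057_al.Hyb
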